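import Pool.Agent.Helper367_SM.Spec

set_option autoImplicit false

namespace Pool.Agent.Helper367SM

open FirstOrder

/-- Whether a symbol is one of the visible relations `E`, `R` is primitive recursive. -/
theorem primrecPred_visible :
    PrimrecPred fun e : Edge => ((∃ n i, e.1 = Sym.E n i) ∨ ∃ n, e.1 = Sym.R n) := by
  classical
  have h1 : Primrec (fun s : Sym => Sym.equiv s) := Primrec.of_equiv
  have h2 : Primrec fun s : Sym =>
      (Sum.casesOn (Sym.equiv s) (fun _ => true)
        (fun y => Sum.casesOn y (fun _ => true) (fun _ => false)) : Bool) := by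
    refine Primrec.sumCasesOn h1 (Primrec.const true).to₂ ?_
    exact (Primrec.sumCasesOn Primrec.snd (Primrec.const true).to₂ (Primrec.const false).to₂).to₂
  have h3 : PrimrecPred fun e : Edge =>
      (Sum.casesOn (Sym.equiv e.1) (fun _ => true)
        (fun y => Sum.casesOn y (fun _ => true) (fun _ => false)) : Bool) = true :=
    Primrec.eq.comp (h2.comp Primrec.fst) (Primrec.const true)
  refine h3.of_eq ?_
  rintro ⟨s, l⟩
  cases s <;> simp [Sym.equiv]

/-- The final statement follows from the parts. -/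
theorem final_of_parts (hLim : S_Lim) (hGuess : S_Guess) (hConstr : S_Constr) (hCompM : S_CompM)
    (hUnif : S_Unif) (hTr : S_Transfer) (hPrime : S_Prime) (hCompModel : S_CompModel)
    (hCod : S_CodingModel) (hPi4 : S_Pi4) (hDec : S_Decode) : Final := by
  obtain ⟨Θ, hΘ, hnot⟩ := hPi4
  obtain ⟨path, Lam, lim, hpath, hLam, hGS, hLab⟩ := hGuess Θ hΘ
  obtain ⟨c, New, news, hc, hnews, hmem, hC, hS⟩ := hConstr Lam path hpath hLam hGS
  have hL := hLim Lam path c New hGS hC hS
  have hcm : ComputablePred fun e : Edge => ∃ t, e ∈ news t := by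
    refine hCompM c news hc hnews (monotone_nat_of_le_succ hC.mono) hL.unb ?_
    intro t e he
    exact hC.meets t e ((hmem t e).2 he)
  set M := LimM path New with hM
  have hcm2 : ComputablePred fun e : Edge =>
      e ∈ M ∧ ((∃ n i, e.1 = Sym.E n i) ∨ ∃ n, e.1 = Sym.R n) := by
    have hk : ComputablePred fun e : Edge =>
        ((∃ n i, e.1 = Sym.E n i) ∨ ∃ n, e.1 = Sym.R n) := by
      obtain ⟨d, hd⟩ := primrecPred_visible
      exact ⟨d, hd.to_comp⟩
    refine (Helper446.CB.cp_and hcm hk).of_eq ?_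
    rintro ⟨s, l⟩
    constructor
    · rintro ⟨⟨t, ht⟩, hs⟩
      refine ⟨⟨t, (hmem t _).2 ht, ?_⟩, hs⟩
      rcases hs with ⟨n, i, h⟩ | ⟨n, h⟩
      · simp only at h
        subst h
        trivial
      · simp only at h
        subst h
        trivial
    · rintro ⟨⟨t, ht, -⟩, hs⟩
      exact ⟨⟨t, (hmem t _).1 ht⟩, hs⟩
  have : Infinite (Car M) := inferInstanceAs (Infinite ℕ)
  have : Nonempty (Car M) := inferInstanceAs (Nonempty ℕ)
  obtain ⟨N, iN, cN, zN, hcount, hmod, hcoding⟩ := hCod Lam (TP path) M c _ lim hL hLab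
  refine ⟨sig0, sig0.lang.completeTheory (Car M), ?_, ⟨Car M, inferInstance, hPrime M,
    hCompModel M hcm2⟩, ⟨N, iN, hcount, ⟨cN⟩, hmod, ?_⟩⟩
  · exact hTr sig0.lang (Car M) (fun n φ => hUnif Lam (TP path) M c _ lim hL hLab n φ)
  · intro hcopy
    exact hnot (hDec N _ cN zN hcoding hcopy)

end Pool.Agent.Helper367SM
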