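import Pool.Agent.Helper367_SM.Defs

set_option autoImplicit false

/-!
Tools on visible symbolic edges: the injection into actual edges, `RStrong`, `Tight`, `AllOver`.
-/

namespace Pool.Agent.Helper367SM

open Finset

/-- Visible symbolic edges come from different actual edges. -/
theorem exists_act (Lam : ℕ → ℕ → ℕ) (t ν : ℕ) (M : Set Edge) :
    ∃ act : SEdge → Edge, (∀ q ∈ NV Lam t ν M, act q ∈ M ∧ (act q).2 = q.2) ∧
      Set.InjOn act (NV Lam t ν M) := by
  classical
  have key : ∀ q : SEdge, ∃ e : Edge, q ∈ NV Lam t ν M → (e ∈ M ∧ e.2 = q.2 ∧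
      match q.1 with
      | SSym.E n i => e.1 = Sym.E n i
      | SSym.K n => ∃ v, (Sym.P v, q.2.take 2) ∈ M ∧ e.1 = Sym.E n (Lam v n)
      | SSym.R n => e.1 = Sym.R n
      | SSym.S n => e.1 = Sym.S n
      | SSym.P => ∃ v, e.1 = Sym.P v) := by
    rintro ⟨s, l⟩
    by_cases hq : ((s, l) : SEdge) ∈ NV Lam t ν M
    · cases s with
      | E n i => exact ⟨(Sym.E n i, l), fun _ => ⟨hq.2.2.1, rfl, rfl⟩⟩
      | K n =>
        obtain ⟨_, v, hv, he⟩ := hq
        exact ⟨(Sym.E n (Lam v n), l), fun _ => ⟨he, rfl, v, hv, rfl⟩⟩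
      | R n => exact ⟨(Sym.R n, l), fun _ => ⟨hq.2, rfl, rfl⟩⟩
      | S n => exact ⟨(Sym.S n, l), fun _ => ⟨hq.2, rfl, rfl⟩⟩
      | P =>
        obtain ⟨v, hv⟩ := hq
        exact ⟨(Sym.P v, l), fun _ => ⟨hv, rfl, v, rfl⟩⟩
    · exact ⟨(Sym.P 0, []), fun h => absurd h hq⟩
  choose act hact using key
  refine ⟨act, fun q hq => ⟨(hact q hq).1, (hact q hq).2.1⟩, ?_⟩
  rintro ⟨s, l⟩ hq ⟨s', l'⟩ hq' heq
  obtain ⟨-, h2, h3⟩ := hact _ hq
  obtain ⟨-, h2', h3'⟩ := hact _ hq'
  rw [heq] at h2 h3
  have hl : l = l' := h2.symm.trans h2'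
  subst hl
  have hs : s = s' := by
    cases s <;> cases s' <;> simp only at h3 h3'
    case E.E n i n' i' => rw [h3] at h3'; cases h3'; rfl
    case E.K n i n' =>
      obtain ⟨v, hv, h⟩ := h3'
      rw [h3] at h
      cases h
      exact absurd rfl (hq.2.2.2 v hv)
    case E.R n i n' => rw [h3] at h3'; cases h3'
    case E.S n i n' => rw [h3] at h3'; cases h3'
    case E.P n i => obtain ⟨v, h⟩ := h3'; rw [h3] at h; cases h
    case K.E n n' i' =>
      obtain ⟨v, hv, h⟩ := h3
      rw [h3'] at h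
      cases h
      exact absurd rfl (hq'.2.2.2 v hv)
    case K.K n n' =>
      obtain ⟨v, hv, h⟩ := h3
      obtain ⟨v', hv', h'⟩ := h3'
      rw [h] at h'
      injection h' with h1 h2
      rw [h1]
    case K.R n n' => obtain ⟨v, hv, h⟩ := h3; rw [h] at h3'; cases h3'
    case K.S n n' => obtain ⟨v, hv, h⟩ := h3; rw [h] at h3'; cases h3'
    case K.P n => obtain ⟨v, hv, h⟩ := h3; obtain ⟨v', h'⟩ := h3'; rw [h] at h'; cases h'
    case R.E n n' i' => rw [h3] at h3'; cases h3'
    case R.K n n' => obtain ⟨v, hv, h⟩ := h3'; rw [h3] at h; cases h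
    case R.R n n' => rw [h3] at h3'; cases h3'; rfl
    case R.S n n' => rw [h3] at h3'; cases h3'
    case R.P n => obtain ⟨v, h⟩ := h3'; rw [h3] at h; cases h
    case S.E n n' i' => rw [h3] at h3'; cases h3'
    case S.K n n' => obtain ⟨v, hv, h⟩ := h3'; rw [h3] at h; cases h
    case S.R n n' => rw [h3] at h3'; cases h3'
    case S.S n n' => rw [h3] at h3'; cases h3'; rfl
    case S.P n => obtain ⟨v, h⟩ := h3'; rw [h3] at h; cases h
    case P.E n i => obtain ⟨v, h⟩ := h3; rw [h3'] at h; cases h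
    case P.K n => obtain ⟨v, h⟩ := h3; obtain ⟨v', hv', h'⟩ := h3'; rw [h] at h'; cases h'
    case P.R n => obtain ⟨v, h⟩ := h3; rw [h3'] at h; cases h
    case P.S n => obtain ⟨v, h⟩ := h3; rw [h3'] at h; cases h
    case P.P => rfl
  rw [hs]

/-- A set all of whose finite subsets have at most `k` elements is finite. -/
theorem finite_of_bound {β : Type*} (S : Set β) (k : ℕ)
    (h : ∀ G : Finset β, (∀ q ∈ G, q ∈ S) → G.card ≤ k) : S.Finite := by
  by_contra hinf
  obtain ⟨G, hG, hc⟩ := (Set.not_finite.1 hinf : S.Infinite).exists_subset_card_eq (k + 1)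
  have := h G (fun q hq => hG hq)
  omega

theorem RStrong.mono {N : Set SEdge} {A : Finset ℕ} {r r' : ℕ} (h : RStrong N A r) (hr : r' ≤ r) :
    RStrong N A r' := fun Z hd hc G hG => h Z hd (hc.trans hr) G hG

theorem RStrong.exists_allOver {N : Set SEdge} {A : Finset ℕ} {r : ℕ} (h : RStrong N A r)
    {Z : Finset ℕ} (hd : Disjoint A Z) (hc : Z.card ≤ r) :
    ∃ G, AllOver N A Z G ∧ G.card ≤ Z.card := by
  classical
  have hf : {q | q ∈ N ∧ Over A Z q}.Finite :=
    finite_of_bound _ Z.card (fun G hG => h Z hd hc G hG)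
  refine ⟨hf.toFinset, fun q => by simp, h Z hd hc _ (fun q hq => by simpa using hq)⟩

theorem AllOver.unique {N : Set SEdge} {A Z : Finset ℕ} {G G' : Finset SEdge}
    (h : AllOver N A Z G) (h' : AllOver N A Z G') : G = G' := by
  ext q
  rw [h q, h' q]

/-- Under strongness, having at least `|Z|` visible edges over `(A, Z)` means being tight. -/
theorem RStrong.tight {N : Set SEdge} {A : Finset ℕ} {r : ℕ} (h : RStrong N A r)
    {Z : Finset ℕ} (hd : Disjoint A Z) (hc : Z.card ≤ r) {G : Finset SEdge}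
    (hG : ∀ q ∈ G, q ∈ N ∧ Over A Z q) (hGc : Z.card ≤ G.card) : Tight N A Z := by
  obtain ⟨G', hG', hc'⟩ := h.exists_allOver hd hc
  refine ⟨hd, G', hG', le_antisymm hc' (hGc.trans (card_le_card fun q hq => (hG' q).2 (hG q hq)))⟩

/-- Adding a tight set to a strong set. -/
theorem RStrong.union_tight {N : Set SEdge} {A Z : Finset ℕ} {r : ℕ}
    (h : RStrong N A (r + Z.card)) (hT : Tight N A Z) : RStrong N (A ∪ Z) r := by
  classical
  obtain ⟨hd, GZ, hGZ, hcZ⟩ := hT
  intro W hW hWc G hG
  have hdAW : Disjoint A W := disjoint_of_subset_left subset_union_left hW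
  have hdZW : Disjoint Z W := disjoint_of_subset_left subset_union_right hW
  have hdisj : Disjoint G GZ := by
    rw [Finset.disjoint_left]
    intro q hq hq'
    obtain ⟨x, hx, hxW⟩ := (hG q hq).2.2
    have := ((hGZ q).1 hq').2.1 x hx
    exact Finset.disjoint_left.1 hW this hxW
  have h1 := h (Z ∪ W) (disjoint_union_right.2 ⟨hd, hdAW⟩)
    (by rw [card_union_of_disjoint hdZW]; omega) (G ∪ GZ) (by
      intro q hq
      rcases mem_union.1 hq with hq | hq
      · refine ⟨(hG q hq).1, fun x hx => ?_, ?_⟩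
        · have := (hG q hq).2.1 x hx
          simp only [mem_union] at this ⊢
          tauto
        · obtain ⟨x, hx, hxW⟩ := (hG q hq).2.2
          exact ⟨x, hx, mem_union_right _ hxW⟩
      · obtain ⟨hN, hin, x, hx, hxZ⟩ := (hGZ q).1 hq
        refine ⟨hN, fun y hy => ?_, x, hx, mem_union_left _ hxZ⟩
        have := hin y hy
        simp only [mem_union] at this ⊢
        tauto)
  rw [card_union_of_disjoint hdisj, card_union_of_disjoint hdZW] at h1
  omega

/-- A nonempty tight set contains a minimal block, and the rest is tight over it. -/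
theorem Tight.exists_minBlock {N : Set SEdge} {A Z : Finset ℕ} {r : ℕ}
    (hT : Tight N A Z) (hr : Z.card ≤ r) (h : RStrong N A r) (hne : Z.Nonempty) :
    ∃ B ⊆ Z, MinBlock N A B ∧ Tight N A B ∧ Tight N (A ∪ B) (Z \ B) := by
  classical
  -- choose a tight nonempty subset of minimal cardinality
  let F : Finset (Finset ℕ) := Z.powerset.filter (fun B => B.Nonempty ∧ Tight N A B)
  have hF : F.Nonempty := ⟨Z, by simp [F, hne, hT]⟩
  obtain ⟨B, hBF, hmin⟩ := F.exists_min_image card hF
  obtain ⟨hBZ, hBne, hBT⟩ : B ⊆ Z ∧ B.Nonempty ∧ Tight N A B := by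
    simpa [F, mem_filter, mem_powerset, and_assoc] using hBF
  obtain ⟨hdB, GB, hGB, hcB⟩ := id hBT
  obtain ⟨hdZ, GZ, hGZ, hcZ⟩ := id hT
  refine ⟨B, hBZ, ⟨hdB, hBne, GB, hGB, hcB, ?_⟩, hBT, ?_, ?_⟩
  · intro Y hY hYne
    have hYZ : Y ⊆ Z := hY.subset.trans hBZ
    have hdY : Disjoint A Y := disjoint_of_subset_right hY.subset hdB
    have hall : AllOver N A Y (GB.filter (fun q => ∀ x ∈ q.2, x ∈ A ∪ Y)) := by
      intro q
      rw [mem_filter, hGB q]
      constructor
      · rintro ⟨⟨hN, -, x, hx, hxB⟩, hin⟩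
        refine ⟨hN, hin, x, hx, ?_⟩
        rcases mem_union.1 (hin x hx) with hA | hY'
        · exact absurd hxB (Finset.disjoint_left.1 hdB hA)
        · exact hY'
      · rintro ⟨hN, hin, x, hx, hxY⟩
        refine ⟨⟨hN, fun y hy => ?_, x, hx, hY.subset hxY⟩, hin⟩
        rcases mem_union.1 (hin y hy) with hA | hY'
        · exact mem_union_left _ hA
        · exact mem_union_right _ (hY.subset hY')
    have hle : (GB.filter (fun q => ∀ x ∈ q.2, x ∈ A ∪ Y)).card ≤ Y.card :=
      h Y hdY ((card_le_card hYZ).trans hr) _ (fun q hq => (hall q).1 hq)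
    refine lt_of_le_of_ne hle (fun heq => ?_)
    have hYF : Y ∈ F := by
      simp only [F, mem_filter, mem_powerset]
      exact ⟨hYZ, hYne, hdY, _, hall, heq⟩
    have := hmin Y hYF
    have := card_lt_card hY
    omega
  · rw [Finset.disjoint_left]
    intro x hx hx'
    rw [mem_sdiff] at hx'
    rcases mem_union.1 hx with hA | hB
    · exact Finset.disjoint_left.1 hdZ hA hx'.1
    · exact hx'.2 hB
  · refine ⟨GZ.filter (fun q => ∃ x ∈ q.2, x ∈ Z \ B), fun q => ?_, ?_⟩
    · rw [mem_filter, hGZ q]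
      constructor
      · rintro ⟨⟨hN, hin, -⟩, hm⟩
        refine ⟨hN, fun x hx => ?_, hm⟩
        have := hin x hx
        simp only [mem_union, mem_sdiff] at this ⊢
        tauto
      · rintro ⟨hN, hin, x, hx, hxZ⟩
        refine ⟨⟨hN, fun y hy => ?_, x, hx, (mem_sdiff.1 hxZ).1⟩, x, hx, hxZ⟩
        have := hin y hy
        simp only [mem_union, mem_sdiff] at this ⊢
        rcases this with (h | h) | h
        · exact Or.inl h
        · exact Or.inr (hBZ h)
        · exact Or.inr h.1
    · have hsplit : GZ = GB ∪ GZ.filter (fun q => ∃ x ∈ q.2, x ∈ Z \ B) := by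
        ext q
        rw [mem_union, mem_filter, hGZ q, hGB q]
        constructor
        · rintro ⟨hN, hin, x, hx, hxZ⟩
          by_cases hm : ∃ y ∈ q.2, y ∈ Z \ B
          · exact Or.inr ⟨⟨hN, hin, x, hx, hxZ⟩, hm⟩
          · left
            push Not at hm
            have hB : ∀ y ∈ q.2, y ∈ Z → y ∈ B := by
              intro y hy hyZ
              by_contra hyB
              exact hm y hy (mem_sdiff.2 ⟨hyZ, hyB⟩)
            refine ⟨hN, fun y hy => ?_, x, hx, hB x hx hxZ⟩
            rcases mem_union.1 (hin y hy) with hA | hZ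
            · exact mem_union_left _ hA
            · exact mem_union_right _ (hB y hy hZ)
        · rintro (⟨hN, hin, x, hx, hxB⟩ | h)
          · refine ⟨hN, fun y hy => ?_, x, hx, hBZ hxB⟩
            rcases mem_union.1 (hin y hy) with hA | hB
            · exact mem_union_left _ hA
            · exact mem_union_right _ (hBZ hB)
          · exact h.1
      have hdj : Disjoint GB (GZ.filter (fun q => ∃ x ∈ q.2, x ∈ Z \ B)) := by
        rw [Finset.disjoint_left]
        intro q hq hq'
        obtain ⟨x, hx, hxZ⟩ := (mem_filter.1 hq').2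
        have := ((hGB q).1 hq).2.1 x hx
        rcases mem_union.1 this with hA | hB
        · exact Finset.disjoint_left.1 hdZ hA (mem_sdiff.1 hxZ).1
        · exact (mem_sdiff.1 hxZ).2 hB
      have hc := congrArg card hsplit
      rw [card_union_of_disjoint hdj] at hc
      have hc2 : (Z \ B).card = Z.card - B.card := card_sdiff_of_subset hBZ
      omega

end Pool.Agent.Helper367SM
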