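import Pool.Agent.Helper367_SM.Spec
import Pool.Agent.Helper367_SM.NVTools

set_option autoImplicit false

/-!
Extension to tight sets and the back and forth property.
-/

namespace Pool.Agent.Helper367SM

open Finset

/-- Extension to tight sets. -/
theorem Ext3_proof (h1 : S_Ext1) (h2 : S_Ext2) : S_Ext3 := by
  classical
  intro Lam TPs M c Pst lim t ν x hL hLab hPar Z
  induction hn : Z.card using Nat.strong_induction_on generalizing Z with
  | _ n ih =>
  subst hn
  intro A A' g h r hV hZt hT hA hA'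
  rcases Z.eq_empty_or_nonempty with rfl | hne
  · refine ⟨∅, g, h, fun _ _ => rfl, ?_, ?_, ?_⟩
    · simpa using hV
    · simpa using hA.mono (r' := r) (by simp)
    · simpa using hA'.mono (r' := r) (by simp)
  -- a minimal block
  obtain ⟨B, hBZ, hmin, hTB, hTrest⟩ :=
    hT.exists_minBlock (r := r + Z.card + (Z.card + 1) ^ 2) (by omega) hA hne
  have hBc : 1 ≤ B.card := hmin.2.1.card_pos
  have hBZc : B.card ≤ Z.card := card_le_card hBZ
  have hstep : ∃ (B' : Finset ℕ) (g' h' : ℕ → ℕ), (∀ a ∈ A, g' a = g a) ∧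
      VIso Lam M t ν x (A ∪ B) (A' ∪ B') g' h' ∧ B'.card = B.card ∧
      Tight (NV Lam t ν M) A' B' := by
    rcases Nat.lt_or_ge 1 B.card with h2B | h1B
    · refine h2 Lam TPs M c Pst lim t ν x hL hLab hPar A A' g h hV B h2B (by omega) hmin
        (hA'.mono ?_)
      have : (B.card + 1) ^ 2 ≤ (Z.card + 1) ^ 2 := Nat.pow_le_pow_left (by omega) 2
      omega
    · obtain ⟨y, rfl⟩ := card_eq_one.1 (le_antisymm h1B hBc)
      obtain ⟨y', g', h', hy', hg', hgy, hV', hT'⟩ :=
        h1 Lam TPs M c Pst lim t ν x hL hLab hPar A A' g h hV (hA'.mono (by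
          have : 1 ≤ (Z.card + 1) ^ 2 := Nat.one_le_pow _ _ (by omega)
          omega)) y hTB
      exact ⟨{y'}, g', h', hg', hV', by simp, hT'⟩
  obtain ⟨B', g₁, h₁, hg₁, hV₁, hBc', hT₁⟩ := hstep
  have hsd : (Z \ B).card = Z.card - B.card := card_sdiff_of_subset hBZ
  have hpow : ((Z \ B).card + 1) ^ 2 ≤ (Z.card + 1) ^ 2 := Nat.pow_le_pow_left (by omega) 2
  have hA₁ : RStrong (NV Lam t ν M) (A ∪ B) (r + (Z \ B).card + ((Z \ B).card + 1) ^ 2) := by
    refine (RStrong.union_tight (r := r + (Z \ B).card + (Z.card + 1) ^ 2) (hA.mono ?_) hTB).mono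
      (by omega)
    omega
  have hA₁' : RStrong (NV Lam t ν M) (A' ∪ B') (r + (Z \ B).card + ((Z \ B).card + 1) ^ 2) := by
    refine (RStrong.union_tight (r := r + (Z \ B).card + (Z.card + 1) ^ 2) (hA'.mono ?_) hT₁).mono
      (by omega)
    omega
  obtain ⟨Z'', g₂, h₂, hg₂, hV₂, hS₂, hS₂'⟩ := ih (Z \ B).card (by omega) (Z \ B) rfl (A ∪ B)
    (A' ∪ B') g₁ h₁ r hV₁ (by omega) hTrest hA₁ hA₁'
  have he : A ∪ B ∪ Z \ B = A ∪ Z := by
    rw [union_assoc, union_sdiff_of_subset hBZ]
  rw [he] at hV₂ hS₂
  rw [union_assoc] at hV₂ hS₂'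
  refine ⟨B' ∪ Z'', g₂, h₂, fun a ha => ?_, hV₂, hS₂, hS₂'⟩
  rw [hg₂ a (mem_union_left _ ha), hg₁ a ha]

/-- Back and forth. -/
theorem BF_proof (h3 : S_Ext3) (hFree : S_Free) : S_BF := by
  classical
  intro Lam TPs M c Pst lim t ν x hL hLab hPar A A' g h r hV hrt hA hA' y
  by_cases hyA : y ∈ A
  · exact ⟨A, A', g, h, Subset.rfl, hyA, fun _ _ => rfl, hV, hA.mono (by nlinarith),
      hA'.mono (by nlinarith)⟩
  by_cases hgen : ∀ Z : Finset ℕ, y ∈ Z → Z.card ≤ r + 1 → Disjoint A Z → ∀ G : Finset SEdge,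
    (∀ q ∈ G, q ∈ NV Lam t ν M ∧ Over A Z q) → G.card < Z.card
  swap
  · push Not at hgen
    obtain ⟨Z, hyZ, hZc, hd, G, hG, hGc⟩ := hgen
    have hT : Tight (NV Lam t ν M) A Z := hA.tight hd (by nlinarith) hG hGc
    obtain ⟨Z', g', h', hg', hV', hS, hS'⟩ := h3 Lam TPs M c Pst lim t ν x hL hLab hPar Z A A' g h r
      hV (by omega) hT (hA.mono (by nlinarith)) (hA'.mono (by nlinarith))
    exact ⟨A ∪ Z, A' ∪ Z', g', h', subset_union_left, mem_union_right _ hyZ, hg', hV', hS, hS'⟩
  -- the generic case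
  have hyno : ∀ q ∈ NV Lam t ν M, (∀ z ∈ q.2, z ∈ A ∪ {y}) → y ∉ q.2 := by
    intro q hq hin hyq
    have := hgen {y} (mem_singleton_self y) (by simp) (by simpa using hyA) {q} (by
      intro q' hq'
      rw [mem_singleton] at hq'
      subst hq'
      exact ⟨hq, hin, y, hyq, mem_singleton_self y⟩)
    simp at this
  have hAy : RStrong (NV Lam t ν M) (A ∪ {y}) r := by
    intro W hW hWc G hG
    have hyW : y ∉ W := fun hy => Finset.disjoint_left.1 hW (by simp) hy
    have hdAW : Disjoint A W := disjoint_of_subset_left subset_union_left hW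
    have := hgen (insert y W) (mem_insert_self _ _) (by rw [card_insert_of_notMem hyW]; omega)
      (by rw [disjoint_insert_right]; exact ⟨hyA, hdAW⟩) G (by
        intro q hq
        refine ⟨(hG q hq).1, fun z hz => ?_, ?_⟩
        · have := (hG q hq).2.1 z hz
          simp only [mem_union, mem_singleton, mem_insert] at this ⊢
          tauto
        · obtain ⟨z, hz, hzW⟩ := (hG q hq).2.2
          exact ⟨z, hz, mem_insert_of_mem hzW⟩)
    rw [card_insert_of_notMem hyW] at this
    omega
  -- a new free vertex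
  obtain ⟨act, hact, hinj⟩ := exists_act Lam t ν M
  obtain ⟨s0, hs0⟩ : ∃ s0, ∀ a ∈ A', a < c s0 := by
    obtain ⟨s0, hs0⟩ := hL.unb (A'.sup id + 1)
    exact ⟨s0, fun a ha => lt_of_lt_of_le (Nat.lt_succ_of_le (le_sup (f := id) ha)) hs0⟩
  obtain ⟨v, hvT, hsv, hc1, hr1⟩ := hFree Lam TPs M c hL s0
  have hA'v : ∀ a ∈ A', a < c v := fun a ha => (hs0 a ha).trans_le (hL.mono hsv)
  set y' := c v with hy'
  have hy'A : y' ∉ A' := fun hy => absurd (hA'v y' hy) (lt_irrefl _)
  -- no actual edge inside `[0, c (v+1))` contains `y'`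
  have hnoedge : ∀ e ∈ M, (∀ z ∈ e.2, z < c (v + 1)) → y' ∉ e.2 := by
    intro e he hin hy
    have : e ∈ restr M (c (v + 1)) := ⟨he, hin⟩
    rw [hr1] at this
    exact absurd (this.2 y' hy) (lt_irrefl _)
  have hnoNV : ∀ q ∈ NV Lam t ν M, (∀ z ∈ q.2, z < c (v + 1)) → y' ∉ q.2 := by
    intro q hq hin
    have := hact q hq
    have h := hnoedge (act q) this.1 (by rw [this.2]; exact hin)
    rwa [this.2] at h
  have hA'y : RStrong (NV Lam t ν M) (A' ∪ {y'}) r := by
    intro W hW hWc G hG
    have hdAW : Disjoint A' W := disjoint_of_subset_left subset_union_left hW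
    have hy'W : y' ∉ W := fun hy => Finset.disjoint_left.1 hW (by simp) hy
    set W1 := W.filter (fun w => w < c (v + 1)) with hW1
    set W2 := W.filter (fun w => ¬ w < c (v + 1)) with hW2
    set G1 := G.filter (fun q => ∀ z ∈ q.2, z < c (v + 1)) with hG1
    set G2 := G.filter (fun q => ¬ ∀ z ∈ q.2, z < c (v + 1)) with hG2
    have hcW : W1.card + W2.card = W.card := card_filter_add_card_filter_not _
    have hcG : G1.card + G2.card = G.card := card_filter_add_card_filter_not _
    have hb1 : G1.card ≤ W1.card := by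
      refine hA' W1 (disjoint_of_subset_right (filter_subset _ _) hdAW)
        ((card_le_card (filter_subset _ _)).trans (by nlinarith)) G1 ?_
      intro q hq
      obtain ⟨hqG, hqin⟩ := mem_filter.1 hq
      obtain ⟨hN, hin, z, hz, hzW⟩ := hG q hqG
      have hy'q := hnoNV q hN hqin
      refine ⟨hN, fun w hw => ?_, z, hz, ?_⟩
      · have := hin w hw
        simp only [mem_union, mem_singleton] at this
        rcases this with (h | h) | h
        · exact mem_union_left _ h
        · exact absurd (h ▸ hw) hy'q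
        · exact mem_union_right _ (mem_filter.2 ⟨h, hqin w hw⟩)
      · exact mem_filter.2 ⟨hzW, hqin z hz⟩
    have hb2 : G2.card ≤ W2.card := by
      rw [← card_image_of_injOn (s := G2) (f := act) (fun a ha b hb hab =>
        hinj (hG a (mem_filter.1 ha).1).1 (hG b (mem_filter.1 hb).1).1 hab)]
      refine hL.strong (v + 1) W2 _ (fun z hz => not_lt.1 (mem_filter.1 hz).2) ?_
      intro e he
      obtain ⟨q, hq, rfl⟩ := mem_image.1 he
      obtain ⟨hqG, hqout⟩ := mem_filter.1 hq
      obtain ⟨hN, hin, -⟩ := hG q hqG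
      obtain ⟨ha1, ha2⟩ := hact q hN
      rw [ha2]
      refine ⟨ha1, fun w hw => ?_, ?_⟩
      · by_cases hwc : w < c (v + 1)
        · exact Or.inl hwc
        · right
          have := hin w hw
          simp only [mem_union, mem_singleton] at this
          rcases this with (h | h) | h
          · exact absurd ((hA'v w h).trans_le (by omega)) hwc
          · exact absurd (show w < c (v + 1) by omega) hwc
          · exact mem_filter.2 ⟨h, hwc⟩
      · push Not at hqout
        exact hqout
    omega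
  refine ⟨A ∪ {y}, A' ∪ {y'}, Function.update g y y', Function.update h y' y, subset_union_left,
    by simp, fun a ha => ?_, ?_, hAy, hA'y⟩
  · exact Function.update_of_ne (by rintro rfl; exact hyA ha) _ _
  have hgne : ∀ a ∈ A, Function.update g y y' a = g a := fun a ha =>
    Function.update_of_ne (by rintro rfl; exact hyA ha) _ _
  have hhne : ∀ a ∈ A', Function.update h y' y a = h a := fun a ha =>
    Function.update_of_ne (by rintro rfl; exact hy'A ha) _ _
  have hgy : Function.update g y y' y = y' := Function.update_self _ _ _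
  have hhy : Function.update h y' y y' = y := Function.update_self _ _ _
  have hmapA : ∀ l : List ℕ, (∀ z ∈ l, z ∈ A) → l.map (Function.update g y y') = l.map g :=
    fun l hl => List.map_congr_left (fun z hz => hgne z (hl z hz))
  refine ⟨?_, ?_, ?_, ?_, ?_, ?_, ?_, ?_, ?_⟩
  · intro a ha
    rcases mem_union.1 ha with ha | ha
    · rw [hgne a ha]
      exact mem_union_left _ (hV.gA a ha)
    · rw [mem_singleton] at ha
      rw [ha, hgy]
      simp
  · intro a ha
    rcases mem_union.1 ha with ha | ha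
    · rw [hhne a ha]
      exact mem_union_left _ (hV.hA a ha)
    · rw [mem_singleton] at ha
      rw [ha, hhy]
      simp
  · intro a ha
    rcases mem_union.1 ha with ha | ha
    · rw [hgne a ha, hhne _ (hV.gA a ha), hV.hg a ha]
    · rw [mem_singleton] at ha
      rw [ha, hgy, hhy]
  · intro a ha
    rcases mem_union.1 ha with ha | ha
    · rw [hhne a ha, hgne _ (hV.hA a ha), hV.gh a ha]
    · rw [mem_singleton] at ha
      rw [ha, hhy, hgy]
  · exact fun i hi => mem_union_left _ (hV.xA i hi)
  · exact fun i hi => mem_union_left _ (hV.xA' i hi)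
  · exact fun i hi => by rw [hgne i (hV.xA i hi), hV.fix i hi]
  · intro q hq
    by_cases hyq : y ∈ q.2
    · constructor
      · intro hN
        exact absurd hyq (hyno q hN hq)
      · intro hN
        exfalso
        refine hnoNV _ hN ?_ ?_
        · intro z hz
          obtain ⟨w, hw, rfl⟩ := List.mem_map.1 hz
          rcases mem_union.1 (hq w hw) with hwA | hwy
          · rw [hgne w hwA]
            exact (hA'v _ (hV.gA w hwA)).trans_le (by omega)
          · rw [mem_singleton] at hwy
            rw [hwy, hgy]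
            omega
        · exact List.mem_map.2 ⟨y, hyq, hgy⟩
    · have hqA : ∀ z ∈ q.2, z ∈ A := by
        intro z hz
        rcases mem_union.1 (hq z hz) with hzA | hzy
        · exact hzA
        · rw [mem_singleton] at hzy
          exact absurd (hzy ▸ hz) hyq
      rw [hmapA q.2 hqA]
      exact hV.nv q hqA
  · intro v1 v2 l hl h1 h2
    by_cases hyl : y ∈ l
    · exact absurd hyl (hyno (SSym.P, l) ⟨v1, h1⟩ hl)
    · have hlA : ∀ z ∈ l, z ∈ A := by
        intro z hz
        rcases mem_union.1 (hl z hz) with hzA | hzy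
        · exact hzA
        · rw [mem_singleton] at hzy
          exact absurd (hzy ▸ hz) hyl
      rw [hmapA l hlA] at h2
      exact hV.lab v1 v2 l hlA h1 h2

end Pool.Agent.Helper367SM
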