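import Pool.Agent.Helper367_SM.Valid

set_option autoImplicit false

/-!
The relations of the limit structure are computable.
-/

namespace Pool.Agent.Helper367SM

namespace CompMAux

open ValidAux

theorem le_sum_of_mem' (l : List ℕ) (x : ℕ) (hx : x ∈ l) : x ≤ l.sum := by
  induction l with
  | nil => exact absurd hx List.not_mem_nil
  | cons a l ih =>
    rw [List.sum_cons]
    rcases List.mem_cons.1 hx with rfl | h
    · exact Nat.le_add_right _ _
    · exact (ih h).trans (Nat.le_add_left _ _)

theorem sum_prim : Primrec fun l : List ℕ => l.sum := by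
  have h : Primrec fun l : List ℕ => l.foldr (fun a b => a + b) 0 := by
    refine Primrec.list_foldr (f := fun l : List ℕ => l) (g := fun _ => 0)
      (h := fun _ (p : ℕ × ℕ) => p.1 + p.2) Primrec.id (Primrec.const 0) ?_
    exact Primrec.nat_add.comp₂ (Primrec.fst.comp₂ Primrec₂.right) (Primrec.snd.comp₂ Primrec₂.right)
  exact h.of_eq fun l => by
    induction l with
    | nil => rfl
    | cons a l ih => rw [List.foldr_cons, ih, List.sum_cons]

end CompMAux

open CompMAux ValidAux in
/-- The visible relations of the limit are computable. -/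
theorem CompM_proof : S_CompM := by
  classical
  intro c news hc hn hmono hunb hmeet
  have hex : ∀ e : Edge, ∃ t, e.2.sum + 1 ≤ c t := fun e => hunb _
  have hfind : Computable fun e : Edge => Nat.find (hex e) := by
    have h1 : PrimrecRel fun (e : Edge) (t : ℕ) => e.2.sum + 1 ≤ c t := by
      refine Primrec.nat_le.comp₂ ?_ (hc.comp₂ Primrec₂.right)
      exact (Primrec.succ.comp (sum_prim.comp Primrec.snd)).comp₂ Primrec₂.left
    have h2 : Partrec₂ fun (e : Edge) (t : ℕ) =>
        (Part.some (decide (e.2.sum + 1 ≤ c t)) : Part Bool) := h1.decide.to_comp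
    refine (Partrec.rfind h2).of_eq_tot fun e => ?_
    refine Nat.mem_rfind.2 ⟨?_, ?_⟩
    · have := Nat.find_spec (hex e)
      simpa using this
    · intro m hm
      have := Nat.find_min (hex e) hm
      simpa using this
  have h3 : PrimrecPred fun p : Edge × ℕ => ∃ t ∈ List.range p.2, p.1 ∈ news t := by
    refine existsMem (f := fun p : Edge × ℕ => List.range p.2)
      (R := fun (p : Edge × ℕ) t => p.1 ∈ news t) (Primrec.list_range.comp Primrec.snd) ?_
    exact PrimrecPred.primrecRel (p := fun r : (Edge × ℕ) × ℕ => r.1.1 ∈ news r.2)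
      (memList (Primrec.fst.comp Primrec.fst) (hn.comp Primrec.snd))
  have h4 : Computable fun e : Edge =>
      decide (∃ t ∈ List.range (Nat.find (hex e)), e ∈ news t) :=
    (h3.decide.to_comp).comp (Computable.pair Computable.id hfind)
  have h5 : ComputablePred fun e : Edge => ∃ t ∈ List.range (Nat.find (hex e)), e ∈ news t :=
    ⟨inferInstance, h4⟩
  refine h5.of_eq fun e => ?_
  constructor
  · rintro ⟨t, _, h⟩
    exact ⟨t, h⟩
  · rintro ⟨t, h⟩
    refine ⟨t, List.mem_range.2 ?_, h⟩
    by_contra hlt
    obtain ⟨x, hx, hcx⟩ := hmeet t e h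
    have h6 := Nat.find_spec (hex e)
    have h7 := hmono (not_lt.1 hlt)
    have h8 := le_sum_of_mem' e.2 x hx
    omega

end Pool.Agent.Helper367SM
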