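import Pool.Agent.Helper367_SM.Valid

set_option autoImplicit false

/-!
The construction.
-/

namespace Pool.Agent.Helper367SM

namespace ConstrAux

open ValidAux

/-- The task with number `k`. -/
def taskNo (k : ℕ) : Task := (Encodable.decode (α := Task) k.unpair.1).getD (0, 1, [])

theorem taskNo_pair (T : Task) (j : ℕ) : taskNo (Nat.pair (Encodable.encode T) j) = T := by
  simp [taskNo]

theorem taskNo_prim : Primrec taskNo := by
  unfold taskNo
  exact Primrec.option_getD.comp (Primrec.decode.comp (Primrec.fst.comp Primrec.unpair))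
    (Primrec.const _)

theorem alive_prim {path : ℕ → List ℕ} (hp : Primrec path) : PrimrecRel (Alive path) := by
  have h : PrimrecPred fun p : ℕ × ℕ => ∀ t' ∈ List.range (p.2 + 1), p.1 < t' →
      ∀ u ∈ path t', u < p.1 → u ∈ path p.1 := by
    refine forallMem (f := fun p : ℕ × ℕ => List.range (p.2 + 1))
      (R := fun (p : ℕ × ℕ) t' => p.1 < t' → ∀ u ∈ path t', u < p.1 → u ∈ path p.1)
      (Primrec.list_range.comp (Primrec.succ.comp Primrec.snd)) ?_
    refine PrimrecPred.primrecRel (p := fun r : (ℕ × ℕ) × ℕ =>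
      r.1.1 < r.2 → ∀ u ∈ path r.2, u < r.1.1 → u ∈ path r.1.1) ?_
    refine imp (Primrec.nat_lt.comp (Primrec.fst.comp Primrec.fst) Primrec.snd) ?_
    refine forallMem (f := fun r : (ℕ × ℕ) × ℕ => path r.2)
      (R := fun (r : (ℕ × ℕ) × ℕ) u => u < r.1.1 → u ∈ path r.1.1) (hp.comp Primrec.snd) ?_
    refine PrimrecPred.primrecRel (p := fun w : ((ℕ × ℕ) × ℕ) × ℕ =>
      w.2 < w.1.1.1 → w.2 ∈ path w.1.1.1) ?_
    have h1 : Primrec fun w : ((ℕ × ℕ) × ℕ) × ℕ => w.1.1.1 :=
      Primrec.fst.comp (Primrec.fst.comp Primrec.fst)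
    exact imp (Primrec.nat_lt.comp Primrec.snd h1) (memList Primrec.snd (hp.comp h1))
  refine PrimrecPred.primrecRel (p := fun p : ℕ × ℕ => Alive path p.1 p.2) (h.of_eq fun p => ?_)
  unfold Alive
  constructor
  · intro h t' h1 h2
    exact h t' (List.mem_range.2 (by omega)) h1
  · intro h t' h1 h2
    exact h t' h2 (by have := List.mem_range.1 h1; omega)

theorem bel_prim {path : ℕ → List ℕ} (hp : Primrec path) :
    PrimrecPred fun p : (ℕ × ℕ) × Sym => Bel path p.1.1 p.1.2 p.2 := by
  classical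
  have hA : Primrec₂ fun (p : (ℕ × ℕ) × Sym) (_ : ℕ) => decide (Alive path p.1.2 p.1.1) :=
    ((alive_prim hp).decide.comp (Primrec.snd.comp Primrec.fst)
      (Primrec.fst.comp Primrec.fst)).comp₂ Primrec₂.left
  have hM : PrimrecPred fun p : (ℕ × ℕ) × Sym => p.1.2 ∈ path p.1.1 :=
    memList (Primrec.snd.comp Primrec.fst) (hp.comp (Primrec.fst.comp Primrec.fst))
  have h := symCases (f := fun p : (ℕ × ℕ) × Sym => p.2) (gE := fun _ _ _ => true)
    (gR := fun _ _ => true) (gS := fun p _ => decide (Alive path p.1.2 p.1.1))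
    (gP := fun p _ => decide (p.1.2 ∈ path p.1.1)) Primrec.snd (Primrec.const _)
    (Primrec.const _) hA (hM.decide.comp₂ Primrec₂.left)
  refine (Primrec.eq.comp h (Primrec.const true)).of_eq fun p => ?_
  rcases p with ⟨⟨t, j⟩, s⟩
  cases s <;> simp [Bel]

theorem theta_prim : Primrec fun p : (ℕ × ℕ) × ℕ => theta p.1.1 p.1.2 p.2 := by
  unfold theta
  refine Primrec.ite (Primrec.nat_lt.comp Primrec.snd (Primrec.fst.comp Primrec.fst))
    Primrec.snd ?_
  exact Primrec.nat_add.comp (Primrec.snd.comp Primrec.fst)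
    (Primrec.nat_sub.comp Primrec.snd (Primrec.fst.comp Primrec.fst))

/-- The image of a symbolic edge. -/
def img (Lam : ℕ → ℕ → ℕ) (v c β : ℕ) (q : SEdge) : Edge :=
  (instS Lam v q.1, q.2.map (theta β c))

theorem img1_prim {Lam : ℕ → ℕ → ℕ} (hL : Primrec₂ Lam) :
    Primrec fun r : ((ℕ × ℕ) × ℕ) × SEdge => instS Lam r.1.1.1 r.2.1 :=
  (instS_prim hL).comp (Primrec.fst.comp (Primrec.fst.comp Primrec.fst))
    (Primrec.fst.comp Primrec.snd)

theorem img2_prim : Primrec fun r : ((ℕ × ℕ) × ℕ) × SEdge =>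
    r.2.2.map (fun x => theta r.1.2 r.1.1.2 x) := by
  refine Primrec.list_map (g := fun (r : ((ℕ × ℕ) × ℕ) × SEdge) x => theta r.1.2 r.1.1.2 x)
    (Primrec.snd.comp Primrec.snd) ?_
  have h3 : Primrec fun w : (((ℕ × ℕ) × ℕ) × SEdge) × ℕ =>
      ((w.1.1.2, w.1.1.1.2), w.2) :=
    Primrec.pair (Primrec.pair
      (Primrec.snd.comp (Primrec.fst.comp Primrec.fst))
      (Primrec.snd.comp (Primrec.fst.comp (Primrec.fst.comp Primrec.fst)))) Primrec.snd
  exact Primrec₂.mk (theta_prim.comp h3)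

theorem img_prim {Lam : ℕ → ℕ → ℕ} (hL : Primrec₂ Lam) :
    Primrec fun r : ((ℕ × ℕ) × ℕ) × SEdge => img Lam r.1.1.1 r.1.1.2 r.1.2 r.2 :=
  (Primrec.pair (img1_prim hL) img2_prim).of_eq fun _ => rfl

theorem news_eq (Lam : ℕ → ℕ → ℕ) (v c : ℕ) (T : Task) :
    T.news Lam v c = T.2.2.map (fun q => img Lam v c T.1 q) := rfl

theorem news_prim {Lam : ℕ → ℕ → ℕ} (hL : Primrec₂ Lam) :
    Primrec fun p : (ℕ × ℕ) × Task => Task.news Lam p.1.1 p.1.2 p.2 := by
  have h : Primrec fun p : (ℕ × ℕ) × Task =>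
      p.2.2.2.map (fun q => img Lam p.1.1 p.1.2 p.2.1 q) := by
    refine Primrec.list_map (g := fun (p : (ℕ × ℕ) × Task) q => img Lam p.1.1 p.1.2 p.2.1 q)
      (Primrec.snd.comp (Primrec.snd.comp Primrec.snd)) ?_
    have h1 : Primrec fun w : ((ℕ × ℕ) × Task) × SEdge =>
        (((w.1.1.1, w.1.1.2), w.1.2.1), w.2) :=
      Primrec.pair (Primrec.pair (Primrec.fst.comp Primrec.fst)
        (Primrec.fst.comp (Primrec.snd.comp Primrec.fst))) Primrec.snd
    exact Primrec₂.mk ((img_prim hL).comp h1)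
  exact h.of_eq fun p => (news_eq Lam _ _ _).symm

/-- States: the number of vertices and the list of the edges together with their stages. -/
abbrev St := ℕ × List (ℕ × Edge)

open Classical in
/-- The list of the edges believed at stage `t`. -/
noncomputable def bel (path : ℕ → List ℕ) (t : ℕ) (st : St) : List Edge :=
  (st.2.filter (fun je => Bel path t je.1 je.2.1)).map Prod.snd

/-- The task of stage `t`. -/
def tk (path : ℕ → List ℕ) (t : ℕ) : Task := taskNo (path t).length

/-- The condition under which stage `t` acts. -/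
def cond (Lam : ℕ → ℕ → ℕ) (path : ℕ → List ℕ) (t : ℕ) (st : St) : Prop :=
  (tk path t).Valid ∧ (tk path t).1 ≤ st.1 ∧
    InK Lam {e | e ∈ bel path t st ++ (tk path t).news Lam t st.1}

open Classical in
/-- The new edges of stage `t`. -/
noncomputable def nw (Lam : ℕ → ℕ → ℕ) (path : ℕ → List ℕ) (t : ℕ) (st : St) : List Edge :=
  if cond Lam path t st then (tk path t).news Lam t st.1 else []

open Classical in
/-- The next state. -/
noncomputable def step (Lam : ℕ → ℕ → ℕ) (path : ℕ → List ℕ) (t : ℕ) (st : St) : St :=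
  (st.1 + (if cond Lam path t st then (tk path t).2.1 else 0),
    st.2 ++ (nw Lam path t st).map (fun e => (t, e)))

/-- The state before stage `t`. -/
noncomputable def stt (Lam : ℕ → ℕ → ℕ) (path : ℕ → List ℕ) (t : ℕ) : St :=
  Nat.rec (0, []) (step Lam path) t

theorem stt_succ (Lam : ℕ → ℕ → ℕ) (path : ℕ → List ℕ) (t : ℕ) :
    stt Lam path (t + 1) = step Lam path t (stt Lam path t) := rfl

theorem bel_list_prim {path : ℕ → List ℕ} (hp : Primrec path) :
    Primrec fun p : ℕ × St => bel path p.1 p.2 := by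
  classical
  unfold bel
  refine Primrec.list_map ?_ (Primrec.snd.comp₂ Primrec₂.right)
  refine (filterList (f := fun p : ℕ × St => p.2.2)
    (R := fun (p : ℕ × St) je => Bel path p.1 je.1 je.2.1) (Primrec.snd.comp Primrec.snd) ?_).of_eq
    fun p => ?_
  · refine PrimrecPred.primrecRel (p := fun r : (ℕ × St) × (ℕ × Edge) =>
      Bel path r.1.1 r.2.1 r.2.2.1) ?_
    exact (bel_prim hp).comp (f := fun r : (ℕ × St) × (ℕ × Edge) => ((r.1.1, r.2.1), r.2.2.1))
      (Primrec.pair (Primrec.pair (Primrec.fst.comp Primrec.fst) (Primrec.fst.comp Primrec.snd))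
        (Primrec.fst.comp (Primrec.snd.comp Primrec.snd)))
  · rfl

theorem tk_prim {path : ℕ → List ℕ} (hp : Primrec path) : Primrec (tk path) :=
  taskNo_prim.comp (Primrec.list_length.comp hp)

theorem tnews_prim {Lam : ℕ → ℕ → ℕ} (hL : Primrec₂ Lam) {path : ℕ → List ℕ}
    (hp : Primrec path) : Primrec fun p : ℕ × St => (tk path p.1).news Lam p.1 p.2.1 :=
  (news_prim hL).comp (Primrec.pair (Primrec.pair Primrec.fst (Primrec.fst.comp Primrec.snd))
    ((tk_prim hp).comp Primrec.fst))

theorem cond_prim (hK : S_InKPrim) {Lam : ℕ → ℕ → ℕ} (hL : Primrec₂ Lam) {path : ℕ → List ℕ}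
    (hp : Primrec path) : PrimrecPred fun p : ℕ × St => cond Lam path p.1 p.2 := by
  unfold cond
  refine PrimrecPred.and ?_ (PrimrecPred.and ?_ ?_)
  · exact ValidPrim_proof.comp ((tk_prim hp).comp Primrec.fst)
  · exact Primrec.nat_le.comp (Primrec.fst.comp ((tk_prim hp).comp Primrec.fst))
      (Primrec.fst.comp Primrec.snd)
  · exact (hK Lam hL).comp (Primrec.list_append.comp (bel_list_prim hp) (tnews_prim hL hp))

theorem nw_prim (hK : S_InKPrim) {Lam : ℕ → ℕ → ℕ} (hL : Primrec₂ Lam) {path : ℕ → List ℕ}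
    (hp : Primrec path) : Primrec fun p : ℕ × St => nw Lam path p.1 p.2 := by
  classical
  unfold nw
  exact Primrec.ite (cond_prim hK hL hp) (tnews_prim hL hp) (Primrec.const _)

theorem step_prim (hK : S_InKPrim) {Lam : ℕ → ℕ → ℕ} (hL : Primrec₂ Lam) {path : ℕ → List ℕ}
    (hp : Primrec path) : Primrec₂ (step Lam path) := by
  classical
  unfold step
  refine Primrec.pair ?_ ?_
  · refine Primrec.nat_add.comp (Primrec.fst.comp Primrec.snd) ?_
    exact Primrec.ite (cond_prim hK hL hp)
      (Primrec.fst.comp (Primrec.snd.comp ((tk_prim hp).comp Primrec.fst))) (Primrec.const _)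
  · refine Primrec.list_append.comp (Primrec.snd.comp Primrec.snd) ?_
    refine Primrec.list_map (nw_prim hK hL hp) ?_
    exact Primrec₂.pair.comp₂ (Primrec.fst.comp₂ Primrec₂.left) Primrec₂.right

theorem stt_prim (hK : S_InKPrim) {Lam : ℕ → ℕ → ℕ} (hL : Primrec₂ Lam) {path : ℕ → List ℕ}
    (hp : Primrec path) : Primrec (stt Lam path) :=
  Primrec.nat_rec₁ _ (step_prim hK hL hp)

/-- The edges created at stage `t`, as a list. -/
noncomputable def nws (Lam : ℕ → ℕ → ℕ) (path : ℕ → List ℕ) (t : ℕ) : List Edge :=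
  nw Lam path t (stt Lam path t)

theorem nws_prim (hK : S_InKPrim) {Lam : ℕ → ℕ → ℕ} (hL : Primrec₂ Lam) {path : ℕ → List ℕ}
    (hp : Primrec path) : Primrec (nws Lam path) := by
  have h : Primrec fun t => (t, stt Lam path t) := Primrec.pair Primrec.id (stt_prim hK hL hp)
  exact ((nw_prim hK hL hp).comp h).of_eq fun _ => rfl

theorem mem_stt (Lam : ℕ → ℕ → ℕ) (path : ℕ → List ℕ) (t : ℕ) (j : ℕ) (e : Edge) :
    (j, e) ∈ (stt Lam path t).2 ↔ j < t ∧ e ∈ nws Lam path j := by
  induction t with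
  | zero => simp [stt]
  | succ t ih =>
    rw [stt_succ]
    show (j, e) ∈ (stt Lam path t).2 ++ (nw Lam path t (stt Lam path t)).map (fun e => (t, e)) ↔ _
    rw [List.mem_append, ih, List.mem_map]
    constructor
    · rintro (h | ⟨e', h1, h2⟩)
      · exact ⟨by omega, h.2⟩
      · rw [Prod.mk.injEq] at h2
        obtain ⟨rfl, rfl⟩ := h2
        exact ⟨by omega, h1⟩
    · rintro ⟨h1, h2⟩
      rcases Nat.lt_succ_iff_lt_or_eq.1 h1 with h3 | rfl
      · exact Or.inl ⟨h3, h2⟩
      · exact Or.inr ⟨e, h2, rfl⟩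

theorem mem_bel (Lam : ℕ → ℕ → ℕ) (path : ℕ → List ℕ) (t : ℕ) (e : Edge) :
    e ∈ bel path t (stt Lam path t) ↔
      e ∈ Str path (fun t => (nws Lam path t).toFinset) t := by
  classical
  unfold bel Str
  rw [List.mem_map]
  constructor
  · rintro ⟨⟨j, e'⟩, h1, rfl⟩
    rw [List.mem_filter] at h1
    have h2 := (mem_stt Lam path t j e').1 h1.1
    exact ⟨j, h2.1, List.mem_toFinset.2 h2.2, by simpa using h1.2⟩
  · rintro ⟨j, h1, h2, h3⟩
    refine ⟨(j, e), List.mem_filter.2 ⟨?_, by simpa using h3⟩, rfl⟩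
    exact (mem_stt Lam path t j e).2 ⟨h1, List.mem_toFinset.1 h2⟩

theorem cond_iff (Lam : ℕ → ℕ → ℕ) (path : ℕ → List ℕ) (t : ℕ) :
    cond Lam path t (stt Lam path t) ↔ (tk path t).Valid ∧ (tk path t).1 ≤ (stt Lam path t).1 ∧
      InK Lam (Str path (fun t => (nws Lam path t).toFinset) t ∪
        {e | e ∈ (tk path t).news Lam t (stt Lam path t).1}) := by
  unfold cond
  have : {e | e ∈ bel path t (stt Lam path t) ++ (tk path t).news Lam t (stt Lam path t).1} =
      (Str path (fun t => (nws Lam path t).toFinset) t ∪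
        {e | e ∈ (tk path t).news Lam t (stt Lam path t).1}) := by
    ext e
    simp only [Set.mem_ofPred_eq, List.mem_append, Set.mem_union]
    rw [mem_bel]
  rw [this]

theorem nws_pos {Lam : ℕ → ℕ → ℕ} {path : ℕ → List ℕ} {t : ℕ}
    (h : cond Lam path t (stt Lam path t)) :
    nws Lam path t = (tk path t).news Lam t (stt Lam path t).1 := by
  unfold nws nw
  rw [if_pos h]

theorem nws_neg {Lam : ℕ → ℕ → ℕ} {path : ℕ → List ℕ} {t : ℕ}
    (h : ¬ cond Lam path t (stt Lam path t)) : nws Lam path t = [] := by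
  unfold nws nw
  rw [if_neg h]

theorem c_pos {Lam : ℕ → ℕ → ℕ} {path : ℕ → List ℕ} {t : ℕ}
    (h : cond Lam path t (stt Lam path t)) :
    (stt Lam path (t + 1)).1 = (stt Lam path t).1 + (tk path t).2.1 := by
  rw [stt_succ]
  show (stt Lam path t).1 + _ = _
  rw [if_pos h]

theorem c_mono (Lam : ℕ → ℕ → ℕ) (path : ℕ → List ℕ) (t : ℕ) :
    (stt Lam path t).1 ≤ (stt Lam path (t + 1)).1 := by
  rw [stt_succ]
  exact Nat.le_add_right _ _

/-- Edges of `news`. -/
theorem mem_news {Lam : ℕ → ℕ → ℕ} {v c : ℕ} {T : Task} {e : Edge} :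
    e ∈ T.news Lam v c ↔ ∃ q ∈ T.2.2, (instS Lam v q.1, q.2.map (theta T.1 c)) = e := by
  unfold Task.news
  rw [List.mem_map]

theorem news_inside {Lam : ℕ → ℕ → ℕ} {v c : ℕ} {T : Task} (hT : T.Valid) (hc : T.1 ≤ c) :
    ∀ e ∈ T.news Lam v c, ∀ x ∈ e.2, x < c + T.2.1 := by
  intro e he x hx
  obtain ⟨q, hq, rfl⟩ := mem_news.1 he
  obtain ⟨y, hy, rfl⟩ := List.mem_map.1 hx
  have h1 := hT.inside q hq y hy
  unfold theta
  split_ifs <;> omega

theorem news_meets {Lam : ℕ → ℕ → ℕ} {v c : ℕ} {T : Task} (hT : T.Valid) :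
    ∀ e ∈ T.news Lam v c, ∃ x ∈ e.2, c ≤ x := by
  intro e he
  obtain ⟨q, hq, rfl⟩ := mem_news.1 he
  obtain ⟨y, hy, hy2⟩ := hT.meets q hq
  refine ⟨theta T.1 c y, List.mem_map.2 ⟨y, hy, rfl⟩, ?_⟩
  unfold theta
  rw [if_neg (by omega)]
  omega

theorem news_strong {Lam : ℕ → ℕ → ℕ} {v c : ℕ} {T : Task} (hT : T.Valid) (Y : Finset ℕ) :
    ((T.news Lam v c).toFinset.filter (fun e => ∀ x ∈ e.2, x < c ∨ x ∈ Y)).card ≤ Y.card := by
  have h1 := hT.strong (Y.image (fun y => T.1 + (y - c))) (by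
    intro y hy
    obtain ⟨z, _, rfl⟩ := Finset.mem_image.1 hy
    exact Nat.le_add_right _ _)
  refine le_trans ?_ (h1.trans Finset.card_image_le)
  let φ : SEdge → Edge := img Lam v c T.1
  have h2 : ((T.news Lam v c).toFinset.filter (fun e => ∀ x ∈ e.2, x < c ∨ x ∈ Y)) ⊆
      (T.2.2.toFinset.filter (fun q => ∀ x ∈ q.2,
        x < T.1 ∨ x ∈ Y.image (fun y => T.1 + (y - c)))).image φ := by
    intro e he
    rw [Finset.mem_filter, List.mem_toFinset] at he
    obtain ⟨q, hq, rfl⟩ := mem_news.1 he.1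
    refine Finset.mem_image.2 ⟨q, Finset.mem_filter.2 ⟨List.mem_toFinset.2 hq, ?_⟩, rfl⟩
    intro x hx
    by_cases hx1 : x < T.1
    · exact Or.inl hx1
    · right
      have h3 := he.2 (theta T.1 c x) (List.mem_map.2 ⟨x, hx, rfl⟩)
      have h4 : theta T.1 c x = c + (x - T.1) := by
        unfold theta
        rw [if_neg hx1]
      rw [h4] at h3
      rcases h3 with h3 | h3
      · omega
      · refine Finset.mem_image.2 ⟨_, h3, ?_⟩
        omega
  exact (Finset.card_le_card h2).trans Finset.card_image_le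

theorem news_verP {Lam : ℕ → ℕ → ℕ} {t c : ℕ} {T : Task} {v : ℕ} {l : List ℕ}
    (h : (Sym.P v, l) ∈ T.news Lam t c) : v = t := by
  obtain ⟨⟨s, l'⟩, _, h2⟩ := mem_news.1 h
  rw [Prod.mk.injEq] at h2
  cases s <;> simp [instS] at h2
  exact h2.1.symm

theorem constr (Lam : ℕ → ℕ → ℕ) (path : ℕ → List ℕ) :
    Constr Lam path (fun t => (stt Lam path t).1) (fun t => (nws Lam path t).toFinset) where
  c0 := rfl
  mono := c_mono Lam path
  inside := by
    intro t e he x hx
    rw [List.mem_toFinset] at he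
    by_cases h : cond Lam path t (stt Lam path t)
    · rw [nws_pos h] at he
      have h1 := news_inside h.1 h.2.1 e he x hx
      rw [← c_pos h] at h1
      exact h1
    · rw [nws_neg h] at he
      exact absurd he List.not_mem_nil
  meets := by
    intro t e he
    rw [List.mem_toFinset] at he
    by_cases h : cond Lam path t (stt Lam path t)
    · rw [nws_pos h] at he
      exact news_meets h.1 e he
    · rw [nws_neg h] at he
      exact absurd he List.not_mem_nil
  strong := by
    intro t Y _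
    by_cases h : cond Lam path t (stt Lam path t)
    · have h1 := news_strong (Lam := Lam) (v := t) (c := (stt Lam path t).1) h.1 Y
      rw [← nws_pos h] at h1
      exact h1
    · have h1 : (nws Lam path t).toFinset = ∅ := by rw [nws_neg h]; rfl
      rw [h1, Finset.filter_empty, Finset.card_empty]
      exact Nat.zero_le _
  verP := by
    intro t v l he
    rw [List.mem_toFinset] at he
    by_cases h : cond Lam path t (stt Lam path t)
    · rw [nws_pos h] at he
      exact news_verP he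
    · rw [nws_neg h] at he
      exact absurd he List.not_mem_nil
  ok := by
    intro t hK
    by_cases h : cond Lam path t (stt Lam path t)
    · have h1 := ((cond_iff Lam path t).1 h).2.2
      have h2 : (((nws Lam path t).toFinset : Finset Edge) : Set Edge) =
          {e | e ∈ (tk path t).news Lam t (stt Lam path t).1} := by
        ext e
        rw [nws_pos h]
        simp
      rw [← h2] at h1
      exact h1
    · have h2 : (((nws Lam path t).toFinset : Finset Edge) : Set Edge) = ∅ := by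
        rw [nws_neg h]
        simp
      have h3 : Str path (fun t => (nws Lam path t).toFinset) t ∪
        (((nws Lam path t).toFinset : Finset Edge) : Set Edge) =
          Str path (fun t => (nws Lam path t).toFinset) t := by rw [h2, Set.union_empty]
      rw [← h3] at hK
      exact hK

/-- Along the true stages `path` lists the earlier true stages. -/
theorem mem_path_TP {path : ℕ → List ℕ} (hG : GS path) {v : ℕ} (hv : v ∈ TP path) (u : ℕ) :
    u ∈ path v ↔ u ∈ TP path ∧ u < v := by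
  constructor
  · intro hu
    refine ⟨fun s => ?_, hG.lt v u hu⟩
    obtain ⟨t, h1, h2⟩ := hv s
    exact ⟨t, h1, ((hG.s1 t v h2 u).1 hu).1⟩
  · rintro ⟨h1, h2⟩
    obtain ⟨t', h3, h4⟩ := h1 v
    obtain ⟨t, h5, h6⟩ := hv t'
    exact hG.s2 t t' v u h6 h3 h5 h4 h2

theorem exists_stage {path : ℕ → List ℕ} (hG : GS path) (k : ℕ) :
    ∃ v ∈ TP path, (path v).length = k ∧ k ≤ v := by
  classical
  have hinf : (Set.ofPred (fun u => u ∈ TP path)).Infinite := hG.s3
  refine ⟨Nat.nth (fun u => u ∈ TP path) k, Nat.nth_mem_of_infinite hinf k, ?_, ?_⟩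
  · set v := Nat.nth (fun u => u ∈ TP path) k with hv
    have hvT : v ∈ TP path := Nat.nth_mem_of_infinite hinf k
    have h1 : Nat.count (fun u => u ∈ TP path) v = k :=
      Nat.count_nth_of_infinite hinf k
    rw [← h1, Nat.count_eq_card_filter_range, ← List.toFinset_card_of_nodup (hG.nodup v)]
    congr 1
    ext u
    rw [List.mem_toFinset, mem_path_TP hG hvT, Finset.mem_filter, Finset.mem_range]
    tauto
  · exact (Nat.nth_strictMono hinf).le_apply

theorem sched (Lam : ℕ → ℕ → ℕ) {path : ℕ → List ℕ} (hG : GS path) :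
    Sched Lam path (fun t => (stt Lam path t).1) (fun t => (nws Lam path t).toFinset) := by
  intro T hT s
  obtain ⟨v, hv, hlen, hle⟩ := exists_stage hG (Nat.pair (Encodable.encode T) s)
  refine ⟨v, hv, le_trans (Nat.right_le_pair _ _) hle, ?_⟩
  intro h1 h2
  have htk : tk path v = T := by
    unfold tk
    rw [hlen, taskNo_pair]
  have hc : cond Lam path v (stt Lam path v) := by
    rw [cond_iff, htk]
    exact ⟨hT, h1, h2⟩
  refine ⟨?_, ?_⟩
  · have := c_pos hc
    rw [htk] at this
    exact this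
  · show (nws Lam path v).toFinset = _
    rw [nws_pos hc, htk]

end ConstrAux

/-- Existence of the construction. -/
theorem Constr_proof (hK : S_InKPrim) : S_Constr := by
  intro Lam path hp hL hG
  exact ⟨fun t => (ConstrAux.stt Lam path t).1, fun t => (ConstrAux.nws Lam path t).toFinset,
    ConstrAux.nws Lam path, Primrec.fst.comp (ConstrAux.stt_prim hK hL hp),
    ConstrAux.nws_prim hK hL hp, fun t e => List.mem_toFinset, ConstrAux.constr Lam path,
    ConstrAux.sched Lam hG⟩

end Pool.Agent.Helper367SM
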