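import Pool.Agent.Helper367_SM.Spec

set_option autoImplicit false

/-!
Closures, generic points, and the count of the nongeneric points.
-/

namespace Pool.Agent.Helper367SM

namespace CountAux

/-! ### Visible edges and edges -/

/-- Two versions on the same pair are equal. -/
theorem ver_unique {Lam : ℕ → ℕ → ℕ} {M : Set Edge} (hM : InK Lam M) {v v' : ℕ} {l : List ℕ}
    (h : (Sym.P v, l) ∈ M) (h' : (Sym.P v', l) ∈ M) : v = v' := by
  have := hM.fn _ h _ h' rfl ⟨0, fun _ _ => rfl⟩
  simpa using this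

/-- Each visible edge comes from an edge; the edge determines the visible edge. -/
theorem exists_edge {Lam : ℕ → ℕ → ℕ} {M : Set Edge} (t ν : ℕ) {q : SEdge}
    (hq : q ∈ NV Lam t ν M) :
    ∃ e ∈ M, e.2 = q.2 ∧
      ((∃ n i, q.1 = SSym.E n i ∧ e.1 = Sym.E n i ∧
          ∀ v, (Sym.P v, q.2.take 2) ∈ M → Lam v n ≠ i) ∨
       (∃ n v, q.1 = SSym.K n ∧ e.1 = Sym.E n (Lam v n) ∧ (Sym.P v, q.2.take 2) ∈ M) ∨
       (∃ n, q.1 = SSym.R n ∧ e.1 = Sym.R n) ∨
       (∃ n, q.1 = SSym.S n ∧ e.1 = Sym.S n) ∨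
       (∃ v, q.1 = SSym.P ∧ e.1 = Sym.P v)) := by
  obtain ⟨s, l⟩ := q
  cases s with
  | E n i =>
    obtain ⟨_, _, h3, h4⟩ := hq
    exact ⟨_, h3, rfl, Or.inl ⟨n, i, rfl, rfl, h4⟩⟩
  | K n =>
    obtain ⟨_, v, h1, h2⟩ := hq
    exact ⟨_, h2, rfl, Or.inr (Or.inl ⟨n, v, rfl, rfl, h1⟩)⟩
  | R n =>
    obtain ⟨_, h2⟩ := hq
    exact ⟨_, h2, rfl, Or.inr (Or.inr (Or.inl ⟨n, rfl, rfl⟩))⟩
  | S n =>
    obtain ⟨_, h2⟩ := hq
    exact ⟨_, h2, rfl, Or.inr (Or.inr (Or.inr (Or.inl ⟨n, rfl, rfl⟩)))⟩
  | P =>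
    obtain ⟨v, h2⟩ := hq
    exact ⟨_, h2, rfl, Or.inr (Or.inr (Or.inr (Or.inr ⟨v, rfl, rfl⟩)))⟩

open Classical in
/-- The edge behind a visible edge. -/
noncomputable def edgeOf (Lam : ℕ → ℕ → ℕ) (M : Set Edge) (t ν : ℕ) (q : SEdge) : Edge :=
  if hq : q ∈ NV Lam t ν M then (exists_edge t ν hq).choose else (Sym.R 0, [])

theorem edgeOf_spec {Lam : ℕ → ℕ → ℕ} {M : Set Edge} (t ν : ℕ) {q : SEdge}
    (hq : q ∈ NV Lam t ν M) :
    edgeOf Lam M t ν q ∈ M ∧ (edgeOf Lam M t ν q).2 = q.2 ∧
      ((∃ n i, q.1 = SSym.E n i ∧ (edgeOf Lam M t ν q).1 = Sym.E n i ∧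
          ∀ v, (Sym.P v, q.2.take 2) ∈ M → Lam v n ≠ i) ∨
       (∃ n v, q.1 = SSym.K n ∧ (edgeOf Lam M t ν q).1 = Sym.E n (Lam v n) ∧
          (Sym.P v, q.2.take 2) ∈ M) ∨
       (∃ n, q.1 = SSym.R n ∧ (edgeOf Lam M t ν q).1 = Sym.R n) ∨
       (∃ n, q.1 = SSym.S n ∧ (edgeOf Lam M t ν q).1 = Sym.S n) ∨
       (∃ v, q.1 = SSym.P ∧ (edgeOf Lam M t ν q).1 = Sym.P v)) := by
  have := (exists_edge t ν hq).choose_spec
  simp only [edgeOf, dif_pos hq]
  exact ⟨this.1, this.2.1, this.2.2⟩

theorem edgeOf_injOn {Lam : ℕ → ℕ → ℕ} {M : Set Edge} (t ν : ℕ) {q q' : SEdge}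
    (hq : q ∈ NV Lam t ν M) (hq' : q' ∈ NV Lam t ν M)
    (h : edgeOf Lam M t ν q = edgeOf Lam M t ν q') : q = q' := by
  obtain ⟨_, h2, h3⟩ := edgeOf_spec t ν hq
  obtain ⟨_, h2', h3'⟩ := edgeOf_spec t ν hq'
  rw [h] at h2 h3
  have hl : q.2 = q'.2 := h2.symm.trans h2'
  obtain ⟨s, l⟩ := q
  obtain ⟨s', l'⟩ := q'
  simp only at hl
  subst hl
  simp only [Prod.mk.injEq, and_true]
  simp only at h3 h3'
  rcases h3 with ⟨n, i, rfl, he, h4⟩ | ⟨n, v, rfl, he, h4⟩ | ⟨n, rfl, he⟩ | ⟨n, rfl, he⟩ |
    ⟨v, rfl, he⟩ <;>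
  rcases h3' with ⟨n', i', rfl, he', h4'⟩ | ⟨n', v', rfl, he', h4'⟩ | ⟨n', rfl, he'⟩ |
    ⟨n', rfl, he'⟩ | ⟨v', rfl, he'⟩ <;> rw [he] at he' <;> try (simp at he'; done)
  · simpa using he'
  · simp only [Sym.E.injEq] at he'
    obtain ⟨rfl, rfl⟩ := he'
    exact absurd rfl (h4 _ h4')
  · simp only [Sym.E.injEq] at he'
    obtain ⟨rfl, rfl⟩ := he'
    exact absurd rfl (h4' _ h4)
  · simp only [Sym.E.injEq] at he'
    simp [he'.1]
  · simpa using he'
  · simpa using he'

/-- Few visible edges inside a finite set. -/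
theorem card_inside {Lam : ℕ → ℕ → ℕ} {TPs : Set ℕ} {M : Set Edge} {c : ℕ → ℕ}
    (hL : Lim Lam TPs M c) (t ν : ℕ) (Z : Finset ℕ) (G : Finset SEdge)
    (hG : ∀ q ∈ G, q ∈ NV Lam t ν M ∧ ∀ x ∈ q.2, x ∈ Z) : G.card ≤ Z.card := by
  classical
  have h1 : (G.image (edgeOf Lam M t ν)).card = G.card :=
    Finset.card_image_of_injOn fun q hq q' hq' h =>
      edgeOf_injOn t ν (hG q hq).1 (hG q' hq').1 h
  rw [← h1]
  apply hL.strong0
  intro e he
  obtain ⟨q, hq, rfl⟩ := Finset.mem_image.1 he
  obtain ⟨h2, h3, _⟩ := edgeOf_spec t ν (hG q hq).1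
  refine ⟨h2, ?_⟩
  rw [h3]
  exact (hG q hq).2

end CountAux

open CountAux

/-- Closures. -/
theorem Closure_proof : S_Closure := by
  classical
  intro Lam TPs M c t ν hL A R
  have key : ∀ (d : ℕ) (A : Finset ℕ) (G : Finset SEdge),
      (∀ q ∈ G, q ∈ NV Lam t ν M ∧ ∀ x ∈ q.2, x ∈ A) → A.card ≤ G.card + d →
      ∃ A₁ : Finset ℕ, A ⊆ A₁ ∧ RStrong (NV Lam t ν M) A₁ R ∧ A₁.card ≤ A.card + d * R := by
    intro d
    induction d with
    | zero =>
      intro A G hG hd
      refine ⟨A, subset_rfl, ?_, by simp⟩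
      intro Z hZ _ G' hG'
      have h1 : Disjoint G G' := by
        rw [Finset.disjoint_left]
        intro q hq hq'
        obtain ⟨x, hx, hxZ⟩ := (hG' q hq').2.2
        exact Finset.disjoint_left.1 hZ ((hG q hq).2 x hx) hxZ
      have h2 : (G ∪ G').card ≤ (A ∪ Z).card := by
        apply card_inside hL t ν
        intro q hq
        rcases Finset.mem_union.1 hq with hq | hq
        · exact ⟨(hG q hq).1, fun x hx => Finset.mem_union_left _ ((hG q hq).2 x hx)⟩
        · exact ⟨(hG' q hq).1, (hG' q hq).2.1⟩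
      rw [Finset.card_union_of_disjoint h1, Finset.card_union_of_disjoint hZ] at h2
      omega
    | succ d ih =>
      intro A G hG hd
      by_cases hS : RStrong (NV Lam t ν M) A R
      · exact ⟨A, subset_rfl, hS, by simp⟩
      · unfold RStrong at hS
        push Not at hS
        obtain ⟨Z, hZ, hZR, G', hG', hcard⟩ := hS
        have h1 : Disjoint G G' := by
          rw [Finset.disjoint_left]
          intro q hq hq'
          obtain ⟨x, hx, hxZ⟩ := (hG' q hq').2.2
          exact Finset.disjoint_left.1 hZ ((hG q hq).2 x hx) hxZ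
        obtain ⟨A₁, hA₁, hs, hc⟩ := ih (A ∪ Z) (G ∪ G') (by
          intro q hq
          rcases Finset.mem_union.1 hq with hq | hq
          · exact ⟨(hG q hq).1, fun x hx => Finset.mem_union_left _ ((hG q hq).2 x hx)⟩
          · exact ⟨(hG' q hq).1, (hG' q hq).2.1⟩) (by
          rw [Finset.card_union_of_disjoint h1, Finset.card_union_of_disjoint hZ]
          omega)
        refine ⟨A₁, Finset.subset_union_left.trans hA₁, hs, ?_⟩
        rw [Finset.card_union_of_disjoint hZ] at hc
        rw [Nat.succ_mul]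
        omega
  obtain ⟨A₁, h1, h2, h3⟩ := key A.card A ∅ (by simp) (by simp)
  refine ⟨A₁, h1, h2, ?_⟩
  rw [mul_add, mul_one]
  omega

/-- Extension of the identity by generic points. -/
theorem GenericIso_proof : S_GenericIso := by
  classical
  intro Lam TPs M c Pst lim t ν x hL hP A r y y' hxA hA hy hy'
  have hyA := hy.1
  have hyA' := hy'.1
  -- no visible edge inside `A ∪ {z}` contains `z`
  have key : ∀ z, Generic (NV Lam t ν M) A r z → ∀ q ∈ NV Lam t ν M,
      (∀ w ∈ q.2, w ∈ A ∪ {z}) → z ∉ q.2 := by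
    intro z hz q hq hin hzq
    have := hz.2 {z} (by simp) (by simp) (by simpa using hz.1) {q} (by
      intro q' hq'
      rw [Finset.mem_singleton] at hq'
      subst hq'
      exact ⟨hq, hin, z, hzq, by simp⟩)
    simp at this
  have strong : ∀ z, Generic (NV Lam t ν M) A r z → RStrong (NV Lam t ν M) (A ∪ {z}) r := by
    intro z hz Z hZ hr G hG
    have hzZ : z ∉ Z := fun h => Finset.disjoint_left.1 hZ (by simp) h
    have := hz.2 (insert z Z) (by simp) (by rw [Finset.card_insert_of_notMem hzZ]; omega)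
      (by
        rw [Finset.disjoint_insert_right]
        exact ⟨hz.1, (Finset.disjoint_union_left.1 hZ).1⟩) G (by
        intro q hq
        obtain ⟨h1, h2, w, hw, hwZ⟩ := hG q hq
        refine ⟨h1, ?_, w, hw, by simp [hwZ]⟩
        intro u hu
        have := h2 u hu
        simp only [Finset.mem_union, Finset.mem_singleton, Finset.mem_insert] at this ⊢
        tauto)
    rw [Finset.card_insert_of_notMem hzZ] at this
    omega
  have hgA : ∀ a ∈ A, (fun a => if a = y then y' else a) a = a := by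
    intro a ha
    have : a ≠ y := fun h => hyA (h ▸ ha)
    simp [this]
  have hhA : ∀ a ∈ A, (fun a => if a = y' then y else a) a = a := by
    intro a ha
    have : a ≠ y' := fun h => hyA' (h ▸ ha)
    simp [this]
  have hmap : ∀ l : List ℕ, (∀ w ∈ l, w ∈ A ∪ {y}) → y ∉ l →
      l.map (fun a => if a = y then y' else a) = l := by
    intro l hl hyl
    conv_rhs => rw [← List.map_id l]
    apply List.map_congr_left
    intro w hw
    have : w ≠ y := fun h => hyl (h ▸ hw)
    simp [this]
  refine ⟨fun a => if a = y then y' else a, fun a => if a = y' then y else a, hgA, by simp, ?_,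
    strong y hy, strong y' hy'⟩
  constructor
  · intro a ha
    by_cases h : a = y
    · simp [h]
    · simp only [Finset.mem_union, Finset.mem_singleton] at ha
      simp only [h, if_false, Finset.mem_union]
      left
      tauto
  · intro a ha
    by_cases h : a = y'
    · simp [h]
    · simp only [Finset.mem_union, Finset.mem_singleton] at ha
      simp only [h, if_false, Finset.mem_union]
      left
      tauto
  · intro a ha
    by_cases h : a = y
    · simp [h]
    · simp only [Finset.mem_union, Finset.mem_singleton] at ha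
      have : a ∈ A := by tauto
      have h2 : a ≠ y' := fun h => hyA' (h ▸ this)
      simp [h, h2]
  · intro a ha
    by_cases h : a = y'
    · simp [h]
    · simp only [Finset.mem_union, Finset.mem_singleton] at ha
      have : a ∈ A := by tauto
      have h2 : a ≠ y := fun h => hyA (h ▸ this)
      simp [h, h2]
  · intro i hi
    exact Finset.mem_union_left _ (hxA i hi)
  · intro i hi
    exact Finset.mem_union_left _ (hxA i hi)
  · intro i hi
    exact hgA i (hxA i hi)
  · intro q hq
    by_cases hyq : y ∈ q.2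
    · constructor
      · intro h
        exact absurd hyq (key y hy q h hq)
      · intro h
        exfalso
        refine key y' hy' _ h ?_ ?_
        · intro w hw
          simp only [List.mem_map] at hw
          obtain ⟨u, hu, rfl⟩ := hw
          have := hq u hu
          simp only [Finset.mem_union, Finset.mem_singleton] at this ⊢
          by_cases h : u = y
          · simp [h]
          · simp only [h, if_false]
            tauto
        · simp only [List.mem_map]
          exact ⟨y, hyq, by simp⟩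
    · rw [hmap q.2 hq hyq]
  · intro v v' l hl h1 h2 n hn
    by_cases hyl : y ∈ l
    · exact absurd hyl (key y hy (SSym.P, l) ⟨v, h1⟩ hl)
    · rw [hmap l hl hyl] at h2
      rw [ver_unique hL.inK h1 h2]


namespace CountAux

/-! ### Enumerations -/

/-- Enumeration of a finite set. -/
noncomputable def en (A : Finset ℕ) (i : ℕ) : ℕ :=
  if hi : i < A.card then (A.equivFin.symm ⟨i, hi⟩ : ℕ) else 0

/-- The index of a member of a finite set. -/
noncomputable def ix (A : Finset ℕ) (a : ℕ) : ℕ :=
  if ha : a ∈ A then (A.equivFin ⟨a, ha⟩ : ℕ) else 0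

theorem ix_lt {A : Finset ℕ} {a : ℕ} (ha : a ∈ A) : ix A a < A.card := by
  simp [ix, ha]

theorem en_mem {A : Finset ℕ} {i : ℕ} (hi : i < A.card) : en A i ∈ A := by
  simp [en, hi]

theorem en_ix {A : Finset ℕ} {a : ℕ} (ha : a ∈ A) : en A (ix A a) = a := by
  have := ix_lt ha
  simp [ix, en, ha]

theorem ix_en {A : Finset ℕ} {i : ℕ} (hi : i < A.card) : ix A (en A i) = i := by
  simp [en, ix, hi]

/-- Canonical names for `A` and `B`. -/
noncomputable def fw (A B : Finset ℕ) (x : ℕ) : ℕ :=
  if x < A.card then en A x else en B (x - A.card)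

open Classical in
/-- The canonical name of a member of `A` or `B`. -/
noncomputable def bw (A B : Finset ℕ) (z : ℕ) : ℕ :=
  if z ∈ A then ix A z else A.card + ix B z

theorem bw_lt {A B : Finset ℕ} {z : ℕ} (hz : z ∈ A ∪ B) : bw A B z < A.card + B.card := by
  unfold bw
  split_ifs with h
  · have := ix_lt h
    omega
  · have : z ∈ B := by
      rcases Finset.mem_union.1 hz with h' | h'
      · exact absurd h' h
      · exact h'
    have := ix_lt this
    omega

theorem bw_lt_iff {A B : Finset ℕ} {z : ℕ} : bw A B z < A.card ↔ z ∈ A := by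
  unfold bw
  split_ifs with h
  · simp [h, ix_lt h]
  · simp [h]

theorem fw_bw {A B : Finset ℕ} {z : ℕ} (hz : z ∈ A ∪ B) : fw A B (bw A B z) = z := by
  unfold fw
  by_cases h : z ∈ A
  · rw [if_pos (bw_lt_iff.2 h)]
    simp only [bw, if_pos h]
    exact en_ix h
  · rw [if_neg (fun h' => h (bw_lt_iff.1 h'))]
    have : z ∈ B := by
      rcases Finset.mem_union.1 hz with h' | h'
      · exact absurd h' h
      · exact h'
    simp only [bw, if_neg h]
    rw [Nat.add_sub_cancel_left]
    exact en_ix this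

theorem fw_memA {A B : Finset ℕ} {x : ℕ} (hx : x < A.card) : fw A B x ∈ A := by
  simp only [fw, if_pos hx]
  exact en_mem hx

theorem fw_memB {A B : Finset ℕ} {x : ℕ} (hx : A.card ≤ x) (hx' : x < A.card + B.card) :
    fw A B x ∈ B := by
  simp only [fw, if_neg (not_lt.2 hx)]
  exact en_mem (by omega)

theorem bw_fw {A B : Finset ℕ} (hAB : Disjoint A B) {x : ℕ} (hx : x < A.card + B.card) :
    bw A B (fw A B x) = x := by
  by_cases h : x < A.card
  · have := fw_memA (B := B) h
    simp only [bw, if_pos this]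
    simp only [fw, if_pos h]
    exact ix_en h
  · have := fw_memB (A := A) (not_lt.1 h) hx
    have hn : fw A B x ∉ A := fun h' => Finset.disjoint_left.1 hAB h' this
    simp only [bw, if_neg hn]
    simp only [fw, if_neg h]
    rw [ix_en (by omega)]
    omega

theorem fw_inj {A B : Finset ℕ} (hAB : Disjoint A B) {x y : ℕ} (hx : x < A.card + B.card)
    (hy : y < A.card + B.card) (h : fw A B x = fw A B y) : x = y := by
  rw [← bw_fw hAB hx, ← bw_fw hAB hy, h]

theorem map_fw_bw {A B : Finset ℕ} {l : List ℕ} (hl : ∀ z ∈ l, z ∈ A ∪ B) :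
    (l.map (bw A B)).map (fw A B) = l := by
  rw [List.map_map]
  conv_rhs => rw [← List.map_id l]
  apply List.map_congr_left
  intro z hz
  exact fw_bw (hl z hz)

/-! ### Finiteness of the set of types -/

/-- The visible symbols. -/
def vsym (t ν : ℕ) : Finset SSym :=
  ((Finset.range (t + 1)) ×ˢ (Finset.range (ν + 1))).image (fun p => SSym.E p.1 p.2) ∪
  (Finset.range (t + 1)).image SSym.K ∪ (Finset.range (t + 1)).image SSym.R ∪
  (Finset.range (t + 1)).image SSym.S ∪ {SSym.P}

theorem mem_vsym {Lam : ℕ → ℕ → ℕ} {M : Set Edge} {t ν : ℕ} {q : SEdge}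
    (hq : q ∈ NV Lam t ν M) : q.1 ∈ vsym t ν := by
  obtain ⟨s, l⟩ := q
  simp only [vsym, Finset.mem_union, Finset.mem_image, Finset.mem_product, Finset.mem_range,
    Finset.mem_singleton, Prod.exists]
  cases s with
  | E n i =>
    obtain ⟨h1, h2, _, _⟩ := hq
    exact Or.inl (Or.inl (Or.inl (Or.inl ⟨n, i, ⟨by omega, by omega⟩, rfl⟩)))
  | K n =>
    obtain ⟨h1, _⟩ := hq
    exact Or.inl (Or.inl (Or.inl (Or.inr ⟨n, by omega, rfl⟩)))
  | R n =>
    obtain ⟨h1, _⟩ := hq
    exact Or.inl (Or.inl (Or.inr ⟨n, by omega, rfl⟩))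
  | S n =>
    obtain ⟨h1, _⟩ := hq
    exact Or.inl (Or.inr ⟨n, by omega, rfl⟩)
  | P => exact Or.inr rfl

theorem rk_vsym {t ν : ℕ} {s : SSym} (hs : s ∈ vsym t ν) : s.rk ≤ t + ν := by
  simp only [vsym, Finset.mem_union, Finset.mem_image, Finset.mem_product, Finset.mem_range,
    Finset.mem_singleton, Prod.exists] at hs
  rcases hs with (((⟨n, i, ⟨h1, h2⟩, rfl⟩ | ⟨n, h1, rfl⟩) | ⟨n, h1, rfl⟩) | ⟨n, h1, rfl⟩) | rfl <;>
    simp only [SSym.rk] <;> omega

theorem finite_lists (m : ℕ) : {l : List ℕ | l.length ≤ 5 ∧ ∀ x ∈ l, x < m}.Finite := by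
  apply Set.Finite.subset ((List.finite_length_le (Fin m) 5).image (List.map Fin.val))
  rintro l ⟨h1, h2⟩
  refine ⟨l.pmap (fun x hx => (⟨x, hx⟩ : Fin m)) h2, by simpa using h1, ?_⟩
  rw [List.map_pmap]
  simp

/-- The possible symbolic edges of a type. -/
noncomputable def univ5 (t ν m : ℕ) : Finset SEdge := vsym t ν ×ˢ (finite_lists m).toFinset

theorem ar_le (s : SSym) : s.ar ≤ 5 := by cases s <;> simp [SSym.ar]

theorem wf_nv {Lam : ℕ → ℕ → ℕ} {M : Set Edge} (hM : InK Lam M) {t ν : ℕ} {q : SEdge}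
    (hq : q ∈ NV Lam t ν M) : q.2.length = q.1.ar ∧ q.2.Nodup := by
  obtain ⟨s, l⟩ := q
  cases s with
  | E n i => exact hM.wf _ hq.2.2.1
  | K n =>
    obtain ⟨_, v, _, h⟩ := hq
    exact hM.wf _ h
  | R n => exact hM.wf _ hq.2
  | S n => exact hM.wf _ hq.2
  | P =>
    obtain ⟨v, h⟩ := hq
    exact hM.wf _ h

/-! ### Minimal blocks -/

/-- Different minimal blocks are disjoint. -/
theorem block_disj {N : Set SEdge} {A B B' : Finset ℕ} {p : ℕ} (hA : RStrong N A (2 * p))
    (hB : MinBlock N A B) (hB' : MinBlock N A B') (hp : B.card ≤ p) (hp' : B'.card ≤ p)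
    (hne : B ≠ B') : Disjoint B B' := by
  classical
  by_contra hd
  obtain ⟨hAB, _, G, hG, hGc, hGm⟩ := hB
  obtain ⟨hAB', _, G', hG', hGc', hGm'⟩ := hB'
  have hI : (B ∩ B').Nonempty := by
    rwa [Finset.not_disjoint_iff_nonempty_inter] at hd
  -- the members of `G ∩ G'` lie over the intersection
  have hsub : G ∩ G' ⊆ G.filter (fun q => ∀ x ∈ q.2, x ∈ A ∪ (B ∩ B')) := by
    intro q hq
    rw [Finset.mem_inter] at hq
    refine Finset.mem_filter.2 ⟨hq.1, fun x hx => ?_⟩
    have h1 := ((hG q).1 hq.1).2.1 x hx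
    have h2 := ((hG' q).1 hq.2).2.1 x hx
    simp only [Finset.mem_union, Finset.mem_inter] at *
    tauto
  have hsub' : G ∩ G' ⊆ G'.filter (fun q => ∀ x ∈ q.2, x ∈ A ∪ (B ∩ B')) := by
    intro q hq
    have := Finset.mem_filter.1 (hsub hq)
    exact Finset.mem_filter.2 ⟨(Finset.mem_inter.1 hq).2, this.2⟩
  have hU : (G ∪ G').card ≤ (B ∪ B').card := by
    refine hA (B ∪ B') (Finset.disjoint_union_right.2 ⟨hAB, hAB'⟩)
      ((Finset.card_union_le _ _).trans (by omega)) _ ?_
    intro q hq
    rcases Finset.mem_union.1 hq with hq | hq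
    · obtain ⟨h1, h2, x, hx, hxB⟩ := (hG q).1 hq
      refine ⟨h1, fun z hz => ?_, x, hx, Finset.mem_union_left _ hxB⟩
      have := h2 z hz
      simp only [Finset.mem_union] at *
      tauto
    · obtain ⟨h1, h2, x, hx, hxB⟩ := (hG' q).1 hq
      refine ⟨h1, fun z hz => ?_, x, hx, Finset.mem_union_right _ hxB⟩
      have := h2 z hz
      simp only [Finset.mem_union] at *
      tauto
  have e1 := Finset.card_union_add_card_inter G G'
  have e2 := Finset.card_union_add_card_inter B B'
  by_cases hss : B ∩ B' ⊂ B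
  · have := hGm _ hss hI
    have := Finset.card_le_card hsub
    omega
  · have hBB : B ∩ B' = B := by
      rw [Finset.ssubset_iff_subset_ne] at hss
      push Not at hss
      exact hss Finset.inter_subset_left
    have hss' : B ∩ B' ⊂ B' := by
      rw [Finset.ssubset_iff_subset_ne]
      refine ⟨Finset.inter_subset_right, fun h => hne ?_⟩
      rw [← hBB]
      exact h
    have := hGm' _ hss' hI
    have := Finset.card_le_card hsub'
    omega

/-- A tight set contains a minimal block, and the rest is tight over it. -/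
theorem exists_block {N : Set SEdge} {A Z : Finset ℕ} {p : ℕ} (hA : RStrong N A (2 * p))
    (hZ : Tight N A Z) (hne : Z.Nonempty) (hp : Z.card ≤ p) :
    ∃ B ⊆ Z, MinBlock N A B ∧ Tight N (A ∪ B) (Z \ B) ∧ RStrong N (A ∪ B) (2 * (p - B.card)) := by
  classical
  obtain ⟨hAZ, G, hG, hGc⟩ := hZ
  set cnt : Finset ℕ → Finset SEdge := fun Y => G.filter (fun q => ∀ x ∈ q.2, x ∈ A ∪ Y) with hcnt
  have hZZ : cnt Z = G := by
    apply Finset.filter_true_of_mem
    intro q hq
    exact ((hG q).1 hq).2.1
  set F : Finset (Finset ℕ) := Z.powerset.filter (fun Y => Y.Nonempty ∧ Y.card ≤ (cnt Y).card)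
    with hF
  have hFne : F.Nonempty := ⟨Z, by
    simp only [hF, Finset.mem_filter, Finset.mem_powerset]
    exact ⟨subset_rfl, hne, by rw [hZZ, hGc]⟩⟩
  obtain ⟨B, hBF, hBmin⟩ := Finset.exists_min_image F Finset.card hFne
  simp only [hF, Finset.mem_filter, Finset.mem_powerset] at hBF
  obtain ⟨hBZ, hBne, hBc⟩ := hBF
  have hAB : Disjoint A B := hAZ.mono_right hBZ
  have hover : AllOver N A B (cnt B) := by
    intro q
    simp only [hcnt, Finset.mem_filter]
    constructor
    · rintro ⟨h1, h2⟩
      obtain ⟨h3, _, x, hx, hxZ⟩ := (hG q).1 h1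
      refine ⟨h3, h2, x, hx, ?_⟩
      rcases Finset.mem_union.1 (h2 x hx) with h | h
      · exact absurd hxZ (Finset.disjoint_left.1 hAZ h)
      · exact h
    · rintro ⟨h1, h2, x, hx, hxB⟩
      refine ⟨(hG q).2 ⟨h1, fun z hz => ?_, x, hx, hBZ hxB⟩, h2⟩
      rcases Finset.mem_union.1 (h2 z hz) with h | h
      · exact Finset.mem_union_left _ h
      · exact Finset.mem_union_right _ (hBZ h)
  have hBle : B.card ≤ p := (Finset.card_le_card hBZ).trans hp
  have hBeq : (cnt B).card = B.card := by
    apply le_antisymm _ hBc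
    exact hA B hAB (by omega) _ (fun q hq => (hover q).1 hq)
  refine ⟨B, hBZ, ⟨hAB, hBne, cnt B, hover, hBeq, ?_⟩, ⟨?_, ?_⟩, ?_⟩
  · intro Y hY hYne
    by_contra hcon
    push Not at hcon
    have hsub : (cnt B).filter (fun q => ∀ x ∈ q.2, x ∈ A ∪ Y) ⊆ cnt Y := by
      intro q hq
      simp only [hcnt, Finset.mem_filter] at hq ⊢
      exact ⟨hq.1.1, hq.2⟩
    have hYF : Y ∈ F := by
      simp only [hF, Finset.mem_filter, Finset.mem_powerset]
      exact ⟨hY.1.trans hBZ, hYne, hcon.trans (Finset.card_le_card hsub)⟩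
    have h1 := hBmin Y hYF
    have h2 := Finset.card_lt_card hY
    omega
  · rw [Finset.disjoint_union_left]
    exact ⟨hAZ.mono_right Finset.sdiff_subset, Finset.disjoint_sdiff⟩
  · refine ⟨G \ cnt B, ?_, ?_⟩
    · intro q
      simp only [hcnt, Finset.mem_sdiff, Finset.mem_filter, not_and]
      constructor
      · rintro ⟨h1, h2⟩
        have h3 := h2 h1
        push Not at h3
        obtain ⟨x, hx, hxAB⟩ := h3
        obtain ⟨h4, h5, _⟩ := (hG q).1 h1
        refine ⟨h4, fun z hz => ?_, x, hx, ?_⟩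
        · have := h5 z hz
          simp only [Finset.mem_union, Finset.mem_sdiff] at *
          tauto
        · have := h5 x hx
          simp only [Finset.mem_union, Finset.mem_sdiff] at *
          tauto
      · rintro ⟨h1, h2, x, hx, hxZ⟩
        rw [Finset.mem_sdiff] at hxZ
        refine ⟨(hG q).2 ⟨h1, fun z hz => ?_, x, hx, hxZ.1⟩, fun _ h3 => ?_⟩
        · have := h2 z hz
          simp only [Finset.mem_union, Finset.mem_sdiff] at *
          rcases this with (h | h) | h
          · exact Or.inl h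
          · exact Or.inr (hBZ h)
          · exact Or.inr h.1
        · have := h3 x hx
          rcases Finset.mem_union.1 this with h | h
          · exact Finset.disjoint_left.1 hAZ h hxZ.1
          · exact hxZ.2 h
    · rw [Finset.card_sdiff_of_subset (Finset.filter_subset _ _),
        Finset.card_sdiff_of_subset hBZ, hGc]
      show Z.card - (cnt B).card = _
      rw [hBeq]
  · intro Z' hZ' hc' G' hG'
    rw [Finset.disjoint_union_left] at hZ'
    have hd : Disjoint (cnt B) G' := by
      rw [Finset.disjoint_left]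
      intro q hq hq'
      obtain ⟨_, _, x, hx, hxZ⟩ := hG' q hq'
      have := (Finset.mem_filter.1 hq).2 x hx
      rcases Finset.mem_union.1 this with h | h
      · exact Finset.disjoint_left.1 hZ'.1 h hxZ
      · exact Finset.disjoint_left.1 hZ'.2 h hxZ
    have := hA (B ∪ Z') (Finset.disjoint_union_right.2 ⟨hAB, hZ'.1⟩)
      (by rw [Finset.card_union_of_disjoint hZ'.2]; omega) (cnt B ∪ G') (by
        intro q hq
        rcases Finset.mem_union.1 hq with hq | hq
        · obtain ⟨h1, h2, x, hx, hxB⟩ := (hover q).1 hq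
          refine ⟨h1, fun z hz => ?_, x, hx, Finset.mem_union_left _ hxB⟩
          have := h2 z hz
          simp only [Finset.mem_union] at *
          tauto
        · obtain ⟨h1, h2, x, hx, hxB⟩ := hG' q hq
          refine ⟨h1, fun z hz => ?_, x, hx, Finset.mem_union_right _ hxB⟩
          have := h2 z hz
          simp only [Finset.mem_union] at *
          tauto)
    rw [Finset.card_union_of_disjoint hd, Finset.card_union_of_disjoint hZ'.2, hBeq] at this
    omega


open Classical in
/-- All members over `(A, B)`. -/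
noncomputable def allG (N : Set SEdge) (A B : Finset ℕ) : Finset SEdge :=
  if h : ∃ G, AllOver N A B G then h.choose else ∅

theorem allG_eq {N : Set SEdge} {A B : Finset ℕ} {G : Finset SEdge} (h : AllOver N A B G) :
    allG N A B = G := by
  have hex : ∃ G, AllOver N A B G := ⟨G, h⟩
  simp only [allG, dif_pos hex]
  ext q
  rw [hex.choose_spec q, h q]

/-- Renaming. -/
noncomputable def ren (A B : Finset ℕ) (q : SEdge) : SEdge := (q.1, q.2.map (bw A B))

open Classical in
/-- The type of a block. -/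
noncomputable def sig (N : Set SEdge) (A B : Finset ℕ) : ℕ × Finset SEdge :=
  (B.card, (allG N A B).image (ren A B))

theorem ren_inj {A B : Finset ℕ} {q q' : SEdge} (h : ∀ x ∈ q.2, x ∈ A ∪ B)
    (h' : ∀ x ∈ q'.2, x ∈ A ∪ B) (he : ren A B q = ren A B q') : q = q' := by
  simp only [ren, Prod.mk.injEq] at he
  have h1 := map_fw_bw h
  have h2 := map_fw_bw h'
  rw [he.2, h2] at h1
  exact Prod.ext he.1 h1.symm

/-- Blocks of size one. -/
theorem single_unique {Lam : ℕ → ℕ → ℕ} {M : Set Edge} (hM : InK Lam M) {t ν : ℕ}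
    {A B B' : Finset ℕ} (hB : MinBlock (NV Lam t ν M) A B) (hB' : MinBlock (NV Lam t ν M) A B')
    (h1 : B.card = 1) (hs : sig (NV Lam t ν M) A B = sig (NV Lam t ν M) A B') : B = B' := by
  classical
  obtain ⟨hAB, _, G, hG, hGc, _⟩ := hB
  obtain ⟨hAB', _, G', hG', hGc', _⟩ := hB'
  simp only [sig, allG_eq hG, allG_eq hG', Prod.mk.injEq] at hs
  obtain ⟨hc, hs⟩ := hs
  rw [h1] at hc hGc
  rw [← hc] at hGc'
  obtain ⟨y, rfl⟩ := Finset.card_eq_one.1 h1
  obtain ⟨y', rfl⟩ := Finset.card_eq_one.1 hc.symm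
  obtain ⟨q, rfl⟩ := Finset.card_eq_one.1 hGc
  obtain ⟨q', rfl⟩ := Finset.card_eq_one.1 hGc'
  simp only [Finset.image_singleton, Finset.singleton_inj, ren, Prod.mk.injEq] at hs
  obtain ⟨hs1, hs2⟩ := hs
  obtain ⟨hN, hin, w, hw, hwy⟩ := (hG q).1 (by simp)
  obtain ⟨hN', hin', w', hw', hwy'⟩ := (hG' q').1 (by simp)
  rw [Finset.mem_singleton] at hwy hwy'
  subst hwy hwy'
  obtain ⟨s, l⟩ := q
  obtain ⟨s', l'⟩ := q'
  simp only at hs1 hs2 hw hw' hin hin'
  subst hs1
  -- the common list of names
  obtain ⟨m, hm⟩ : ∃ m, m = l.map (bw A {w}) := ⟨_, rfl⟩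
  have hl : m.map (fw A {w}) = l := by
    rw [hm]
    exact map_fw_bw hin
  have hl' : m.map (fw A {w'}) = l' := by
    rw [hm, hs2]
    exact map_fw_bw hin'
  have hbound : ∀ x ∈ m, x < A.card + 1 := by
    intro x hx
    rw [hm, List.mem_map] at hx
    obtain ⟨z, hz, rfl⟩ := hx
    simpa using bw_lt (hin z hz)
  have hwf := wf_nv hM hN
  have hfw : ∀ x, x < A.card → fw A {w} x = fw A {w'} x := by
    intro x hx
    simp [fw, hx]
  have hmnd : m.Nodup := by
    have : (m.map (fw A {w})).Nodup := by rw [hl]; exact hwf.2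
    exact List.Nodup.of_map _ this
  have hAm : A.card ∈ m := by
    rw [hm, List.mem_map]
    refine ⟨w, hw, ?_⟩
    have hwA : w ∉ A := fun h => Finset.disjoint_left.1 hAB h (by simp)
    simp only [bw, if_neg hwA]
    have := ix_lt (A := {w}) (a := w) (by simp)
    simp only [Finset.card_singleton] at this
    omega
  have hAgree : Agree l l' := by
    obtain ⟨p, hp, hpe⟩ := List.getElem_of_mem hAm
    refine ⟨p, fun k hk => ?_⟩
    have e1 : l[k]? = m[k]?.map (fw A {w}) := by rw [← List.getElem?_map, hl]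
    have e2 : l'[k]? = m[k]?.map (fw A {w'}) := by rw [← List.getElem?_map, hl']
    rw [e1, e2]
    rcases hkm : m[k]? with _ | x
    · rfl
    · simp only [Option.map_some, Option.some.injEq]
      apply hfw
      have hx : x ∈ m := List.mem_of_getElem? hkm
      have h2 := hbound x hx
      have hkl : k < m.length := by
        by_contra hcon
        rw [List.getElem?_eq_none (not_lt.1 hcon)] at hkm
        exact absurd hkm (by simp)
      have h3 : m[k] = x := by
        rw [List.getElem?_eq_getElem hkl] at hkm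
        simpa using hkm
      have h4 : x ≠ A.card := by
        intro h5
        apply hk
        rw [h5, ← hpe] at h3
        exact (List.Nodup.getElem_inj_iff hmnd).1 h3
      omega
  have fin : ∀ e e' : Edge, e ∈ M → e' ∈ M → e.1.kind = e'.1.kind → e.2 = l → e'.2 = l' →
      l = l' := by
    intro e e' he he' hk h2 h2'
    have := hM.fn e he e' he' hk (by rw [h2, h2']; exact hAgree)
    rw [← h2, ← h2', this]
  have hll : l = l' := by
    cases s with
    | E n i => exact fin _ _ hN.2.2.1 hN'.2.2.1 rfl rfl rfl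
    | R n => exact fin _ _ hN.2 hN'.2 rfl rfl rfl
    | S n => exact fin _ _ hN.2 hN'.2 rfl rfl rfl
    | P =>
      obtain ⟨v, hv⟩ := hN
      obtain ⟨v', hv'⟩ := hN'
      exact fin _ _ hv hv' rfl rfl rfl
    | K n =>
      obtain ⟨_, v, hv, hE⟩ := hN
      obtain ⟨_, v', hv', hE'⟩ := hN'
      have hwt : w ∉ l.take 2 := by
        intro hwt
        have : (SSym.P, l.take 2) ∈ ({(SSym.K n, l)} : Finset SEdge) := by
          rw [hG]
          refine ⟨⟨v, hv⟩, fun x hx => hin x (List.mem_of_mem_take hx), w, hwt, by simp⟩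
        simp at this
      have hmt : ∀ x ∈ m.take 2, x < A.card := by
        intro x hx
        rw [hm, ← List.map_take, List.mem_map] at hx
        obtain ⟨z, hz, rfl⟩ := hx
        rw [bw_lt_iff]
        have h5 := hin z (List.mem_of_mem_take hz)
        rcases Finset.mem_union.1 h5 with h5 | h5
        · exact h5
        · rw [Finset.mem_singleton] at h5
          subst h5
          exact absurd hz hwt
      have htt : l.take 2 = l'.take 2 := by
        have e1 : l.take 2 = (m.take 2).map (fw A {w}) := by rw [List.map_take, hl]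
        have e2 : l'.take 2 = (m.take 2).map (fw A {w'}) := by rw [List.map_take, hl']
        rw [e1, e2]
        apply List.map_congr_left
        intro x hx
        exact hfw x (hmt x hx)
      rw [← htt] at hv'
      have := ver_unique hM hv hv'
      subst this
      exact fin _ _ hE hE' rfl rfl rfl
  subst hll
  have := hin' w hw
  rcases Finset.mem_union.1 this with h | h
  · exact absurd (by simp) (Finset.disjoint_left.1 hAB h)
  · rw [Finset.mem_singleton] at h
    rw [h]

/-- The pattern of a type. -/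
noncomputable def patOf (α b : ℕ) (Q : Finset SEdge) : Pat where
  A := by
    classical
    exact (Finset.range α).filter (fun x => ∃ q ∈ Q, x ∈ q.2)
  C := Finset.Ico α (α + b)
  Q := Q

theorem patOf_good {Lam : ℕ → ℕ → ℕ} {M : Set Edge} (hM : InK Lam M) {t ν : ℕ}
    {A B : Finset ℕ} (hB : MinBlock (NV Lam t ν M) A B) (h2 : 2 ≤ B.card) :
    (patOf A.card B.card (sig (NV Lam t ν M) A B).2).Good := by
  classical
  obtain ⟨hAB, _, G, hG, hGc, hGm⟩ := hB
  have hsig : (sig (NV Lam t ν M) A B).2 = G.image (ren A B) := by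
    simp only [sig, allG_eq hG]
  rw [hsig]
  have hin : ∀ q ∈ G, ∀ x ∈ q.2, x ∈ A ∪ B := fun q hq => ((hG q).1 hq).2.1
  -- members contain two points of `B`
  have htwo : ∀ q ∈ G, ∀ y, ∃ z ∈ q.2, z ∈ B ∧ z ≠ y := by
    intro q hq y
    by_contra hcon
    push Not at hcon
    obtain ⟨_, _, w, hw, hwB⟩ := (hG q).1 hq
    have hwy := hcon w hw hwB
    subst hwy
    have hss : ({w} : Finset ℕ) ⊂ B := by
      rw [Finset.ssubset_iff_subset_ne]
      refine ⟨by simpa using hwB, fun h => ?_⟩
      rw [← h] at h2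
      simp at h2
    have := hGm {w} hss (by simp)
    rw [Finset.card_singleton, Nat.lt_one_iff, Finset.card_eq_zero] at this
    have hqm : q ∈ G.filter (fun q => ∀ x ∈ q.2, x ∈ A ∪ {w}) := by
      refine Finset.mem_filter.2 ⟨hq, fun x hx => ?_⟩
      rcases Finset.mem_union.1 (hin q hq x hx) with h | h
      · exact Finset.mem_union_left _ h
      · rw [hcon x hx h]
        simp
    rw [this] at hqm
    simp at hqm
  have hmemQ : ∀ q, q ∈ (patOf A.card B.card (G.image (ren A B))).Q ↔
      ∃ q' ∈ G, ren A B q' = q := by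
    intro q
    simp only [patOf, Finset.mem_image]
  have hmemA : ∀ x, x ∈ (patOf A.card B.card (G.image (ren A B))).A ↔
      x < A.card ∧ ∃ q ∈ G.image (ren A B), x ∈ q.2 := by
    intro x
    simp only [patOf, Finset.mem_filter, Finset.mem_range]
  constructor
  · simp only [patOf]
    rw [Finset.disjoint_left]
    intro x hx hx'
    simp only [Finset.mem_filter, Finset.mem_range, Finset.mem_Ico] at hx hx'
    omega
  · simpa [patOf] using h2
  · intro q hq
    obtain ⟨q', hq', rfl⟩ := (hmemQ q).1 hq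
    obtain ⟨h3, h4⟩ := wf_nv hM ((hG q').1 hq').1
    refine ⟨by simpa [ren] using h3, ?_⟩
    have : ((ren A B q').2.map (fw A B)).Nodup := by
      simp only [ren]
      rw [map_fw_bw (hin q' hq')]
      exact h4
    exact List.Nodup.of_map _ this
  · intro q hq x hx
    obtain ⟨q', hq', rfl⟩ := (hmemQ q).1 hq
    have hx' := hx
    simp only [ren, List.mem_map] at hx'
    obtain ⟨z, hz, hzx⟩ := hx'
    rw [Finset.mem_union]
    by_cases hlt : x < A.card
    · left
      rw [hmemA]
      exact ⟨hlt, _, Finset.mem_image_of_mem _ hq', hx⟩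
    · right
      have := bw_lt (hin q' hq' z hz)
      simp only [patOf, Finset.mem_Ico]
      omega
  · intro q hq
    obtain ⟨q', hq', rfl⟩ := (hmemQ q).1 hq
    obtain ⟨_, _, w, hw, hwB⟩ := (hG q').1 hq'
    refine ⟨bw A B w, by simp only [ren]; exact List.mem_map_of_mem hw, ?_⟩
    have h3 := bw_lt (A := A) (Finset.mem_union_right _ hwB)
    have h4 : ¬ bw A B w < A.card := fun h => by
      rw [bw_lt_iff] at h
      exact Finset.disjoint_left.1 hAB h hwB
    simp only [patOf, Finset.mem_Ico]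
    omega
  · intro x hx
    rw [hmemA] at hx
    exact hx.2
  · intro n l hl
    obtain ⟨q', hq', hql⟩ := (hmemQ _).1 hl
    obtain ⟨s, l'⟩ := q'
    simp only [ren, Prod.mk.injEq] at hql
    obtain ⟨rfl, rfl⟩ := hql
    rw [hmemQ]
    refine ⟨(SSym.P, l'.take 2), ?_, by simp only [ren, List.map_take]⟩
    have hq'' := (hG _).1 hq'
    obtain ⟨⟨_, v, hv, hE⟩, h3, _⟩ := hq''
    have h3' : ∀ x ∈ l', x ∈ A ∪ B := h3
    rw [hG]
    refine ⟨⟨v, hv⟩, fun x hx => h3' x (List.mem_of_mem_take hx), ?_⟩
    have hlen : l'.length = 3 := (hM.wf _ hE).1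
    obtain ⟨x0, x1, x2, rfl⟩ := List.length_eq_three.1 hlen
    obtain ⟨z, hz, hzB, hz2⟩ := htwo _ hq' x2
    simp only [List.mem_cons, List.not_mem_nil, or_false] at hz
    refine ⟨z, ?_, hzB⟩
    simp only [List.take_succ_cons, List.take_zero, List.mem_cons, List.not_mem_nil, or_false]
    tauto
  · simp only [patOf, Nat.card_Ico, Nat.add_sub_cancel_left]
    rw [Finset.card_image_of_injOn, hGc]
    intro q hq q' hq' h
    exact ren_inj (hin q hq) (hin q' hq') h
  · intro Y hY hYne
    have hYC : Y ⊆ Finset.Ico A.card (A.card + B.card) := hY.1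
    have hYinj : Set.InjOn (fw A B) (Y : Set ℕ) := by
      intro x hx y hy h
      have h3 := Finset.mem_Ico.1 (hYC hx)
      have h4 := Finset.mem_Ico.1 (hYC hy)
      exact fw_inj hAB h3.2 h4.2 h
    have hcardY : (Y.image (fw A B)).card = Y.card := Finset.card_image_of_injOn hYinj
    have hYB : Y.image (fw A B) ⊂ B := by
      rw [Finset.ssubset_iff_subset_ne]
      constructor
      · intro z hz
        obtain ⟨x, hx, rfl⟩ := Finset.mem_image.1 hz
        have h3 := Finset.mem_Ico.1 (hYC hx)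
        exact fw_memB h3.1 h3.2
      · intro h
        have h3 := Finset.card_lt_card hY
        simp only [patOf, Nat.card_Ico, Nat.add_sub_cancel_left] at h3
        rw [h] at hcardY
        omega
    have h5 := hGm _ hYB (hYne.image _)
    rw [hcardY] at h5
    refine lt_of_le_of_lt ?_ h5
    refine (Finset.card_le_card (t := (G.filter (fun q => ∀ x ∈ q.2,
      x ∈ A ∪ Y.image (fw A B))).image (ren A B)) ?_).trans Finset.card_image_le
    intro q hq
    rw [Finset.mem_filter] at hq
    obtain ⟨hq1, hq2⟩ := hq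
    obtain ⟨q', hq', rfl⟩ := (hmemQ q).1 hq1
    refine Finset.mem_image_of_mem _ (Finset.mem_filter.2 ⟨hq', fun x hx => ?_⟩)
    have h6 := hq2 (bw A B x) (by simp only [ren]; exact List.mem_map_of_mem hx)
    rcases Finset.mem_union.1 h6 with h7 | h7
    · rw [hmemA] at h7
      exact Finset.mem_union_left _ (bw_lt_iff.1 h7.1)
    · refine Finset.mem_union_right _ (Finset.mem_image.2 ⟨_, h7, fw_bw (hin q' hq' x hx)⟩)

/-- The number of minimal blocks is bounded. -/
theorem block_count {Lam : ℕ → ℕ → ℕ} {M : Set Edge} (hM : InK Lam M) (t ν a p : ℕ) :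
    ∃ N₁ : ℕ, ∀ A : Finset ℕ, A.card ≤ a → RStrong (NV Lam t ν M) A (2 * p) →
      ∀ 𝓑 : Finset (Finset ℕ), (∀ B ∈ 𝓑, MinBlock (NV Lam t ν M) A B ∧ B.card ≤ p) →
        𝓑.card ≤ N₁ := by
  classical
  set U : Finset (ℕ × Finset SEdge) :=
    (Finset.range (p + 1)) ×ˢ (univ5 t ν (a + p)).powerset with hU
  refine ⟨(a + p + (t + ν) + 1) * U.card, fun A hA hS 𝓑 h𝓑 => ?_⟩
  have himg : 𝓑.image (sig (NV Lam t ν M) A) ⊆ U := by
    intro σ hσ
    obtain ⟨B, hB, rfl⟩ := Finset.mem_image.1 hσ
    obtain ⟨⟨hAB, _, G, hG, _⟩, hp⟩ := h𝓑 B hB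
    simp only [hU, Finset.mem_product, Finset.mem_range, Finset.mem_powerset, sig, allG_eq hG]
    refine ⟨by omega, fun q hq => ?_⟩
    obtain ⟨q', hq', rfl⟩ := Finset.mem_image.1 hq
    obtain ⟨h1, h2, _⟩ := (hG q').1 hq'
    simp only [univ5, Finset.mem_product, Set.Finite.mem_toFinset, Set.mem_ofPred_eq, ren,
      List.length_map]
    refine ⟨mem_vsym h1, ?_, ?_⟩
    · rw [(wf_nv hM h1).1]
      exact ar_le _
    · intro x hx
      obtain ⟨z, hz, rfl⟩ := List.mem_map.1 hx
      have := bw_lt (h2 z hz)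
      omega
  refine (Finset.card_le_mul_card_image (f := sig (NV Lam t ν M) A) 𝓑
    (a + p + (t + ν) + 1) ?_).trans (Nat.mul_le_mul_left _ (Finset.card_le_card himg))
  intro σ hσ
  obtain ⟨B₀, hB₀, hσ₀⟩ := Finset.mem_image.1 hσ
  obtain ⟨hmin₀, hp₀⟩ := h𝓑 B₀ hB₀
  by_cases h1 : B₀.card = 1
  · have : (𝓑.filter (fun B => sig (NV Lam t ν M) A B = σ)).card ≤ 1 := by
      rw [Finset.card_le_one]
      intro B hB B' hB'
      rw [Finset.mem_filter] at hB hB'
      have e1 : B.card = 1 := by
        have := hB.2.trans hσ₀.symm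
        have h3 : (sig (NV Lam t ν M) A B).1 = (sig (NV Lam t ν M) A B₀).1 := by rw [this]
        simpa [sig, h1] using h3
      exact single_unique hM (h𝓑 B hB.1).1 (h𝓑 B' hB'.1).1 e1 (hB.2.trans hB'.2.symm)
    omega
  · have h2 : 2 ≤ B₀.card := by
      have := Finset.card_pos.2 hmin₀.2.1
      omega
    have hgood := patOf_good hM hmin₀ h2
    set F := 𝓑.filter (fun B => sig (NV Lam t ν M) A B = σ) with hF
    have hcardF : ∀ B ∈ F, B.card = B₀.card := by
      intro B hB
      have := (Finset.mem_filter.1 hB).2.trans hσ₀.symm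
      have h3 : (sig (NV Lam t ν M) A B).1 = (sig (NV Lam t ν M) A B₀).1 := by rw [this]
      simpa [sig] using h3
    rw [hσ₀] at hgood
    have hfam : Fam Lam M (patOf A.card B₀.card σ.2) (F.image Encodable.encode)
        (fun j => match (Encodable.decode j : Option (Finset ℕ)) with
          | some B => fw A B
          | none => id) := by
      have hAsub : ∀ x ∈ (patOf A.card B₀.card σ.2).A, x < A.card := by
        intro x hx
        simp only [patOf, Finset.mem_filter, Finset.mem_range] at hx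
        exact hx.1
      have hCsub : ∀ x ∈ (patOf A.card B₀.card σ.2).C, A.card ≤ x ∧ x < A.card + B₀.card := by
        intro x hx
        simpa only [patOf, Finset.mem_Ico] using hx
      constructor
      · intro j hj
        obtain ⟨B, hB, rfl⟩ := Finset.mem_image.1 hj
        simp only [Encodable.encodek]
        have hlt : ∀ x ∈ ((patOf A.card B₀.card σ.2).A ∪ (patOf A.card B₀.card σ.2).C :
            Finset ℕ), x < A.card + B.card := by
          intro x hx
          rw [hcardF B hB]
          rcases Finset.mem_union.1 hx with hx | hx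
          · have := hAsub x hx
            omega
          · exact (hCsub x hx).2
        intro x hx y hy hxy
        exact fw_inj (h𝓑 B (Finset.mem_filter.1 hB).1).1.1 (hlt x hx) (hlt y hy) hxy
      · intro i hi j hj x hx
        obtain ⟨B, hB, rfl⟩ := Finset.mem_image.1 hi
        obtain ⟨B', hB', rfl⟩ := Finset.mem_image.1 hj
        simp only [Encodable.encodek]
        simp only [fw, if_pos (hAsub x hx)]
      · intro i hi j hj hij x hx y hy
        obtain ⟨B, hB, rfl⟩ := Finset.mem_image.1 hi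
        obtain ⟨B', hB', rfl⟩ := Finset.mem_image.1 hj
        simp only [Encodable.encodek]
        have hne : B ≠ B' := fun h => hij (by rw [h])
        have hb := h𝓑 B (Finset.mem_filter.1 hB).1
        have hb' := h𝓑 B' (Finset.mem_filter.1 hB').1
        have hdis := block_disj hS hb.1 hb'.1 hb.2 hb'.2 hne
        have h3 := hCsub x hx
        have h4 := hCsub y hy
        have h5 : fw A B x ∈ B := fw_memB h3.1 (by rw [hcardF B hB]; exact h3.2)
        have h6 : fw A B' y ∈ B' := fw_memB h4.1 (by rw [hcardF B' hB']; exact h4.2)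
        intro h7
        rw [h7] at h5
        exact Finset.disjoint_left.1 hdis h5 h6
      · intro j hj q hq
        obtain ⟨B, hB, rfl⟩ := Finset.mem_image.1 hj
        simp only [Encodable.encodek]
        obtain ⟨⟨hAB, _, G, hG, _⟩, hp⟩ := h𝓑 B (Finset.mem_filter.1 hB).1
        have hQ : (patOf A.card B₀.card σ.2).Q = G.image (ren A B) := by
          have h3 := (Finset.mem_filter.1 hB).2
          rw [← h3]
          simp only [patOf, sig, allG_eq hG]
        rw [hQ] at hq ⊢
        obtain ⟨⟨s, l⟩, hq', rfl⟩ := Finset.mem_image.1 hq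
        obtain ⟨hN, hin, _⟩ := (hG _).1 hq'
        have hin' : ∀ x ∈ l, x ∈ A ∪ B := hin
        have e1 : (l.map (bw A B)).map (fw A B) = l := map_fw_bw hin'
        have e2 : ((l.map (bw A B)).take 2).map (fw A B) = l.take 2 := by
          rw [List.map_take, e1]
        cases s with
        | E n i =>
          simp only [ren, Matched]
          rw [e1, e2]
          exact ⟨hN.2.2.1, fun _ => hN.2.2.2⟩
        | K n =>
          simp only [ren, Matched]
          rw [e1, e2]
          exact hN.2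
        | R n =>
          simp only [ren, Matched]
          rw [e1]
          exact hN.2
        | S n =>
          simp only [ren, Matched]
          rw [e1]
          exact hN.2
        | P =>
          simp only [ren, Matched]
          rw [e1]
          exact hN
    have hmu := hM.mu _ hgood _ _ hfam
    rw [Finset.card_image_of_injective _ Encodable.encode_injective] at hmu
    refine hmu.trans ?_
    have hA1 : (patOf A.card B₀.card σ.2).A.card ≤ A.card := by
      simp only [patOf]
      exact (Finset.card_filter_le _ _).trans (by simp)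
    have hC1 : (patOf A.card B₀.card σ.2).C.card = B₀.card := by
      simp [patOf]
    have hsup : (patOf A.card B₀.card σ.2).Q.sup (fun q => q.1.rk) ≤ t + ν := by
      apply Finset.sup_le
      intro q hq
      have hσU := himg hσ
      simp only [hU, Finset.mem_product, Finset.mem_powerset] at hσU
      have := hσU.2 hq
      simp only [univ5, Finset.mem_product] at this
      exact rk_vsym this.1
    unfold Pat.mu
    omega

end CountAux

/-- Counting the nongeneric points. -/
theorem Count_proof : S_Count := by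
  classical
  intro Lam TPs M c t ν hL a p
  have hM := hL.inK
  induction p using Nat.strong_induction_on generalizing a with
  | _ p ih =>
    obtain ⟨N₁, hN₁⟩ := block_count hM t ν a p
    -- a common bound for the smaller cases
    have hex : ∀ p' : ℕ, ∃ N : ℕ, p' < p → ∀ A : Finset ℕ, A.card ≤ a + p →
        RStrong (NV Lam t ν M) A (2 * p') → ∀ S : Finset ℕ,
        (∀ y ∈ S, ∃ Z, y ∈ Z ∧ Z.card ≤ p' ∧ Tight (NV Lam t ν M) A Z) → S.card ≤ N := by
      intro p'
      by_cases h : p' < p
      · obtain ⟨N, hN⟩ := ih p' h (a + p)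
        exact ⟨N, fun _ => hN⟩
      · exact ⟨0, fun h' => absurd h' h⟩
    choose N₂ hN₂ using hex
    refine ⟨(p + ∑ p' ∈ Finset.range p, N₂ p') * N₁, fun A hA hS S hSt => ?_⟩
    have hch : ∀ y : ℕ, ∃ B : Finset ℕ, y ∈ S → MinBlock (NV Lam t ν M) A B ∧ B.card ≤ p ∧
        RStrong (NV Lam t ν M) (A ∪ B) (2 * (p - B.card)) ∧
        (y ∈ B ∨ ∃ Z, y ∈ Z ∧ Z.card ≤ p - B.card ∧ Tight (NV Lam t ν M) (A ∪ B) Z) := by
      intro y
      by_cases hy : y ∈ S
      · obtain ⟨Z, hyZ, hZp, hZt⟩ := hSt y hy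
        obtain ⟨B, hBZ, hB1, hB2, hB3⟩ := exists_block hS hZt ⟨y, hyZ⟩ hZp
        have hBp : B.card ≤ p := (Finset.card_le_card hBZ).trans hZp
        refine ⟨B, fun _ => ⟨hB1, hBp, hB3, ?_⟩⟩
        by_cases hyB : y ∈ B
        · exact Or.inl hyB
        · refine Or.inr ⟨Z \ B, Finset.mem_sdiff.2 ⟨hyZ, hyB⟩, ?_, hB2⟩
          rw [Finset.card_sdiff_of_subset hBZ]
          omega
      · exact ⟨∅, fun h => absurd h hy⟩
    choose Bf hBf using hch
    have h𝓑 : (S.image Bf).card ≤ N₁ := by
      apply hN₁ A hA hS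
      intro B hB
      obtain ⟨y, hy, rfl⟩ := Finset.mem_image.1 hB
      exact ⟨(hBf y hy).1, (hBf y hy).2.1⟩
    refine (Finset.card_le_mul_card_image (f := Bf) S
      (p + ∑ p' ∈ Finset.range p, N₂ p') ?_).trans (Nat.mul_le_mul_left _ h𝓑)
    intro B hB
    obtain ⟨y₀, hy₀, hBy₀⟩ := Finset.mem_image.1 hB
    obtain ⟨hmin, hBp, hstr, _⟩ := hBf y₀ hy₀
    rw [hBy₀] at hmin hBp hstr
    set F := S.filter (fun y => Bf y = B) with hF
    have hpos : 0 < B.card := Finset.card_pos.2 hmin.2.1
    have hlt : p - B.card < p := by omega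
    have hsd : (F \ B).card ≤ N₂ (p - B.card) := by
      apply hN₂ _ hlt (A ∪ B) _ hstr
      · intro y hy
        rw [Finset.mem_sdiff] at hy
        obtain ⟨hy1, hy2⟩ := hy
        rw [hF, Finset.mem_filter] at hy1
        have := (hBf y hy1.1).2.2.2
        rw [hy1.2] at this
        rcases this with h | h
        · exact absurd h hy2
        · exact h
      · exact (Finset.card_union_le _ _).trans (by omega)
    have hle : F.card ≤ B.card + (F \ B).card := by
      have h1 : F ⊆ B ∪ (F \ B) := by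
        intro y hy
        by_cases h : y ∈ B
        · exact Finset.mem_union_left _ h
        · exact Finset.mem_union_right _ (Finset.mem_sdiff.2 ⟨hy, h⟩)
      exact (Finset.card_le_card h1).trans (Finset.card_union_le _ _)
    have hsum : N₂ (p - B.card) ≤ ∑ p' ∈ Finset.range p, N₂ p' :=
      Finset.single_le_sum (f := N₂) (fun _ _ => Nat.zero_le _) (Finset.mem_range.2 hlt)
    omega

end Pool.Agent.Helper367SM
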