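import Pool.Agent.Helper367_SM.Spec

/-!
Definability in the limit and the choice of parameters (MP_fd2900_lc, task DEFN).
-/

set_option autoImplicit false

namespace Pool.Agent.Helper367SM

namespace DefnAux

variable {Lam : ℕ → ℕ → ℕ} {TPs : Set ℕ} {M : Set Edge} {c : ℕ → ℕ}

/-- a version of (R1) with the conclusion: the edge exists in `M` -/
theorem exists_edge (hS : S_Single) (hL : Lim Lam TPs M c) (s : SSym) (l : List ℕ) (p : ℕ)
    (hs : ∀ n, s ≠ SSym.K n) (hlen : l.length = s.ar) (hp : p < l.length)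
    (hnd : (l.eraseIdx p).Nodup)
    (hR : ∀ n, s = SSym.R n → p = 4 → (Sym.S n, l.take 4) ∉ M)
    (hSS : ∀ n v, s = SSym.S n → 2 ≤ p → (Sym.P v, l.take 2) ∈ M →
      p = 3 ∧ (Sym.E n (Lam v n), l.take 3) ∈ M) :
    ∃ y, ∃ e ∈ M, e.1.kind = s ∧ e.2 = l.set p y := by
  by_contra hcon
  push Not at hcon
  have hfill : ∀ y, ∀ e ∈ M, e.1.kind = s → e.2 ≠ l.set p y := fun y e he hk => hcon y e he hk
  obtain ⟨v, _, _, _, _, h⟩ := hS Lam TPs M c hL s l p hs hlen hp hnd hfill hR hSS 0
  have hmem : (instS Lam v s, l.set p (c v)) ∈ M := by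
    have : (instS Lam v s, l.set p (c v)) ∈ restr M (c (v + 1)) := by
      rw [h]; exact Or.inr rfl
    exact this.1
  refine hfill (c v) _ hmem ?_ rfl
  cases s with
  | E n i => rfl
  | K n => exact absurd rfl (hs n)
  | R n => rfl
  | S n => rfl
  | P => rfl

theorem kind_S {s : Sym} {n : ℕ} (h : s.kind = SSym.S n) : s = Sym.S n := by
  cases s with
  | E n i => cases h
  | R n => cases h
  | S n => injection h with h; rw [h]
  | P v => cases h

theorem kind_R {s : Sym} {n : ℕ} (h : s.kind = SSym.R n) : s = Sym.R n := by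
  cases s with
  | E n i => cases h
  | R n => injection h with h; rw [h]
  | S n => cases h
  | P v => cases h

theorem kind_E {s : Sym} {n i : ℕ} (h : s.kind = SSym.E n i) : s = Sym.E n i := by
  cases s with
  | E n i => injection h with h h'; rw [h, h']
  | R n => cases h
  | S n => cases h
  | P v => cases h

theorem kind_P {s : Sym} (h : s.kind = SSym.P) : ∃ v, s = Sym.P v := by
  cases s with
  | E n i => cases h
  | R n => cases h
  | S n => cases h
  | P v => exact ⟨v, rfl⟩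

theorem finite_of_ver (hL : Lim Lam TPs M c) (s : ℕ) (T : ℕ → Prop)
    (hT : ∀ v ∈ TPs, s ≤ v → ¬ T v) : {l | ∃ v, (Sym.P v, l) ∈ M ∧ T v}.Finite := by
  have h : {l | ∃ v, (Sym.P v, l) ∈ M ∧ T v} ⊆
      ⋃ v ∈ Finset.range s, {l | (Sym.P v, l) ∈ M} := by
    rintro l ⟨v, hv, hTv⟩
    have hlt : v < s := by
      by_contra hle
      exact hT v (hL.verTP v l hv) (by omega) hTv
    exact Set.mem_biUnion (Finset.mem_coe.2 (Finset.mem_range.2 hlt)) hv
  refine Set.Finite.subset ?_ h
  exact Set.Finite.biUnion (Finset.finite_toSet _) fun v _ => hL.finP v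

/-- a finite set of lists has a bound for all entries -/
theorem exists_bound {Γ : Set (List ℕ)} (h : Γ.Finite) : ∃ x, ∀ l ∈ Γ, ∀ y ∈ l, y < x := by
  refine ⟨h.toFinset.sup List.sum + 1, fun l hl y hy => ?_⟩
  have h1 : l.sum ≤ h.toFinset.sup List.sum :=
    Finset.le_sup (f := List.sum) (h.mem_toFinset.2 hl)
  have h2 := List.le_sum_of_mem hy
  omega

end DefnAux

open DefnAux

/-- (D1) -/
theorem D1_proof (hS : S_Single) : S_D1 := by
  intro Lam TPs M c hL n l hlen hnd
  constructor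
  · intro h
    by_contra hcon
    have e1 : (l ++ [0]).length = 5 := by simp [hlen]
    have e2 : (l ++ [0]).eraseIdx 4 = l := by
      rw [← hlen, List.eraseIdx_append_of_length_le le_rfl, Nat.sub_self]
      simp
    have e3 : (l ++ [0]).take 4 = l := by
      rw [List.take_append_of_le_length (by omega), List.take_of_length_le (by omega)]
    have e4 : ∀ y, (l ++ [0]).set 4 y = l ++ [y] := by
      intro y
      rw [List.set_append_right _ _ (by omega), hlen]
      rfl
    obtain ⟨y, e, he, hk, hel⟩ := exists_edge hS hL (SSym.R n) (l ++ [0]) 4 (fun m h => by cases h)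
      e1 (by omega) (by rw [e2]; exact hnd)
      (fun m hm _ => by
        injection hm with hm
        rw [e3, ← hm]
        exact hcon)
      (fun m v hm => by cases hm)
    rw [e4] at hel
    obtain ⟨s, m⟩ := e
    simp only at hk hel
    rw [kind_R hk, hel] at he
    exact h y he
  · intro h u
    exact hL.inK.h1 n l u h

/-- (D2) -/
theorem D2_proof (hS : S_Single) : S_D2 := by
  intro Lam TPs M c hL x0 x1 hne
  constructor
  · rintro ⟨v, hv⟩ x2 x3 y2 y3 h h'
    have h1 := hL.inK.h2 0 v _ h hv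
    have h2 := hL.inK.h2 0 v _ h' hv
    have h3 := hL.inK.fn _ h1 _ h2 rfl ⟨2, fun k hk => by
      match k, hk with
      | 0, _ => rfl
      | 1, _ => rfl
      | k + 3, _ => rfl⟩
    rw [Prod.mk.injEq] at h3
    have h4 := h3.2
    simpa using h4
  · intro h
    by_contra hcon
    push Not at hcon
    have key : ∀ x2, x2 ≠ x0 → x2 ≠ x1 → ∃ x3, (Sym.S 0, [x0, x1, x2, x3]) ∈ M := by
      intro x2 h0 h1
      obtain ⟨y, e, he, hk, hel⟩ := exists_edge hS hL (SSym.S 0) [x0, x1, x2, 0] 3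
        (fun m h => by cases h) rfl (by simp) (by simp [hne, h0.symm, h1.symm])
        (fun m hm => by cases hm)
        (fun m v _ _ hv => absurd hv (hcon v))
      obtain ⟨s, m⟩ := e
      simp only at hk hel
      rw [kind_S hk, hel] at he
      exact ⟨y, he⟩
    obtain ⟨a3, ha⟩ := key (x0 + x1 + 1) (by omega) (by omega)
    obtain ⟨b3, hb⟩ := key (x0 + x1 + 2) (by omega) (by omega)
    have := h _ _ _ _ ha hb
    omega

/-- (D3) -/
theorem D3_proof (hS : S_Single) : S_D3 := by
  intro Lam TPs M c hL x0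
  obtain ⟨y, e, he, hk, hel⟩ := exists_edge hS hL SSym.P [x0, 0] 1
    (fun m h => by cases h) rfl (by simp) (by simp)
    (fun m hm => by cases hm)
    (fun m v hm => by cases hm)
  obtain ⟨s, m⟩ := e
  simp only at hk hel
  obtain ⟨v, hv⟩ := kind_P hk
  rw [hv, hel] at he
  exact ⟨y, v, he⟩

/-- (D4) -/
theorem D4_proof (hS : S_Single) : S_D4 := by
  intro Lam TPs M c hL x0 x1 v hv n
  have hnd := (hL.inK.wf _ hv).2
  have hne : x0 ≠ x1 := by simpa using hnd
  obtain ⟨x2, e, he, hk, hel⟩ := exists_edge hS hL (SSym.E n (Lam v n)) [x0, x1, 0] 2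
    (fun m h => by cases h) rfl (by simp) (by simp [hne])
    (fun m hm => by cases hm)
    (fun m v hm => by cases hm)
  obtain ⟨s, m⟩ := e
  simp only at hk hel
  rw [kind_E hk, hel] at he
  have he' : (Sym.E n (Lam v n), [x0, x1, x2]) ∈ M := he
  have hnd2 := (hL.inK.wf _ he').2
  obtain ⟨x3, e, he, hk, hel⟩ := exists_edge hS hL (SSym.S n) [x0, x1, x2, 0] 3
    (fun m h => by cases h) rfl (by simp) hnd2
    (fun m hm => by cases hm)
    (fun m v' hm _ hv' => by
      injection hm with hm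
      subst hm
      refine ⟨rfl, ?_⟩
      have h1 := hL.inK.fn _ hv' _ hv rfl ⟨0, fun k _ => rfl⟩
      rw [Prod.mk.injEq, Sym.P.injEq] at h1
      rw [h1.1]
      exact he')
  obtain ⟨s, m⟩ := e
  simp only at hk hel
  rw [kind_S hk, hel] at he
  exact ⟨x2, x3, he⟩

/-- (D5) -/
theorem D5_proof : S_D5 := by
  intro Lam TPs M c hL x0 x1 x2 x3 v n i hv hS
  have h1 := hL.inK.h2 n v _ hS hv
  constructor
  · intro h
    exact hL.inK.h3 n i (Lam v n) _ h h1
  · rintro rfl
    exact h1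

/-- (D6) -/
theorem D6_proof : S_D6 := by
  intro Lam TPs M c Pst lim hL hlab
  constructor
  · intro n hn
    obtain ⟨s, hs⟩ := hlab.outP n hn
    exact finite_of_ver hL s (fun v => Lam v n ≠ lim n) fun v hv hsv h => h (hs v hv hsv)
  · intro n hn i
    obtain ⟨s, hs⟩ := hlab.inP n hn i
    refine finite_of_ver hL s (fun v => Lam v n ≤ i) fun v hv hsv h => ?_
    have := hs v hv hsv
    omega

/-- parameters -/
theorem Par_proof : S_Par := by
  intro Lam TPs M c Pst lim hL hlab t
  obtain ⟨h1, h2⟩ := D6_proof Lam TPs M c Pst lim hL hlab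
  obtain ⟨ν, htν, hν⟩ : ∃ ν, t ≤ ν ∧ ∀ n ≤ t, lim n ≤ ν := by
    refine ⟨max t ((Finset.range (t + 1)).sup lim), le_max_left _ _, fun n hn => ?_⟩
    exact le_max_of_le_right (Finset.le_sup (f := lim) (Finset.mem_range.2 (by omega)))
  have hfin : (⋃ n ∈ Finset.range (t + 1), {l | ∃ v, (Sym.P v, l) ∈ M ∧
      ((n ∉ Pst ∧ Lam v n ≠ lim n) ∨ (n ∈ Pst ∧ Lam v n ≤ ν))}).Finite := by
    refine Set.Finite.biUnion (Finset.finite_toSet _) fun n _ => ?_
    by_cases hn : n ∈ Pst
    · refine (h2 n hn ν).subset ?_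
      rintro l ⟨v, hv, ⟨h, _⟩ | ⟨_, h⟩⟩
      · exact absurd hn h
      · exact ⟨v, hv, h⟩
    · refine (h1 n hn).subset ?_
      rintro l ⟨v, hv, ⟨_, h⟩ | ⟨h, _⟩⟩
      · exact ⟨v, hv, h⟩
      · exact absurd h hn
  obtain ⟨x, hx⟩ := exists_bound hfin
  refine ⟨ν, max x (t + 1), htν, lt_of_lt_of_le (Nat.lt_succ_self t) (le_max_right _ _),
    fun n hn _ => hν n hn, ?_, ?_⟩
  · rintro v l hv ⟨y, hy, hxy⟩ n hn hnP
    by_contra hlt
    have := hx l (Set.mem_biUnion (Finset.mem_coe.2 (Finset.mem_range.2 (Nat.lt_succ_of_le hn)))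
      ⟨v, hv, Or.inr ⟨hnP, by omega⟩⟩) y hy
    have := le_max_left x (t + 1)
    omega
  · rintro v l hv ⟨y, hy, hxy⟩ n hn hnP
    by_contra hne
    have := hx l (Set.mem_biUnion (Finset.mem_coe.2 (Finset.mem_range.2 (Nat.lt_succ_of_le hn)))
      ⟨v, hv, Or.inl ⟨hnP, hne⟩⟩) y hy
    have := le_max_left x (t + 1)
    omega

end Pool.Agent.Helper367SM
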