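import Mathlib

set_option autoImplicit false

/-!
Definitions for the strongly minimal set of MP_fd2900_lc: edges, symbolic edges, matching,
patterns, the class `InK`, the guessing system, tasks, the construction and its limit.
-/

namespace Pool.Agent.Helper367SM

/-- Actual symbols of edges. `P v` is the pair relation with version `v`. -/
inductive Sym : Type
  | E (n i : ℕ)
  | R (n : ℕ)
  | S (n : ℕ)
  | P (v : ℕ)
  deriving DecidableEq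

/-- Symbolic symbols. -/
inductive SSym : Type
  | E (n i : ℕ)
  | K (n : ℕ)
  | R (n : ℕ)
  | S (n : ℕ)
  | P
  deriving DecidableEq

/-- Arity of a symbol. -/
def Sym.ar : Sym → ℕ
  | Sym.E _ _ => 3
  | Sym.R _ => 5
  | Sym.S _ => 4
  | Sym.P _ => 2

/-- Arity of a symbolic symbol. -/
def SSym.ar : SSym → ℕ
  | SSym.E _ _ => 3
  | SSym.K _ => 3
  | SSym.R _ => 5
  | SSym.S _ => 4
  | SSym.P => 2

/-- The kind of a symbol: versions of `P` are identified. -/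
def Sym.kind : Sym → SSym
  | Sym.E n i => SSym.E n i
  | Sym.R n => SSym.R n
  | Sym.S n => SSym.S n
  | Sym.P _ => SSym.P

/-- The largest index occurring in a symbolic symbol. -/
def SSym.rk : SSym → ℕ
  | SSym.E n i => max n i
  | SSym.K n => n
  | SSym.R n => n
  | SSym.S n => n
  | SSym.P => 0

/-- Edges: a symbol and a list of vertices. -/
abbrev Edge := Sym × List ℕ

/-- Symbolic edges: a symbolic symbol and a list of names. -/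
abbrev SEdge := SSym × List ℕ

/-- A symbolic edge `q` (a member of `Q`) is matched by `f` in the set of edges `X`. -/
def Matched (Lam : ℕ → ℕ → ℕ) (X : Set Edge) (Q : Finset SEdge) (f : ℕ → ℕ) : SEdge → Prop
  | (SSym.E n i, l) => (Sym.E n i, l.map f) ∈ X ∧
      ((SSym.P, l.take 2) ∈ Q → ∀ v, (Sym.P v, (l.take 2).map f) ∈ X → Lam v n ≠ i)
  | (SSym.K n, l) => ∃ v, (Sym.P v, (l.take 2).map f) ∈ X ∧ (Sym.E n (Lam v n), l.map f) ∈ X
  | (SSym.R n, l) => (Sym.R n, l.map f) ∈ X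
  | (SSym.S n, l) => (Sym.S n, l.map f) ∈ X
  | (SSym.P, l) => ∃ v, (Sym.P v, l.map f) ∈ X

/-- `e` is an edge of `X` matching `q` under `f`. -/
def MEdge (Lam : ℕ → ℕ → ℕ) (X : Set Edge) (f : ℕ → ℕ) (e : Edge) : SEdge → Prop
  | (SSym.E n i, l) => e = (Sym.E n i, l.map f) ∧ e ∈ X
  | (SSym.K n, l) => ∃ v, (Sym.P v, (l.take 2).map f) ∈ X ∧ e = (Sym.E n (Lam v n), l.map f) ∧ e ∈ X
  | (SSym.R n, l) => e = (Sym.R n, l.map f) ∧ e ∈ X
  | (SSym.S n, l) => e = (Sym.S n, l.map f) ∧ e ∈ X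
  | (SSym.P, l) => ∃ v, e = (Sym.P v, l.map f) ∧ e ∈ X

/-- A pattern: base names, block names, symbolic edges. -/
structure Pat where
  A : Finset ℕ
  C : Finset ℕ
  Q : Finset SEdge

/-- The multiplicity bound of a pattern. -/
def Pat.mu (π : Pat) : ℕ := π.A.card + π.C.card + π.Q.sup (fun q => q.1.rk)

/-- Good patterns. -/
structure Pat.Good (π : Pat) : Prop where
  disj : Disjoint π.A π.C
  two : 2 ≤ π.C.card
  wf : ∀ q ∈ π.Q, q.2.length = q.1.ar ∧ q.2.Nodup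
  inside : ∀ q ∈ π.Q, ∀ x ∈ q.2, x ∈ π.A ∪ π.C
  meets : ∀ q ∈ π.Q, ∃ x ∈ q.2, x ∈ π.C
  cover : ∀ a ∈ π.A, ∃ q ∈ π.Q, a ∈ q.2
  kp : ∀ n l, (SSym.K n, l) ∈ π.Q → (SSym.P, l.take 2) ∈ π.Q
  card : π.Q.card = π.C.card
  min : ∀ Y ⊂ π.C, Y.Nonempty →
    (π.Q.filter (fun q => ∀ x ∈ q.2, x ∈ π.A ∪ Y)).card < Y.card

/-- A disjoint family of copies of `π` in `X`, indexed by `J`. -/
structure Fam (Lam : ℕ → ℕ → ℕ) (X : Set Edge) (π : Pat) (J : Finset ℕ) (f : ℕ → ℕ → ℕ) :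
    Prop where
  inj : ∀ j ∈ J, Set.InjOn (f j) (π.A ∪ π.C : Finset ℕ)
  base : ∀ i ∈ J, ∀ j ∈ J, ∀ a ∈ π.A, f i a = f j a
  disj : ∀ i ∈ J, ∀ j ∈ J, i ≠ j → ∀ x ∈ π.C, ∀ y ∈ π.C, f i x ≠ f j y
  mat : ∀ j ∈ J, ∀ q ∈ π.Q, Matched Lam X π.Q (f j) q

/-- Two lists agree except possibly at one position. -/
def Agree (l l' : List ℕ) : Prop := ∃ p : ℕ, ∀ k : ℕ, k ≠ p → l[k]? = l'[k]?

/-- The class `K`. -/
structure InK (Lam : ℕ → ℕ → ℕ) (X : Set Edge) : Prop where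
  wf : ∀ e ∈ X, e.2.length = e.1.ar ∧ e.2.Nodup
  h1 : ∀ n l u, (Sym.S n, l) ∈ X → (Sym.R n, l ++ [u]) ∉ X
  h2 : ∀ n v l, (Sym.S n, l) ∈ X → (Sym.P v, l.take 2) ∈ X → (Sym.E n (Lam v n), l.take 3) ∈ X
  h3 : ∀ n i j l, (Sym.E n i, l) ∈ X → (Sym.E n j, l) ∈ X → i = j
  fn : ∀ e ∈ X, ∀ e' ∈ X, e.1.kind = e'.1.kind → Agree e.2 e'.2 → e = e'
  mu : ∀ π : Pat, π.Good → ∀ (J : Finset ℕ) (f : ℕ → ℕ → ℕ), Fam Lam X π J f → J.card ≤ π.mu

/-! ### The guessing system -/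

/-- The true stages: those lying on `path t` for infinitely many `t`. -/
def TP (path : ℕ → List ℕ) : Set ℕ := {v | ∀ s, ∃ t, s < t ∧ v ∈ path t}

/-- The guessing system. -/
structure GS (path : ℕ → List ℕ) : Prop where
  nodup : ∀ t, (path t).Nodup
  lt : ∀ t, ∀ v ∈ path t, v < t
  s1 : ∀ t, ∀ v ∈ path t, ∀ u, u ∈ path v ↔ (u ∈ path t ∧ u < v)
  s2 : ∀ t t' v u, v ∈ path t → v < t' → t' < t → u ∈ path t' → u < v → u ∈ path v
  s3 : (TP path).Infinite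

/-- `w` is alive at `t`. -/
def Alive (path : ℕ → List ℕ) (w t : ℕ) : Prop :=
  ∀ t', w < t' → t' ≤ t → ∀ u ∈ path t', u < w → u ∈ path w

/-- The behaviour of the labels along the true stages. -/
structure LabLim (Lam : ℕ → ℕ → ℕ) (TPs : Set ℕ) (Pst : Set ℕ) (lim : ℕ → ℕ) : Prop where
  inP : ∀ n ∈ Pst, ∀ i, ∃ s, ∀ v ∈ TPs, s ≤ v → i < Lam v n
  outP : ∀ n, n ∉ Pst → ∃ s, ∀ v ∈ TPs, s ≤ v → Lam v n = lim n

/-! ### Tasks and the construction -/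

/-- An edge with symbol of this kind created at stage `j` is believed at stage `t`. -/
def Bel (path : ℕ → List ℕ) (t j : ℕ) : Sym → Prop
  | Sym.E _ _ => True
  | Sym.R _ => True
  | Sym.S _ => Alive path j t
  | Sym.P _ => j ∈ path t

/-- The structure believed at stage `t`. -/
def Str (path : ℕ → List ℕ) (New : ℕ → Finset Edge) (t : ℕ) : Set Edge :=
  {e | ∃ j < t, e ∈ New j ∧ Bel path t j e.1}

/-- Names below `β` denote themselves, the others denote new vertices. -/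
def theta (β c x : ℕ) : ℕ := if x < β then x else c + (x - β)

/-- The actual symbol used by version `v`. -/
def instS (Lam : ℕ → ℕ → ℕ) (v : ℕ) : SSym → Sym
  | SSym.E n i => Sym.E n i
  | SSym.K n => Sym.E n (Lam v n)
  | SSym.R n => Sym.R n
  | SSym.S n => Sym.S n
  | SSym.P => Sym.P v

/-- A task `(β, b, Q)`. -/
abbrev Task := ℕ × ℕ × List SEdge

/-- The edges added by version `v` for the task `T` when the new vertices start at `c`. -/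
def Task.news (Lam : ℕ → ℕ → ℕ) (v c : ℕ) (T : Task) : List Edge :=
  T.2.2.map fun q => (instS Lam v q.1, q.2.map (theta T.1 c))

/-- Valid tasks. -/
structure Task.Valid (T : Task) : Prop where
  wf : ∀ q ∈ T.2.2, q.2.length = q.1.ar ∧ q.2.Nodup
  inside : ∀ q ∈ T.2.2, ∀ x ∈ q.2, x < T.1 + T.2.1
  meets : ∀ q ∈ T.2.2, ∃ x ∈ q.2, T.1 ≤ x
  kp : ∀ n l, (SSym.K n, l) ∈ T.2.2 → (SSym.P, l.take 2) ∈ T.2.2
  strong : ∀ Y : Finset ℕ, (∀ y ∈ Y, T.1 ≤ y) →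
    (T.2.2.toFinset.filter (fun q => ∀ x ∈ q.2, x < T.1 ∨ x ∈ Y)).card ≤ Y.card

/-- The data of the construction. `c t` is the number of vertices and `New t` the set of edges
created at stage `t`. -/
structure Constr (Lam : ℕ → ℕ → ℕ) (path : ℕ → List ℕ) (c : ℕ → ℕ) (New : ℕ → Finset Edge) :
    Prop where
  c0 : c 0 = 0
  mono : ∀ t, c t ≤ c (t + 1)
  inside : ∀ t, ∀ e ∈ New t, ∀ x ∈ e.2, x < c (t + 1)
  meets : ∀ t, ∀ e ∈ New t, ∃ x ∈ e.2, c t ≤ x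
  strong : ∀ t (Y : Finset ℕ), (∀ y ∈ Y, c t ≤ y) →
    ((New t).filter (fun e => ∀ x ∈ e.2, x < c t ∨ x ∈ Y)).card ≤ Y.card
  verP : ∀ t v l, (Sym.P v, l) ∈ New t → v = t
  ok : ∀ t, InK Lam (Str path New t) → InK Lam (Str path New t ∪ New t)

/-- Every valid task is attempted at arbitrarily large true stages. -/
def Sched (Lam : ℕ → ℕ → ℕ) (path : ℕ → List ℕ) (c : ℕ → ℕ) (New : ℕ → Finset Edge) : Prop :=
  ∀ T : Task, T.Valid → ∀ s, ∃ v ∈ TP path, s ≤ v ∧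
    (T.1 ≤ c v → InK Lam (Str path New v ∪ {e | e ∈ T.news Lam v (c v)}) →
      c (v + 1) = c v + T.2.1 ∧ New v = (T.news Lam v (c v)).toFinset)

/-- The limit structure. -/
def LimM (path : ℕ → List ℕ) (New : ℕ → Finset Edge) : Set Edge :=
  {e | ∃ j, e ∈ New j ∧ match e.1 with
    | Sym.E _ _ => True
    | Sym.R _ => True
    | Sym.S _ => ∀ t, j < t → Alive path j t
    | Sym.P _ => j ∈ TP path}

/-- The part of `X` inside `[0, c)`. -/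
def restr (X : Set Edge) (c : ℕ) : Set Edge := {e | e ∈ X ∧ ∀ x ∈ e.2, x < c}

/-- The properties of the limit structure. -/
structure Lim (Lam : ℕ → ℕ → ℕ) (TPs : Set ℕ) (M : Set Edge) (c : ℕ → ℕ) : Prop where
  inK : InK Lam M
  inf : TPs.Infinite
  mono : Monotone c
  unb : ∀ b, ∃ t, b ≤ c t
  strong : ∀ t (Z : Finset ℕ) (G : Finset Edge), (∀ z ∈ Z, c t ≤ z) →
    (∀ e ∈ G, e ∈ M ∧ (∀ x ∈ e.2, x < c t ∨ x ∈ Z) ∧ ∃ x ∈ e.2, c t ≤ x) → G.card ≤ Z.card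
  strong0 : ∀ (Z : Finset ℕ) (G : Finset Edge), (∀ e ∈ G, e ∈ M ∧ ∀ x ∈ e.2, x ∈ Z) →
    G.card ≤ Z.card
  verTP : ∀ v l, (Sym.P v, l) ∈ M → v ∈ TPs
  finP : ∀ v, {l | (Sym.P v, l) ∈ M}.Finite
  real : ∀ T : Task, T.Valid → ∀ s, ∃ v ∈ TPs, s ≤ v ∧ T.1 ≤ c v ∧
    (InK Lam (restr M (c v) ∪ {e | e ∈ T.news Lam v (c v)}) →
      c (v + 1) = c v + T.2.1 ∧
      restr M (c (v + 1)) = restr M (c v) ∪ {e | e ∈ T.news Lam v (c v)})

/-! ### Visible structure -/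

/-- The visible symbolic edges of `X`. -/
def NV (Lam : ℕ → ℕ → ℕ) (t ν : ℕ) (X : Set Edge) : Set SEdge :=
  {q | match q with
    | (SSym.E n i, l) => n ≤ t ∧ i ≤ ν ∧ (Sym.E n i, l) ∈ X ∧
        ∀ v, (Sym.P v, l.take 2) ∈ X → Lam v n ≠ i
    | (SSym.K n, l) => n ≤ t ∧ ∃ v, (Sym.P v, l.take 2) ∈ X ∧ (Sym.E n (Lam v n), l) ∈ X
    | (SSym.R n, l) => n ≤ t ∧ (Sym.R n, l) ∈ X
    | (SSym.S n, l) => n ≤ t ∧ (Sym.S n, l) ∈ X
    | (SSym.P, l) => ∃ v, (Sym.P v, l) ∈ X}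

/-- `q` lies inside `A ∪ Z` and meets `Z`. -/
def Over (A Z : Finset ℕ) (q : SEdge) : Prop := (∀ x ∈ q.2, x ∈ A ∪ Z) ∧ ∃ x ∈ q.2, x ∈ Z

/-- `A` is `r`-strong in `N`. -/
def RStrong (N : Set SEdge) (A : Finset ℕ) (r : ℕ) : Prop :=
  ∀ Z : Finset ℕ, Disjoint A Z → Z.card ≤ r → ∀ G : Finset SEdge,
    (∀ q ∈ G, q ∈ N ∧ Over A Z q) → G.card ≤ Z.card

/-- `G` is the set of all members of `N` over `(A, Z)`. -/
def AllOver (N : Set SEdge) (A Z : Finset ℕ) (G : Finset SEdge) : Prop :=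
  ∀ q, q ∈ G ↔ (q ∈ N ∧ Over A Z q)

/-- `Z` is algebraic over `A` (for strong `A`). -/
def Tight (N : Set SEdge) (A Z : Finset ℕ) : Prop :=
  Disjoint A Z ∧ ∃ G, AllOver N A Z G ∧ G.card = Z.card

/-- `B` is a minimal algebraic block over `A`. -/
def MinBlock (N : Set SEdge) (A B : Finset ℕ) : Prop :=
  Disjoint A B ∧ B.Nonempty ∧ ∃ G, AllOver N A B G ∧ G.card = B.card ∧
    ∀ Y ⊂ B, Y.Nonempty → (G.filter (fun q => ∀ x ∈ q.2, x ∈ A ∪ Y)).card < Y.card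

/-- The parameters of the visible structure. -/
structure Par (Lam : ℕ → ℕ → ℕ) (M : Set Edge) (Pst : Set ℕ) (lim : ℕ → ℕ) (t ν x : ℕ) :
    Prop where
  tν : t ≤ ν
  tx : t < x
  limν : ∀ n ≤ t, n ∉ Pst → lim n ≤ ν
  inP : ∀ v l, (Sym.P v, l) ∈ M → (∃ y ∈ l, x ≤ y) → ∀ n ≤ t, n ∈ Pst → ν < Lam v n
  outP : ∀ v l, (Sym.P v, l) ∈ M → (∃ y ∈ l, x ≤ y) → ∀ n ≤ t, n ∉ Pst → Lam v n = lim n

/-- Visible isomorphisms `g : A → A'` with inverse `h`, the identity on `[0, x)`. -/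
structure VIso (Lam : ℕ → ℕ → ℕ) (M : Set Edge) (t ν x : ℕ) (A A' : Finset ℕ) (g h : ℕ → ℕ) :
    Prop where
  gA : ∀ a ∈ A, g a ∈ A'
  hA : ∀ a ∈ A', h a ∈ A
  hg : ∀ a ∈ A, h (g a) = a
  gh : ∀ a ∈ A', g (h a) = a
  xA : ∀ i < x, i ∈ A
  xA' : ∀ i < x, i ∈ A'
  fix : ∀ i < x, g i = i
  nv : ∀ q : SEdge, (∀ y ∈ q.2, y ∈ A) → (q ∈ NV Lam t ν M ↔ (q.1, q.2.map g) ∈ NV Lam t ν M)
  lab : ∀ v v' l, (∀ y ∈ l, y ∈ A) → (Sym.P v, l) ∈ M → (Sym.P v', l.map g) ∈ M →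
    ∀ n ≤ t, min (Lam v n) (ν + 1) = min (Lam v' n) (ν + 1)

/-- `y` is generic over `A`. -/
def Generic (N : Set SEdge) (A : Finset ℕ) (r y : ℕ) : Prop :=
  y ∉ A ∧ ∀ Z : Finset ℕ, y ∈ Z → Z.card ≤ r + 1 → Disjoint A Z → ∀ G : Finset SEdge,
    (∀ q ∈ G, q ∈ N ∧ Over A Z q) → G.card < Z.card

/-- The sequence of strongness requirements. -/
def rr : ℕ → ℕ
  | 0 => 0
  | k + 1 => (rr k + 3) ^ 2

end Pool.Agent.Helper367SM
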