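import Pool.Agent.Helper367_SM.Spec

set_option autoImplicit false

/-!
Formulas are preserved by visible isomorphisms between strong sets.
-/

namespace Pool.Agent.Helper367SM

open FirstOrder FirstOrder.Language

namespace EFAux

variable {Lam : ℕ → ℕ → ℕ} {M : Set Edge} {t ν x : ℕ} {A A' : Finset ℕ} {g h : ℕ → ℕ}

theorem map_map_id {l : List ℕ} {f k : ℕ → ℕ} (hl : ∀ y ∈ l, k (f y) = y) :
    (l.map f).map k = l := by
  rw [List.map_map]
  conv_rhs => rw [← List.map_id l]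
  exact List.map_congr_left fun y hy => hl y hy

theorem symm (e : VIso Lam M t ν x A A' g h) : VIso Lam M t ν x A' A h g where
  gA := e.hA
  hA := e.gA
  hg := e.gh
  gh := e.hg
  xA := e.xA'
  xA' := e.xA
  fix i hi := by
    have := e.hg i (e.xA i hi)
    rwa [e.fix i hi] at this
  nv q hq := by
    have h1 := e.nv (q.1, q.2.map h) (by
      intro y hy
      obtain ⟨z, hz, rfl⟩ := List.mem_map.1 hy
      exact e.hA z (hq z hz))
    have h2 : (q.2.map h).map g = q.2 := map_map_id fun y hy => e.gh y (hq y hy)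
    simp only [h2] at h1
    exact h1.symm
  lab v v' l hl hv hv' n hn := by
    have h2 : (l.map h).map g = l := map_map_id fun y hy => e.gh y (hl y hy)
    refine (e.lab v' v (l.map h) ?_ hv' (by rwa [h2]) n hn).symm
    intro y hy
    obtain ⟨z, hz, rfl⟩ := List.mem_map.1 hy
    exact e.hA z (hl z hz)

theorem E_fwd (e : VIso Lam M t ν x A A' g h) (htν : t ≤ ν) {n i : ℕ} (hn : n ≤ t) (hi : i ≤ t)
    {l : List ℕ} (hl : ∀ y ∈ l, y ∈ A) (hM : (Sym.E n i, l) ∈ M) : (Sym.E n i, l.map g) ∈ M := by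
  by_cases hv : ∃ v, (Sym.P v, l.take 2) ∈ M ∧ Lam v n = i
  · obtain ⟨v, hv1, hv2⟩ := hv
    have h1 : ((SSym.K n, l) : SEdge) ∈ NV Lam t ν M := by
      refine ⟨hn, v, hv1, ?_⟩
      rw [hv2]; exact hM
    have h2 := (e.nv (SSym.K n, l) hl).1 h1
    obtain ⟨-, v', hv1', h3⟩ := h2
    have hv1'' : (Sym.P v', (l.take 2).map g) ∈ M := by
      rw [List.map_take]; exact hv1'
    have h4 := e.lab v v' (l.take 2) (fun y hy => hl y (List.mem_of_mem_take hy)) hv1 hv1'' n hn
    have h5 : Lam v' n = i := by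
      rw [hv2] at h4
      omega
    rw [h5] at h3
    exact h3
  · have h1 : ((SSym.E n i, l) : SEdge) ∈ NV Lam t ν M := by
      refine ⟨hn, by omega, hM, ?_⟩
      intro v hv1 hv2
      exact hv ⟨v, hv1, hv2⟩
    have h2 := (e.nv (SSym.E n i, l) hl).1 h1
    exact h2.2.2.1

theorem R_fwd (e : VIso Lam M t ν x A A' g h) {n : ℕ} (hn : n ≤ t)
    {l : List ℕ} (hl : ∀ y ∈ l, y ∈ A) (hM : (Sym.R n, l) ∈ M) : (Sym.R n, l.map g) ∈ M := by
  have h1 : ((SSym.R n, l) : SEdge) ∈ NV Lam t ν M := ⟨hn, hM⟩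
  exact ((e.nv (SSym.R n, l) hl).1 h1).2

theorem symOf_fwd (e : VIso Lam M t ν x A A' g h) (htν : t ≤ ν) {k : ℕ} (hk : k ≤ t)
    {l : List ℕ} (hl : ∀ y ∈ l, y ∈ A) (hM : (symOf k, l) ∈ M) : (symOf k, l.map g) ∈ M := by
  unfold symOf at hM ⊢
  split at hM
  · rename_i hk2
    rw [if_pos hk2]
    refine E_fwd e htν ?_ ?_ hl hM
    · have := Nat.unpair_left_le (k / 2); omega
    · have := Nat.unpair_right_le (k / 2); omega
  · rename_i hk2
    rw [if_neg hk2]
    exact R_fwd e (by omega) hl hM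

theorem symOf_iff (e : VIso Lam M t ν x A A' g h) (htν : t ≤ ν) {k : ℕ} (hk : k ≤ t)
    {l : List ℕ} (hl : ∀ y ∈ l, y ∈ A) : (symOf k, l) ∈ M ↔ (symOf k, l.map g) ∈ M := by
  refine ⟨symOf_fwd e htν hk hl, fun h1 => ?_⟩
  have h2 := symOf_fwd (symm e) htν hk (l := l.map g) (by
    intro y hy
    obtain ⟨z, hz, rfl⟩ := List.mem_map.1 hy
    exact e.gA z (hl z hz)) h1
  rwa [map_map_id fun y hy => e.hg y (hl y hy)] at h2

theorem term_pres {α : Type} {n : ℕ} (τ : sig0.lang.Term (α ⊕ Fin n)) (M : Set Edge) :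
    ∃ t₀, ∀ (Lam : ℕ → ℕ → ℕ) (t ν x : ℕ), t₀ ≤ t → t < x →
    ∀ (A A' : Finset ℕ) (g h : ℕ → ℕ), VIso Lam M t ν x A A' g h →
    ∀ (v : α → ℕ) (xs : Fin n → ℕ), (∀ i, v i ∈ A) → (∀ i, xs i ∈ A) →
      (τ.realize (M := Car M) (Sum.elim v xs) : ℕ) ∈ A ∧
      (τ.realize (M := Car M) (Sum.elim (fun i => g (v i)) (fun i => g (xs i))) : ℕ) =
        g (τ.realize (M := Car M) (Sum.elim v xs)) := by
  cases τ with
  | var a =>
    refine ⟨0, fun Lam t ν x _ _ A A' g h _ v xs hv hxs => ?_⟩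
    cases a with
    | inl a => exact ⟨hv a, rfl⟩
    | inr a => exact ⟨hxs a, rfl⟩
  | @func l f ts =>
    refine ⟨f.1, fun Lam t ν x ht htx A A' g h e v xs hv hxs => ?_⟩
    show (f.1 : ℕ) ∈ A ∧ (f.1 : ℕ) = g f.1
    exact ⟨e.xA _ (by omega), (e.fix _ (by omega)).symm⟩

theorem ofFn_g {l : ℕ} (F G : Fin l → ℕ) (g : ℕ → ℕ) (h : ∀ i, F i = g (G i)) :
    List.ofFn F = (List.ofFn G).map g := by
  rw [List.map_ofFn]
  congr 1
  funext i
  exact h i

theorem snoc_g {n : ℕ} (g g₁ : ℕ → ℕ) (xs : Fin n → ℕ) (y : ℕ) (hg : ∀ i, g₁ (xs i) = g (xs i)) :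
    (fun i => g₁ ((Fin.snoc xs y : Fin (n + 1) → ℕ) i)) =
      (Fin.snoc (fun i => g (xs i)) (g₁ y) : Fin (n + 1) → ℕ) := by
  funext i
  refine Fin.lastCases ?_ (fun j => ?_) i
  · simp
  · simp [hg]

theorem rr_le (k : ℕ) : rr k + 2 ≤ rr (k + 1) + 2 := by
  show rr k + 2 ≤ (rr k + 3) ^ 2 + 2
  nlinarith [Nat.zero_le (rr k)]

end EFAux

open EFAux in
/-- Formulas are preserved. -/
theorem EF_proof (hBF : S_BF) : S_EF := by
  intro Lam TPs M c Pst lim hLim hLab α n φ
  induction φ with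
  | falsum => exact ⟨0, 0, fun _ _ _ _ _ _ _ _ _ _ _ _ _ _ _ _ _ _ _ => Iff.rfl⟩
  | equal τ₁ τ₂ =>
    obtain ⟨t₁, h₁⟩ := term_pres τ₁ M
    obtain ⟨t₂, h₂⟩ := term_pres τ₂ M
    refine ⟨max t₁ t₂, 0, fun t ν x hP ht k _ _ A A' g h e _ _ v xs hv hxs => ?_⟩
    obtain ⟨ha, hb⟩ := h₁ Lam t ν x (le_trans (le_max_left _ _) ht) hP.tx A A' g h e v xs hv hxs
    obtain ⟨ha', hb'⟩ := h₂ Lam t ν x (le_trans (le_max_right _ _) ht) hP.tx A A' g h e v xs hv hxs
    show (τ₁.realize (M := Car M) (Sum.elim v xs) : ℕ) = τ₂.realize (M := Car M) (Sum.elim v xs) ↔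
      (τ₁.realize (M := Car M) (Sum.elim (fun i => g (v i)) (fun i => g (xs i))) : ℕ) =
        τ₂.realize (M := Car M) (Sum.elim (fun i => g (v i)) (fun i => g (xs i)))
    rw [hb, hb']
    constructor
    · intro heq; rw [heq]
    · intro heq
      have := congrArg h heq
      rwa [e.hg _ ha, e.hg _ ha'] at this
  | @rel n l R ts =>
    choose t' ht' using fun i => term_pres (ts i) M
    refine ⟨max R.1 (Finset.univ.sup t'), 0, fun t ν x hP ht k _ _ A A' g h e _ _ v xs hv hxs => ?_⟩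
    have hi : ∀ i, t' i ≤ t := fun i =>
      le_trans (Finset.le_sup (f := t') (Finset.mem_univ i)) (le_trans (le_max_right _ _) ht)
    have hR : R.1 ≤ t := le_trans (le_max_left _ _) ht
    have hterm := fun i => ht' i Lam t ν x (hi i) hP.tx A A' g h e v xs hv hxs
    show (symOf R.1, List.ofFn (fun i => ((ts i).realize (M := Car M) (Sum.elim v xs) : ℕ))) ∈ M ↔
      (symOf R.1, List.ofFn (fun i => ((ts i).realize (M := Car M)
        (Sum.elim (fun i => g (v i)) (fun i => g (xs i))) : ℕ))) ∈ M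
    have h1 : (List.ofFn (fun i => ((ts i).realize (M := Car M)
        (Sum.elim (fun i => g (v i)) (fun i => g (xs i))) : ℕ))) =
        (List.ofFn (fun i => ((ts i).realize (M := Car M) (Sum.elim v xs) : ℕ))).map g :=
      ofFn_g _ _ g fun i => (hterm i).2
    rw [h1]
    refine symOf_iff e hP.tν hR ?_
    intro y hy
    obtain ⟨i, rfl⟩ := (List.mem_ofFn' _ _).1 hy
    exact (hterm i).1
  | imp φ₁ φ₂ ih₁ ih₂ =>
    obtain ⟨t₁, k₁, h₁⟩ := ih₁
    obtain ⟨t₂, k₂, h₂⟩ := ih₂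
    refine ⟨max t₁ t₂, max k₁ k₂, fun t ν x hP ht k hk hr A A' g h e hA hA' v xs hv hxs => ?_⟩
    have a := h₁ t ν x hP (le_trans (le_max_left _ _) ht) k (le_trans (le_max_left _ _) hk) hr
      A A' g h e hA hA' v xs hv hxs
    have b := h₂ t ν x hP (le_trans (le_max_right _ _) ht) k (le_trans (le_max_right _ _) hk) hr
      A A' g h e hA hA' v xs hv hxs
    exact imp_congr a b
  | @all n φ ih =>
    obtain ⟨t₁, k₁, h₁⟩ := ih
    refine ⟨t₁, k₁ + 1, fun t ν x hP ht k hk hr A A' g h e hA hA' v xs hv hxs => ?_⟩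
    obtain ⟨k, rfl⟩ : ∃ k', k = k' + 1 := ⟨k - 1, by omega⟩
    have hr' : rr k + 2 ≤ t := le_trans (rr_le k) hr
    show (∀ b : ℕ, φ.Realize (M := Car M) v (Fin.snoc xs b : Fin (n + 1) → ℕ)) ↔
      (∀ b : ℕ, φ.Realize (M := Car M) (fun i => g (v i))
        (Fin.snoc (fun i => g (xs i)) b : Fin (n + 1) → ℕ))
    constructor
    · intro hall b
      obtain ⟨A₁', A₁, h', g', hsub, hb, hext, e', hs', hs⟩ := hBF Lam TPs M c Pst lim t ν x hLim hLab
        hP A' A h g (rr k) (symm e) hr' hA' hA b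
      have key := h₁ t ν x hP ht k (by omega) hr' A₁' A₁ h' g' e' hs' hs (fun i => g (v i))
        (Fin.snoc (fun i => g (xs i)) b) (fun i => hsub (e.gA _ (hv i))) (by
          intro i
          refine Fin.lastCases ?_ (fun j => ?_) i
          · simpa using hb
          · simpa using hsub (e.gA _ (hxs j)))
      refine key.2 ?_
      have e1 : (fun i => h' (g (v i))) = v := by
        funext i
        rw [hext _ (e.gA _ (hv i)), e.hg _ (hv i)]
      have e2 : (fun i => h' ((Fin.snoc (fun i => g (xs i)) b : Fin (n + 1) → ℕ) i)) =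
          (Fin.snoc xs (h' b) : Fin (n + 1) → ℕ) := by
        funext i
        refine Fin.lastCases ?_ (fun j => ?_) i
        · simp
        · simp only [Fin.snoc_castSucc]
          rw [hext _ (e.gA _ (hxs j)), e.hg _ (hxs j)]
      have e3 := hall (h' b)
      have e4 : (φ.Realize (M := Car M) (fun i => h' (g (v i)))
          (fun i => h' ((Fin.snoc (fun i => g (xs i)) b : Fin (n + 1) → ℕ) i))) =
          φ.Realize (M := Car M) v (Fin.snoc xs (h' b) : Fin (n + 1) → ℕ) := by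
        rw [e1, e2]
      rw [e4]
      exact e3
    · intro hall b
      obtain ⟨A₁, A₁', g', h', hsub, hb, hext, e', hs, hs'⟩ := hBF Lam TPs M c Pst lim t ν x hLim hLab
        hP A A' g h (rr k) e hr' hA hA' b
      have key := h₁ t ν x hP ht k (by omega) hr' A₁ A₁' g' h' e' hs hs' v
        (Fin.snoc xs b) (fun i => hsub (hv i)) (by
          intro i
          refine Fin.lastCases ?_ (fun j => ?_) i
          · simpa using hb
          · simpa using hsub (hxs j))
      refine key.2 ?_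
      have e1 : (fun i => g' (v i)) = (fun i => g (v i)) := by
        funext i
        rw [hext _ (hv i)]
      have e2 : (fun i => g' ((Fin.snoc xs b : Fin (n + 1) → ℕ) i)) =
          (Fin.snoc (fun i => g (xs i)) (g' b) : Fin (n + 1) → ℕ) :=
        snoc_g g g' xs b fun i => hext _ (hxs i)
      have e3 := hall (g' b)
      have e4 : (φ.Realize (M := Car M) (fun i => g' (v i))
          (fun i => g' ((Fin.snoc xs b : Fin (n + 1) → ℕ) i))) =
          φ.Realize (M := Car M) (fun i => g (v i))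
            (Fin.snoc (fun i => g (xs i)) (g' b) : Fin (n + 1) → ℕ) := by
        rw [e1, e2]
      rw [e4]
      exact e3

end Pool.Agent.Helper367SM
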