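import Pool.Agent.Helper367_SM.Defn

/-!
Extension of visible isomorphisms by one algebraic point (MP_fd2900_lc, task EXT1).
-/

set_option autoImplicit false

namespace Pool.Agent.Helper367SM

namespace Ext1Aux

open DefnAux

variable {Lam : ℕ → ℕ → ℕ} {TPs : Set ℕ} {M : Set Edge} {c : ℕ → ℕ}

theorem exists_edge' (hS : S_Single) (hL : Lim Lam TPs M c) (s : SSym) (l1 l2 : List ℕ)
    (hs : ∀ n, s ≠ SSym.K n) (hlen : l1.length + 1 + l2.length = s.ar)
    (hnd : (l1 ++ l2).Nodup)
    (hR : ∀ n, s = SSym.R n → l1.length = 4 → (Sym.S n, l1) ∉ M)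
    (hSS : ∀ n v, s = SSym.S n → 2 ≤ l1.length → (Sym.P v, l1.take 2) ∈ M →
      l1.length = 3 ∧ (Sym.E n (Lam v n), l1) ∈ M) :
    ∃ z, ∃ e ∈ M, e.1.kind = s ∧ e.2 = l1 ++ z :: l2 := by
  have h1 : (l1 ++ 0 :: l2).eraseIdx l1.length = l1 ++ l2 := by
    rw [List.eraseIdx_append_of_length_le le_rfl, Nat.sub_self]
    rfl
  have h2 : ∀ z, (l1 ++ 0 :: l2).set l1.length z = l1 ++ z :: l2 := by
    intro z
    rw [List.set_append_right _ _ le_rfl, Nat.sub_self]
    rfl
  obtain ⟨z, e, he, hk, hel⟩ := exists_edge hS hL s (l1 ++ 0 :: l2) l1.length hs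
    (by rw [List.length_append, List.length_cons, ← hlen]; omega)
    (by rw [List.length_append, List.length_cons]; omega)
    (by rw [h1]; exact hnd)
    (fun n hn h4 => by
      rw [List.take_append_of_le_length (by omega), List.take_of_length_le (by omega)]
      exact hR n hn h4)
    (fun n v hn h2 hv => by
      rw [List.take_append_of_le_length h2] at hv
      obtain ⟨h3, h4⟩ := hSS n v hn h2 hv
      refine ⟨h3, ?_⟩
      rw [List.take_append_of_le_length (by omega), List.take_of_length_le (by omega)]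
      exact h4)
  exact ⟨z, e, he, hk, by rw [hel, h2]⟩

theorem agree_mid (l1 l2 : List ℕ) (a b : ℕ) : Agree (l1 ++ a :: l2) (l1 ++ b :: l2) := by
  refine ⟨l1.length, fun k hk => ?_⟩
  rcases lt_or_gt_of_ne hk with h | h
  · rw [List.getElem?_append_left h, List.getElem?_append_left h]
  · rw [List.getElem?_append_right h.le, List.getElem?_append_right h.le]
    obtain ⟨m, hm⟩ : ∃ m, k - l1.length = m + 1 := ⟨k - l1.length - 1, by omega⟩
    rw [hm]
    rfl

theorem eq_of_mid (hK : InK Lam M) {l1 l2 : List ℕ} {a b : ℕ} {σ σ' : Sym}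
    (h : (σ, l1 ++ a :: l2) ∈ M) (h' : (σ', l1 ++ b :: l2) ∈ M) (hk : σ.kind = σ'.kind) :
    a = b := by
  have h1 := hK.fn _ h _ h' hk (agree_mid l1 l2 a b)
  rw [Prod.mk.injEq] at h1
  have h2 := List.append_cancel_left h1.2
  rw [List.cons.injEq] at h2
  exact h2.1

theorem mem_take2 {l1 : List ℕ} (h : l1.length < 2) (z : ℕ) (l2 : List ℕ) :
    z ∈ (l1 ++ z :: l2).take 2 := by
  match l1, h with
  | [], _ => simp
  | [a], _ => simp

theorem take2 {l1 : List ℕ} (h : 2 ≤ l1.length) (z : ℕ) (l2 : List ℕ) :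
    (l1 ++ z :: l2).take 2 = l1.take 2 := List.take_append_of_le_length h

theorem ver_unique (hK : InK Lam M) {v v' : ℕ} {l : List ℕ} (h : (Sym.P v, l) ∈ M)
    (h' : (Sym.P v', l) ∈ M) : v = v' := by
  have h1 := hK.fn _ h _ h' rfl ⟨0, fun k _ => rfl⟩
  rw [Prod.mk.injEq, Sym.P.injEq] at h1
  exact h1.1

theorem wf_NV (hK : InK Lam M) {t ν : ℕ} {s : SSym} {l : List ℕ} (h : (s, l) ∈ NV Lam t ν M) :
    l.length = s.ar ∧ l.Nodup := by
  cases s with
  | E n i => exact hK.wf _ h.2.2.1
  | K n =>
    obtain ⟨_, v, _, he⟩ := h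
    exact hK.wf _ he
  | R n => exact hK.wf _ h.2
  | S n => exact hK.wf _ h.2
  | P =>
    obtain ⟨v, hv⟩ := h
    exact hK.wf _ hv

/-- the image edge: existence of the new point -/
theorem exists_image (hS : S_Single) (hL : Lim Lam TPs M c) {t ν x : ℕ} {A A' : Finset ℕ}
    {g h : ℕ → ℕ} (hV : VIso Lam M t ν x A A' g h) (hR : RStrong (NV Lam t ν M) A' 1) {y : ℕ}
    (hy : y ∉ A) {s : SSym} {l1 l2 : List ℕ} (hq : (s, l1 ++ y :: l2) ∈ NV Lam t ν M)
    (h1 : ∀ w ∈ l1, w ∈ A) (h2 : ∀ w ∈ l2, w ∈ A)
    (huniq : ∀ q ∈ NV Lam t ν M, (∀ w ∈ q.2, w ∈ A ∪ {y}) → y ∈ q.2 → q = (s, l1 ++ y :: l2)) :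
    ∃ z, z ∉ A' ∧ (s, l1.map g ++ z :: l2.map g) ∈ NV Lam t ν M := by
  classical
  have hK := hL.inK
  have hwf : (l1 ++ y :: l2).length = s.ar ∧ (l1 ++ y :: l2).Nodup := by
    exact wf_NV hK hq
  obtain ⟨hlen, hnd⟩ := hwf
  have hlen' : l1.length + 1 + l2.length = s.ar := by
    rw [← hlen, List.length_append, List.length_cons]; omega
  have hnd' : (l1 ++ l2).Nodup := by
    rw [List.nodup_middle, List.nodup_cons] at hnd
    exact hnd.2
  have hinj : Set.InjOn g (A : Set ℕ) := by
    intro a ha b hb hab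
    rw [← hV.hg a ha, hab, hV.hg b hb]
  have hndg : (l1.map g ++ l2.map g).Nodup := by
    rw [← List.map_append]
    refine hnd'.map_on ?_
    intro a ha b hb hab
    have hA : ∀ w ∈ l1 ++ l2, w ∈ A := by
      intro w hw
      rcases List.mem_append.1 hw with h | h
      · exact h1 w h
      · exact h2 w h
    exact hinj (hA a ha) (hA b hb) hab
  have hleng : (l1.map g).length + 1 + (l2.map g).length = s.ar := by
    rw [List.length_map, List.length_map, hlen']
  have hmid : ∀ a, (l1 ++ a :: l2).map g = l1.map g ++ g a :: l2.map g := by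
    intro a; rw [List.map_append, List.map_cons]
  have hmidA : ∀ a ∈ A, ∀ w ∈ l1 ++ a :: l2, w ∈ A := by
    intro a ha w hw
    rcases List.mem_append.1 hw with h | h
    · exact h1 w h
    · rcases List.mem_cons.1 h with h | h
      · rw [h]; exact ha
      · exact h2 w h
  have hyA : ∀ w ∈ l1 ++ y :: l2, w ∈ A ∪ {y} := by
    intro w hw
    rcases List.mem_append.1 hw with h | h
    · exact Finset.mem_union_left _ (h1 w h)
    · rcases List.mem_cons.1 h with h | h
      · rw [h]; exact Finset.mem_union_right _ (Finset.mem_singleton_self _)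
      · exact Finset.mem_union_left _ (h2 w h)
  -- pulling back an edge all of whose vertices are in the domain
  have hpull : ∀ z ∈ A', (s, l1.map g ++ z :: l2.map g) ∈ NV Lam t ν M →
      (s, l1 ++ h z :: l2) ∈ NV Lam t ν M := by
    intro z hz hmem
    rw [hV.nv (s, l1 ++ h z :: l2) (hmidA _ (hV.hA z hz))]
    simp only
    rw [hmid, hV.gh z hz]
    exact hmem
  have hPpull : 2 ≤ l1.length → ∀ v, (Sym.P v, (l1.map g).take 2) ∈ M →
      ∃ v0, (Sym.P v0, l1.take 2) ∈ M ∧ ∀ n ≤ t, min (Lam v0 n) (ν + 1) = min (Lam v n) (ν + 1) := by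
    intro _ v hv
    rw [← List.map_take] at hv
    have hA2 : ∀ w ∈ l1.take 2, w ∈ A := fun w hw => h1 w (List.mem_of_mem_take hw)
    have h3 : (SSym.P, (l1.take 2).map g) ∈ NV Lam t ν M := ⟨v, hv⟩
    have h4 := (hV.nv (SSym.P, l1.take 2) hA2).2 h3
    obtain ⟨v0, hv0⟩ := h4
    exact ⟨v0, hv0, hV.lab v0 v (l1.take 2) hA2 hv0 hv⟩
  have hPpush : 2 ≤ l1.length → ∀ v, (Sym.P v, l1.take 2) ∈ M →
      ∃ v0, (Sym.P v0, (l1.map g).take 2) ∈ M := by
    intro _ v hv
    have hA2 : ∀ w ∈ l1.take 2, w ∈ A := fun w hw => h1 w (List.mem_of_mem_take hw)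
    have h3 : (SSym.P, l1.take 2) ∈ NV Lam t ν M := ⟨v, hv⟩
    obtain ⟨v0, hv0⟩ := (hV.nv (SSym.P, l1.take 2) hA2).1 h3
    rw [← List.map_take]
    exact ⟨v0, hv0⟩
  cases s with
  | P =>
    obtain ⟨v, hv⟩ := hq
    obtain ⟨z, ⟨σ, m⟩, he, hk, hel⟩ := exists_edge' hS hL SSym.P (l1.map g) (l2.map g)
      (fun m h => by cases h) hleng hndg (fun m hm => by cases hm) (fun m v hm => by cases hm)
    obtain ⟨v', hv'⟩ := kind_P hk
    simp only at hv' hel
    rw [hv', hel] at he
    have hN : (SSym.P, l1.map g ++ z :: l2.map g) ∈ NV Lam t ν M := ⟨v', he⟩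
    refine ⟨z, fun hz => ?_, hN⟩
    obtain ⟨v0, hv0⟩ := hpull z hz hN
    have := eq_of_mid hK hv hv0 rfl
    exact hy (this ▸ hV.hA z hz)
  | R n =>
    obtain ⟨hn, hv⟩ := hq
    obtain ⟨z, ⟨σ, m⟩, he, hk, hel⟩ := exists_edge' hS hL (SSym.R n) (l1.map g) (l2.map g)
      (fun m h => by cases h) hleng hndg (fun m hm h4 hmem => by
        injection hm with hm
        subst hm
        rw [List.length_map] at h4
        have h3 : (SSym.S n, l1.map g) ∈ NV Lam t ν M := ⟨hn, hmem⟩
        have h5 := (hV.nv (SSym.S n, l1) h1).2 h3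
        have hl2 : l2 = [] := by
          apply List.eq_nil_of_length_eq_zero
          have : (SSym.R n).ar = 5 := rfl
          omega
        subst hl2
        exact hK.h1 n l1 y h5.2 hv) (fun m v hm => by cases hm)
    simp only at hk hel
    rw [kind_R hk, hel] at he
    have hN : (SSym.R n, l1.map g ++ z :: l2.map g) ∈ NV Lam t ν M := ⟨hn, he⟩
    refine ⟨z, fun hz => ?_, hN⟩
    obtain ⟨_, hv0⟩ := hpull z hz hN
    have := eq_of_mid hK hv hv0 rfl
    exact hy (this ▸ hV.hA z hz)
  | S n =>
    obtain ⟨hn, hv⟩ := hq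
    obtain ⟨z, ⟨σ, m⟩, he, hk, hel⟩ := exists_edge' hS hL (SSym.S n) (l1.map g) (l2.map g)
      (fun m h => by cases h) hleng hndg (fun m hm => by cases hm) (fun m v hm h2' hmem => by
        injection hm with hm
        subst hm
        rw [List.length_map] at h2'
        obtain ⟨v0, hv0, -⟩ := hPpull h2' v hmem
        have h3 := hK.h2 n v0 _ hv (by rw [take2 h2']; exact hv0)
        have hN3 : (SSym.K n, (l1 ++ y :: l2).take 3) ∈ NV Lam t ν M := by
          refine ⟨hn, v0, ?_, h3⟩
          rw [List.take_take, show min 2 3 = 2 from rfl, take2 h2']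
          exact hv0
        have hl3 : l1.length = 3 := by
          by_contra hne
          have h4 : (SSym.S n).ar = 4 := rfl
          have hl2 : l1.length = 2 := by omega
          have hmem3 : y ∈ (l1 ++ y :: l2).take 3 := by
            rw [List.take_append, hl2]
            exact List.mem_append_right _ (by simp)
          have := huniq _ hN3 (fun w hw => hyA w (List.mem_of_mem_take hw)) hmem3
          rw [Prod.mk.injEq] at this
          cases this.1
        refine ⟨by rw [List.length_map, hl3], ?_⟩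
        rw [List.take_append_of_le_length (by omega), List.take_of_length_le (by omega)] at hN3
        obtain ⟨_, v1, hv1, h5⟩ := (hV.nv (SSym.K n, l1) h1).1 hN3
        rw [ver_unique hK hmem hv1]
        exact h5)
    simp only at hk hel
    rw [kind_S hk, hel] at he
    have hN : (SSym.S n, l1.map g ++ z :: l2.map g) ∈ NV Lam t ν M := ⟨hn, he⟩
    refine ⟨z, fun hz => ?_, hN⟩
    obtain ⟨_, hv0⟩ := hpull z hz hN
    have := eq_of_mid hK hv hv0 rfl
    exact hy (this ▸ hV.hA z hz)
  | E n i =>
    obtain ⟨hn, hi, hv, hno⟩ := hq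
    obtain ⟨z, ⟨σ, m⟩, he, hk, hel⟩ := exists_edge' hS hL (SSym.E n i) (l1.map g) (l2.map g)
      (fun m h => by cases h) hleng hndg (fun m hm => by cases hm) (fun m v hm => by cases hm)
    simp only at hk hel
    rw [kind_E hk, hel] at he
    have hzA : z ∉ A' := by
      intro hz
      have hvis : (Sym.E n i, l1 ++ h z :: l2) ∈ M := by
        by_cases hP : ∃ v, (Sym.P v, (l1.map g ++ z :: l2.map g).take 2) ∈ M ∧ Lam v n = i
        · obtain ⟨v, hP, hlab⟩ := hP
          have hN : (SSym.K n, l1.map g ++ z :: l2.map g) ∈ NV Lam t ν M :=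
            ⟨hn, v, hP, by rw [hlab]; exact he⟩
          have hN' : (SSym.K n, l1 ++ h z :: l2) ∈ NV Lam t ν M := by
            rw [hV.nv (SSym.K n, l1 ++ h z :: l2) (hmidA _ (hV.hA z hz))]
            simp only
            rw [hmid, hV.gh z hz]
            exact hN
          obtain ⟨_, v0, hv0, he0⟩ := hN'
          have hmap : ((l1 ++ h z :: l2).take 2).map g = (l1.map g ++ z :: l2.map g).take 2 := by
            rw [List.map_take, hmid, hV.gh z hz]
          have hl := hV.lab v0 v ((l1 ++ h z :: l2).take 2)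
            (fun w hw => hmidA _ (hV.hA z hz) w (List.mem_of_mem_take hw)) hv0
            (by rw [hmap]; exact hP) n hn
          have : Lam v0 n = i := by rw [hlab] at hl; omega
          rw [this] at he0
          exact he0
        · push Not at hP
          have hN : (SSym.E n i, l1.map g ++ z :: l2.map g) ∈ NV Lam t ν M :=
            ⟨hn, hi, he, fun v hv => hP v hv⟩
          exact (hpull z hz hN).2.2.1
      have := eq_of_mid hK hv hvis rfl
      exact hy (this ▸ hV.hA z hz)
    refine ⟨z, hzA, hn, hi, he, fun v hP hlab => ?_⟩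
    rcases lt_or_ge l1.length 2 with hlt | hge
    · -- two visible edges at the new point
      have hd : Disjoint A' {z} := Finset.disjoint_singleton_right.2 hzA
      have hinA' : ∀ w ∈ l1.map g ++ z :: l2.map g, w ∈ A' ∪ {z} := by
        intro w hw
        rcases List.mem_append.1 hw with h | h
        · obtain ⟨a, ha, rfl⟩ := List.mem_map.1 h
          exact Finset.mem_union_left _ (hV.gA a (h1 a ha))
        · rcases List.mem_cons.1 h with h | h
          · rw [h]; exact Finset.mem_union_right _ (Finset.mem_singleton_self _)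
          · obtain ⟨a, ha, rfl⟩ := List.mem_map.1 h
            exact Finset.mem_union_left _ (hV.gA a (h2 a ha))
      have hzt : z ∈ (l1.map g ++ z :: l2.map g).take 2 :=
        mem_take2 (by rw [List.length_map]; exact hlt) z _
      have hcard := hR {z} hd (by simp)
        {(SSym.K n, l1.map g ++ z :: l2.map g), (SSym.P, (l1.map g ++ z :: l2.map g).take 2)} (by
          intro q hq
          rw [Finset.mem_insert, Finset.mem_singleton] at hq
          rcases hq with rfl | rfl
          · exact ⟨⟨hn, v, hP, by rw [hlab]; exact he⟩, hinA', z, by simp, by simp⟩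
          · exact ⟨⟨v, hP⟩, fun w hw => hinA' w (List.mem_of_mem_take hw), z, hzt, by simp⟩)
      rw [Finset.card_pair (by simp), Finset.card_singleton] at hcard
      omega
    · rw [take2 (by rw [List.length_map]; exact hge)] at hP
      obtain ⟨v0, hv0, hl⟩ := hPpull hge v hP
      have h3 := hl n hn
      rw [hlab] at h3
      exact hno v0 (by rw [take2 hge]; exact hv0) (by omega)
  | K n =>
    obtain ⟨hn, v, hv, he⟩ := hq
    have hge : 2 ≤ l1.length := by
      by_contra hlt
      have hN : (SSym.P, (l1 ++ y :: l2).take 2) ∈ NV Lam t ν M := ⟨v, hv⟩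
      have := huniq _ hN (fun w hw => hyA w (List.mem_of_mem_take hw))
        (mem_take2 (by omega) y l2)
      rw [Prod.mk.injEq] at this
      cases this.1
    rw [take2 hge] at hv
    obtain ⟨v', hv'⟩ := hPpush hge v hv
    obtain ⟨z, ⟨σ, m⟩, he', hk, hel⟩ := exists_edge' hS hL (SSym.E n (Lam v' n)) (l1.map g)
      (l2.map g) (fun m h => by cases h) hleng hndg (fun m hm => by cases hm)
      (fun m v hm => by cases hm)
    simp only at hk hel
    rw [kind_E hk, hel] at he'
    have hN : (SSym.K n, l1.map g ++ z :: l2.map g) ∈ NV Lam t ν M :=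
      ⟨hn, v', by rw [take2 (by rw [List.length_map]; exact hge)]; exact hv', he'⟩
    refine ⟨z, fun hz => ?_, hN⟩
    obtain ⟨_, v0, hv0, he0⟩ := hpull z hz hN
    rw [take2 hge] at hv0
    rw [ver_unique hK hv0 hv] at he0
    have := eq_of_mid hK he he0 rfl
    exact hy (this ▸ hV.hA z hz)

end Ext1Aux

open Ext1Aux

/-- (Ext1) -/
theorem Ext1_proof (hS : S_Single) : S_Ext1 := by
  intro Lam TPs M c Pst lim t ν x hL hlab hPar A A' g h hV hR y hT
  classical
  obtain ⟨hdis, G, hG, hGc⟩ := hT
  have hy : y ∉ A := Finset.disjoint_singleton_right.1 hdis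
  rw [Finset.card_singleton, Finset.card_eq_one] at hGc
  obtain ⟨⟨s, l⟩, rfl⟩ := hGc
  obtain ⟨hq, hin, y0, hy0, hy0'⟩ := (hG (s, l)).1 (Finset.mem_singleton_self _)
  rw [Finset.mem_singleton] at hy0'
  subst hy0'
  have huniq : ∀ q ∈ NV Lam t ν M, (∀ w ∈ q.2, w ∈ A ∪ {y0}) → y0 ∈ q.2 → q = (s, l) := by
    intro q hqN hqin hqy
    exact Finset.mem_singleton.1 ((hG q).2 ⟨hqN, hqin, y0, hqy, Finset.mem_singleton_self _⟩)
  obtain ⟨l1, l2, rfl⟩ := List.append_of_mem hy0
  have hnd := (wf_NV hL.inK hq).2
  have hnd' := hnd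
  rw [List.nodup_middle, List.nodup_cons, List.mem_append, not_or] at hnd
  obtain ⟨⟨hy1, hy2⟩, hnd12⟩ := hnd
  have h1 : ∀ w ∈ l1, w ∈ A := by
    intro w hw
    rcases Finset.mem_union.1 (hin w (List.mem_append_left _ hw)) with h | h
    · exact h
    · rw [Finset.mem_singleton] at h
      exact absurd (h ▸ hw) hy1
  have h2 : ∀ w ∈ l2, w ∈ A := by
    intro w hw
    rcases Finset.mem_union.1 (hin w (List.mem_append_right _ (List.mem_cons_of_mem _ hw))) with h | h
    · exact h
    · rw [Finset.mem_singleton] at h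
      exact absurd (h ▸ hw) hy2
  obtain ⟨z, hz, hzN⟩ := exists_image hS hL hV hR hy hq h1 h2 huniq
  have hg' : ∀ a ∈ A, Function.update g y0 z a = g a := fun a ha =>
    Function.update_of_ne (fun e => hy (by rw [← e]; exact ha)) _ _
  have hh' : ∀ a ∈ A', Function.update h z y0 a = h a := fun a ha =>
    Function.update_of_ne (fun e => hz (by rw [← e]; exact ha)) _ _
  have hgA : ∀ a ∈ A ∪ {y0}, Function.update g y0 z a ∈ A' ∪ {z} := by
    intro a ha
    rcases Finset.mem_union.1 ha with ha | ha
    · rw [hg' a ha]; exact Finset.mem_union_left _ (hV.gA a ha)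
    · rw [Finset.mem_singleton] at ha
      rw [ha, Function.update_self]
      exact Finset.mem_union_right _ (Finset.mem_singleton_self _)
  have hhg : ∀ a ∈ A ∪ {y0}, Function.update h z y0 (Function.update g y0 z a) = a := by
    intro a ha
    rcases Finset.mem_union.1 ha with ha | ha
    · rw [hg' a ha, hh' _ (hV.gA a ha), hV.hg a ha]
    · rw [Finset.mem_singleton] at ha
      rw [ha, Function.update_self, Function.update_self]
  have hmapA : ∀ m : List ℕ, (∀ w ∈ m, w ∈ A) → m.map (Function.update g y0 z) = m.map g :=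
    fun m hm => List.map_congr_left fun w hw => hg' w (hm w hw)
  have hyx : x ≤ y0 := by
    by_contra hlt
    exact hy (hV.xA y0 (by omega))
  have hzx : x ≤ z := by
    by_contra hlt
    exact hz (hV.xA' z (by omega))
  have hzN' : (s, (l1 ++ y0 :: l2).map (Function.update g y0 z)) ∈ NV Lam t ν M := by
    rw [List.map_append, List.map_cons, Function.update_self, hmapA l1 h1, hmapA l2 h2]
    exact hzN
  have hover : Over A' {z} (s, (l1 ++ y0 :: l2).map (Function.update g y0 z)) := by
    refine ⟨fun w hw => ?_, z, ?_, Finset.mem_singleton_self _⟩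
    · obtain ⟨a, ha, rfl⟩ := List.mem_map.1 hw
      exact hgA a (hin a ha)
    · refine List.mem_map.2 ⟨y0, by simp, Function.update_self _ _ _⟩
  -- uniqueness of the visible edge at the new point
  have huniq' : ∀ q ∈ NV Lam t ν M, Over A' {z} q →
      q = (s, (l1 ++ y0 :: l2).map (Function.update g y0 z)) := by
    intro q hqN hqo
    by_contra hne
    have hcard := hR {z} (Finset.disjoint_singleton_right.2 hz) (by simp)
      {q, (s, (l1 ++ y0 :: l2).map (Function.update g y0 z))} (by
        intro r hr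
        rw [Finset.mem_insert, Finset.mem_singleton] at hr
        rcases hr with rfl | rfl
        · exact ⟨hqN, hqo⟩
        · exact ⟨hzN', hover⟩)
    rw [Finset.card_pair hne, Finset.card_singleton] at hcard
    omega
  refine ⟨z, Function.update g y0 z, Function.update h z y0, hz, hg', Function.update_self _ _ _,
    ⟨hgA, ?_, hhg, ?_, ?_, ?_, ?_, ?_, ?_⟩, ?_⟩
  · intro a ha
    rcases Finset.mem_union.1 ha with ha | ha
    · rw [hh' a ha]; exact Finset.mem_union_left _ (hV.hA a ha)
    · rw [Finset.mem_singleton] at ha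
      rw [ha, Function.update_self]
      exact Finset.mem_union_right _ (Finset.mem_singleton_self _)
  · intro a ha
    rcases Finset.mem_union.1 ha with ha | ha
    · rw [hh' a ha, hg' _ (hV.hA a ha), hV.gh a ha]
    · rw [Finset.mem_singleton] at ha
      rw [ha, Function.update_self, Function.update_self]
  · exact fun i hi => Finset.mem_union_left _ (hV.xA i hi)
  · exact fun i hi => Finset.mem_union_left _ (hV.xA' i hi)
  · intro i hi
    rw [hg' i (hV.xA i hi), hV.fix i hi]
  · rintro ⟨σ, m⟩ hm
    simp only at hm ⊢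
    by_cases hym : y0 ∈ m
    · have hiff : (σ, m) = (s, l1 ++ y0 :: l2) ↔ (σ, m.map (Function.update g y0 z)) =
          (s, (l1 ++ y0 :: l2).map (Function.update g y0 z)) := by
        constructor
        · intro e
          rw [Prod.mk.injEq] at e
          rw [e.1, e.2]
        · intro e
          rw [Prod.mk.injEq] at e
          rw [Prod.mk.injEq]
          refine ⟨e.1, ?_⟩
          have key : ∀ m : List ℕ, (∀ w ∈ m, w ∈ A ∪ {y0}) →
              (m.map (Function.update g y0 z)).map (Function.update h z y0) = m := by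
            intro m hm
            rw [List.map_map]
            conv_rhs => rw [← List.map_id m]
            exact List.map_congr_left fun w hw => hhg w (hm w hw)
          rw [← key m hm, e.2, key _ hin]
      constructor
      · intro hN
        rw [hiff.1 (huniq _ hN hm hym)]
        exact hzN'
      · intro hN
        have ho : Over A' {z} (σ, m.map (Function.update g y0 z)) := by
          refine ⟨fun w hw => ?_, z, ?_, Finset.mem_singleton_self _⟩
          · obtain ⟨a, ha, rfl⟩ := List.mem_map.1 hw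
            exact hgA a (hm a ha)
          · exact List.mem_map.2 ⟨y0, hym, Function.update_self _ _ _⟩
        rw [hiff.2 (huniq' _ hN ho)]
        exact hq
    · have hmA : ∀ w ∈ m, w ∈ A := by
        intro w hw
        rcases Finset.mem_union.1 (hm w hw) with h | h
        · exact h
        · rw [Finset.mem_singleton] at h
          exact absurd (h ▸ hw) hym
      rw [hmapA m hmA]
      exact hV.nv (σ, m) hmA
  · intro v v' m hm hv hv' n hn
    by_cases hym : y0 ∈ m
    · have hz' : z ∈ m.map (Function.update g y0 z) :=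
        List.mem_map.2 ⟨y0, hym, Function.update_self _ _ _⟩
      by_cases hnP : n ∈ Pst
      · have e1 := hPar.inP v m hv ⟨y0, hym, hyx⟩ n hn hnP
        have e2 := hPar.inP v' _ hv' ⟨z, hz', hzx⟩ n hn hnP
        omega
      · rw [hPar.outP v m hv ⟨y0, hym, hyx⟩ n hn hnP, hPar.outP v' _ hv' ⟨z, hz', hzx⟩ n hn hnP]
    · have hmA : ∀ w ∈ m, w ∈ A := by
        intro w hw
        rcases Finset.mem_union.1 (hm w hw) with h | h
        · exact h
        · rw [Finset.mem_singleton] at h
          exact absurd (h ▸ hw) hym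
      rw [hmapA m hmA] at hv'
      exact hV.lab v v' m hmA hv hv' n hn
  · refine ⟨Finset.disjoint_singleton_right.2 hz,
      {(s, (l1 ++ y0 :: l2).map (Function.update g y0 z))}, fun q => ?_, by simp⟩
    rw [Finset.mem_singleton]
    constructor
    · rintro rfl
      exact ⟨hzN', hover⟩
    · rintro ⟨hN, ho⟩
      exact huniq' q hN ho

end Pool.Agent.Helper367SM
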