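import Pool.Agent.Helper367_SM.Ext2E

set_option autoImplicit false

/-!
The extension lemma for blocks.
-/

namespace Pool.Agent.Helper367SM

namespace Ext2Aux

/-- labels are good at large true stages -/
lemma good_labels {Lam : ℕ → ℕ → ℕ} {TPs : Set ℕ} {Pst : Set ℕ} {lim : ℕ → ℕ}
    (hLL : LabLim Lam TPs Pst lim) (t ν : ℕ) : ∃ s, ∀ v ∈ TPs, s ≤ v → ∀ n ≤ t,
      (n ∈ Pst → ν < Lam v n) ∧ (n ∉ Pst → Lam v n = lim n) := by
  have h1 : ∀ n, ∃ s, ∀ v ∈ TPs, s ≤ v → (n ∈ Pst → ν < Lam v n) ∧ (n ∉ Pst → Lam v n = lim n) := by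
    intro n
    by_cases hn : n ∈ Pst
    · obtain ⟨s, hs⟩ := hLL.inP n hn ν
      exact ⟨s, fun v hv hsv => ⟨fun _ => hs v hv hsv, fun h => absurd hn h⟩⟩
    · obtain ⟨s, hs⟩ := hLL.outP n hn
      exact ⟨s, fun v hv hsv => ⟨fun h => absurd h hn, fun _ => hs v hv hsv⟩⟩
  choose s hs using h1
  refine ⟨(Finset.range (t + 1)).sup s, fun v hv hsv n hn => hs n v hv ?_⟩
  exact (Finset.le_sup (f := s) (Finset.mem_range.2 (by omega))).trans hsv

/-- the index of a point of `B` -/
def idx (B : Finset ℕ) (y : ℕ) : ℕ := (B.filter (fun z => z < y)).card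

lemma idx_lt {B : Finset ℕ} {y : ℕ} (hy : y ∈ B) : idx B y < B.card := by
  refine Finset.card_lt_card ?_
  rw [Finset.ssubset_iff_of_subset (Finset.filter_subset _ _)]
  exact ⟨y, hy, fun h => lt_irrefl y (Finset.mem_filter.1 h).2⟩

lemma idx_mono {B : Finset ℕ} {y z : ℕ} (hy : y ∈ B) (h : y < z) : idx B y < idx B z := by
  refine Finset.card_lt_card ?_
  rw [Finset.ssubset_iff_of_subset]
  · exact ⟨y, Finset.mem_filter.2 ⟨hy, h⟩, fun h => lt_irrefl y (Finset.mem_filter.1 h).2⟩
  · intro w hw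
    rw [Finset.mem_filter] at hw ⊢
    exact ⟨hw.1, hw.2.trans h⟩

lemma idx_inj {B : Finset ℕ} {y z : ℕ} (hy : y ∈ B) (hz : z ∈ B) (h : idx B y = idx B z) :
    y = z := by
  rcases lt_trichotomy y z with h1 | h1 | h1
  · exact absurd h (idx_mono hy h1).ne
  · exact h1
  · exact absurd h (idx_mono hz h1).ne'

/-- the naming function of a block, with new names from `β` on -/
def nam (A : Finset ℕ) (g : ℕ → ℕ) (B : Finset ℕ) (β y : ℕ) : ℕ :=
  if y ∈ A then g y else β + idx B y

lemma nam_A {A : Finset ℕ} {g : ℕ → ℕ} {B : Finset ℕ} {β y : ℕ} (hy : y ∈ A) :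
    nam A g B β y = g y := by
  unfold nam; rw [if_pos hy]

lemma nam_B {A : Finset ℕ} {g : ℕ → ℕ} {B : Finset ℕ} {β y : ℕ} (hy : y ∉ A) :
    nam A g B β y = β + idx B y := by
  unfold nam; rw [if_neg hy]

lemma nam_inj {A : Finset ℕ} {g : ℕ → ℕ} {B : Finset ℕ} {β : ℕ} (hg : Set.InjOn g A)
    (hβ : ∀ a ∈ A, g a < β) : Set.InjOn (nam A g B β) (A ∪ B : Finset ℕ) := by
  intro y hy z hz h
  rw [Finset.mem_coe, Finset.mem_union] at hy hz
  by_cases h1 : y ∈ A
  · by_cases h2 : z ∈ A
    · rw [nam_A h1, nam_A h2] at h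
      exact hg h1 h2 h
    · rw [nam_A h1, nam_B h2] at h
      have := hβ y h1
      omega
  · by_cases h2 : z ∈ A
    · rw [nam_B h1, nam_A h2] at h
      have := hβ z h2
      omega
    · rw [nam_B h1, nam_B h2] at h
      exact idx_inj (hy.resolve_left h1) (hz.resolve_left h2) (by omega)

lemma theta_nam {A : Finset ℕ} {g : ℕ → ℕ} {B : Finset ℕ} {β c : ℕ}
    (hβ : ∀ a ∈ A, g a < β) (y : ℕ) : theta β c (nam A g B β y) = nam A g B c y := by
  unfold theta
  by_cases h1 : y ∈ A
  · rw [nam_A h1, nam_A h1, if_pos (hβ y h1)]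
  · rw [nam_B h1, nam_B h1, if_neg (by omega)]
    omega

end Ext2Aux

open Ext2Aux

theorem Ext2_proof (hFam : S_Family) (hMat : S_Matched) : S_Ext2 := by
  classical
  intro Lam TPs M c Pst lim t ν x hL hLL hP A A' g h hV B hb2 hbt hMB hstr
  obtain ⟨dAB, hBne, G, hG, cG, hmin⟩ := hMB
  have hM := hL.inK
  have hgA : Set.InjOn g A := by
    intro a ha b hb hab
    rw [← hV.hg a (Finset.mem_coe.1 ha), ← hV.hg b (Finset.mem_coe.1 hb), hab]
  set β : ℕ := A'.sup id + 1 with hβdef
  have hA'β : ∀ a ∈ A', a < β := by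
    intro a ha
    have : id a ≤ A'.sup id := Finset.le_sup ha
    rw [hβdef]
    exact Nat.lt_succ_of_le this
  have hgβ : ∀ a ∈ A, g a < β := fun a ha => hA'β _ (hV.gA a ha)
  set e0 : ℕ → ℕ := nam A g B β with he0
  have he0inj : Set.InjOn e0 (A ∪ B : Finset ℕ) := nam_inj hgA hgβ
  have hnotA : ∀ {y}, y ∈ B → y ∉ A := fun hy h => Finset.disjoint_left.1 dAB h hy
  have he0B : ∀ y ∈ B, e0 y = β + idx B y := fun y hy => nam_B (hnotA hy)
  have he0A : ∀ y ∈ A, e0 y = g y := fun y hy => nam_A hy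
  have hGin : ∀ q ∈ G, ∀ y ∈ q.2, y ∈ A ∪ B := fun q hq => ((hG q).1 hq).2.1
  have hGm : ∀ q ∈ G, ∃ y ∈ q.2, y ∈ B := fun q hq => ((hG q).1 hq).2.2
  have hGnv : ∀ q ∈ G, q ∈ NV Lam t ν M := fun q hq => ((hG q).1 hq).1
  -- a member of `G` has its first two points not both in `A` when it is a `K`
  have hkp : ∀ n l, (SSym.K n, l) ∈ G → (SSym.P, l.take 2) ∈ G := by
    intro n l hq
    obtain ⟨_, v1, h1, _⟩ := nvK.1 (hGnv _ hq)
    refine (hG _).2 ⟨nvP.2 ⟨v1, h1⟩, fun y hy => hGin _ hq y (List.mem_of_mem_take hy), ?_⟩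
    have hlen : l.length = 3 := (nv_wf hM (hGnv _ hq)).1
    by_contra hcon
    obtain ⟨y, hy, hyB⟩ := hGm _ hq
    have hin : ∀ z ∈ l, z ∈ A ∪ {y} := by
      intro z hz
      rcases Finset.mem_union.1 (hGin _ hq z hz) with h2 | h2
      · exact Finset.mem_union_left _ h2
      · refine Finset.mem_union_right _ (Finset.mem_singleton.2 ?_)
        obtain ⟨i, hi⟩ := List.mem_iff_getElem?.1 hz
        obtain ⟨j, hj⟩ := List.mem_iff_getElem?.1 hy
        dsimp only at hj
        have key : ∀ i w, l[i]? = some w → w ∈ B → i = 2 := by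
          intro i w hw hwB
          by_contra hne
          have hlt : i < l.length := by
            by_contra h3
            rw [List.getElem?_eq_none (not_lt.1 h3)] at hw
            simp at hw
          have hi2 : i < 2 := by omega
          exact hcon ⟨w, List.mem_iff_getElem?.2 ⟨i, by rw [List.getElem?_take_of_lt hi2]; exact hw⟩,
            hwB⟩
        have h3 := key i z hi h2
        have h4 := key j y hj hyB
        rw [h3] at hi
        rw [h4] at hj
        rw [hi] at hj
        exact Option.some.inj hj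
    have hss : ({y} : Finset ℕ) ⊂ B := by
      rw [Finset.ssubset_iff_subset_ne]
      refine ⟨Finset.singleton_subset_iff.2 hyB, ?_⟩
      intro h
      rw [← h, Finset.card_singleton] at hb2
      omega
    have h1 := hmin {y} hss (Finset.singleton_nonempty y)
    rw [Finset.card_singleton] at h1
    have h2 : (SSym.K n, l) ∈ G.filter (fun q => ∀ x ∈ q.2, x ∈ A ∪ {y}) :=
      Finset.mem_filter.2 ⟨hq, hin⟩
    have h3 : 0 < (G.filter (fun q => ∀ x ∈ q.2, x ∈ A ∪ {y})).card := Finset.card_pos.2 ⟨_, h2⟩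
    omega
  -- the task
  set T : Task := (β, B.card, G.toList.map (fun q => (q.1, q.2.map e0))) with hT
  have hTmem : ∀ q', q' ∈ T.2.2 ↔ ∃ q ∈ G, (q.1, q.2.map e0) = q' := by
    intro q'
    rw [hT]
    dsimp only
    rw [List.mem_map]
    simp only [Finset.mem_toList]
  have hValid : T.Valid := by
    refine ⟨?_, ?_, ?_, ?_, ?_⟩
    · intro q' hq'
      obtain ⟨q, hq, rfl⟩ := (hTmem q').1 hq'
      obtain ⟨h1, h2⟩ := nv_wf hM (hGnv q hq)
      refine ⟨?_, ?_⟩
      · show (q.2.map e0).length = q.1.ar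
        rw [List.length_map, h1]
      · show (q.2.map e0).Nodup
        refine List.Nodup.map_on ?_ h2
        intro a ha b hb hab
        exact he0inj (Finset.mem_coe.2 (hGin q hq a ha)) (Finset.mem_coe.2 (hGin q hq b hb)) hab
    · intro q' hq' y' hy'
      obtain ⟨q, hq, rfl⟩ := (hTmem q').1 hq'
      obtain ⟨y, hy, rfl⟩ := List.mem_map.1 hy'
      show e0 y < β + B.card
      rcases Finset.mem_union.1 (hGin q hq y hy) with h1 | h1
      · rw [he0A y h1]
        exact (hgβ y h1).trans_le (Nat.le_add_right _ _)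
      · rw [he0B y h1]
        have := idx_lt h1
        omega
    · intro q' hq'
      obtain ⟨q, hq, rfl⟩ := (hTmem q').1 hq'
      obtain ⟨y, hy, hyB⟩ := hGm q hq
      refine ⟨e0 y, List.mem_map_of_mem hy, ?_⟩
      show β ≤ e0 y
      rw [he0B y hyB]
      exact Nat.le_add_right _ _
    · intro n l hq'
      obtain ⟨q, hq, h1⟩ := (hTmem _).1 hq'
      obtain ⟨s, l0⟩ := q
      have h1' : (s, l0.map e0) = (SSym.K n, l) := h1
      obtain ⟨rfl, rfl⟩ := Prod.mk.inj h1'
      refine (hTmem _).2 ⟨_, hkp n l0 hq, ?_⟩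
      show (SSym.P, (l0.take 2).map e0) = _
      rw [List.map_take]
    · intro Y hY
      set Y0 : Finset ℕ := B.filter (fun y => e0 y ∈ Y) with hY0
      have h1 : Y0.card ≤ Y.card := by
        apply Finset.card_le_card_of_injOn e0
        · intro y hy
          exact (Finset.mem_filter.1 hy).2
        · intro y hy z hz hyz
          exact he0inj (Finset.mem_coe.2 (Finset.mem_union_right _ (Finset.mem_filter.1 hy).1))
            (Finset.mem_coe.2 (Finset.mem_union_right _ (Finset.mem_filter.1 hz).1)) hyz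
      have h2 : (T.2.2.toFinset.filter (fun q => ∀ x ∈ q.2, x < T.1 ∨ x ∈ Y)).card ≤
          (G.filter (fun q => ∀ x ∈ q.2, x ∈ A ∪ Y0)).card := by
        refine (Finset.card_le_card (t := (G.filter (fun q => ∀ x ∈ q.2, x ∈ A ∪ Y0)).image
          (fun q => (q.1, q.2.map e0))) ?_).trans Finset.card_image_le
        intro q' hq'
        rw [Finset.mem_filter, List.mem_toFinset] at hq'
        obtain ⟨q, hq, rfl⟩ := (hTmem q').1 hq'.1
        refine Finset.mem_image.2 ⟨q, Finset.mem_filter.2 ⟨hq, ?_⟩, rfl⟩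
        intro y hy
        rcases Finset.mem_union.1 (hGin q hq y hy) with h3 | h3
        · exact Finset.mem_union_left _ h3
        · refine Finset.mem_union_right _ (Finset.mem_filter.2 ⟨h3, ?_⟩)
          refine (hq'.2 (e0 y) (List.mem_map_of_mem hy)).resolve_left ?_
          show ¬ e0 y < β
          rw [he0B y h3]
          omega
      have h3 : (G.filter (fun q => ∀ x ∈ q.2, x ∈ A ∪ Y0)).card ≤ Y0.card := by
        by_cases h4 : Y0 = B
        · rw [h4, ← cG]
          exact Finset.card_filter_le _ _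
        · by_cases h5 : Y0 = ∅
          · rw [h5]
            have : (G.filter (fun q => ∀ x ∈ q.2, x ∈ A ∪ (∅ : Finset ℕ))) = ∅ := by
              rw [Finset.filter_eq_empty_iff]
              intro q hq hcon
              obtain ⟨y, hy, hyB⟩ := hGm q hq
              have := hcon y hy
              rw [Finset.union_empty] at this
              exact hnotA hyB this
            rw [this]; simp
          · exact (hmin Y0 (Finset.ssubset_iff_subset_ne.2 ⟨Finset.filter_subset _ _, h4⟩)
              (Finset.nonempty_iff_ne_empty.2 h5)).le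
      exact h2.trans (h3.trans h1)
  obtain ⟨s, hs⟩ := good_labels hLL t ν
  obtain ⟨v, hv, hsv, hβc, himp⟩ := hL.real T hValid s
  have hβc' : β ≤ c v := hβc
  set e : ℕ → ℕ := nam A g B (c v) with he
  have hgc : ∀ a ∈ A, g a < c v := fun a ha => (hgβ a ha).trans_le hβc'
  have heinj : Set.InjOn e (A ∪ B : Finset ℕ) := nam_inj hgA hgc
  have C : Ctx Lam M Pst lim t ν x A A' g h B G v (c v) e
      (Function.invFunOn e ((A ∪ B : Finset ℕ) : Set ℕ)) := by
    refine ⟨hM, hP, hV, hb2, hbt, dAB, hG, cG, hmin, hstr, ?_, ?_, ?_, ?_, ?_, ?_⟩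
    · exact fun a ha => (hA'β a ha).trans_le hβc'
    · exact fun n hn hp => (hs v hv hsv n hn).1 hp
    · exact fun n hn hp => (hs v hv hsv n hn).2 hp
    · exact fun a ha => nam_A ha
    · intro y hy
      rw [he, nam_B (hnotA hy)]
      exact Nat.le_add_right _ _
    · exact fun y hy => heinj.leftInvOn_invFunOn (Finset.mem_coe.2 hy)
  have hnews : {d | d ∈ T.news Lam v (c v)} = news Lam v G e := by
    ext d
    show d ∈ T.news Lam v (c v) ↔ ∃ q ∈ G, d = (instS Lam v q.1, q.2.map e)
    unfold Task.news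
    rw [List.mem_map]
    have hmm : ∀ q : SEdge, (q.2.map e0).map (theta β (c v)) = q.2.map e := by
      intro q
      rw [List.map_map]
      exact List.map_congr_left fun y _ => theta_nam hgβ y
    constructor
    · rintro ⟨q', hq', rfl⟩
      obtain ⟨q, hq, rfl⟩ := (hTmem q').1 hq'
      refine ⟨q, hq, ?_⟩
      show (instS Lam v q.1, (q.2.map e0).map (theta β (c v))) = _
      rw [hmm]
    · rintro ⟨q, hq, rfl⟩
      refine ⟨_, (hTmem _).2 ⟨q, hq, rfl⟩, ?_⟩
      show (instS Lam v q.1, (q.2.map e0).map (theta β (c v))) = _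
      rw [hmm]
  rw [hnews] at himp
  by_cases hK : InK Lam (DD Lam M v (c v) G e)
  · obtain ⟨hc1, hc2⟩ := himp hK
    have hc1' : c (v + 1) = c v + B.card := hc1
    refine Ext2Aux.fin hP hV dAB hG cG e C.eA ?_ ?_ ?_
    · exact fun y hy z hz hyz => heinj
        (Finset.mem_coe.2 (Finset.mem_union_right _ (Finset.mem_coe.1 hy)))
        (Finset.mem_coe.2 (Finset.mem_union_right _ (Finset.mem_coe.1 hz))) hyz
    · intro y hy hyA
      have h1 := C.A'c _ hyA
      have h2 := C.eB y hy
      omega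
    · intro q hq _
      rw [C.iso hq]
      apply nv_congr (S := fun y => y < c (v + 1))
      · intro s l hl
        show (s, l) ∈ restr M (c v) ∪ news Lam v G e ↔ _
        rw [← hc2]
        exact ⟨fun h1 => h1.1, fun h1 => ⟨h1, hl⟩⟩
      · intro y' hy'
        obtain ⟨y, hy, rfl⟩ := List.mem_map.1 hy'
        show e y < c (v + 1)
        rw [hc1']
        rcases Finset.mem_union.1 (hq y hy) with h1 | h1
        · have := C.e_lt h1
          omega
        · rw [he, nam_B (hnotA h1)]
          have := idx_lt h1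
          omega
  · exact C.concl_bad hFam hMat hK

end Pool.Agent.Helper367SM
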