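import Pool.Agent.Helper367_SM.Spec

set_option autoImplicit false

/-!
Basic facts for the extension lemmas: visible edges, strongness in terms of actual edges, and the
final step which turns a good map on a block into a visible isomorphism.
-/

namespace Pool.Agent.Helper367SM

namespace Ext2Aux

variable {Lam : ℕ → ℕ → ℕ} {t ν : ℕ}

lemma nvE {X : Set Edge} {n i : ℕ} {l : List ℕ} : (SSym.E n i, l) ∈ NV Lam t ν X ↔
    n ≤ t ∧ i ≤ ν ∧ (Sym.E n i, l) ∈ X ∧ ∀ v, (Sym.P v, l.take 2) ∈ X → Lam v n ≠ i := Iff.rfl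

lemma nvK {X : Set Edge} {n : ℕ} {l : List ℕ} : (SSym.K n, l) ∈ NV Lam t ν X ↔
    n ≤ t ∧ ∃ v, (Sym.P v, l.take 2) ∈ X ∧ (Sym.E n (Lam v n), l) ∈ X := Iff.rfl

lemma nvR {X : Set Edge} {n : ℕ} {l : List ℕ} : (SSym.R n, l) ∈ NV Lam t ν X ↔
    n ≤ t ∧ (Sym.R n, l) ∈ X := Iff.rfl

lemma nvS {X : Set Edge} {n : ℕ} {l : List ℕ} : (SSym.S n, l) ∈ NV Lam t ν X ↔
    n ≤ t ∧ (Sym.S n, l) ∈ X := Iff.rfl

lemma nvP {X : Set Edge} {l : List ℕ} : (SSym.P, l) ∈ NV Lam t ν X ↔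
    ∃ v, (Sym.P v, l) ∈ X := Iff.rfl

/-- `NV` only depends on the edges with the same vertices -/
lemma nv_congr {X Y : Set Edge} {S : ℕ → Prop}
    (h : ∀ s l, (∀ y ∈ l, S y) → ((s, l) ∈ X ↔ (s, l) ∈ Y)) (q : SEdge) (hq : ∀ y ∈ q.2, S y) :
    q ∈ NV Lam t ν X ↔ q ∈ NV Lam t ν Y := by
  obtain ⟨s, l⟩ := q
  have h1 : ∀ s, (s, l) ∈ X ↔ (s, l) ∈ Y := fun s => h s l hq
  have h2 : ∀ v, (Sym.P v, l.take 2) ∈ X ↔ (Sym.P v, l.take 2) ∈ Y :=
    fun v => h _ _ fun y hy => hq y (List.mem_of_mem_take hy)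
  cases s <;> simp only [nvE, nvK, nvR, nvS, nvP, h1, h2]

/-- small symbols -/
def Sm (t ν : ℕ) : SSym → Prop
  | SSym.E n i => n ≤ t ∧ i ≤ ν
  | SSym.K n => n ≤ t
  | SSym.R n => n ≤ t
  | SSym.S n => n ≤ t
  | SSym.P => True

lemma nv_sm {X : Set Edge} {q : SEdge} (hq : q ∈ NV Lam t ν X) : Sm t ν q.1 := by
  obtain ⟨s, l⟩ := q
  cases s with
  | E n i => exact ⟨(nvE.1 hq).1, (nvE.1 hq).2.1⟩
  | K n => exact (nvK.1 hq).1
  | R n => exact (nvR.1 hq).1
  | S n => exact (nvS.1 hq).1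
  | P => trivial

lemma sm_of_rk {s : SSym} (h : s.rk ≤ t) (htν : t ≤ ν) : Sm t ν s := by
  cases s with
  | E n i =>
    have h' : max n i ≤ t := h
    exact ⟨(le_max_left n i).trans h', ((le_max_right n i).trans h').trans htν⟩
  | K n => exact h
  | R n => exact h
  | S n => exact h
  | P => trivial

/-- well-formedness of visible edges -/
lemma nv_wf {M : Set Edge} (hM : InK Lam M) {q : SEdge} (hq : q ∈ NV Lam t ν M) :
    q.2.length = q.1.ar ∧ q.2.Nodup := by
  obtain ⟨s, l⟩ := q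
  cases s with
  | E n i => exact hM.wf _ (nvE.1 hq).2.2.1
  | K n =>
    obtain ⟨_, v, _, h⟩ := nvK.1 hq
    exact hM.wf _ h
  | R n => exact hM.wf _ (nvR.1 hq).2
  | S n => exact hM.wf _ (nvS.1 hq).2
  | P =>
    obtain ⟨v, h⟩ := nvP.1 hq
    exact hM.wf _ h

lemma Agree.refl (l : List ℕ) : Agree l l := ⟨0, fun _ _ => rfl⟩

open Classical in
/-- the visible form of an actual edge -/
noncomputable def vis (Lam : ℕ → ℕ → ℕ) (M : Set Edge) : Edge → SEdge
  | (Sym.E n i, l) => if ∃ v, (Sym.P v, l.take 2) ∈ M ∧ Lam v n = i then (SSym.K n, l)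
      else (SSym.E n i, l)
  | (Sym.R n, l) => (SSym.R n, l)
  | (Sym.S n, l) => (SSym.S n, l)
  | (Sym.P _, l) => (SSym.P, l)

lemma vis_snd (M : Set Edge) (e : Edge) : (vis Lam M e).2 = e.2 := by
  obtain ⟨s, l⟩ := e
  cases s with
  | E n i =>
    unfold vis
    dsimp only
    split_ifs <;> rfl
  | R n => rfl
  | S n => rfl
  | P v => rfl

lemma vis_E_pos {M : Set Edge} {n i : ℕ} {l : List ℕ}
    (h : ∃ v, (Sym.P v, l.take 2) ∈ M ∧ Lam v n = i) : vis Lam M (Sym.E n i, l) = (SSym.K n, l) := by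
  unfold vis
  dsimp only
  rw [if_pos h]

lemma vis_E_neg {M : Set Edge} {n i : ℕ} {l : List ℕ}
    (h : ¬ ∃ v, (Sym.P v, l.take 2) ∈ M ∧ Lam v n = i) :
    vis Lam M (Sym.E n i, l) = (SSym.E n i, l) := by
  unfold vis
  dsimp only
  rw [if_neg h]

lemma vis_inj {M : Set Edge} (hM : InK Lam M) : Set.InjOn (vis Lam M) M := by
  rintro ⟨s, l⟩ he ⟨s', l'⟩ he' h
  have hl : l = l' := by
    have := congrArg Prod.snd h
    rwa [vis_snd, vis_snd] at this
  subst hl
  have hs := congrArg Prod.fst h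
  cases s with
  | E n i =>
    cases s' with
    | E n' i' =>
      by_cases h1 : ∃ v, (Sym.P v, l.take 2) ∈ M ∧ Lam v n = i
      · rw [vis_E_pos h1] at hs
        by_cases h2 : ∃ v, (Sym.P v, l.take 2) ∈ M ∧ Lam v n' = i'
        · rw [vis_E_pos h2] at hs
          have hn : n = n' := by simpa using hs
          subst hn
          rw [hM.h3 n i i' l he he']
        · rw [vis_E_neg h2] at hs
          simp at hs
      · rw [vis_E_neg h1] at hs
        by_cases h2 : ∃ v, (Sym.P v, l.take 2) ∈ M ∧ Lam v n' = i'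
        · rw [vis_E_pos h2] at hs
          simp at hs
        · rw [vis_E_neg h2] at hs
          have hn : n = n' ∧ i = i' := by simpa using hs
          rw [hn.1, hn.2]
    | R n' =>
      by_cases h1 : ∃ v, (Sym.P v, l.take 2) ∈ M ∧ Lam v n = i
      · rw [vis_E_pos h1] at hs; simp [vis] at hs
      · rw [vis_E_neg h1] at hs; simp [vis] at hs
    | S n' =>
      by_cases h1 : ∃ v, (Sym.P v, l.take 2) ∈ M ∧ Lam v n = i
      · rw [vis_E_pos h1] at hs; simp [vis] at hs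
      · rw [vis_E_neg h1] at hs; simp [vis] at hs
    | P v' =>
      by_cases h1 : ∃ v, (Sym.P v, l.take 2) ∈ M ∧ Lam v n = i
      · rw [vis_E_pos h1] at hs; simp [vis] at hs
      · rw [vis_E_neg h1] at hs; simp [vis] at hs
  | R n =>
    cases s' with
    | E n' i' =>
      by_cases h1 : ∃ v, (Sym.P v, l.take 2) ∈ M ∧ Lam v n' = i'
      · rw [vis_E_pos h1] at hs; simp [vis] at hs
      · rw [vis_E_neg h1] at hs; simp [vis] at hs
    | R n' => simp [vis] at hs; rw [hs]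
    | S n' => simp [vis] at hs
    | P v' => simp [vis] at hs
  | S n =>
    cases s' with
    | E n' i' =>
      by_cases h1 : ∃ v, (Sym.P v, l.take 2) ∈ M ∧ Lam v n' = i'
      · rw [vis_E_pos h1] at hs; simp [vis] at hs
      · rw [vis_E_neg h1] at hs; simp [vis] at hs
    | R n' => simp [vis] at hs
    | S n' => simp [vis] at hs; rw [hs]
    | P v' => simp [vis] at hs
  | P v =>
    cases s' with
    | E n' i' =>
      by_cases h1 : ∃ v, (Sym.P v, l.take 2) ∈ M ∧ Lam v n' = i'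
      · rw [vis_E_pos h1] at hs; simp [vis] at hs
      · rw [vis_E_neg h1] at hs; simp [vis] at hs
    | R n' => simp [vis] at hs
    | S n' => simp [vis] at hs
    | P v' => exact hM.fn _ he _ he' rfl (Agree.refl l)

/-- strongness in terms of actual edges -/
lemma strong_edges {M : Set Edge} (hM : InK Lam M) {A' : Finset ℕ} {r : ℕ}
    (hs : RStrong (NV Lam t ν M) A' r) (Z : Finset ℕ) (hd : Disjoint A' Z) (hr : Z.card ≤ r)
    (G : Finset Edge) (hG : ∀ e ∈ G, e ∈ M ∧ vis Lam M e ∈ NV Lam t ν M ∧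
      (∀ x ∈ e.2, x ∈ A' ∪ Z) ∧ ∃ x ∈ e.2, x ∈ Z) : G.card ≤ Z.card := by
  classical
  have h := hs Z hd hr (G.image (vis Lam M)) (by
    intro q hq
    obtain ⟨e, he, rfl⟩ := Finset.mem_image.1 hq
    obtain ⟨_, h2, h3, h4⟩ := hG e he
    refine ⟨h2, ?_⟩
    unfold Over
    rw [vis_snd]
    exact ⟨h3, h4⟩)
  rwa [Finset.card_image_of_injOn (fun e he e' he' => vis_inj hM (hG e he).1 (hG e' he').1)] at h

/-- edges with small symbols are visible -/
lemma vis_E_mem {M : Set Edge} {n i : ℕ} {l : List ℕ} (hn : n ≤ t) (hi : i ≤ ν)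
    (he : (Sym.E n i, l) ∈ M) : vis Lam M (Sym.E n i, l) ∈ NV Lam t ν M := by
  by_cases h1 : ∃ v, (Sym.P v, l.take 2) ∈ M ∧ Lam v n = i
  · rw [vis_E_pos h1]
    obtain ⟨v, h2, h3⟩ := h1
    exact nvK.2 ⟨hn, v, h2, by rwa [h3]⟩
  · rw [vis_E_neg h1]
    exact nvE.2 ⟨hn, hi, he, fun v hv hh => h1 ⟨v, hv, hh⟩⟩

lemma vis_K_mem {M : Set Edge} {n v : ℕ} {l : List ℕ} (hn : n ≤ t)
    (hp : (Sym.P v, l.take 2) ∈ M) (he : (Sym.E n (Lam v n), l) ∈ M) :
    vis Lam M (Sym.E n (Lam v n), l) ∈ NV Lam t ν M := by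
  rw [vis_E_pos ⟨v, hp, rfl⟩]
  exact nvK.2 ⟨hn, v, hp, he⟩

/-- labels agree -/
lemma min_lab {a b : ℕ} (h : min a (ν + 1) = min b (ν + 1)) (ha : a ≤ ν) : b = a := by omega

lemma min_lab' {a b : ℕ} (h : min a (ν + 1) = min b (ν + 1)) (hb : b ≤ ν) : a = b := by omega

lemma par_lab {M : Set Edge} {Pst : Set ℕ} {lim : ℕ → ℕ} {x : ℕ} (hP : Par Lam M Pst lim t ν x)
    {v v' : ℕ} {l l' : List ℕ} (h : (Sym.P v, l) ∈ M) (h' : (Sym.P v', l') ∈ M)
    (hl : ∃ y ∈ l, x ≤ y) (hl' : ∃ y ∈ l', x ≤ y) (n : ℕ) (hn : n ≤ t) :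
    min (Lam v n) (ν + 1) = min (Lam v' n) (ν + 1) := by
  by_cases hp : n ∈ Pst
  · have h1 := hP.inP v l h hl n hn hp
    have h2 := hP.inP v' l' h' hl' n hn hp
    omega
  · rw [hP.outP v l h hl n hn hp, hP.outP v' l' h' hl' n hn hp]

lemma map_inj_of_injOn {f : ℕ → ℕ} {S : Set ℕ} (hf : Set.InjOn f S) :
    ∀ {l l' : List ℕ}, (∀ x ∈ l, x ∈ S) → (∀ x ∈ l', x ∈ S) → l.map f = l'.map f → l = l'
  | [], [], _, _, _ => rfl
  | [], _ :: _, _, _, h => by simp at h
  | _ :: _, [], _, _, h => by simp at h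
  | a :: l, b :: l', h1, h2, h => by
    simp only [List.map_cons, List.cons.injEq] at h
    have e1 := hf (h1 a (by simp)) (h2 b (by simp)) h.1
    have e2 := map_inj_of_injOn hf (fun x hx => h1 x (by simp [hx])) (fun x hx => h2 x (by simp [hx])) h.2
    rw [e1, e2]

/-- the final step -/
lemma fin {M : Set Edge} {Pst : Set ℕ} {lim : ℕ → ℕ} {x : ℕ}
    (hP : Par Lam M Pst lim t ν x) {A A' : Finset ℕ} {g h : ℕ → ℕ}
    (hV : VIso Lam M t ν x A A' g h) {B : Finset ℕ} (dAB : Disjoint A B) {G : Finset SEdge}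
    (hG : AllOver (NV Lam t ν M) A B G) (cG : G.card = B.card) (u : ℕ → ℕ)
    (uA : ∀ a ∈ A, u a = g a) (uB : Set.InjOn u B) (uA' : ∀ y ∈ B, u y ∉ A')
    (hu : ∀ q : SEdge, (∀ y ∈ q.2, y ∈ A ∪ B) → (∃ y ∈ q.2, y ∈ B) →
      (q ∈ NV Lam t ν M ↔ (q.1, q.2.map u) ∈ NV Lam t ν M)) :
    ∃ (B' : Finset ℕ) (g' h' : ℕ → ℕ), (∀ a ∈ A, g' a = g a) ∧
      VIso Lam M t ν x (A ∪ B) (A' ∪ B') g' h' ∧ B'.card = B.card ∧
      Tight (NV Lam t ν M) A' B' := by
  classical
  have inj : Set.InjOn u (A ∪ B : Finset ℕ) := by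
    intro a ha b hb hab
    rw [Finset.mem_coe, Finset.mem_union] at ha hb
    by_cases ha' : a ∈ A
    · by_cases hb' : b ∈ A
      · rw [uA a ha', uA b hb'] at hab
        rw [← hV.hg a ha', ← hV.hg b hb', hab]
      · exfalso
        have hb2 := hb.resolve_left hb'
        apply uA' b hb2
        rw [← hab, uA a ha']
        exact hV.gA a ha'
    · have ha2 := ha.resolve_left ha'
      by_cases hb' : b ∈ A
      · exfalso
        apply uA' a ha2
        rw [hab, uA b hb']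
        exact hV.gA b hb'
      · exact uB ha2 (hb.resolve_left hb') hab
  set h' : ℕ → ℕ := Function.invFunOn u (A ∪ B : Finset ℕ) with hh'
  have hl : ∀ a ∈ A ∪ B, h' (u a) = a := fun a ha => inj.leftInvOn_invFunOn (Finset.mem_coe.2 ha)
  have hr : ∀ a' ∈ A' ∪ B.image u, ∃ a ∈ A ∪ B, u a = a' ∧ (a' ∈ B.image u → a ∈ B) := by
    intro a' ha'
    by_cases hb : a' ∈ B.image u
    · obtain ⟨y, hy, rfl⟩ := Finset.mem_image.1 hb
      exact ⟨y, Finset.mem_union_right _ hy, rfl, fun _ => hy⟩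
    · have h1 := (Finset.mem_union.1 ha').resolve_right hb
      exact ⟨h a', Finset.mem_union_left _ (hV.hA a' h1), by rw [uA _ (hV.hA a' h1), hV.gh a' h1],
        fun h2 => absurd h2 hb⟩
  have uu : ∀ a ∈ A ∪ B, u a ∈ A' ∪ B.image u := by
    intro a ha
    rcases Finset.mem_union.1 ha with h1 | h1
    · rw [uA a h1]; exact Finset.mem_union_left _ (hV.gA a h1)
    · exact Finset.mem_union_right _ (Finset.mem_image_of_mem u h1)
  refine ⟨B.image u, u, h', uA, ?_, Finset.card_image_of_injOn uB, ?_, ?_⟩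
  · refine ⟨uu, ?_, hl, ?_, ?_, ?_, ?_, ?_, ?_⟩
    · intro a' ha'
      obtain ⟨a, ha, rfl, _⟩ := hr a' ha'
      rw [hl a ha]; exact ha
    · intro a' ha'
      obtain ⟨a, ha, rfl, _⟩ := hr a' ha'
      rw [hl a ha]
    · exact fun i hi => Finset.mem_union_left _ (hV.xA i hi)
    · exact fun i hi => Finset.mem_union_left _ (hV.xA' i hi)
    · intro i hi
      rw [uA i (hV.xA i hi), hV.fix i hi]
    · intro q hq
      by_cases hB : ∃ y ∈ q.2, y ∈ B
      · exact hu q hq hB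
      · have hq' : ∀ y ∈ q.2, y ∈ A := fun y hy =>
          (Finset.mem_union.1 (hq y hy)).resolve_right fun h => hB ⟨y, hy, h⟩
        rw [hV.nv q hq', List.map_congr_left fun y hy => uA y (hq' y hy)]
    · intro v v' l hl1 h1 h2 n hn
      by_cases hB : ∃ y ∈ l, y ∈ B
      · obtain ⟨y, hy, hyB⟩ := hB
        refine par_lab hP h1 h2 ⟨y, hy, ?_⟩ ⟨u y, List.mem_map_of_mem hy, ?_⟩ n hn
        · by_contra hlt
          exact Finset.disjoint_left.1 dAB (hV.xA y (not_le.1 hlt)) hyB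
        · by_contra hlt
          exact uA' y hyB (hV.xA' _ (not_le.1 hlt))
      · have hq' : ∀ y ∈ l, y ∈ A := fun y hy =>
          (Finset.mem_union.1 (hl1 y hy)).resolve_right fun h => hB ⟨y, hy, h⟩
        rw [List.map_congr_left fun y hy => uA y (hq' y hy)] at h2
        exact hV.lab v v' l hq' h1 h2 n hn
  · rw [Finset.disjoint_right]
    intro y' hy'
    obtain ⟨y, hy, rfl⟩ := Finset.mem_image.1 hy'
    exact uA' y hy
  · refine ⟨G.image (fun q => (q.1, q.2.map u)), ?_, ?_⟩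
    · intro q'
      constructor
      · intro hq'
        obtain ⟨q, hq, rfl⟩ := Finset.mem_image.1 hq'
        obtain ⟨h1, h2, h3⟩ := (hG q).1 hq
        refine ⟨(hu q h2 h3).1 h1, ?_, ?_⟩
        · intro y hy
          obtain ⟨z, hz, rfl⟩ := List.mem_map.1 hy
          exact uu z (h2 z hz)
        · obtain ⟨y, hy, hyB⟩ := h3
          exact ⟨u y, List.mem_map_of_mem hy, Finset.mem_image_of_mem u hyB⟩
      · rintro ⟨h1, h2, h3⟩
        have e : (q'.2.map h').map u = q'.2 := by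
          rw [List.map_map]
          conv_rhs => rw [← List.map_id q'.2]
          apply List.map_congr_left
          intro y hy
          obtain ⟨a, ha, rfl, _⟩ := hr y (h2 y hy)
          simp only [Function.comp, id, hl a ha]
        have hin : ∀ y ∈ q'.2.map h', y ∈ A ∪ B := by
          intro y hy
          obtain ⟨z, hz, rfl⟩ := List.mem_map.1 hy
          obtain ⟨a, ha, rfl, _⟩ := hr z (h2 z hz)
          rw [hl a ha]; exact ha
        have hm : ∃ y ∈ q'.2.map h', y ∈ B := by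
          obtain ⟨z, hz, hzB⟩ := h3
          obtain ⟨a, ha, rfl, haB⟩ := hr z (h2 z hz)
          exact ⟨h' (u a), List.mem_map_of_mem hz, by rw [hl a ha]; exact haB hzB⟩
        refine Finset.mem_image.2 ⟨(q'.1, q'.2.map h'), (hG _).2 ⟨?_, hin, hm⟩, ?_⟩
        · rw [hu _ hin hm]
          show (q'.1, (q'.2.map h').map u) ∈ _
          rw [e]; exact h1
        · show (q'.1, (q'.2.map h').map u) = q'
          rw [e]
    · rw [Finset.card_image_of_injOn, Finset.card_image_of_injOn uB, cG]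
      intro q hq q' hq' hqq
      have h1 := ((hG q).1 hq).2.1
      have h2 := ((hG q').1 hq').2.1
      have hqq' : (q.1, q.2.map u) = (q'.1, q'.2.map u) := hqq
      have e1 : q.1 = q'.1 := (Prod.mk.inj hqq').1
      have e2 : q.2.map u = q'.2.map u := (Prod.mk.inj hqq').2
      have e3 := map_inj_of_injOn inj (fun x hx => Finset.mem_coe.2 (h1 x hx))
        (fun x hx => Finset.mem_coe.2 (h2 x hx)) e2
      exact Prod.ext e1 e3

end Ext2Aux

end Pool.Agent.Helper367SM
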