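import Pool.Agent.Helper367_SM.Ext2A

set_option autoImplicit false

/-!
The structure `D` obtained by attempting to realise a block over `A'` at a large true stage: its
visible edges, the conditions of the class other than the multiplicity bounds.
-/

namespace Pool.Agent.Helper367SM

namespace Ext2Aux

variable {Lam : ℕ → ℕ → ℕ} {t ν : ℕ}

/-- the common context -/
structure Ctx (Lam : ℕ → ℕ → ℕ) (M : Set Edge) (Pst : Set ℕ) (lim : ℕ → ℕ) (t ν x : ℕ)
    (A A' : Finset ℕ) (g h : ℕ → ℕ) (B : Finset ℕ) (G : Finset SEdge) (v cv : ℕ) (e k : ℕ → ℕ) :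
    Prop where
  hM : InK Lam M
  hP : Par Lam M Pst lim t ν x
  hV : VIso Lam M t ν x A A' g h
  b2 : 2 ≤ B.card
  bt : B.card + 1 ≤ t
  dAB : Disjoint A B
  hG : AllOver (NV Lam t ν M) A B G
  cG : G.card = B.card
  minB : ∀ Y ⊂ B, Y.Nonempty → (G.filter (fun q => ∀ x ∈ q.2, x ∈ A ∪ Y)).card < Y.card
  str : RStrong (NV Lam t ν M) A' ((B.card + 1) ^ 2)
  A'c : ∀ a ∈ A', a < cv
  labIn : ∀ n ≤ t, n ∈ Pst → ν < Lam v n
  labOut : ∀ n ≤ t, n ∉ Pst → Lam v n = lim n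
  eA : ∀ a ∈ A, e a = g a
  eB : ∀ y ∈ B, cv ≤ e y
  ke : ∀ y ∈ A ∪ B, k (e y) = y

/-- the new edges -/
def news (Lam : ℕ → ℕ → ℕ) (v : ℕ) (G : Finset SEdge) (e : ℕ → ℕ) : Set Edge :=
  {d | ∃ q ∈ G, d = (instS Lam v q.1, q.2.map e)}

/-- the attempted structure -/
def DD (Lam : ℕ → ℕ → ℕ) (M : Set Edge) (v cv : ℕ) (G : Finset SEdge) (e : ℕ → ℕ) : Set Edge :=
  restr M cv ∪ news Lam v G e

namespace Ctx

variable {M : Set Edge} {Pst : Set ℕ} {lim : ℕ → ℕ} {x : ℕ} {A A' : Finset ℕ} {g h : ℕ → ℕ}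
  {B : Finset ℕ} {G : Finset SEdge} {v cv : ℕ} {e k : ℕ → ℕ}

variable (C : Ctx Lam M Pst lim t ν x A A' g h B G v cv e k)

include C

lemma G_nv {q : SEdge} (hq : q ∈ G) : q ∈ NV Lam t ν M := ((C.hG q).1 hq).1

lemma G_in {q : SEdge} (hq : q ∈ G) : ∀ y ∈ q.2, y ∈ A ∪ B := ((C.hG q).1 hq).2.1

lemma G_meets {q : SEdge} (hq : q ∈ G) : ∃ y ∈ q.2, y ∈ B := ((C.hG q).1 hq).2.2

/-- members of `G` have two points in `B` -/
lemma two {q : SEdge} (hq : q ∈ G) : ∃ y ∈ q.2, ∃ z ∈ q.2, y ≠ z ∧ y ∈ B ∧ z ∈ B := by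
  classical
  obtain ⟨y, hy, hyB⟩ := C.G_meets hq
  by_contra hcon
  have hin : ∀ z ∈ q.2, z ∈ A ∪ {y} := by
    intro z hz
    rcases Finset.mem_union.1 (C.G_in hq z hz) with h1 | h1
    · exact Finset.mem_union_left _ h1
    · by_cases hzy : z = y
      · rw [hzy]; exact Finset.mem_union_right _ (Finset.mem_singleton_self y)
      · exact absurd ⟨y, hy, z, hz, fun h => hzy h.symm, hyB, h1⟩ hcon
  have hss : ({y} : Finset ℕ) ⊂ B := by
    rw [Finset.ssubset_iff_subset_ne]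
    refine ⟨Finset.singleton_subset_iff.2 hyB, ?_⟩
    intro h
    have := C.b2
    rw [← h, Finset.card_singleton] at this
    omega
  have h1 := C.minB {y} hss (Finset.singleton_nonempty y)
  rw [Finset.card_singleton] at h1
  have h2 : q ∈ G.filter (fun q => ∀ x ∈ q.2, x ∈ A ∪ {y}) := Finset.mem_filter.2 ⟨hq, hin⟩
  have h3 : 0 < (G.filter (fun q => ∀ x ∈ q.2, x ∈ A ∪ {y})).card := Finset.card_pos.2 ⟨q, h2⟩
  omega

/-- at most one point of the list of a member of `G` cannot cover the block points -/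
lemma not_one {q : SEdge} (hq : q ∈ G) {l : List ℕ} {p : ℕ} (hl : ∀ y ∈ l, y ∉ B)
    (hp : ∀ i, i ≠ p → ∀ y, q.2[i]? = some y → y ∈ l) : False := by
  obtain ⟨y, hy, z, hz, hyz, hyB, hzB⟩ := C.two hq
  obtain ⟨i, hi⟩ := List.mem_iff_getElem?.1 hy
  obtain ⟨j, hj⟩ := List.mem_iff_getElem?.1 hz
  have h1 : i = p := by
    by_contra h
    exact hl y (hp i h y hi) hyB
  have h2 : j = p := by
    by_contra h
    exact hl z (hp j h z hj) hzB
  rw [h1] at hi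
  rw [h2] at hj
  rw [hi] at hj
  exact hyz (Option.some.inj hj)

lemma xB {y : ℕ} (hy : y ∈ B) : x ≤ y := by
  by_contra hlt
  exact Finset.disjoint_left.1 C.dAB (C.hV.xA y (not_le.1 hlt)) hy

lemma notA {y : ℕ} (hy : y ∈ B) : y ∉ A := fun h => Finset.disjoint_left.1 C.dAB h hy

/-- the label of a pair meeting `B` agrees with the label of `v` -/
lemma lab_new {v1 : ℕ} {l : List ℕ} (h1 : (Sym.P v1, l) ∈ M) (hl : ∃ y ∈ l, y ∈ B) (n : ℕ)
    (hn : n ≤ t) : min (Lam v1 n) (ν + 1) = min (Lam v n) (ν + 1) := by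
  obtain ⟨y, hy, hyB⟩ := hl
  by_cases hp : n ∈ Pst
  · have h2 := C.hP.inP v1 l h1 ⟨y, hy, C.xB hyB⟩ n hn hp
    have h3 := C.labIn n hn hp
    omega
  · rw [C.hP.outP v1 l h1 ⟨y, hy, C.xB hyB⟩ n hn hp, C.labOut n hn hp]

lemma e_lt {a : ℕ} (ha : a ∈ A) : e a < cv := by
  rw [C.eA a ha]
  exact C.A'c _ (C.hV.gA a ha)

lemma e_mem {a : ℕ} (ha : a ∈ A) : e a ∈ A' := by
  rw [C.eA a ha]
  exact C.hV.gA a ha

lemma mem_A_of_lt {y : ℕ} (hy : y ∈ A ∪ B) (h1 : e y < cv) : y ∈ A := by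
  rcases Finset.mem_union.1 hy with h2 | h2
  · exact h2
  · exact absurd (C.eB y h2) (not_le.2 h1)

lemma mem_B_of_le {y : ℕ} (hy : y ∈ A ∪ B) (h1 : cv ≤ e y) : y ∈ B := by
  rcases Finset.mem_union.1 hy with h2 | h2
  · exact absurd h1 (not_le.2 (C.e_lt h2))
  · exact h2

lemma injOn : Set.InjOn e (A ∪ B : Finset ℕ) := by
  intro a ha b hb hab
  rw [← C.ke a ha, ← C.ke b hb, hab]

lemma map_inj {l l' : List ℕ} (h1 : ∀ y ∈ l, y ∈ A ∪ B) (h2 : ∀ y ∈ l', y ∈ A ∪ B)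
    (hh : l.map e = l'.map e) : l = l' :=
  map_inj_of_injOn C.injOn (fun y hy => Finset.mem_coe.2 (h1 y hy))
    (fun y hy => Finset.mem_coe.2 (h2 y hy)) hh

/-- new edges have a new point -/
lemma new_pt {d : Edge} (hd : d ∈ news Lam v G e) : ∃ y ∈ d.2, cv ≤ y := by
  obtain ⟨q, hq, rfl⟩ := hd
  obtain ⟨y, hy, hyB⟩ := C.G_meets hq
  exact ⟨e y, List.mem_map_of_mem hy, C.eB y hyB⟩

lemma old {s : Sym} {l : List ℕ} (hl : ∀ y ∈ l, y < cv) :
    (s, l) ∈ DD Lam M v cv G e ↔ (s, l) ∈ M := by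
  constructor
  · rintro (h1 | h1)
    · exact h1.1
    · obtain ⟨y, hy, h2⟩ := C.new_pt h1
      exact absurd (hl y hy) (not_lt.2 h2)
  · exact fun h1 => Or.inl ⟨h1, hl⟩

omit C in
lemma isnew {d : Edge} (hd : d ∈ DD Lam M v cv G e) (hl : ∃ y ∈ d.2, cv ≤ y) :
    d ∈ news Lam v G e := by
  rcases hd with h1 | h1
  · obtain ⟨y, hy, h2⟩ := hl
    exact absurd (h1.2 y hy) (not_lt.2 h2)
  · exact h1

lemma newE {n i : ℕ} {l : List ℕ} (hl : ∀ y ∈ l, y ∈ A ∪ B) :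
    (Sym.E n i, l.map e) ∈ news Lam v G e ↔
      ((SSym.E n i, l) ∈ G ∨ ((SSym.K n, l) ∈ G ∧ Lam v n = i)) := by
  constructor
  · rintro ⟨⟨s, l'⟩, hq, he⟩
    have hl' := C.map_inj hl (C.G_in hq) (congrArg Prod.snd he)
    have hs : Sym.E n i = instS Lam v s := congrArg Prod.fst he
    dsimp only at hl'
    subst hl'
    cases s with
    | E n' i' =>
      have : n = n' ∧ i = i' := by simpa [instS] using hs
      left
      rw [this.1, this.2]; exact hq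
    | K n' =>
      have : n = n' ∧ i = Lam v n' := by simpa [instS] using hs
      right
      rw [this.1, this.2]; exact ⟨hq, rfl⟩
    | R n' => simp [instS] at hs
    | S n' => simp [instS] at hs
    | P => simp [instS] at hs
  · rintro (h1 | ⟨h1, rfl⟩)
    · exact ⟨_, h1, rfl⟩
    · exact ⟨_, h1, rfl⟩

lemma newR {n : ℕ} {l : List ℕ} (hl : ∀ y ∈ l, y ∈ A ∪ B) :
    (Sym.R n, l.map e) ∈ news Lam v G e ↔ (SSym.R n, l) ∈ G := by
  constructor
  · rintro ⟨⟨s, l'⟩, hq, he⟩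
    have hl' := C.map_inj hl (C.G_in hq) (congrArg Prod.snd he)
    have hs : Sym.R n = instS Lam v s := congrArg Prod.fst he
    dsimp only at hl'
    subst hl'
    cases s with
    | E n' i' => simp [instS] at hs
    | K n' => simp [instS] at hs
    | R n' =>
      have : n = n' := by simpa [instS] using hs
      rw [this]; exact hq
    | S n' => simp [instS] at hs
    | P => simp [instS] at hs
  · exact fun h1 => ⟨_, h1, rfl⟩

lemma newS {n : ℕ} {l : List ℕ} (hl : ∀ y ∈ l, y ∈ A ∪ B) :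
    (Sym.S n, l.map e) ∈ news Lam v G e ↔ (SSym.S n, l) ∈ G := by
  constructor
  · rintro ⟨⟨s, l'⟩, hq, he⟩
    have hl' := C.map_inj hl (C.G_in hq) (congrArg Prod.snd he)
    have hs : Sym.S n = instS Lam v s := congrArg Prod.fst he
    dsimp only at hl'
    subst hl'
    cases s with
    | E n' i' => simp [instS] at hs
    | K n' => simp [instS] at hs
    | R n' => simp [instS] at hs
    | S n' =>
      have : n = n' := by simpa [instS] using hs
      rw [this]; exact hq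
    | P => simp [instS] at hs
  · exact fun h1 => ⟨_, h1, rfl⟩

lemma newP {v' : ℕ} {l : List ℕ} (hl : ∀ y ∈ l, y ∈ A ∪ B) :
    (Sym.P v', l.map e) ∈ news Lam v G e ↔ (v' = v ∧ (SSym.P, l) ∈ G) := by
  constructor
  · rintro ⟨⟨s, l'⟩, hq, he⟩
    have hl' := C.map_inj hl (C.G_in hq) (congrArg Prod.snd he)
    have hs : Sym.P v' = instS Lam v s := congrArg Prod.fst he
    dsimp only at hl'
    subst hl'
    cases s with
    | E n' i' => simp [instS] at hs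
    | K n' => simp [instS] at hs
    | R n' => simp [instS] at hs
    | S n' => simp [instS] at hs
    | P =>
      have : v' = v := by simpa [instS] using hs
      exact ⟨this, hq⟩
  · rintro ⟨rfl, h1⟩
    exact ⟨_, h1, rfl⟩

/-- the first two points of a member of `G` of length at most three meet `B` -/
lemma take2 {q : SEdge} (hq : q ∈ G) (h3 : q.2.length ≤ 3) : ∃ y ∈ q.2.take 2, y ∈ B := by
  by_contra hcon
  refine C.not_one hq (l := q.2.take 2) (p := 2) (fun y hy hB => hcon ⟨y, hy, hB⟩) ?_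
  intro i hi y hy
  have hlt : i < q.2.length := by
    by_contra h
    rw [List.getElem?_eq_none (not_lt.1 h)] at hy
    simp at hy
  have hi2 : i < 2 := by omega
  apply List.mem_iff_getElem?.2
  exact ⟨i, by rw [List.getElem?_take_of_lt hi2]; exact hy⟩

lemma kp {n : ℕ} {l : List ℕ} (hq : (SSym.K n, l) ∈ G) : (SSym.P, l.take 2) ∈ G := by
  obtain ⟨_, v1, h1, _⟩ := nvK.1 (C.G_nv hq)
  refine (C.hG _).2 ⟨nvP.2 ⟨v1, h1⟩, fun y hy => C.G_in hq y (List.mem_of_mem_take hy), ?_⟩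
  have hlen : l.length = 3 := (nv_wf C.hM (C.G_nv hq)).1
  exact C.take2 hq (by show l.length ≤ 3; omega)

lemma map_ge {l : List ℕ} (hl : ∃ y ∈ l, y ∈ B) : ∃ y ∈ l.map e, cv ≤ y := by
  obtain ⟨y, hy, hyB⟩ := hl
  exact ⟨e y, List.mem_map_of_mem hy, C.eB y hyB⟩

lemma map_lt {l : List ℕ} (hl : ∀ y ∈ l, y ∈ A) : ∀ y ∈ l.map e, y < cv := by
  intro y hy
  obtain ⟨z, hz, rfl⟩ := List.mem_map.1 hy
  exact C.e_lt (hl z hz)

omit C in
lemma allA {l : List ℕ} (hl : ∀ y ∈ l, y ∈ A ∪ B) (hB : ¬ ∃ y ∈ l, y ∈ B) : ∀ y ∈ l, y ∈ A :=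
  fun y hy => (Finset.mem_union.1 (hl y hy)).resolve_right fun h => hB ⟨y, hy, h⟩

lemma map_g {l : List ℕ} (hl : ∀ y ∈ l, y ∈ A) : l.map e = l.map g :=
  List.map_congr_left fun y hy => C.eA y (hl y hy)

/-- the structure over `A` -/
lemma isoA {q : SEdge} (hq : ∀ y ∈ q.2, y ∈ A) :
    q ∈ NV Lam t ν M ↔ (q.1, q.2.map e) ∈ NV Lam t ν (DD Lam M v cv G e) := by
  rw [C.hV.nv q hq, C.map_g hq]
  symm
  apply nv_congr (S := fun y => y < cv) (fun s l hl => C.old hl)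
  intro y hy
  rw [← C.map_g hq] at hy
  exact C.map_lt hq y hy

/-- versions of pairs: `M` to `D` -/
lemma labD {v1 v2 : ℕ} {l : List ℕ} (hl : ∀ y ∈ l, y ∈ A ∪ B) (h1 : (Sym.P v1, l) ∈ M)
    (h2 : (Sym.P v2, l.map e) ∈ DD Lam M v cv G e) (n : ℕ) (hn : n ≤ t) :
    min (Lam v1 n) (ν + 1) = min (Lam v2 n) (ν + 1) := by
  by_cases hB : ∃ y ∈ l, y ∈ B
  · have h3 := (C.newP hl).1 (isnew h2 (C.map_ge hB))
    rw [h3.1]
    exact C.lab_new h1 hB n hn
  · have hA := allA hl hB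
    have h3 := (C.old (C.map_lt hA)).1 h2
    rw [C.map_g hA] at h3
    exact C.hV.lab v1 v2 l hA h1 h3 n hn

/-- pairs -/
lemma pairD {l : List ℕ} (hl : ∀ y ∈ l, y ∈ A ∪ B) :
    (∃ v1, (Sym.P v1, l) ∈ M) ↔ ∃ v2, (Sym.P v2, l.map e) ∈ DD Lam M v cv G e := by
  by_cases hB : ∃ y ∈ l, y ∈ B
  · constructor
    · intro h1
      have : (SSym.P, l) ∈ G := (C.hG _).2 ⟨nvP.2 h1, hl, hB⟩
      exact ⟨v, Or.inr ((C.newP hl).2 ⟨rfl, this⟩)⟩
    · rintro ⟨v2, h2⟩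
      have h3 := (C.newP hl).1 (isnew h2 (C.map_ge hB))
      exact nvP.1 (C.G_nv h3.2)
  · exact (C.isoA (q := (SSym.P, l)) (allA hl hB))

/-- the visible isomorphism -/
lemma iso {q : SEdge} (hq : ∀ y ∈ q.2, y ∈ A ∪ B) :
    q ∈ NV Lam t ν M ↔ (q.1, q.2.map e) ∈ NV Lam t ν (DD Lam M v cv G e) := by
  by_cases hB : ∃ y ∈ q.2, y ∈ B
  swap
  · exact C.isoA (allA hq hB)
  obtain ⟨s, l⟩ := q
  dsimp only at hq hB ⊢
  have hge := C.map_ge hB
  have htake : ∀ y ∈ l.take 2, y ∈ A ∪ B := fun y hy => hq y (List.mem_of_mem_take hy)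
  constructor
  · intro hN
    have hqG : (s, l) ∈ G := (C.hG _).2 ⟨hN, hq, hB⟩
    cases s with
    | E n i =>
      obtain ⟨h1, h2, h3, h4⟩ := nvE.1 hN
      refine nvE.2 ⟨h1, h2, Or.inr ((C.newE hq).2 (Or.inl hqG)), ?_⟩
      intro v' hv' hL
      rw [← List.map_take] at hv'
      obtain ⟨v1, hv1⟩ := (C.pairD htake).2 ⟨v', hv'⟩
      have h5 := C.labD htake hv1 hv' n h1
      exact h4 v1 hv1 (by rw [min_lab' h5 (by rw [hL]; exact h2), hL])
    | K n =>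
      obtain ⟨h1, _⟩ := nvK.1 hN
      refine nvK.2 ⟨h1, v, ?_, Or.inr ((C.newE hq).2 (Or.inr ⟨hqG, rfl⟩))⟩
      rw [← List.map_take]
      exact Or.inr ((C.newP htake).2 ⟨rfl, C.kp hqG⟩)
    | R n => exact nvR.2 ⟨(nvR.1 hN).1, Or.inr ((C.newR hq).2 hqG)⟩
    | S n => exact nvS.2 ⟨(nvS.1 hN).1, Or.inr ((C.newS hq).2 hqG)⟩
    | P => exact nvP.2 ⟨v, Or.inr ((C.newP hq).2 ⟨rfl, hqG⟩)⟩
  · intro hN
    cases s with
    | E n i =>
      obtain ⟨h1, h2, h3, h4⟩ := nvE.1 hN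
      rcases (C.newE hq).1 (isnew h3 hge) with h5 | ⟨h5, h6⟩
      · exact C.G_nv h5
      · exfalso
        refine h4 v ?_ h6
        rw [← List.map_take]
        exact Or.inr ((C.newP htake).2 ⟨rfl, C.kp h5⟩)
    | K n =>
      obtain ⟨h1, v', hv', h3⟩ := nvK.1 hN
      rw [← List.map_take] at hv'
      rcases (C.newE hq).1 (isnew h3 hge) with h5 | ⟨h5, h6⟩
      · exfalso
        obtain ⟨_, h6, _, h7⟩ := nvE.1 (C.G_nv h5)
        obtain ⟨v1, hv1⟩ := (C.pairD htake).2 ⟨v', hv'⟩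
        have h8 := C.labD htake hv1 hv' n h1
        exact h7 v1 hv1 (min_lab' h8 h6)
      · exact C.G_nv h5
    | R n => exact C.G_nv ((C.newR hq).1 (isnew (nvR.1 hN).2 hge))
    | S n => exact C.G_nv ((C.newS hq).1 (isnew (nvS.1 hN).2 hge))
    | P =>
      obtain ⟨v', hv'⟩ := nvP.1 hN
      exact C.G_nv ((C.newP hq).1 (isnew hv' hge)).2

/-- (T): matching pulls back -/
lemma pull {Q : Finset SEdge} {f' : ℕ → ℕ} {q : SEdge}
    (hm : Matched Lam (DD Lam M v cv G e) Q (fun y => e (f' y)) q) (hs : Sm t ν q.1)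
    (hf : ∀ y ∈ q.2, f' y ∈ A ∪ B) : Matched Lam M Q f' q := by
  obtain ⟨s, l⟩ := q
  dsimp only at hf
  have hmap : ∀ l : List ℕ, l.map (fun y => e (f' y)) = (l.map f').map e := by
    intro l
    rw [List.map_map]; rfl
  have hin : ∀ y ∈ l.map f', y ∈ A ∪ B := by
    intro y hy
    obtain ⟨z, hz, rfl⟩ := List.mem_map.1 hy
    exact hf z hz
  have htake : ∀ y ∈ (l.take 2).map f', y ∈ A ∪ B := by
    intro y hy
    obtain ⟨z, hz, rfl⟩ := List.mem_map.1 hy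
    exact hf z (List.mem_of_mem_take hz)
  cases s with
  | E n i =>
    obtain ⟨h1, h2⟩ := hm
    obtain ⟨hn, hi⟩ := hs
    have hn' : n ≤ t := hn
    have hi' : i ≤ ν := hi
    rw [hmap] at h1
    refine ⟨?_, ?_⟩
    · by_cases hK : ∃ v', (Sym.P v', ((l.take 2).map f').map e) ∈ DD Lam M v cv G e ∧ Lam v' n = i
      · obtain ⟨v', hv', hL⟩ := hK
        have h3 : (SSym.K n, (l.map f').map e) ∈ NV Lam t ν (DD Lam M v cv G e) := by
          refine nvK.2 ⟨hn', v', ?_, by rw [hL]; exact h1⟩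
          rw [← List.map_take, ← List.map_take]
          exact hv'
        obtain ⟨_, v1, hv1, h4⟩ := nvK.1 ((C.iso (q := (SSym.K n, l.map f')) hin).2 h3)
        rw [← List.map_take] at hv1
        have h5 := C.labD htake hv1 hv' n hn'
        have h6 : Lam v1 n = i := by rw [min_lab' h5 (by rw [hL]; exact hi'), hL]
        rw [h6] at h4
        exact h4
      · have h3 : (SSym.E n i, (l.map f').map e) ∈ NV Lam t ν (DD Lam M v cv G e) := by
          refine nvE.2 ⟨hn', hi', h1, fun v' hv' hL => hK ⟨v', ?_, hL⟩⟩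
          rw [← List.map_take, ← List.map_take] at hv'
          exact hv'
        exact (nvE.1 ((C.iso (q := (SSym.E n i, l.map f')) hin).2 h3)).2.2.1
    · intro hp v1 hv1 hL
      obtain ⟨v', hv'⟩ := (C.pairD htake).1 ⟨v1, hv1⟩
      have h5 := C.labD htake hv1 hv' n hn'
      refine h2 hp v' (by rw [hmap]; exact hv') ?_
      rw [min_lab h5 (by rw [hL]; exact hi'), hL]
  | K n =>
    obtain ⟨v', hv', h1⟩ := hm
    have hn' : n ≤ t := hs
    rw [hmap] at hv' h1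
    have h3 : (SSym.K n, (l.map f').map e) ∈ NV Lam t ν (DD Lam M v cv G e) := by
      refine nvK.2 ⟨hn', v', ?_, h1⟩
      rw [← List.map_take, ← List.map_take]
      exact hv'
    obtain ⟨_, v1, hv1, h4⟩ := nvK.1 ((C.iso (q := (SSym.K n, l.map f')) hin).2 h3)
    rw [← List.map_take] at hv1
    exact ⟨v1, hv1, h4⟩
  | R n =>
    have h1 : (Sym.R n, l.map (fun y => e (f' y))) ∈ DD Lam M v cv G e := hm
    rw [hmap] at h1
    exact (nvR.1 ((C.iso (q := (SSym.R n, l.map f')) hin).2 (nvR.2 ⟨hs, h1⟩))).2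
  | S n =>
    have h1 : (Sym.S n, l.map (fun y => e (f' y))) ∈ DD Lam M v cv G e := hm
    rw [hmap] at h1
    exact (nvS.1 ((C.iso (q := (SSym.S n, l.map f')) hin).2 (nvS.2 ⟨hs, h1⟩))).2
  | P =>
    obtain ⟨v', hv'⟩ : ∃ v', (Sym.P v', l.map (fun y => e (f' y))) ∈ DD Lam M v cv G e := hm
    rw [hmap] at hv'
    exact nvP.1 ((C.iso (q := (SSym.P, l.map f')) hin).2 (nvP.2 ⟨v', hv'⟩))

/-- old matchings are matchings in `M` -/
lemma matched_old {Q : Finset SEdge} {f : ℕ → ℕ} {q : SEdge}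
    (hm : Matched Lam (DD Lam M v cv G e) Q f q) (hf : ∀ y ∈ q.2, f y < cv) :
    Matched Lam M Q f q := by
  obtain ⟨s, l⟩ := q
  dsimp only at hf
  have hin : ∀ y ∈ l.map f, y < cv := by
    intro y hy
    obtain ⟨z, hz, rfl⟩ := List.mem_map.1 hy
    exact hf z hz
  have htake : ∀ y ∈ (l.take 2).map f, y < cv := by
    intro y hy
    obtain ⟨z, hz, rfl⟩ := List.mem_map.1 hy
    exact hf z (List.mem_of_mem_take hz)
  cases s with
  | E n i => exact ⟨(C.old hin).1 hm.1, fun hp v' hv' => hm.2 hp v' ((C.old htake).2 hv')⟩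
  | K n =>
    obtain ⟨v', hv', h1⟩ := hm
    exact ⟨v', (C.old htake).1 hv', (C.old hin).1 h1⟩
  | R n => exact (C.old hin).1 hm
  | S n => exact (C.old hin).1 hm
  | P =>
    obtain ⟨v', hv'⟩ : ∃ v', (Sym.P v', l.map f) ∈ DD Lam M v cv G e := hm
    exact ⟨v', (C.old hin).1 hv'⟩

/-- old matching edges with small symbols are visible -/
lemma vis_medge {f : ℕ → ℕ} {q : SEdge} {d : Edge}
    (hm : MEdge Lam (DD Lam M v cv G e) f d q) (hs : Sm t ν q.1) (hf : ∀ y ∈ d.2, y < cv) :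
    d ∈ M ∧ vis Lam M d ∈ NV Lam t ν M := by
  obtain ⟨s, l⟩ := q
  cases s with
  | E n i =>
    obtain ⟨rfl, h2⟩ := hm
    have h3 := (C.old hf).1 h2
    exact ⟨h3, vis_E_mem hs.1 hs.2 h3⟩
  | K n =>
    obtain ⟨v', hv', rfl, h2⟩ := hm
    have h3 := (C.old hf).1 h2
    have h4 := (C.old (fun y hy => hf y (by
      rw [List.map_take] at hy
      exact List.mem_of_mem_take hy))).1 hv'
    rw [List.map_take] at h4
    exact ⟨h3, vis_K_mem hs h4 h3⟩
  | R n =>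
    obtain ⟨rfl, h2⟩ := hm
    have h3 := (C.old hf).1 h2
    exact ⟨h3, nvR.2 ⟨hs, h3⟩⟩
  | S n =>
    obtain ⟨rfl, h2⟩ := hm
    have h3 := (C.old hf).1 h2
    exact ⟨h3, nvS.2 ⟨hs, h3⟩⟩
  | P =>
    obtain ⟨v', rfl, h2⟩ := hm
    have h3 := (C.old hf).1 h2
    exact ⟨h3, nvP.2 ⟨v', h3⟩⟩

end Ctx

end Ext2Aux

end Pool.Agent.Helper367SM
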