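import Pool.Agent.Helper367_SM.Ext2B

set_option autoImplicit false

/-!
The conditions (H1), (H2), (H3), (F) for the attempted structure `D`.
-/

namespace Pool.Agent.Helper367SM

namespace Ext2Aux

variable {Lam : ℕ → ℕ → ℕ} {t ν : ℕ}

lemma Agree.take {l l' : List ℕ} (h : Agree l l') (n : ℕ) : Agree (l.take n) (l'.take n) := by
  obtain ⟨p, hp⟩ := h
  refine ⟨p, fun k hk => ?_⟩
  rw [List.getElem?_take, List.getElem?_take, hp k hk]

lemma Agree.symm {l l' : List ℕ} (h : Agree l l') : Agree l' l := by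
  obtain ⟨p, hp⟩ := h
  exact ⟨p, fun k hk => (hp k hk).symm⟩

lemma ar_inst (v : ℕ) (s : SSym) : (instS Lam v s).ar = s.ar := by
  cases s <;> rfl

lemma new_R {v n : ℕ} {G : Finset SEdge} {e : ℕ → ℕ} {l : List ℕ}
    (h : (Sym.R n, l) ∈ news Lam v G e) : ∃ l', (SSym.R n, l') ∈ G ∧ l = l'.map e := by
  obtain ⟨⟨s, l'⟩, hq, he⟩ := h
  have hl : l = l'.map e := congrArg Prod.snd he
  have hs : Sym.R n = instS Lam v s := congrArg Prod.fst he
  cases s with
  | R n' =>
    have : n = n' := by simpa [instS] using hs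
    rw [this]; exact ⟨l', hq, hl⟩
  | E n' i' => simp [instS] at hs
  | K n' => simp [instS] at hs
  | S n' => simp [instS] at hs
  | P => simp [instS] at hs

lemma new_S {v n : ℕ} {G : Finset SEdge} {e : ℕ → ℕ} {l : List ℕ}
    (h : (Sym.S n, l) ∈ news Lam v G e) : ∃ l', (SSym.S n, l') ∈ G ∧ l = l'.map e := by
  obtain ⟨⟨s, l'⟩, hq, he⟩ := h
  have hl : l = l'.map e := congrArg Prod.snd he
  have hs : Sym.S n = instS Lam v s := congrArg Prod.fst he
  cases s with
  | S n' =>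
    have : n = n' := by simpa [instS] using hs
    rw [this]; exact ⟨l', hq, hl⟩
  | E n' i' => simp [instS] at hs
  | K n' => simp [instS] at hs
  | R n' => simp [instS] at hs
  | P => simp [instS] at hs

lemma new_P {v v' : ℕ} {G : Finset SEdge} {e : ℕ → ℕ} {l : List ℕ}
    (h : (Sym.P v', l) ∈ news Lam v G e) : v' = v ∧ ∃ l', (SSym.P, l') ∈ G ∧ l = l'.map e := by
  obtain ⟨⟨s, l'⟩, hq, he⟩ := h
  have hl : l = l'.map e := congrArg Prod.snd he
  have hs : Sym.P v' = instS Lam v s := congrArg Prod.fst he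
  cases s with
  | P =>
    have : v' = v := by simpa [instS] using hs
    exact ⟨this, l', hq, hl⟩
  | E n' i' => simp [instS] at hs
  | K n' => simp [instS] at hs
  | R n' => simp [instS] at hs
  | S n' => simp [instS] at hs

namespace Ctx

variable {M : Set Edge} {Pst : Set ℕ} {lim : ℕ → ℕ} {x : ℕ} {A A' : Finset ℕ} {g h : ℕ → ℕ}
  {B : Finset ℕ} {G : Finset SEdge} {v cv : ℕ} {e k : ℕ → ℕ}

variable (C : Ctx Lam M Pst lim t ν x A A' g h B G v cv e k)

include C

lemma wfD : ∀ d ∈ DD Lam M v cv G e, d.2.length = d.1.ar ∧ d.2.Nodup := by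
  rintro d (h1 | ⟨q, hq, rfl⟩)
  · exact C.hM.wf d h1.1
  · obtain ⟨h1, h2⟩ := nv_wf C.hM (C.G_nv hq)
    refine ⟨?_, ?_⟩
    · show (q.2.map e).length = (instS Lam v q.1).ar
      rw [List.length_map, ar_inst, h1]
    · show (q.2.map e).Nodup
      refine List.Nodup.map_on ?_ h2
      intro a ha b hb hab
      exact C.injOn (Finset.mem_coe.2 (C.G_in hq a ha)) (Finset.mem_coe.2 (C.G_in hq b hb)) hab

lemma h1D (n : ℕ) (l : List ℕ) (u : ℕ) (hS : (Sym.S n, l) ∈ DD Lam M v cv G e) :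
    (Sym.R n, l ++ [u]) ∉ DD Lam M v cv G e := by
  intro hR
  by_cases hB : ∃ y ∈ l, cv ≤ y
  · obtain ⟨l1, h1, rfl⟩ := new_S (isnew hS hB)
    obtain ⟨l2, h2, h3⟩ := new_R (isnew hR (by
      obtain ⟨y, hy, hy2⟩ := hB
      exact ⟨y, List.mem_append_left _ hy, hy2⟩))
    obtain ⟨l3, l4, rfl, h5, h6⟩ := List.map_eq_append_iff.1 h3.symm
    obtain ⟨u', rfl, rfl⟩ := List.map_eq_singleton_iff.1 h6
    have h7 : l3 = l1 := C.map_inj
      (fun y hy => C.G_in h2 y (List.mem_append_left _ hy)) (C.G_in h1) h5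
    rw [h7] at h2
    exact C.hM.h1 n l1 u' (nvS.1 (C.G_nv h1)).2 (nvR.1 (C.G_nv h2)).2
  · have hlt : ∀ y ∈ l, y < cv := fun y hy => not_le.1 fun h => hB ⟨y, hy, h⟩
    have h1 := (C.old hlt).1 hS
    by_cases hu : u < cv
    · exact C.hM.h1 n l u h1 ((C.old (by
        intro y hy
        rcases List.mem_append.1 hy with h | h
        · exact hlt y h
        · rw [List.mem_singleton.1 h]; exact hu)).1 hR)
    · obtain ⟨l2, h2, h3⟩ := new_R (isnew hR
        ⟨u, List.mem_append_right _ (List.mem_singleton_self u), not_lt.1 hu⟩)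
      obtain ⟨l3, l4, rfl, h5, h6⟩ := List.map_eq_append_iff.1 h3.symm
      obtain ⟨u', rfl, rfl⟩ := List.map_eq_singleton_iff.1 h6
      obtain ⟨y, hy, z, hz, hyz, hyB, hzB⟩ := C.two h2
      have key : ∀ w ∈ l3 ++ [u'], w ∈ B → w = u' := by
        intro w hw hwB
        rcases List.mem_append.1 hw with h | h
        · exfalso
          have : e w ∈ l := by rw [← h5]; exact List.mem_map_of_mem h
          exact absurd (hlt _ this) (not_lt.2 (C.eB w hwB))
        · exact List.mem_singleton.1 h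
      exact hyz ((key y hy hyB).trans (key z hz hzB).symm)

lemma verD {v1 v2 : ℕ} {l : List ℕ} (h1 : (Sym.P v1, l) ∈ DD Lam M v cv G e)
    (h2 : (Sym.P v2, l) ∈ DD Lam M v cv G e) : v1 = v2 := by
  by_cases hB : ∃ y ∈ l, cv ≤ y
  · rw [(new_P (isnew h1 hB)).1, (new_P (isnew h2 hB)).1]
  · have hlt : ∀ y ∈ l, y < cv := fun y hy => not_le.1 fun h => hB ⟨y, hy, h⟩
    have h3 := C.hM.fn _ ((C.old hlt).1 h1) _ ((C.old hlt).1 h2) rfl (Agree.refl l)
    simpa using h3

lemma h2D (n v' : ℕ) (l : List ℕ) (hS : (Sym.S n, l) ∈ DD Lam M v cv G e)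
    (hp : (Sym.P v', l.take 2) ∈ DD Lam M v cv G e) :
    (Sym.E n (Lam v' n), l.take 3) ∈ DD Lam M v cv G e := by
  by_cases hB : ∃ y ∈ l, cv ≤ y
  · obtain ⟨l1, h1, rfl⟩ := new_S (isnew hS hB)
    have hin := C.G_in h1
    have htake : ∀ n, ∀ y ∈ l1.take n, y ∈ A ∪ B := fun n y hy => hin y (List.mem_of_mem_take hy)
    have hp' := hp
    rw [← List.map_take] at hp'
    obtain ⟨v1, hv1⟩ := (C.pairD (htake 2)).2 ⟨v', hp'⟩
    have h3 := C.hM.h2 n v1 l1 (nvS.1 (C.G_nv h1)).2 hv1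
    have htt : ∀ m : List ℕ, (m.take 3).take 2 = m.take 2 := by
      intro m
      rw [List.take_take]; rfl
    have h4 : (SSym.K n, l1.take 3) ∈ NV Lam t ν M := by
      refine nvK.2 ⟨(nvS.1 (C.G_nv h1)).1, v1, ?_, h3⟩
      rw [htt]; exact hv1
    obtain ⟨_, v2, hv2, h5⟩ := nvK.1 ((C.iso (q := (SSym.K n, l1.take 3)) (htake 3)).1 h4)
    dsimp only at hv2 h5
    rw [List.map_take, htt] at hv2
    rw [List.map_take] at h5
    rw [C.verD hp hv2]
    exact h5
  · have hlt : ∀ y ∈ l, y < cv := fun y hy => not_le.1 fun h => hB ⟨y, hy, h⟩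
    have htake : ∀ n, ∀ y ∈ l.take n, y < cv := fun n y hy => hlt y (List.mem_of_mem_take hy)
    exact (C.old (htake 3)).2 (C.hM.h2 n v' l ((C.old hlt).1 hS) ((C.old (htake 2)).1 hp))

lemma h3D (n i j : ℕ) (l : List ℕ) (h1 : (Sym.E n i, l) ∈ DD Lam M v cv G e)
    (h2 : (Sym.E n j, l) ∈ DD Lam M v cv G e) : i = j := by
  by_cases hB : ∃ y ∈ l, cv ≤ y
  · have h1' := isnew h1 hB
    have h2' := isnew h2 hB
    obtain ⟨⟨s, l'⟩, hq, he⟩ := h1'
    have hl : l = l'.map e := congrArg Prod.snd he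
    have hin := C.G_in hq
    subst hl
    have h1'' := (C.newE hin).1 (isnew h1 hB)
    have h2'' := (C.newE hin).1 (isnew h2 hB)
    rcases h1'' with h3 | ⟨h3, h4⟩
    · rcases h2'' with h5 | ⟨h5, h6⟩
      · exact C.hM.h3 n i j l' (nvE.1 (C.G_nv h3)).2.2.1 (nvE.1 (C.G_nv h5)).2.2.1
      · obtain ⟨_, v1, hv1, h7⟩ := nvK.1 (C.G_nv h5)
        obtain ⟨_, _, h8, h9⟩ := nvE.1 (C.G_nv h3)
        exact absurd (C.hM.h3 n _ _ l' h7 h8) (h9 v1 hv1)
    · rcases h2'' with h5 | ⟨h5, h6⟩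
      · obtain ⟨_, v1, hv1, h7⟩ := nvK.1 (C.G_nv h3)
        obtain ⟨_, _, h8, h9⟩ := nvE.1 (C.G_nv h5)
        exact absurd (C.hM.h3 n _ _ l' h7 h8) (h9 v1 hv1)
      · rw [← h4, ← h6]
  · have hlt : ∀ y ∈ l, y < cv := fun y hy => not_le.1 fun h => hB ⟨y, hy, h⟩
    exact C.hM.h3 n i j l ((C.old hlt).1 h1) ((C.old hlt).1 h2)

lemma agree_new {d : Edge} (hd : d ∈ news Lam v G e) {l' : List ℕ} (ha : Agree d.2 l') :
    ∃ y ∈ l', cv ≤ y := by
  obtain ⟨q, hq, rfl⟩ := hd
  obtain ⟨p, hp⟩ := ha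
  by_contra hcon
  obtain ⟨y, hy, z, hz, hyz, hyB, hzB⟩ := C.two hq
  have key : ∀ w ∈ q.2, w ∈ B → q.2[p]? = some w := by
    intro w hw hwB
    obtain ⟨i, hi⟩ := List.mem_iff_getElem?.1 hw
    by_cases hip : i = p
    · rw [← hip]; exact hi
    · exfalso
      have h1 := hp i hip
      dsimp only at h1
      rw [List.getElem?_map, hi] at h1
      have h2 : e w ∈ l' := List.mem_iff_getElem?.2 ⟨i, h1.symm⟩
      exact hcon ⟨e w, h2, C.eB w hwB⟩
  have h1 := key y hy hyB
  have h2 := key z hz hzB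
  rw [h1] at h2
  exact hyz (Option.some.inj h2)

lemma core {q q' : SEdge} (hq : q ∈ G) (hq' : q' ∈ G) (ha : Agree q.2 q'.2)
    (hk : (instS Lam v q.1).kind = (instS Lam v q'.1).kind) : q.2 = q'.2 := by
  obtain ⟨s, l⟩ := q
  obtain ⟨s', l'⟩ := q'
  have hN := C.G_nv hq
  have hN' := C.G_nv hq'
  have EK : ∀ {n i l l'}, (SSym.E n i, l) ∈ G → (SSym.K n, l') ∈ G → Lam v n = i →
      Agree l l' → l = l' := by
    intro n i l l' h1 h2 h3 h4
    obtain ⟨hn, hi, h5, _⟩ := nvE.1 (C.G_nv h1)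
    obtain ⟨_, v2, hv2, h6⟩ := nvK.1 (C.G_nv h2)
    have h7 := C.lab_new hv2 (C.G_meets (C.kp h2)) n hn
    have h8 : Lam v2 n = i := by rw [min_lab' h7 (by rw [h3]; exact hi), h3]
    rw [h8] at h6
    have := C.hM.fn _ h5 _ h6 rfl h4
    exact congrArg Prod.snd this
  dsimp only at ha ⊢
  cases s with
  | E n i =>
    cases s' with
    | E n' i' =>
      have hk' : n = n' ∧ i = i' := by simpa [instS, Sym.kind] using hk
      obtain ⟨rfl, rfl⟩ := hk'
      exact congrArg Prod.snd (C.hM.fn _ (nvE.1 hN).2.2.1 _ (nvE.1 hN').2.2.1 rfl ha)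
    | K n' =>
      have hk' : n = n' ∧ i = Lam v n' := by simpa [instS, Sym.kind] using hk
      obtain ⟨rfl, rfl⟩ := hk'
      exact EK hq hq' rfl ha
    | R n' => simp [instS, Sym.kind] at hk
    | S n' => simp [instS, Sym.kind] at hk
    | P => simp [instS, Sym.kind] at hk
  | K n =>
    cases s' with
    | E n' i' =>
      have hk' : n = n' ∧ Lam v n = i' := by simpa [instS, Sym.kind] using hk
      obtain ⟨rfl, rfl⟩ := hk'
      exact (EK hq' hq rfl (Agree.symm ha)).symm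
    | K n' =>
      have hk' : n = n' := by
        have : n = n' ∧ Lam v n = Lam v n' := by simpa [instS, Sym.kind] using hk
        exact this.1
      subst hk'
      obtain ⟨_, v1, hv1, h1⟩ := nvK.1 hN
      obtain ⟨_, v2, hv2, h2⟩ := nvK.1 hN'
      have h3 := C.hM.fn _ hv1 _ hv2 rfl (Agree.take ha 2)
      have h4 : v1 = v2 := by
        have := congrArg Prod.fst h3
        simpa using this
      rw [h4] at h1
      exact congrArg Prod.snd (C.hM.fn _ h1 _ h2 rfl ha)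
    | R n' => simp [instS, Sym.kind] at hk
    | S n' => simp [instS, Sym.kind] at hk
    | P => simp [instS, Sym.kind] at hk
  | R n =>
    cases s' with
    | R n' =>
      have hk' : n = n' := by simpa [instS, Sym.kind] using hk
      subst hk'
      exact congrArg Prod.snd (C.hM.fn _ (nvR.1 hN).2 _ (nvR.1 hN').2 rfl ha)
    | E n' i' => simp [instS, Sym.kind] at hk
    | K n' => simp [instS, Sym.kind] at hk
    | S n' => simp [instS, Sym.kind] at hk
    | P => simp [instS, Sym.kind] at hk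
  | S n =>
    cases s' with
    | S n' =>
      have hk' : n = n' := by simpa [instS, Sym.kind] using hk
      subst hk'
      exact congrArg Prod.snd (C.hM.fn _ (nvS.1 hN).2 _ (nvS.1 hN').2 rfl ha)
    | E n' i' => simp [instS, Sym.kind] at hk
    | K n' => simp [instS, Sym.kind] at hk
    | R n' => simp [instS, Sym.kind] at hk
    | P => simp [instS, Sym.kind] at hk
  | P =>
    cases s' with
    | P =>
      obtain ⟨v1, hv1⟩ := nvP.1 hN
      obtain ⟨v2, hv2⟩ := nvP.1 hN'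
      exact congrArg Prod.snd (C.hM.fn _ hv1 _ hv2 rfl ha)
    | E n' i' => simp [instS, Sym.kind] at hk
    | K n' => simp [instS, Sym.kind] at hk
    | R n' => simp [instS, Sym.kind] at hk
    | S n' => simp [instS, Sym.kind] at hk

lemma fnD (d : Edge) (hd : d ∈ DD Lam M v cv G e) (d' : Edge) (hd' : d' ∈ DD Lam M v cv G e)
    (hk : d.1.kind = d'.1.kind) (ha : Agree d.2 d'.2) : d = d' := by
  by_cases hB : ∃ y ∈ d.2, cv ≤ y
  · have h1 := isnew hd hB
    have h2 := isnew hd' (C.agree_new h1 ha)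
    obtain ⟨q, hq, rfl⟩ := h1
    obtain ⟨q', hq', rfl⟩ := h2
    have ha' : Agree q.2 q'.2 := by
      obtain ⟨p, hp⟩ := ha
      refine ⟨p, fun i hi => ?_⟩
      have h3 := hp i hi
      dsimp only at h3
      rw [List.getElem?_map, List.getElem?_map] at h3
      rcases h4 : q.2[i]? with _ | a
      · rw [h4] at h3
        rcases h5 : q'.2[i]? with _ | b
        · rfl
        · rw [h5] at h3; simp at h3
      · rw [h4] at h3
        rcases h5 : q'.2[i]? with _ | b
        · rw [h5] at h3; simp at h3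
        · rw [h5] at h3
          have h6 : e a = e b := by simpa using h3
          have h7 := C.injOn (Finset.mem_coe.2 (C.G_in hq a (List.mem_iff_getElem?.2 ⟨i, h4⟩)))
            (Finset.mem_coe.2 (C.G_in hq' b (List.mem_iff_getElem?.2 ⟨i, h5⟩))) h6
          rw [h7]
    have h3 := C.core hq hq' ha' hk
    have h4 : instS Lam v q.1 = instS Lam v q'.1 := by
      dsimp only at hk
      revert hk
      cases q.1 <;> cases q'.1 <;> simp [instS, Sym.kind]
    rw [h3, h4]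
  · have hlt : ∀ y ∈ d.2, y < cv := fun y hy => not_le.1 fun h => hB ⟨y, hy, h⟩
    by_cases hB' : ∃ y ∈ d'.2, cv ≤ y
    · exact absurd (C.agree_new (isnew hd' hB') (Agree.symm ha)) hB
    · have hlt' : ∀ y ∈ d'.2, y < cv := fun y hy => not_le.1 fun h => hB' ⟨y, hy, h⟩
      exact C.hM.fn d ((C.old (s := d.1) hlt).1 hd) d' ((C.old (s := d'.1) hlt').1 hd') hk ha

/-- if `D` is not in the class then a multiplicity bound fails -/
lemma bad (hn : ¬ InK Lam (DD Lam M v cv G e)) : ∃ (π : Pat) (J : Finset ℕ) (f : ℕ → ℕ → ℕ),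
    π.Good ∧ Fam Lam (DD Lam M v cv G e) π J f ∧ π.mu < J.card := by
  by_contra hcon
  apply hn
  refine ⟨C.wfD, C.h1D, C.h2D, C.h3D, C.fnD, ?_⟩
  intro π hπ J f hf
  by_contra hlt
  exact hcon ⟨π, J, f, hπ, hf, not_le.1 hlt⟩

end Ctx

end Ext2Aux

end Pool.Agent.Helper367SM
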