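import Pool.Agent.Helper367_SM.Ext2C

set_option autoImplicit false

/-!
A violated multiplicity bound in the attempted structure `D`, the two cases.
-/

namespace Pool.Agent.Helper367SM

namespace Ext2Aux

variable {Lam : ℕ → ℕ → ℕ} {t ν : ℕ}

lemma medge_snd {X : Set Edge} {f : ℕ → ℕ} {d : Edge} {q : SEdge} (h : MEdge Lam X f d q) :
    d.2 = q.2.map f ∧ d ∈ X := by
  obtain ⟨s, l⟩ := q
  cases s with
  | E n i => obtain ⟨rfl, h2⟩ := h; exact ⟨rfl, h2⟩
  | K n => obtain ⟨v', _, rfl, h2⟩ := h; exact ⟨rfl, h2⟩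
  | R n => obtain ⟨rfl, h2⟩ := h; exact ⟨rfl, h2⟩
  | S n => obtain ⟨rfl, h2⟩ := h; exact ⟨rfl, h2⟩
  | P => obtain ⟨v', rfl, h2⟩ := h; exact ⟨rfl, h2⟩

lemma medge_vis {M : Set Edge} {f : ℕ → ℕ} {d : Edge} {q : SEdge}
    (h : MEdge Lam M f d q) (hs : Sm t ν q.1) : vis Lam M d ∈ NV Lam t ν M := by
  obtain ⟨s, l⟩ := q
  cases s with
  | E n i => obtain ⟨rfl, h2⟩ := h; exact vis_E_mem hs.1 hs.2 h2
  | K n =>
    obtain ⟨v', h1, rfl, h2⟩ := h
    rw [List.map_take] at h1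
    exact vis_K_mem hs h1 h2
  | R n => obtain ⟨rfl, h2⟩ := h; exact nvR.2 ⟨hs, h2⟩
  | S n => obtain ⟨rfl, h2⟩ := h; exact nvS.2 ⟨hs, h2⟩
  | P => obtain ⟨v', rfl, h2⟩ := h; exact nvP.2 ⟨v', h2⟩

lemma matched_congr {X : Set Edge} {Q : Finset SEdge} {f f' : ℕ → ℕ} {q : SEdge}
    (h : ∀ y ∈ q.2, f y = f' y) (hm : Matched Lam X Q f q) : Matched Lam X Q f' q := by
  obtain ⟨s, l⟩ := q
  have h1 : l.map f = l.map f' := List.map_congr_left h
  have h2 : (l.take 2).map f = (l.take 2).map f' :=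
    List.map_congr_left fun y hy => h y (List.mem_of_mem_take hy)
  cases s with
  | E n i =>
    obtain ⟨h3, h4⟩ := hm
    rw [h1] at h3
    rw [h2] at h4
    exact ⟨h3, h4⟩
  | K n =>
    obtain ⟨v', h3, h4⟩ := hm
    rw [h2] at h3
    rw [h1] at h4
    exact ⟨v', h3, h4⟩
  | R n =>
    have h3 : (Sym.R n, l.map f) ∈ X := hm
    rw [h1] at h3; exact h3
  | S n =>
    have h3 : (Sym.S n, l.map f) ∈ X := hm
    rw [h1] at h3; exact h3
  | P =>
    obtain ⟨v', h3⟩ : ∃ v', (Sym.P v', l.map f) ∈ X := hm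
    rw [h1] at h3; exact ⟨v', h3⟩

/-- different members are matched by different edges -/
lemma medge_inj {X : Set Edge} {Q : Finset SEdge} {f : ℕ → ℕ} {S : Set ℕ} (hinj : Set.InjOn f S)
    (hin : ∀ q ∈ Q, ∀ y ∈ q.2, y ∈ S)
    (kp : ∀ n l, (SSym.K n, l) ∈ Q → (SSym.P, l.take 2) ∈ Q)
    (hmat : ∀ q ∈ Q, Matched Lam X Q f q) {q q' : SEdge} (hq : q ∈ Q) (hq' : q' ∈ Q) {d : Edge}
    (h : MEdge Lam X f d q) (h' : MEdge Lam X f d q') : q = q' := by
  have hl : q.2 = q'.2 := map_inj_of_injOn hinj (hin q hq) (hin q' hq')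
    ((medge_snd h).1.symm.trans (medge_snd h').1)
  obtain ⟨s, l⟩ := q
  obtain ⟨s', l'⟩ := q'
  dsimp only at hl
  subst hl
  have EK : ∀ {n i n'}, (SSym.E n i, l) ∈ Q → (SSym.K n', l) ∈ Q →
      MEdge Lam X f d (SSym.E n i, l) → MEdge Lam X f d (SSym.K n', l) → False := by
    intro n i n' h1 h2 h3 h4
    obtain ⟨rfl, _⟩ := h3
    obtain ⟨v', h5, h6, _⟩ := h4
    have h7 : n = n' ∧ i = Lam v' n' := by simpa using h6
    obtain ⟨rfl, rfl⟩ := h7
    exact (hmat _ h1).2 (kp _ _ h2) v' h5 rfl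
  cases s with
  | E n i =>
    cases s' with
    | E n' i' =>
      obtain ⟨rfl, _⟩ := h
      obtain ⟨h6, _⟩ := h'
      have h7 : n = n' ∧ i = i' := by simpa using h6
      rw [h7.1, h7.2]
    | K n' => exact (EK hq hq' h h').elim
    | R n' =>
      obtain ⟨rfl, _⟩ := h
      obtain ⟨h6, _⟩ := h'
      simp at h6
    | S n' =>
      obtain ⟨rfl, _⟩ := h
      obtain ⟨h6, _⟩ := h'
      simp at h6
    | P =>
      obtain ⟨rfl, _⟩ := h
      obtain ⟨v', h6, _⟩ := h'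
      simp at h6
  | K n =>
    cases s' with
    | E n' i' => exact (EK hq' hq h' h).elim
    | K n' =>
      obtain ⟨v', _, rfl, _⟩ := h
      obtain ⟨v'', _, h6, _⟩ := h'
      have h7 : n = n' ∧ Lam v' n = Lam v'' n' := by simpa using h6
      rw [h7.1]
    | R n' =>
      obtain ⟨v', _, rfl, _⟩ := h
      obtain ⟨h6, _⟩ := h'
      simp at h6
    | S n' =>
      obtain ⟨v', _, rfl, _⟩ := h
      obtain ⟨h6, _⟩ := h'
      simp at h6
    | P =>
      obtain ⟨v', _, rfl, _⟩ := h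
      obtain ⟨v', h6, _⟩ := h'
      simp at h6
  | R n =>
    obtain ⟨rfl, _⟩ := h
    cases s' with
    | E n' i' => obtain ⟨h6, _⟩ := h'; simp at h6
    | K n' => obtain ⟨v'', _, h6, _⟩ := h'; simp at h6
    | R n' =>
      obtain ⟨h6, _⟩ := h'
      have h7 : n = n' := by simpa using h6
      rw [h7]
    | S n' => obtain ⟨h6, _⟩ := h'; simp at h6
    | P => obtain ⟨v'', h6, _⟩ := h'; simp at h6
  | S n =>
    obtain ⟨rfl, _⟩ := h
    cases s' with
    | E n' i' => obtain ⟨h6, _⟩ := h'; simp at h6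
    | K n' => obtain ⟨v'', _, h6, _⟩ := h'; simp at h6
    | R n' => obtain ⟨h6, _⟩ := h'; simp at h6
    | S n' =>
      obtain ⟨h6, _⟩ := h'
      have h7 : n = n' := by simpa using h6
      rw [h7]
    | P => obtain ⟨v'', h6, _⟩ := h'; simp at h6
  | P =>
    obtain ⟨v', rfl, _⟩ := h
    cases s' with
    | E n' i' => obtain ⟨h6, _⟩ := h'; simp at h6
    | K n' => obtain ⟨v'', _, h6, _⟩ := h'; simp at h6
    | R n' => obtain ⟨h6, _⟩ := h'; simp at h6
    | S n' => obtain ⟨h6, _⟩ := h'; simp at h6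
    | P => rfl

/-- the edge `(P v, l)` only matches `P` -/
lemma medge_P {X : Set Edge} {f : ℕ → ℕ} {v : ℕ} {l : List ℕ} {q : SEdge}
    (h : MEdge Lam X f (Sym.P v, l) q) : q.1 = SSym.P ∧ l = q.2.map f := by
  have h0 := (medge_snd h).1
  obtain ⟨s, l'⟩ := q
  cases s with
  | E n i => obtain ⟨h1, _⟩ := h; simp at h1
  | K n => obtain ⟨v', _, h1, _⟩ := h; simp at h1
  | R n => obtain ⟨h1, _⟩ := h; simp at h1
  | S n => obtain ⟨h1, _⟩ := h; simp at h1
  | P => exact ⟨rfl, h0⟩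

/-- restriction of a family -/
lemma fam_mono {X : Set Edge} {π : Pat} {J J' : Finset ℕ} {f : ℕ → ℕ → ℕ}
    (hf : Fam Lam X π J f) (h : J' ⊆ J) : Fam Lam X π J' f :=
  ⟨fun j hj => hf.inj j (h hj), fun i hi j hj => hf.base i (h hi) j (h hj),
    fun i hi j hj => hf.disj i (h hi) j (h hj), fun j hj => hf.mat j (h hj)⟩

/-- the conclusion of the extension lemma -/
def Concl (Lam : ℕ → ℕ → ℕ) (M : Set Edge) (t ν x : ℕ) (A A' : Finset ℕ) (g : ℕ → ℕ)
    (B : Finset ℕ) : Prop :=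
  ∃ (B' : Finset ℕ) (g' h' : ℕ → ℕ), (∀ a ∈ A, g' a = g a) ∧
    VIso Lam M t ν x (A ∪ B) (A' ∪ B') g' h' ∧ B'.card = B.card ∧ Tight (NV Lam t ν M) A' B'

namespace Ctx

variable {M : Set Edge} {Pst : Set ℕ} {lim : ℕ → ℕ} {x : ℕ} {A A' : Finset ℕ} {g h : ℕ → ℕ}
  {B : Finset ℕ} {G : Finset SEdge} {v cv : ℕ} {e k : ℕ → ℕ}

variable (C : Ctx Lam M Pst lim t ν x A A' g h B G v cv e k)

include C

lemma filtW_le (W : Finset ℕ) : (B.filter (fun y => e y ∈ W)).card ≤ W.card := by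
  apply Finset.card_le_card_of_injOn e
  · intro y hy
    exact (Finset.mem_filter.1 hy).2
  · intro y hy z hz hyz
    exact C.injOn (Finset.mem_coe.2 (Finset.mem_union_right _ (Finset.mem_filter.1 hy).1))
      (Finset.mem_coe.2 (Finset.mem_union_right _ (Finset.mem_filter.1 hz).1)) hyz

lemma filt_empty : (G.filter (fun q => ∀ x ∈ q.2, x ∈ A ∪ (∅ : Finset ℕ))) = ∅ := by
  rw [Finset.filter_eq_empty_iff]
  intro q hq hcon
  obtain ⟨y, hy, hyB⟩ := C.G_meets hq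
  have := hcon y hy
  rw [Finset.union_empty] at this
  exact C.notA hyB this

lemma filt_le {Y : Finset ℕ} (hY : Y ⊆ B) :
    (G.filter (fun q => ∀ x ∈ q.2, x ∈ A ∪ Y)).card ≤ Y.card := by
  by_cases h1 : Y = ∅
  · subst h1
    rw [C.filt_empty]; simp
  · by_cases h2 : Y = B
    · subst h2
      rw [← C.cG]
      exact Finset.card_filter_le _ _
    · exact (C.minB Y (Finset.ssubset_iff_subset_ne.2 ⟨hY, h2⟩) (Finset.nonempty_iff_ne_empty.2 h1)).le

lemma filt_eq {Y : Finset ℕ} (hY : Y ⊆ B)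
    (h1 : Y.card ≤ (G.filter (fun q => ∀ x ∈ q.2, x ∈ A ∪ Y)).card)
    (h0 : 0 < (G.filter (fun q => ∀ x ∈ q.2, x ∈ A ∪ Y)).card) : Y = B := by
  by_contra h2
  by_cases h3 : Y = ∅
  · subst h3
    rw [C.filt_empty] at h0
    simp at h0
  · have := C.minB Y (Finset.ssubset_iff_subset_ne.2 ⟨hY, h2⟩) (Finset.nonempty_iff_ne_empty.2 h3)
    omega

omit C in
lemma filt_congr (W : Finset ℕ) (E : Finset Edge) (C : Ctx Lam M Pst lim t ν x A A' g h B G v cv e k)
    (hE : ∀ d ∈ E, d ∈ news Lam v G e ∧ ∀ x ∈ d.2, x < cv ∨ x ∈ W) :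
    E.card ≤ (G.filter (fun q => ∀ x ∈ q.2, x ∈ A ∪ B.filter (fun y => e y ∈ W))).card := by
  classical
  refine (Finset.card_le_card (t := (G.filter (fun q => ∀ x ∈ q.2,
    x ∈ A ∪ B.filter (fun y => e y ∈ W))).image (fun q => (instS Lam v q.1, q.2.map e))) ?_).trans
      Finset.card_image_le
  intro d hd
  obtain ⟨⟨q, hq, rfl⟩, h2⟩ := hE d hd
  refine Finset.mem_image.2 ⟨q, Finset.mem_filter.2 ⟨hq, ?_⟩, rfl⟩
  intro y hy
  have hyAB := C.G_in hq y hy
  rcases Finset.mem_union.1 hyAB with h3 | h3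
  · exact Finset.mem_union_left _ h3
  · refine Finset.mem_union_right _ (Finset.mem_filter.2 ⟨h3, ?_⟩)
    exact (h2 (e y) (List.mem_map_of_mem hy)).resolve_left (not_lt.2 (C.eB y h3))

lemma e_surj {a' : ℕ} (ha : a' ∈ A') : ∃ y ∈ A, e y = a' :=
  ⟨h a', C.hV.hA a' ha, by rw [C.eA _ (C.hV.hA a' ha), C.hV.gh a' ha]⟩

/-- pulling back a whole family -/
lemma pull_fam {π : Pat} (hπ : π.Good) {J : Finset ℕ} {f : ℕ → ℕ → ℕ}
    (hf : Fam Lam (DD Lam M v cv G e) π J f) (hmu : π.mu < J.card)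
    (hs : ∀ q ∈ π.Q, Sm t ν q.1)
    (hin : ∀ i ∈ J, ∀ z ∈ π.A ∪ π.C, ∃ y ∈ A ∪ B, e y = f i z) : False := by
  have key : ∀ i ∈ J, ∀ z ∈ π.A ∪ π.C, k (f i z) ∈ A ∪ B ∧ e (k (f i z)) = f i z := by
    intro i hi z hz
    obtain ⟨y, hy, h1⟩ := hin i hi z hz
    rw [← h1, C.ke y hy]
    exact ⟨hy, rfl⟩
  have hF : Fam Lam M π J (fun i z => k (f i z)) := by
    refine ⟨?_, ?_, ?_, ?_⟩
    · intro i hi z hz z' hz' h1
      have h2 : e (k (f i z)) = e (k (f i z')) := congrArg e h1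
      rw [(key i hi z (Finset.mem_coe.1 hz)).2, (key i hi z' (Finset.mem_coe.1 hz')).2] at h2
      exact hf.inj i hi hz hz' h2
    · intro i hi j hj a ha
      show k (f i a) = k (f j a)
      rw [hf.base i hi j hj a ha]
    · intro i hi j hj hij z hz z' hz' h1
      have h2 : e (k (f i z)) = e (k (f j z')) := congrArg e h1
      rw [(key i hi z (Finset.mem_union_right _ hz)).2,
        (key j hj z' (Finset.mem_union_right _ hz')).2] at h2
      exact hf.disj i hi j hj hij z hz z' hz' h2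
    · intro i hi q hq
      refine C.pull (matched_congr ?_ (hf.mat i hi q hq)) (hs q hq) ?_
      · intro y hy
        exact ((key i hi y (hπ.inside q hq y hy)).2).symm
      · intro y hy
        exact (key i hi y (hπ.inside q hq y hy)).1
  exact absurd (C.hM.mu π hπ J _ hF) (not_le.2 hmu)

/-- the second case -/
lemma case2 (hFam : S_Family) (hMat : S_Matched) {π : Pat} (hπ : π.Good) {J : Finset ℕ}
    {f : ℕ → ℕ → ℕ} (hf : Fam Lam (DD Lam M v cv G e) π J f) (hmu : π.mu < J.card)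
    {j0 : ℕ} (hj0 : j0 ∈ J) {a : ℕ} (ha : a ∈ π.A) (hcv : cv ≤ f j0 a) : False := by
  classical
  have haj : ∀ j ∈ J, cv ≤ f j a := fun j hj => by
    rw [hf.base j hj j0 hj0 a ha]; exact hcv
  obtain ⟨q, hq, haq⟩ := hπ.cover a ha
  have hd : ∀ j ∈ J, ∃ d, MEdge Lam (DD Lam M v cv G e) (f j) d q ∧ d ∈ DD Lam M v cv G e ∧
      d.2 = q.2.map (f j) := fun j hj => hMat Lam _ π.Q (f j) q (hf.mat j hj q hq)
  have hne : Nonempty Edge := ⟨(Sym.P 0, [])⟩
  choose! d hd1 hd2 hd3 using hd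
  have hnew : ∀ j ∈ J, d j ∈ news Lam v G e := by
    intro j hj
    refine isnew (hd2 j hj) ⟨f j a, ?_, haj j hj⟩
    rw [hd3 j hj]
    exact List.mem_map_of_mem haq
  have hinj : Set.InjOn d J := by
    intro j hj j' hj' h1
    by_contra hne
    obtain ⟨z, hz, hzC⟩ := hπ.meets q hq
    have h2 : q.2.map (f j) = q.2.map (f j') := by
      rw [← hd3 j hj, ← hd3 j' hj', h1]
    have h3 := List.map_inj_left.1 h2 z hz
    exact hf.disj j hj j' hj' hne z hzC z hzC h3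
  have hJ : J.card ≤ B.card := by
    rw [← Finset.card_image_of_injOn hinj, ← C.cG]
    refine (Finset.card_le_card (t := G.image (fun q => (instS Lam v q.1, q.2.map e))) ?_).trans
      Finset.card_image_le
    intro d' hd'
    obtain ⟨j, hj, rfl⟩ := Finset.mem_image.1 hd'
    obtain ⟨q', hq', h1⟩ := hnew j hj
    exact Finset.mem_image.2 ⟨q', hq', h1.symm⟩
  have hbt := C.bt
  have htν := C.hP.tν
  have hs : ∀ q ∈ π.Q, Sm t ν q.1 := by
    intro q hq
    refine sm_of_rk ?_ htν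
    have h1 : q.1.rk ≤ π.Q.sup (fun q => q.1.rk) := Finset.le_sup (f := fun q : SEdge => q.1.rk) hq
    have h2 : π.Q.sup (fun q => q.1.rk) ≤ π.mu := Nat.le_add_left _ _
    omega
  -- the points of new edges
  have hpt : ∀ d ∈ news Lam v G e, ∀ y ∈ d.2, ∃ z ∈ A ∪ B, e z = y := by
    rintro d ⟨q, hq, rfl⟩ y hy
    obtain ⟨z, hz, rfl⟩ := List.mem_map.1 hy
    exact ⟨z, C.G_in hq z hz, rfl⟩
  by_cases hall : ∀ i ∈ J, ∀ z ∈ π.A ∪ π.C, ∃ y ∈ A ∪ B, e y = f i z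
  · exact C.pull_fam hπ hf hmu hs hall
  set O : Set ℕ := {y | ∃ z ∈ A ∪ B, e z = y} with hO
  set A2 : Finset ℕ := π.A.filter (fun a => f j0 a ∉ O) with hA2
  have hA2card : A2.card ≤ π.A.card := Finset.card_filter_le _ _
  have hmuA : π.A.card + π.C.card ≤ π.mu := Nat.le_add_right _ _
  have hA2iff : ∀ j ∈ J, ∀ a ∈ π.A, (a ∈ A2 ↔ f j a ∉ O) := by
    intro j hj a ha
    rw [hA2, Finset.mem_filter, hf.base j hj j0 hj0 a ha]
    exact ⟨fun h => h.2, fun h => ⟨ha, h⟩⟩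
  have hmeetO : ∀ j ∈ J, ∃ x ∈ π.C, f j x ∈ O := by
    intro j hj
    obtain ⟨z, hz, hzC⟩ := hπ.meets q hq
    refine ⟨z, hzC, hpt (d j) (hnew j hj) _ ?_⟩
    rw [hd3 j hj]
    exact List.mem_map_of_mem hz
  -- the index set
  obtain ⟨J', hJ'J, hJ'1, hJ'2⟩ : ∃ J' ⊆ J, J'.card = A2.card + 1 ∧
      ∀ j ∈ J', A2.Nonempty ∨ ∃ x ∈ π.C, f j x ∉ O := by
    by_cases hne : A2.Nonempty
    · obtain ⟨J', h1, h2⟩ := Finset.exists_subset_card_eq (s := J) (n := A2.card + 1) (by omega)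
      exact ⟨J', h1, h2, fun _ _ => Or.inl hne⟩
    · rw [Finset.not_nonempty_iff_eq_empty] at hne
      have : ∃ i ∈ J, ∃ z ∈ π.A ∪ π.C, f i z ∉ O := by
        by_contra hcon
        apply hall
        intro i hi z hz
        by_contra h1
        exact hcon ⟨i, hi, z, hz, h1⟩
      obtain ⟨i, hi, z, hz, hzO⟩ := this
      refine ⟨{i}, Finset.singleton_subset_iff.2 hi, by simp [hne], ?_⟩
      intro j hj
      rw [Finset.mem_singleton.1 hj]
      right
      rcases Finset.mem_union.1 hz with h1 | h1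
      · exfalso
        have := (hA2iff i hi z h1).2 hzO
        rw [hne] at this
        simp at this
      · exact ⟨z, h1, hzO⟩
  obtain ⟨W, Gd, h1, h2, h3, h4⟩ := hFam Lam _ π hπ J' f (fam_mono hf hJ'J) O A2
    (Finset.filter_subset _ _) (fun j hj => hA2iff j (hJ'J hj)) (fun j hj => hmeetO j (hJ'J hj)) hJ'2
  have hWA' : Disjoint A' W := by
    rw [Finset.disjoint_right]
    intro w hw hwA'
    obtain ⟨y, hy, h5⟩ := C.e_surj hwA'
    exact h3 w hw ⟨y, Finset.mem_union_left _ hy, h5⟩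
  have hWcard : W.card ≤ (B.card + 1) ^ 2 := by
    have h5 : A2.card ≤ B.card := by omega
    have h6 : π.C.card ≤ B.card := by omega
    have h7 : J'.card ≤ B.card + 1 := by omega
    have h8 : J'.card * π.C.card ≤ (B.card + 1) * B.card := Nat.mul_le_mul h7 h6
    nlinarith
  have h5 := strong_edges C.hM C.str W hWA' hWcard Gd (by
    intro d' hd'
    obtain ⟨⟨j, hj, q', hq', hm⟩, h6, y, hy, hyW⟩ := h4 d' hd'
    have hold : ∀ y ∈ d'.2, y < cv := by
      by_contra hcon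
      have h7 : ∃ y ∈ d'.2, cv ≤ y := by
        by_contra h8
        exact hcon fun y hy => not_le.1 fun h9 => h8 ⟨y, hy, h9⟩
      have h8 := isnew (medge_snd hm).2 h7
      exact h3 y hyW (hpt d' h8 y hy)
    obtain ⟨h7, h8⟩ := C.vis_medge hm (hs q' hq') hold
    refine ⟨h7, h8, ?_, y, hy, hyW⟩
    intro z hz
    rcases h6 z hz with h9 | h9
    · obtain ⟨w, hw, h10⟩ := h9
      have h11 : e w < cv := by rw [h10]; exact hold z hz
      rw [← h10]
      exact Finset.mem_union_left _ (C.e_mem (C.mem_A_of_lt hw h11))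
    · exact Finset.mem_union_right _ h9)
  omega

end Ctx

end Ext2Aux

end Pool.Agent.Helper367SM
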