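import Pool.Agent.Helper367_SM.Ext2D

set_option autoImplicit false

/-!
The first case of the extension lemma for blocks, and the extension lemma.
-/

namespace Pool.Agent.Helper367SM

namespace Ext2Aux

variable {Lam : ℕ → ℕ → ℕ} {t ν : ℕ}

namespace Ctx

variable {M : Set Edge} {Pst : Set ℕ} {lim : ℕ → ℕ} {x : ℕ} {A A' : Finset ℕ} {g h : ℕ → ℕ}
  {B : Finset ℕ} {G : Finset SEdge} {v cv : ℕ} {e k : ℕ → ℕ}

variable (C : Ctx Lam M Pst lim t ν x A A' g h B G v cv e k)

include C

/-- one of the copies is the new block -/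
lemma case1_prep (hFam : S_Family) (hMat : S_Matched) {π : Pat} (hπ : π.Good) {J : Finset ℕ}
    {f : ℕ → ℕ → ℕ} (hf : Fam Lam (DD Lam M v cv G e) π J f) (hmu : π.mu < J.card)
    (hA : ∀ j ∈ J, ∀ a ∈ π.A, f j a < cv) :
    ∃ j ∈ J, ∃ σ : ℕ → ℕ, (∀ z ∈ π.A, σ z ∈ A) ∧ (∀ z ∈ π.C, σ z ∈ B) ∧
      (∀ z ∈ π.A ∪ π.C, e (σ z) = f j z) ∧ (∀ y ∈ B, ∃ z ∈ π.C, σ z = y) ∧
      π.C.card = B.card ∧ (∀ q ∈ π.Q, (q.1, q.2.map σ) ∈ G) ∧
      (∀ q0 ∈ G, ∃ q ∈ π.Q, (q.1, q.2.map σ) = q0) ∧
      ∀ i ∈ J, i ≠ j → ∀ q ∈ π.Q, ∀ y ∈ q.2, f i y < cv := by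
  classical
  have hne : Nonempty Edge := ⟨(Sym.P 0, [])⟩
  -- some copy uses a new point
  have h1 : ∃ j ∈ J, ∃ z ∈ π.C, cv ≤ f j z := by
    by_contra hcon
    have hF : Fam Lam M π J f := by
      refine ⟨hf.inj, hf.base, hf.disj, ?_⟩
      intro j hj q hq
      refine C.matched_old (hf.mat j hj q hq) ?_
      intro y hy
      rcases Finset.mem_union.1 (hπ.inside q hq y hy) with h2 | h2
      · exact hA j hj y h2
      · by_contra h3
        exact hcon ⟨j, hj, y, h2, not_lt.1 h3⟩
    exact absurd (C.hM.mu π hπ J f hF) (not_le.2 hmu)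
  obtain ⟨j, hj, z1, hz1, hz1cv⟩ := h1
  have hJ1 : ({j} : Finset ℕ) ⊆ J := Finset.singleton_subset_iff.2 hj
  -- all the points of its block are new
  have h2 : ∀ z ∈ π.C, cv ≤ f j z := by
    by_contra hcon
    have h3 : ∃ z ∈ π.C, f j z < cv := by
      by_contra h4
      exact hcon fun z hz => not_lt.1 fun h5 => h4 ⟨z, hz, h5⟩
    obtain ⟨W, Gd, h4, h5, h6, h7⟩ := hFam Lam _ π hπ {j} f (fam_mono hf hJ1) {y | y < cv} ∅
      (Finset.empty_subset _)
      (by
        intro i hi a ha
        rw [Finset.mem_singleton.1 hi]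
        constructor
        · intro h; simp at h
        · intro h; exact absurd (hA j hj a ha) h)
      (by
        intro i hi
        rw [Finset.mem_singleton.1 hi]
        exact h3)
      (by
        intro i hi
        rw [Finset.mem_singleton.1 hi]
        right
        exact ⟨z1, hz1, fun h => absurd (show f j z1 < cv from h) (not_lt.2 hz1cv)⟩)
    have h8 := filt_congr W Gd C (by
      intro d hd
      obtain ⟨⟨i, hi, q, hq, hm⟩, h9, y, hy, hyW⟩ := h7 d hd
      refine ⟨isnew (medge_snd hm).2 ⟨y, hy, not_lt.1 fun h => h6 y hyW h⟩, h9⟩)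
    have h9 := C.filt_le (Y := B.filter (fun y => e y ∈ W)) (Finset.filter_subset _ _)
    have h10 := C.filtW_le W
    rw [Finset.card_singleton] at h4
    rw [Finset.card_empty] at h4
    omega
  -- the matching edges
  have hd : ∀ q ∈ π.Q, ∃ d, MEdge Lam (DD Lam M v cv G e) (f j) d q ∧ d ∈ DD Lam M v cv G e ∧
      d.2 = q.2.map (f j) := fun q hq => hMat Lam _ π.Q (f j) q (hf.mat j hj q hq)
  choose! d hd1 hd2 hd3 using hd
  have hinS : ∀ q ∈ π.Q, ∀ y ∈ q.2, y ∈ ((π.A ∪ π.C : Finset ℕ) : Set ℕ) :=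
    fun q hq y hy => Finset.mem_coe.2 (hπ.inside q hq y hy)
  have hdinj : Set.InjOn d π.Q := by
    intro q hq q' hq' hqq
    refine medge_inj (hf.inj j hj) hinS hπ.kp (hf.mat j hj) hq hq' (hd1 q hq) ?_
    rw [hqq]; exact hd1 q' hq'
  have hnew : ∀ q ∈ π.Q, d q ∈ news Lam v G e := by
    intro q hq
    obtain ⟨z, hz, hzC⟩ := hπ.meets q hq
    refine isnew (hd2 q hq) ⟨f j z, ?_, h2 z hzC⟩
    rw [hd3 q hq]
    exact List.mem_map_of_mem hz
  have hjC : Set.InjOn (f j) π.C := fun z hz z' hz' h =>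
    hf.inj j hj (Finset.mem_coe.2 (Finset.mem_union_right _ (Finset.mem_coe.1 hz)))
      (Finset.mem_coe.2 (Finset.mem_union_right _ (Finset.mem_coe.1 hz'))) h
  have hWc : (π.C.image (f j)).card = π.C.card := Finset.card_image_of_injOn hjC
  have hEc : (π.Q.image d).card = π.C.card := by
    rw [Finset.card_image_of_injOn hdinj, hπ.card]
  have h3 := filt_congr (π.C.image (f j)) (π.Q.image d) C (by
    intro d' hd'
    obtain ⟨q, hq, rfl⟩ := Finset.mem_image.1 hd'
    refine ⟨hnew q hq, ?_⟩
    intro y hy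
    rw [hd3 q hq] at hy
    obtain ⟨z, hz, rfl⟩ := List.mem_map.1 hy
    rcases Finset.mem_union.1 (hπ.inside q hq z hz) with h4 | h4
    · exact Or.inl (hA j hj z h4)
    · exact Or.inr (Finset.mem_image_of_mem _ h4))
  have htwo := hπ.two
  have h4 := C.filtW_le (π.C.image (f j))
  have h5 : B.filter (fun y => e y ∈ π.C.image (f j)) = B :=
    C.filt_eq (Finset.filter_subset _ _) (by omega) (by omega)
  have h6 : ∀ y ∈ B, ∃ z ∈ π.C, f j z = e y := by
    intro y hy
    rw [← h5] at hy
    exact Finset.mem_image.1 (Finset.mem_filter.1 hy).2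
  have hGle : (G.filter (fun q => ∀ x ∈ q.2, x ∈ A ∪
      B.filter (fun y => e y ∈ π.C.image (f j)))).card ≤ G.card := Finset.card_filter_le _ _
  have hcG := C.cG
  rw [h5] at h4
  have hcard : π.C.card = B.card := by omega
  have heB : Set.InjOn e B := fun y hy z hz hyz =>
    C.injOn (Finset.mem_coe.2 (Finset.mem_union_right _ (Finset.mem_coe.1 hy)))
      (Finset.mem_coe.2 (Finset.mem_union_right _ (Finset.mem_coe.1 hz))) hyz
  have hWeq : B.image e = π.C.image (f j) := by
    refine Finset.eq_of_subset_of_card_le ?_ ?_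
    · intro y' hy'
      obtain ⟨y, hy, rfl⟩ := Finset.mem_image.1 hy'
      obtain ⟨z, hz, h7⟩ := h6 y hy
      exact Finset.mem_image.2 ⟨z, hz, h7⟩
    · rw [Finset.card_image_of_injOn heB, hWc, hcard]
  have h7 : ∀ z ∈ π.C, ∃ y ∈ B, e y = f j z := by
    intro z hz
    have : f j z ∈ B.image e := by rw [hWeq]; exact Finset.mem_image_of_mem _ hz
    exact Finset.mem_image.1 this
  have hEeq : π.Q.image d = G.image (fun q => (instS Lam v q.1, q.2.map e)) := by
    refine Finset.eq_of_subset_of_card_le ?_ ?_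
    · intro d' hd'
      obtain ⟨q, hq, rfl⟩ := Finset.mem_image.1 hd'
      obtain ⟨q', hq', h8⟩ := hnew q hq
      exact Finset.mem_image.2 ⟨q', hq', h8.symm⟩
    · rw [hEc, hcard, ← hcG]
      exact Finset.card_image_le
  have h8 : ∀ a ∈ π.A, ∃ y ∈ A, e y = f j a := by
    intro a ha
    obtain ⟨q, hq, haq⟩ := hπ.cover a ha
    obtain ⟨q', hq', h9⟩ := hnew q hq
    have h10 : f j a ∈ (d q).2 := by rw [hd3 q hq]; exact List.mem_map_of_mem haq
    rw [h9] at h10
    obtain ⟨y, hy, h11⟩ := List.mem_map.1 h10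
    refine ⟨y, C.mem_A_of_lt (C.G_in hq' y hy) ?_, h11⟩
    rw [h11]; exact hA j hj a ha
  have hσA : ∀ z ∈ π.A, k (f j z) ∈ A ∧ e (k (f j z)) = f j z := by
    intro z hz
    obtain ⟨y, hy, h9⟩ := h8 z hz
    rw [← h9, C.ke y (Finset.mem_union_left _ hy)]
    exact ⟨hy, rfl⟩
  have hσC : ∀ z ∈ π.C, k (f j z) ∈ B ∧ e (k (f j z)) = f j z := by
    intro z hz
    obtain ⟨y, hy, h9⟩ := h7 z hz
    rw [← h9, C.ke y (Finset.mem_union_right _ hy)]
    exact ⟨hy, rfl⟩
  have hσ : ∀ z ∈ π.A ∪ π.C, k (f j z) ∈ A ∪ B ∧ e (k (f j z)) = f j z := by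
    intro z hz
    rcases Finset.mem_union.1 hz with h9 | h9
    · exact ⟨Finset.mem_union_left _ (hσA z h9).1, (hσA z h9).2⟩
    · exact ⟨Finset.mem_union_right _ (hσC z h9).1, (hσC z h9).2⟩
  have hmap : ∀ l : List ℕ, (∀ y ∈ l, y ∈ π.A ∪ π.C) →
      l.map (f j) = (l.map (fun z => k (f j z))).map e := by
    intro l hl
    rw [List.map_map]
    exact List.map_congr_left fun y hy => ((hσ y (hl y hy)).2).symm
  have hinAB : ∀ l : List ℕ, (∀ y ∈ l, y ∈ π.A ∪ π.C) →
      ∀ y ∈ l.map (fun z => k (f j z)), y ∈ A ∪ B := by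
    intro l hl y hy
    obtain ⟨z, hz, rfl⟩ := List.mem_map.1 hy
    exact (hσ z (hl z hz)).1
  have hge : ∀ l : List ℕ, (∃ y ∈ l, y ∈ π.C) → ∃ y ∈ l.map (f j), cv ≤ y := by
    rintro l ⟨y, hy, hyC⟩
    exact ⟨f j y, List.mem_map_of_mem hy, h2 y hyC⟩
  have hσinj : Set.InjOn (fun z => k (f j z)) ((π.A ∪ π.C : Finset ℕ) : Set ℕ) := by
    intro z hz z' hz' h9
    have h10 : e (k (f j z)) = e (k (f j z')) := congrArg e h9
    rw [(hσ z (Finset.mem_coe.1 hz)).2, (hσ z' (Finset.mem_coe.1 hz')).2] at h10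
    exact hf.inj j hj hz hz' h10
  -- the pattern is the block
  have hQ : ∀ q ∈ π.Q, (q.1, q.2.map (fun z => k (f j z))) ∈ G := by
    rintro ⟨s, l⟩ hq
    have hl := hπ.inside _ hq
    have hlC := hπ.meets _ hq
    have hm := hf.mat j hj _ hq
    dsimp only at hl hlC ⊢
    have hin := hinAB l hl
    have hge' := hge l hlC
    have hltake : ∀ y ∈ l.take 2, y ∈ π.A ∪ π.C := fun y hy => hl y (List.mem_of_mem_take hy)
    cases s with
    | E n i =>
      obtain ⟨h9, h10⟩ := hm
      have h11 := isnew h9 hge'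
      rw [hmap l hl] at h11
      rcases (C.newE hin).1 h11 with h12 | ⟨h12, h13⟩
      · exact h12
      · exfalso
        have h14 := C.kp h12
        rw [← List.map_take] at h14
        have h15 : (Sym.P v, (l.take 2).map (f j)) ∈ G.image
            (fun q => (instS Lam v q.1, q.2.map e)) := by
          rw [hmap _ hltake]
          exact Finset.mem_image.2 ⟨_, h14, rfl⟩
        rw [← hEeq] at h15
        obtain ⟨q', hq', h16⟩ := Finset.mem_image.1 h15
        have h17 := hd1 q' hq'
        rw [h16] at h17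
        obtain ⟨h18, h19⟩ := medge_P h17
        have h20 : l.take 2 = q'.2 := map_inj_of_injOn (hf.inj j hj)
          (fun y hy => Finset.mem_coe.2 (hltake y hy)) (hinS q' hq') h19
        have h21 : (SSym.P, l.take 2) ∈ π.Q := by
          rw [h20, ← h18]; exact hq'
        refine h10 h21 v ?_ h13
        rw [← h16]
        exact hd2 q' hq'
    | K n =>
      obtain ⟨v', h9, h10⟩ := hm
      have hp := hπ.kp n l hq
      have h11 := isnew h9 (hge _ (hπ.meets _ hp))
      rw [hmap _ hltake] at h11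
      obtain ⟨rfl, h12⟩ := (C.newP (hinAB _ hltake)).1 h11
      have h13 := isnew h10 hge'
      rw [hmap l hl] at h13
      rcases (C.newE hin).1 h13 with h14 | ⟨h14, _⟩
      · exfalso
        obtain ⟨hn, hi, _, h15⟩ := nvE.1 (C.G_nv h14)
        obtain ⟨v1, hv1⟩ := nvP.1 (C.G_nv h12)
        have h16 := C.lab_new hv1 (C.G_meets h12) n hn
        refine h15 v1 ?_ (min_lab' h16 hi)
        rw [← List.map_take]
        exact hv1
      · exact h14
    | R n =>
      have h9 : (Sym.R n, l.map (f j)) ∈ DD Lam M v cv G e := hm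
      have h11 := isnew h9 hge'
      rw [hmap l hl] at h11
      exact (C.newR hin).1 h11
    | S n =>
      have h9 : (Sym.S n, l.map (f j)) ∈ DD Lam M v cv G e := hm
      have h11 := isnew h9 hge'
      rw [hmap l hl] at h11
      exact (C.newS hin).1 h11
    | P =>
      obtain ⟨v', h9⟩ : ∃ v', (Sym.P v', l.map (f j)) ∈ DD Lam M v cv G e := hm
      have h11 := isnew h9 hge'
      rw [hmap l hl] at h11
      exact ((C.newP hin).1 h11).2
  have hφinj : Set.InjOn (fun q : SEdge => (q.1, q.2.map (fun z => k (f j z)))) π.Q := by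
    intro q hq q' hq' h9
    have h9' : (q.1, q.2.map (fun z => k (f j z))) = (q'.1, q'.2.map (fun z => k (f j z))) := h9
    have h10 := (Prod.mk.inj h9').1
    have h11 := map_inj_of_injOn hσinj (hinS q hq) (hinS q' hq') (Prod.mk.inj h9').2
    exact Prod.ext h10 h11
  have hφ : π.Q.image (fun q : SEdge => (q.1, q.2.map (fun z => k (f j z)))) = G := by
    refine Finset.eq_of_subset_of_card_le ?_ ?_
    · intro q' hq'
      obtain ⟨q, hq, rfl⟩ := Finset.mem_image.1 hq'
      exact hQ q hq
    · rw [Finset.card_image_of_injOn hφinj, hπ.card, hcard, hcG]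
  refine ⟨j, hj, fun z => k (f j z), fun z hz => (hσA z hz).1, fun z hz => (hσC z hz).1,
    fun z hz => (hσ z hz).2, ?_, hcard, hQ, ?_, ?_⟩
  · intro y hy
    obtain ⟨z, hz, h9⟩ := h6 y hy
    refine ⟨z, hz, ?_⟩
    show k (f j z) = y
    rw [h9]
    exact C.ke y (Finset.mem_union_right _ hy)
  · intro q0 hq0
    rw [← hφ] at hq0
    exact Finset.mem_image.1 hq0
  · intro i hi hij q hq y hy
    by_contra hcon
    obtain ⟨d', _, h9, h10⟩ := hMat Lam _ π.Q (f i) q (hf.mat i hi q hq)
    have hfy : f i y ∈ d'.2 := by rw [h10]; exact List.mem_map_of_mem hy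
    obtain ⟨q0, hq0, h11⟩ := isnew h9 ⟨f i y, hfy, not_lt.1 hcon⟩
    rw [h11] at hfy
    obtain ⟨y0, hy0, h12⟩ := List.mem_map.1 hfy
    have h13 : y0 ∈ B := C.mem_B_of_le (C.G_in hq0 y0 hy0) (by rw [h12]; exact not_lt.1 hcon)
    obtain ⟨z0, hz0, h14⟩ := h6 y0 h13
    rcases Finset.mem_union.1 (hπ.inside q hq y hy) with h15 | h15
    · exact hcon (hA i hi y h15)
    · exact hf.disj i hi j hj hij y h15 z0 hz0 (by rw [h14, h12])

/-- the first case -/
lemma case1 (hFam : S_Family) (hMat : S_Matched) {π : Pat} (hπ : π.Good) {J : Finset ℕ}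
    {f : ℕ → ℕ → ℕ} (hf : Fam Lam (DD Lam M v cv G e) π J f) (hmu : π.mu < J.card)
    (hA : ∀ j ∈ J, ∀ a ∈ π.A, f j a < cv) : Concl Lam M t ν x A A' g B := by
  classical
  have hne : Nonempty Edge := ⟨(Sym.P 0, [])⟩
  obtain ⟨j, hj, σ, hσA, hσC, hσe, hσs, hcard, hQ, hQs, hold⟩ :=
    C.case1_prep hFam hMat hπ hf hmu hA
  have hσ : ∀ z ∈ π.A ∪ π.C, σ z ∈ A ∪ B := by
    intro z hz
    rcases Finset.mem_union.1 hz with h9 | h9
    · exact Finset.mem_union_left _ (hσA z h9)
    · exact Finset.mem_union_right _ (hσC z h9)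
  have hinS : ∀ q ∈ π.Q, ∀ y ∈ q.2, y ∈ ((π.A ∪ π.C : Finset ℕ) : Set ℕ) :=
    fun q hq y hy => Finset.mem_coe.2 (hπ.inside q hq y hy)
  have hsm : ∀ q ∈ π.Q, Sm t ν q.1 := fun q hq => by
    have h1 := nv_sm (C.G_nv (q := (q.1, q.2.map σ)) (hQ q hq))
    exact h1
  have hmatM : ∀ i ∈ J, i ≠ j → ∀ q ∈ π.Q, Matched Lam M π.Q (f i) q :=
    fun i hi hij q hq => C.matched_old (hf.mat i hi q hq) (hold i hi hij q hq)
  have hbA' : ∀ i ∈ J, ∀ a ∈ π.A, f i a ∈ A' := by
    intro i hi a ha
    rw [hf.base i hi j hj a ha, ← hσe a (Finset.mem_union_left _ ha)]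
    exact C.e_mem (hσA a ha)
  have hBB : B.card ≤ (B.card + 1) ^ 2 := by nlinarith
  -- inside or disjoint
  have hdich : ∀ i ∈ J, i ≠ j → (∃ z ∈ π.C, f i z ∉ A') → ∀ z ∈ π.C, f i z ∉ A' := by
    intro i hi hij hex z2 hz2 hz2A
    obtain ⟨W, Gd, h4, h5, h6, h7⟩ := hFam Lam _ π hπ {i} f
      (fam_mono hf (Finset.singleton_subset_iff.2 hi)) (A' : Set ℕ) ∅
      (Finset.empty_subset _)
      (by
        intro i' hi' a ha
        rw [Finset.mem_singleton.1 hi']
        constructor
        · intro h; simp at h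
        · intro h; exact absurd (Finset.mem_coe.2 (hbA' i hi a ha)) h)
      (by
        intro i' hi'
        rw [Finset.mem_singleton.1 hi']
        exact ⟨z2, hz2, Finset.mem_coe.2 hz2A⟩)
      (by
        intro i' hi'
        rw [Finset.mem_singleton.1 hi']
        right
        obtain ⟨z, hz, h8⟩ := hex
        exact ⟨z, hz, fun h => h8 (Finset.mem_coe.1 h)⟩)
    rw [Finset.card_singleton, Finset.card_empty] at h4 h5
    have h8 := strong_edges C.hM C.str W (by
        rw [Finset.disjoint_right]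
        exact fun w hw hwA => h6 w hw (Finset.mem_coe.2 hwA)) (by omega) Gd (by
      intro d hd
      obtain ⟨⟨i', hi', q, hq, hm⟩, h9, h10⟩ := h7 d hd
      rw [Finset.mem_singleton.1 hi'] at hm
      have h11 : ∀ y ∈ d.2, y < cv := by
        intro y hy
        rw [(medge_snd hm).1] at hy
        obtain ⟨z, hz, rfl⟩ := List.mem_map.1 hy
        exact hold i hi hij q hq z hz
      obtain ⟨h12, h13⟩ := C.vis_medge hm (hsm q hq) h11
      refine ⟨h12, h13, ?_, h10⟩
      intro y hy
      rcases h9 y hy with h14 | h14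
      · exact Finset.mem_union_left _ (Finset.mem_coe.1 h14)
      · exact Finset.mem_union_right _ h14)
    omega
  by_cases hall : ∀ i ∈ J, i ≠ j → ∀ z ∈ π.C, f i z ∈ A'
  · exfalso
    refine C.pull_fam hπ hf hmu hsm ?_
    intro i hi z hz
    by_cases hij : i = j
    · subst hij
      exact ⟨σ z, hσ z hz, hσe z hz⟩
    · have h1 : f i z ∈ A' := by
        rcases Finset.mem_union.1 hz with h2 | h2
        · exact hbA' i hi z h2
        · exact hall i hi hij z h2
      obtain ⟨y, hy, h2⟩ := C.e_surj h1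
      exact ⟨y, Finset.mem_union_left _ hy, h2⟩
  · have h1 : ∃ i ∈ J, i ≠ j ∧ ∃ z ∈ π.C, f i z ∉ A' := by
      by_contra hcon
      apply hall
      intro i hi hij z hz
      by_contra h2
      exact hcon ⟨i, hi, hij, z, hz, h2⟩
    obtain ⟨i, hi, hij, hex⟩ := h1
    have hdis := hdich i hi hij hex
    have hσinj : Set.InjOn σ ((π.A ∪ π.C : Finset ℕ) : Set ℕ) := by
      intro z hz z' hz' h9
      have h10 : e (σ z) = e (σ z') := congrArg e h9
      rw [hσe z (Finset.mem_coe.1 hz), hσe z' (Finset.mem_coe.1 hz')] at h10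
      exact hf.inj j hj hz hz' h10
    set ρ : ℕ → ℕ := Function.invFunOn σ ((π.A ∪ π.C : Finset ℕ) : Set ℕ) with hρ
    have hρσ : ∀ z ∈ π.A ∪ π.C, ρ (σ z) = z :=
      fun z hz => hσinj.leftInvOn_invFunOn (Finset.mem_coe.2 hz)
    set u : ℕ → ℕ := fun y => if y ∈ A then g y else f i (ρ y) with hu
    have uA : ∀ a ∈ A, u a = g a := fun a ha => by simp only [hu, if_pos ha]
    have uσ : ∀ z ∈ π.A ∪ π.C, u (σ z) = f i z := by
      intro z hz
      rcases Finset.mem_union.1 hz with h2 | h2
      · rw [uA _ (hσA z h2), ← C.eA _ (hσA z h2), hσe z hz, hf.base i hi j hj z h2]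
      · have h3 : σ z ∉ A := C.notA (hσC z h2)
        simp only [hu, if_neg h3]
        rw [hρσ z hz]
    have umap : ∀ l : List ℕ, (∀ y ∈ l, y ∈ π.A ∪ π.C) → (l.map σ).map u = l.map (f i) := by
      intro l hl
      rw [List.map_map]
      exact List.map_congr_left fun y hy => uσ y (hl y hy)
    have uB : Set.InjOn u B := by
      intro y hy y' hy' h2
      obtain ⟨z, hz, rfl⟩ := hσs y (Finset.mem_coe.1 hy)
      obtain ⟨z', hz', rfl⟩ := hσs y' (Finset.mem_coe.1 hy')
      rw [uσ z (Finset.mem_union_right _ hz), uσ z' (Finset.mem_union_right _ hz')] at h2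
      rw [hf.inj i hi (Finset.mem_coe.2 (Finset.mem_union_right _ hz))
        (Finset.mem_coe.2 (Finset.mem_union_right _ hz')) h2]
    have uA' : ∀ y ∈ B, u y ∉ A' := by
      intro y hy
      obtain ⟨z, hz, rfl⟩ := hσs y hy
      rw [uσ z (Finset.mem_union_right _ hz)]
      exact hdis z hz
    have hiC : Set.InjOn (f i) π.C := fun z hz z' hz' h =>
      hf.inj i hi (Finset.mem_coe.2 (Finset.mem_union_right _ (Finset.mem_coe.1 hz)))
        (Finset.mem_coe.2 (Finset.mem_union_right _ (Finset.mem_coe.1 hz'))) h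
    -- the images are visible
    have himg : ∀ q ∈ π.Q, (q.1, q.2.map (f i)) ∈ NV Lam t ν M := by
      rintro ⟨s, l⟩ hq
      have hl := hπ.inside _ hq
      have hm := hmatM i hi hij _ hq
      have hs := hsm _ hq
      dsimp only at hl hs ⊢
      cases s with
      | E n i0 =>
        obtain ⟨h2, h3⟩ := hm
        refine nvE.2 ⟨hs.1, hs.2, h2, ?_⟩
        intro v' hv' hL
        rw [← List.map_take] at hv'
        have hnot : (SSym.P, l.take 2) ∉ π.Q := fun h4 => h3 h4 v' hv' hL
        have hd : ∀ q ∈ π.Q, ∃ d, MEdge Lam M (f i) d q ∧ d ∈ M ∧ d.2 = q.2.map (f i) :=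
          fun q hq => hMat Lam _ π.Q (f i) q (hmatM i hi hij q hq)
        choose! d hd1 hd2 hd3 using hd
        have hdinj : Set.InjOn d π.Q := by
          intro q hq q' hq' hqq
          refine medge_inj (hf.inj i hi) hinS hπ.kp (hmatM i hi hij) hq hq' (hd1 q hq) ?_
          rw [hqq]; exact hd1 q' hq'
        have hnotin : (Sym.P v', (l.take 2).map (f i)) ∉ π.Q.image d := by
          intro h4
          obtain ⟨q', hq', h5⟩ := Finset.mem_image.1 h4
          have h6 := hd1 q' hq'
          rw [h5] at h6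
          obtain ⟨h7, h8⟩ := medge_P h6
          have h9 : l.take 2 = q'.2 := map_inj_of_injOn (hf.inj i hi)
            (fun y hy => Finset.mem_coe.2 (hl y (List.mem_of_mem_take hy))) (hinS q' hq') h8
          apply hnot
          rw [h9, ← h7]; exact hq'
        have h4 := strong_edges C.hM C.str (π.C.image (f i)) (by
            rw [Finset.disjoint_right]
            intro w hw
            obtain ⟨z, hz, rfl⟩ := Finset.mem_image.1 hw
            exact hdis z hz) (by
            rw [Finset.card_image_of_injOn hiC, hcard]; exact hBB)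
          (insert (Sym.P v', (l.take 2).map (f i)) (π.Q.image d)) (by
            intro d' hd'
            rcases Finset.mem_insert.1 hd' with h5 | h5
            · rw [h5]
              refine ⟨hv', nvP.2 ⟨v', hv'⟩, ?_, ?_⟩
              · intro y hy
                obtain ⟨z, hz, rfl⟩ := List.mem_map.1 hy
                rcases Finset.mem_union.1 (hl z (List.mem_of_mem_take hz)) with h6 | h6
                · exact Finset.mem_union_left _ (hbA' i hi z h6)
                · exact Finset.mem_union_right _ (Finset.mem_image_of_mem _ h6)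
              · have h6 := hQ _ hq
                have h7 : (l.map σ).length ≤ 3 := by
                  have h8 : l.length = 3 := (hπ.wf _ hq).1
                  rw [List.length_map, h8]
                obtain ⟨y, hy, hyB⟩ := C.take2 h6 h7
                dsimp only at hy
                rw [← List.map_take] at hy
                obtain ⟨z, hz, rfl⟩ := List.mem_map.1 hy
                refine ⟨f i z, List.mem_map_of_mem hz, Finset.mem_image_of_mem _ ?_⟩
                rcases Finset.mem_union.1 (hl z (List.mem_of_mem_take hz)) with h6 | h6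
                · exact absurd (hσA z h6) (C.notA hyB)
                · exact h6
            · obtain ⟨q', hq', rfl⟩ := Finset.mem_image.1 h5
              refine ⟨hd2 q' hq', medge_vis (hd1 q' hq') (hsm q' hq'), ?_, ?_⟩
              · intro y hy
                rw [hd3 q' hq'] at hy
                obtain ⟨z, hz, rfl⟩ := List.mem_map.1 hy
                rcases Finset.mem_union.1 (hπ.inside q' hq' z hz) with h6 | h6
                · exact Finset.mem_union_left _ (hbA' i hi z h6)
                · exact Finset.mem_union_right _ (Finset.mem_image_of_mem _ h6)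
              · obtain ⟨z, hz, hzC⟩ := hπ.meets q' hq'
                refine ⟨f i z, ?_, Finset.mem_image_of_mem _ hzC⟩
                rw [hd3 q' hq']
                exact List.mem_map_of_mem hz)
        rw [Finset.card_insert_of_notMem hnotin, Finset.card_image_of_injOn hdinj, hπ.card,
          Finset.card_image_of_injOn hiC] at h4
        omega
      | K n =>
        obtain ⟨v', h2, h3⟩ := hm
        rw [List.map_take] at h2
        exact nvK.2 ⟨hs, v', h2, h3⟩
      | R n => exact nvR.2 ⟨hs, hm⟩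
      | S n => exact nvS.2 ⟨hs, hm⟩
      | P => exact nvP.2 hm
    have inj : Set.InjOn u (A ∪ B : Finset ℕ) := by
      intro a ha b hb hab
      rw [Finset.mem_coe, Finset.mem_union] at ha hb
      by_cases ha' : a ∈ A
      · by_cases hb' : b ∈ A
        · rw [uA a ha', uA b hb'] at hab
          rw [← C.hV.hg a ha', ← C.hV.hg b hb', hab]
        · exfalso
          have hb2 := hb.resolve_left hb'
          apply uA' b hb2
          rw [← hab, uA a ha']
          exact C.hV.gA a ha'
      · have ha2 := ha.resolve_left ha'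
        by_cases hb' : b ∈ A
        · exfalso
          apply uA' a ha2
          rw [hab, uA b hb']
          exact C.hV.gA b hb'
        · exact uB ha2 (hb.resolve_left hb') hab
    have hGu : ∀ q ∈ G, (q.1, q.2.map u) ∈ NV Lam t ν M := by
      intro q hq
      obtain ⟨q', hq', h2⟩ := hQs q hq
      have h3 := himg q' hq'
      rw [← umap q'.2 (hπ.inside q' hq')] at h3
      have h4 : q.1 = q'.1 := by rw [← h2]
      have h5 : q.2 = q'.2.map σ := by rw [← h2]
      rw [h4, h5]
      exact h3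
    refine fin C.hP C.hV C.dAB C.hG C.cG u uA uB uA' ?_
    intro q hqin hqB
    constructor
    · intro hN
      exact hGu q ((C.hG q).2 ⟨hN, hqin, hqB⟩)
    · intro hN
      by_contra hcon
      have hover : ∀ q : SEdge, (∀ y ∈ q.2, y ∈ A ∪ B) → (∃ y ∈ q.2, y ∈ B) →
          Over A' (B.image u) (q.1, q.2.map u) := by
        intro q h1 h2
        constructor
        · intro y hy
          obtain ⟨z, hz, rfl⟩ := List.mem_map.1 hy
          rcases Finset.mem_union.1 (h1 z hz) with h3 | h3
          · rw [uA z h3]; exact Finset.mem_union_left _ (C.hV.gA z h3)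
          · exact Finset.mem_union_right _ (Finset.mem_image_of_mem u h3)
        · obtain ⟨y, hy, hyB⟩ := h2
          exact ⟨u y, List.mem_map_of_mem hy, Finset.mem_image_of_mem u hyB⟩
      have hnotin : (q.1, q.2.map u) ∉ G.image (fun q : SEdge => (q.1, q.2.map u)) := by
        intro h1
        obtain ⟨q', hq', h2⟩ := Finset.mem_image.1 h1
        have h2' : (q'.1, q'.2.map u) = (q.1, q.2.map u) := h2
        have h3 : q'.2 = q.2 := map_inj_of_injOn inj
          (fun y hy => Finset.mem_coe.2 (C.G_in hq' y hy))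
          (fun y hy => Finset.mem_coe.2 (hqin y hy)) (Prod.mk.inj h2').2
        have h4 : q' = q := Prod.ext (Prod.mk.inj h2').1 h3
        rw [h4] at hq'
        exact hcon (C.G_nv hq')
      have hinjG : Set.InjOn (fun q : SEdge => (q.1, q.2.map u)) G := by
        intro q1 hq1 q2 hq2 h1
        have h1' : (q1.1, q1.2.map u) = (q2.1, q2.2.map u) := h1
        have h3 : q1.2 = q2.2 := map_inj_of_injOn inj
          (fun y hy => Finset.mem_coe.2 (C.G_in hq1 y hy))
          (fun y hy => Finset.mem_coe.2 (C.G_in hq2 y hy)) (Prod.mk.inj h1').2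
        exact Prod.ext (Prod.mk.inj h1').1 h3
      have h5 := C.str (B.image u) (by
          rw [Finset.disjoint_right]
          intro w hw
          obtain ⟨z, hz, rfl⟩ := Finset.mem_image.1 hw
          exact uA' z hz) (by rw [Finset.card_image_of_injOn uB]; exact hBB)
        (insert (q.1, q.2.map u) (G.image (fun q : SEdge => (q.1, q.2.map u)))) (by
          intro q' hq'
          rcases Finset.mem_insert.1 hq' with h6 | h6
          · rw [h6]
            exact ⟨hN, hover q hqin hqB⟩
          · obtain ⟨q1, hq1, rfl⟩ := Finset.mem_image.1 h6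
            exact ⟨hGu q1 hq1, hover q1 (C.G_in hq1) (C.G_meets hq1)⟩)
      rw [Finset.card_insert_of_notMem hnotin, Finset.card_image_of_injOn hinjG,
        Finset.card_image_of_injOn uB, C.cG] at h5
      omega

/-- if `D` is not in the class the conclusion holds -/
lemma concl_bad (hFam : S_Family) (hMat : S_Matched) (hn : ¬ InK Lam (DD Lam M v cv G e)) :
    Concl Lam M t ν x A A' g B := by
  obtain ⟨π, J, f, hπ, hf, hmu⟩ := C.bad hn
  by_cases hA : ∀ j ∈ J, ∀ a ∈ π.A, f j a < cv
  · exact C.case1 hFam hMat hπ hf hmu hA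
  · exfalso
    have : ∃ j ∈ J, ∃ a ∈ π.A, cv ≤ f j a := by
      by_contra hcon
      apply hA
      intro j hj a ha
      by_contra h1
      exact hcon ⟨j, hj, a, ha, not_lt.1 h1⟩
    obtain ⟨j, hj, a, ha, h1⟩ := this
    exact C.case2 hFam hMat hπ hf hmu hj ha h1

end Ctx

end Ext2Aux

end Pool.Agent.Helper367SM
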