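import Pool.Agent.Helper367_SM.Spec

set_option autoImplicit false

/-!
Task FAM: Touch Lemma, Family Lemma, matching edges.
-/

namespace Pool.Agent.Helper367SM

theorem Touch_proof : S_Touch := by
  intro π hπ Y hY A2 hA2 hne
  rcases Y.eq_empty_or_nonempty with rfl | hYne
  · rw [Finset.card_empty, zero_add, Nat.one_le_iff_ne_zero, ← Nat.pos_iff_ne_zero,
      Finset.card_pos]
    rw [Finset.empty_union] at hne
    obtain ⟨a, ha⟩ := hne
    obtain ⟨q, hq, haq⟩ := hπ.cover a (hA2 ha)
    exact ⟨q, Finset.mem_filter.2 ⟨hq, a, haq, by simpa using ha⟩⟩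
  · have hYC : Y ⊆ π.C := hY.1
    have hD : π.C \ Y ⊂ π.C := by
      refine Finset.ssubset_iff_subset_ne.2 ⟨Finset.sdiff_subset, fun h => ?_⟩
      obtain ⟨y, hy⟩ := hYne
      have : y ∈ π.C \ Y := by rw [h]; exact hYC hy
      exact (Finset.mem_sdiff.1 this).2 hy
    have hDne : (π.C \ Y).Nonempty := by
      obtain ⟨x, hx, hxY⟩ := Finset.exists_of_ssubset hY
      exact ⟨x, Finset.mem_sdiff.2 ⟨hx, hxY⟩⟩
    have h1 := hπ.min _ hD hDne
    have h2 : (π.C \ Y).card = π.C.card - Y.card := Finset.card_sdiff_of_subset hYC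
    have h3 : Y.card ≤ π.C.card := Finset.card_le_card hYC
    have h4 : π.Q.card ≤ (π.Q.filter (fun q => ∀ x ∈ q.2, x ∈ π.A ∪ (π.C \ Y))).card +
        (π.Q.filter (fun q => ∃ x ∈ q.2, x ∈ Y ∪ A2)).card := by
      rw [← Finset.card_filter_add_card_filter_not (s := π.Q)
        (p := fun q => ∀ x ∈ q.2, x ∈ π.A ∪ (π.C \ Y))]
      refine Nat.add_le_add_left (Finset.card_le_card fun q hq => ?_) _
      rw [Finset.mem_filter] at hq ⊢
      refine ⟨hq.1, ?_⟩
      have h5 := hq.2
      push Not at h5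
      obtain ⟨x, hx, hx2⟩ := h5
      refine ⟨x, hx, ?_⟩
      have h6 := hπ.inside q hq.1 x hx
      simp only [Finset.mem_union, Finset.mem_sdiff, not_or, not_and, not_not] at h6 hx2 ⊢
      rcases h6 with h6 | h6
      · exact absurd h6 hx2.1
      · exact Or.inl (hx2.2 h6)
    have h7 := hπ.card
    have h8 : 0 < (π.C \ Y).card := Finset.card_pos.2 hDne
    omega

theorem Matched_proof : S_Matched := by
  rintro Lam X Q f ⟨s, l⟩ h
  cases s with
  | E n i => exact ⟨(Sym.E n i, l.map f), ⟨rfl, h.1⟩, h.1, rfl⟩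
  | K n =>
    obtain ⟨v, h1, h2⟩ := h
    exact ⟨(Sym.E n (Lam v n), l.map f), ⟨v, h1, rfl, h2⟩, h2, rfl⟩
  | R n => exact ⟨(Sym.R n, l.map f), ⟨rfl, h⟩, h, rfl⟩
  | S n => exact ⟨(Sym.S n, l.map f), ⟨rfl, h⟩, h, rfl⟩
  | P =>
    obtain ⟨v, h⟩ := h
    exact ⟨(Sym.P v, l.map f), ⟨v, rfl, h⟩, h, rfl⟩

/-- The list of a matching edge. -/
theorem MEdge.list {Lam : ℕ → ℕ → ℕ} {X : Set Edge} {f : ℕ → ℕ} {e : Edge} {q : SEdge}
    (h : MEdge Lam X f e q) : e.2 = q.2.map f := by
  obtain ⟨s, l⟩ := q
  cases s with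
  | E n i => rw [h.1]
  | K n => obtain ⟨v, _, h, _⟩ := h; rw [h]
  | R n => rw [h.1]
  | S n => rw [h.1]
  | P => obtain ⟨v, h, _⟩ := h; rw [h]

/-- A matching edge is an edge. -/
theorem MEdge.mem {Lam : ℕ → ℕ → ℕ} {X : Set Edge} {f : ℕ → ℕ} {e : Edge} {q : SEdge}
    (h : MEdge Lam X f e q) : e ∈ X := by
  obtain ⟨s, l⟩ := q
  cases s with
  | E n i => exact h.2
  | K n => obtain ⟨v, _, _, h⟩ := h; exact h
  | R n => exact h.2
  | S n => exact h.2
  | P => obtain ⟨v, _, h⟩ := h; exact h

/-- An edge matches only one member of `Q` on a given list. -/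
theorem MEdge.unique {Lam : ℕ → ℕ → ℕ} {X : Set Edge} {Q : Finset SEdge} {f : ℕ → ℕ}
    (kp : ∀ n l, (SSym.K n, l) ∈ Q → (SSym.P, l.take 2) ∈ Q)
    {e : Edge} {s s' : SSym} {l : List ℕ} (hs : (s, l) ∈ Q) (hs' : (s', l) ∈ Q)
    (hm : Matched Lam X Q f (s, l)) (hm' : Matched Lam X Q f (s', l))
    (h : MEdge Lam X f e (s, l)) (h' : MEdge Lam X f e (s', l)) : s = s' := by
  cases s with
  | E n i =>
    have h1 := h.1
    cases s' with
    | E m j =>
      have h2 := h'.1
      rw [h1] at h2
      injection h2 with h3 _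
      injection h3 with h4 h5
      rw [h4, h5]
    | K m =>
      obtain ⟨v, h2, h3, h4⟩ := h'
      rw [h1] at h3
      injection h3 with h5 _
      injection h5 with h6 h7
      subst h6
      exact absurd h7.symm (hm.2 (kp _ _ hs') v h2)
    | R m =>
      have h2 := h'.1
      rw [h1] at h2
      injection h2 with h3 _
      injection h3
    | S m =>
      have h2 := h'.1
      rw [h1] at h2
      injection h2 with h3 _
      injection h3
    | P =>
      obtain ⟨v, h2, _⟩ := h'
      rw [h1] at h2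
      injection h2 with h3 _
      injection h3
  | K n =>
    obtain ⟨v, h0, h1, _⟩ := h
    cases s' with
    | E m j =>
      have h3 := h'.1
      rw [h1] at h3
      injection h3 with h5 _
      injection h5 with h6 h7
      subst h6
      exact absurd h7 (hm'.2 (kp _ _ hs) v h0)
    | K m =>
      obtain ⟨v', h2, h3, _⟩ := h'
      rw [h1] at h3
      injection h3 with h5 _
      injection h5 with h6 h7
      rw [h6]
    | R m =>
      have h2 := h'.1
      rw [h1] at h2
      injection h2 with h3 _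
      injection h3
    | S m =>
      have h2 := h'.1
      rw [h1] at h2
      injection h2 with h3 _
      injection h3
    | P =>
      obtain ⟨v, h2, _⟩ := h'
      rw [h1] at h2
      injection h2 with h3 _
      injection h3
  | R n =>
    have h1 := h.1
    cases s' with
    | E m j =>
      have h2 := h'.1
      rw [h1] at h2
      injection h2 with h3 _
      injection h3
    | K m =>
      obtain ⟨v, _, h2, _⟩ := h'
      rw [h1] at h2
      injection h2 with h3 _
      injection h3
    | R m =>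
      have h2 := h'.1
      rw [h1] at h2
      injection h2 with h3 _
      injection h3 with h4
      rw [h4]
    | S m =>
      have h2 := h'.1
      rw [h1] at h2
      injection h2 with h3 _
      injection h3
    | P =>
      obtain ⟨v, h2, _⟩ := h'
      rw [h1] at h2
      injection h2 with h3 _
      injection h3
  | S n =>
    have h1 := h.1
    cases s' with
    | E m j =>
      have h2 := h'.1
      rw [h1] at h2
      injection h2 with h3 _
      injection h3
    | K m =>
      obtain ⟨v, _, h2, _⟩ := h'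
      rw [h1] at h2
      injection h2 with h3 _
      injection h3
    | R m =>
      have h2 := h'.1
      rw [h1] at h2
      injection h2 with h3 _
      injection h3
    | S m =>
      have h2 := h'.1
      rw [h1] at h2
      injection h2 with h3 _
      injection h3 with h4
      rw [h4]
    | P =>
      obtain ⟨v, h2, _⟩ := h'
      rw [h1] at h2
      injection h2 with h3 _
      injection h3
  | P =>
    obtain ⟨v, h1, _⟩ := h
    cases s' with
    | E m j =>
      have h2 := h'.1
      rw [h1] at h2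
      injection h2 with h3 _
      injection h3
    | K m =>
      obtain ⟨v, _, h2, _⟩ := h'
      rw [h1] at h2
      injection h2 with h3 _
      injection h3
    | R m =>
      have h2 := h'.1
      rw [h1] at h2
      injection h2 with h3 _
      injection h3
    | S m =>
      have h2 := h'.1
      rw [h1] at h2
      injection h2 with h3 _
      injection h3
    | P => rfl

theorem map_inj_of_injOn {f : ℕ → ℕ} {s : Set ℕ} (hf : Set.InjOn f s) :
    ∀ {l l' : List ℕ}, (∀ x ∈ l, x ∈ s) → (∀ x ∈ l', x ∈ s) → l.map f = l'.map f → l = l' := by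
  intro l
  induction l with
  | nil =>
    intro l' _ _ h
    cases l' with
    | nil => rfl
    | cons b l' => exact absurd h (by simp)
  | cons a l ih =>
    intro l' hl hl' h
    cases l' with
    | nil => exact absurd h (by simp)
    | cons b l' =>
      rw [List.map_cons, List.map_cons] at h
      injection h with h1 h2
      rw [hf (hl a List.mem_cons_self) (hl' b List.mem_cons_self) h1,
        ih (fun x hx => hl x (List.mem_cons_of_mem _ hx))
          (fun x hx => hl' x (List.mem_cons_of_mem _ hx)) h2]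

open Classical in
theorem Family_proof : S_Family := by
  intro Lam X π hπ J f hF O A2 hA2 hAO hmeet hne
  rcases J.eq_empty_or_nonempty with rfl | ⟨j0, hj0⟩
  · exact ⟨∅, ∅, by simp, by simp, by simp, by simp⟩
  -- matching edges
  have hex : ∀ j ∈ J, ∀ q ∈ π.Q, ∃ e, MEdge Lam X (f j) e q := by
    intro j hj q hq
    obtain ⟨e, he, _⟩ := Matched_proof Lam X π.Q (f j) q (hF.mat j hj q hq)
    exact ⟨e, he⟩
  have : Nonempty Edge := ⟨(Sym.P 0, [])⟩
  choose! m hm using hex
  -- the parts outside `O`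
  let Y : ℕ → Finset ℕ := fun j => π.C.filter (fun x => f j x ∉ O)
  have hYC : ∀ j ∈ J, Y j ⊂ π.C := by
    intro j hj
    obtain ⟨x, hx, hxO⟩ := hmeet j hj
    refine Finset.ssubset_iff_subset_ne.2 ⟨Finset.filter_subset _ _, fun h => ?_⟩
    have : x ∈ Y j := by rw [h]; exact hx
    exact (Finset.mem_filter.1 this).2 hxO
  have hYne : ∀ j ∈ J, (Y j ∪ A2).Nonempty := by
    intro j hj
    rcases hne j hj with ⟨a, ha⟩ | ⟨x, hx, hxO⟩
    · exact ⟨a, Finset.mem_union_right _ ha⟩
    · exact ⟨x, Finset.mem_union_left _ (Finset.mem_filter.2 ⟨hx, hxO⟩)⟩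
  let T : ℕ → Finset SEdge := fun j => π.Q.filter (fun q => ∃ x ∈ q.2, x ∈ Y j ∪ A2)
  have hT : ∀ j ∈ J, (Y j).card + 1 ≤ (T j).card := by
    intro j hj
    have := Touch_proof π hπ (Y j) (hYC j hj) A2 hA2 (hYne j hj)
    convert this
  let W : Finset ℕ := A2.image (f j0) ∪ J.biUnion (fun j => (Y j).image (f j))
  let D : Finset ((_ : ℕ) × SEdge) := J.sigma T
  let G : Finset Edge := D.image (fun p => m p.1 p.2)
  have hWA : ∀ j ∈ J, ∀ a ∈ π.A, f j a ∉ O → f j a ∈ W := by
    intro j hj a ha hO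
    rw [hF.base j hj j0 hj0 a ha] at hO ⊢
    exact Finset.mem_union_left _ (Finset.mem_image_of_mem _ ((hAO j0 hj0 a ha).2 hO))
  have hWC : ∀ j ∈ J, ∀ x ∈ π.C, f j x ∉ O → f j x ∈ W := by
    intro j hj x hx hO
    exact Finset.mem_union_right _ (Finset.mem_biUnion.2 ⟨j, hj,
      Finset.mem_image_of_mem _ (Finset.mem_filter.2 ⟨hx, hO⟩)⟩)
  have hinj : Set.InjOn (fun p : (_ : ℕ) × SEdge => m p.1 p.2) (D : Set ((_ : ℕ) × SEdge)) := by
    rintro ⟨j, q⟩ hp ⟨j', q'⟩ hp' heq
    rw [Finset.mem_coe, Finset.mem_sigma] at hp hp'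
    obtain ⟨hj, hq⟩ := hp
    obtain ⟨hj', hq'⟩ := hp'
    simp only at hj hj' hq hq' heq
    have hqQ : q ∈ π.Q := (Finset.mem_filter.1 hq).1
    have hqQ' : q' ∈ π.Q := (Finset.mem_filter.1 hq').1
    have h1 := hm j hj q hqQ
    have h2 := hm j' hj' q' hqQ'
    have hl : q.2.map (f j) = q'.2.map (f j') := by
      rw [← h1.list, ← h2.list, heq]
    have hjj : j = j' := by
      by_contra hjj
      obtain ⟨x, hx, hxC⟩ := hπ.meets q hqQ
      have h3 : f j x ∈ q'.2.map (f j') := by
        rw [← hl]; exact List.mem_map_of_mem hx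
      obtain ⟨y, hy, hxy⟩ := List.mem_map.1 h3
      rcases Finset.mem_union.1 (hπ.inside q' hqQ' y hy) with hyA | hyC
      · rw [hF.base j' hj' j hj y hyA] at hxy
        have h4 := hF.inj j hj (Finset.mem_coe.2 (Finset.mem_union_left _ hyA))
          (Finset.mem_coe.2 (Finset.mem_union_right _ hxC)) hxy
        rw [h4] at hyA
        exact Finset.disjoint_left.1 hπ.disj hyA hxC
      · exact hF.disj j' hj' j hj (fun h => hjj h.symm) y hyC x hxC hxy
    subst hjj
    have hll : q.2 = q'.2 := map_inj_of_injOn (hF.inj j hj)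
      (fun x hx => Finset.mem_coe.2 (hπ.inside q hqQ x hx))
      (fun x hx => Finset.mem_coe.2 (hπ.inside q' hqQ' x hx)) hl
    obtain ⟨s, l⟩ := q
    obtain ⟨s', l'⟩ := q'
    simp only at hll
    subst hll
    have hs : s = s' := by
      refine MEdge.unique (X := X) (Q := π.Q) (f := f j) hπ.kp (e := m j (s, l)) hqQ hqQ'
        (hF.mat j hj _ hqQ) (hF.mat j hj _ hqQ') h1 ?_
      rw [heq]; exact h2
    rw [hs]
  have hYcard : ∀ j ∈ J, (Y j).card ≤ π.C.card := fun j _ => Finset.card_filter_le _ _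
  have hWcard : W.card ≤ A2.card + ∑ j ∈ J, (Y j).card := by
    refine (Finset.card_union_le _ _).trans (Nat.add_le_add Finset.card_image_le ?_)
    exact Finset.card_biUnion_le.trans (Finset.sum_le_sum fun j _ => Finset.card_image_le)
  have hGcard : G.card = ∑ j ∈ J, (T j).card := by
    rw [Finset.card_image_of_injOn hinj, Finset.card_sigma]
  have hsum : ∑ j ∈ J, (Y j).card + J.card ≤ ∑ j ∈ J, (T j).card := by
    have h1 : ∑ j ∈ J, ((Y j).card + 1) ≤ ∑ j ∈ J, (T j).card := Finset.sum_le_sum hT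
    rw [Finset.sum_add_distrib, Finset.sum_const, smul_eq_mul, mul_one] at h1
    exact h1
  refine ⟨W, G, by omega, ?_, ?_, ?_⟩
  · refine hWcard.trans (Nat.add_le_add_left ?_ _)
    calc ∑ j ∈ J, (Y j).card ≤ ∑ _j ∈ J, π.C.card := Finset.sum_le_sum hYcard
      _ = J.card * π.C.card := by rw [Finset.sum_const, smul_eq_mul]
  · intro x hx
    rcases Finset.mem_union.1 hx with hx | hx
    · obtain ⟨a, ha, rfl⟩ := Finset.mem_image.1 hx
      exact (hAO j0 hj0 a (hA2 ha)).1 ha
    · obtain ⟨j, hj, hx⟩ := Finset.mem_biUnion.1 hx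
      obtain ⟨y, hy, rfl⟩ := Finset.mem_image.1 hx
      exact (Finset.mem_filter.1 hy).2
  · intro e he
    obtain ⟨⟨j, q⟩, hp, rfl⟩ := Finset.mem_image.1 he
    rw [Finset.mem_sigma] at hp
    obtain ⟨hj, hq⟩ := hp
    simp only at hj hq
    have hqQ : q ∈ π.Q := (Finset.mem_filter.1 hq).1
    obtain ⟨y, hy, hyY⟩ := (Finset.mem_filter.1 hq).2
    have h1 := hm j hj q hqQ
    have hlist : (m j q).2 = q.2.map (f j) := h1.list
    refine ⟨⟨j, hj, q, hqQ, h1⟩, ?_, ?_⟩
    · intro x hx
      simp only at hx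
      rw [hlist] at hx
      obtain ⟨z, hz, rfl⟩ := List.mem_map.1 hx
      by_cases hO : f j z ∈ O
      · exact Or.inl hO
      · right
        rcases Finset.mem_union.1 (hπ.inside q hqQ z hz) with hzA | hzC
        · exact hWA j hj z hzA hO
        · exact hWC j hj z hzC hO
    · refine ⟨f j y, ?_, ?_⟩
      · show f j y ∈ (m j q).2
        rw [hlist]
        exact List.mem_map_of_mem hy
      · rcases Finset.mem_union.1 hyY with hyY | hyA
        · obtain ⟨h2, h3⟩ := Finset.mem_filter.1 hyY
          exact hWC j hj y h2 h3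
        · exact hWA j hj y (hA2 hyA) ((hAO j hj y (hA2 hyA)).1 hyA)

end Pool.Agent.Helper367SM
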