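import Pool.Agent.Helper367_SM.GuessDefs

set_option autoImplicit false

/-!
The properties of the walk (task GUESS1).
-/

namespace Pool.Agent.Helper367SM.Guess

namespace Aux

variable {cnt : ℕ → ℕ → ℕ}

/-! ### The history -/

lemma hist_succ (t : ℕ) : hist cnt (t + 1) = hist cnt t ++ [recd cnt t] := rfl

lemma hist_length (t : ℕ) : (hist cnt t).length = t := by
  induction t with
  | zero => rfl
  | succ t ih => rw [hist_succ, List.length_append, ih]; rfl

lemma hist_get {t u : ℕ} (h : u < t) : (hist cnt t)[u]? = some (recd cnt u) := by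
  induction t with
  | zero => omega
  | succ t ih =>
    rw [hist_succ]
    rcases Nat.lt_succ_iff_lt_or_eq.1 h with h1 | h1
    · rw [List.getElem?_append_left (by rw [hist_length]; exact h1)]
      exact ih h1
    · subst h1
      rw [List.getElem?_append_right (by rw [hist_length]), hist_length, Nat.sub_self]
      rfl

lemma recd_zero : recd cnt 0 = ((0, false), [], []) := rfl

lemma gpath_zero : gpath cnt 0 = [] := rfl

lemma gstr_zero : gstr cnt 0 = [] := rfl

lemma visits_succ (t w : ℕ) : visits (hist cnt (t + 1)) w =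
    visits (hist cnt t) w + if w ∈ gpath cnt t then 1 else 0 := by
  unfold visits
  rw [hist_succ, List.filter_append, List.length_append]
  congr 1
  by_cases h : w ∈ gpath cnt t
  · rw [if_pos h]
    have h' : w ∈ (recd cnt t).2.2 := h
    simp [h']
  · rw [if_neg h]
    have h' : w ∉ (recd cnt t).2.2 := h
    simp [h']

lemma visits_mono {t t' : ℕ} (h : t ≤ t') (w : ℕ) :
    visits (hist cnt t) w ≤ visits (hist cnt t') w := by
  induction t', h using Nat.le_induction with
  | base => exact le_rfl
  | succ n _ ih => exact ih.trans (by rw [visits_succ]; omega)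

lemma visits_const {t t' : ℕ} (h : t ≤ t') (w : ℕ)
    (hn : ∀ s, t ≤ s → s < t' → w ∉ gpath cnt s) :
    visits (hist cnt t') w = visits (hist cnt t) w := by
  induction t', h using Nat.le_induction with
  | base => rfl
  | succ n hn' ih =>
    rw [visits_succ, if_neg (hn n hn' (by omega)), ih (fun s h1 h2 => hn s h1 (by omega))]
    rfl

/-- live children -/
def Live (cnt : ℕ → ℕ → ℕ) (t w : ℕ) (o : Bool) (u : ℕ) : Prop :=
  0 < u ∧ u < t ∧ (recd cnt u).1 = (w, o) ∧ (o = true ∨ ∀ s, u ≤ s → s < t → w ∉ gpath cnt s)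

lemma isLive_iff {t w : ℕ} {o : Bool} {u : ℕ} (h : u < t) :
    isLive (hist cnt t) w o u = true ↔ Live cnt t w o u := by
  have hget : (hist cnt t).getD u ((0, false), [], []) = recd cnt u := by
    rw [List.getD_eq_getElem?_getD, hist_get h]; rfl
  have hall : ((hist cnt t).drop u).all (fun r => decide (w ∉ r.2.2)) = true ↔
      ∀ s, u ≤ s → s < t → w ∉ gpath cnt s := by
    rw [List.all_eq_true]
    constructor
    · intro hh s h1 h2
      have h3 : recd cnt s ∈ (hist cnt t).drop u := by
        rw [List.mem_iff_getElem?]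
        refine ⟨s - u, ?_⟩
        rw [List.getElem?_drop, show u + (s - u) = s by omega, hist_get h2]
      have h4 : w ∉ (recd cnt s).2.2 := by simpa using hh _ h3
      exact h4
    · intro hh r hr
      rw [List.mem_iff_getElem?] at hr
      obtain ⟨i, hi⟩ := hr
      rw [List.getElem?_drop] at hi
      have hlt : u + i < t := by
        by_contra hge
        rw [List.getElem?_eq_none (by rw [hist_length]; omega)] at hi
        exact absurd hi (by simp)
      rw [hist_get hlt] at hi
      have hr : recd cnt (u + i) = r := Option.some.inj hi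
      have h5 : w ∉ (recd cnt (u + i)).2.2 := hh (u + i) (by omega) hlt
      rw [← hr]
      simpa using h5
  unfold isLive Live
  rw [hget, Bool.and_eq_true, Bool.and_eq_true, Bool.or_eq_true, decide_eq_true_iff,
    decide_eq_true_iff, hall]
  tauto

lemma child_some {t w : ℕ} {o : Bool} {u : ℕ} (h : child (hist cnt t) w o = some u) :
    Live cnt t w o u ∧ ∀ u' < u, ¬ Live cnt t w o u' := by
  unfold child at h
  rw [List.find?_range_eq_some] at h
  rw [hist_length] at h
  obtain ⟨h1, h2, h3⟩ := h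
  have h2' : u < t := by simpa using h2
  refine ⟨(isLive_iff h2').1 h1, fun u' hu' hl => ?_⟩
  have := h3 u' hu'
  rw [(isLive_iff hl.2.1).2 hl] at this
  simp at this

lemma child_none {t w : ℕ} {o : Bool} (h : child (hist cnt t) w o = none) (u : ℕ) :
    ¬ Live cnt t w o u := by
  intro hl
  unfold child at h
  rw [List.find?_eq_none] at h
  have := h u (by rw [hist_length]; exact List.mem_range.2 hl.2.1)
  rw [(isLive_iff hl.2.1).2 hl] at this
  simp at this

/-! ### The walk -/

lemma walk_zero (H : List Rec) : walk cnt H 0 = (0, [], [], false) := rfl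

lemma walk_succ (H : List Rec) (k : ℕ) : walk cnt H (k + 1) = walkStep cnt H (walk cnt H k) := rfl

lemma walk_stop (H : List Rec) {k : ℕ} (h : (walk cnt H k).2.2.2 = true) {m : ℕ} (hm : k ≤ m) :
    walk cnt H m = walk cnt H k := by
  induction m, hm using Nat.le_induction with
  | base => rfl
  | succ n _ ih =>
    rw [walk_succ, ih]
    unfold walkStep
    rw [if_pos h]

/-- the path after the outcome `o` at `w` -/
def ext (p : List ℕ) (w : ℕ) (o : Bool) : List ℕ := if o then p ++ [w] else p

lemma walkStep_some {H : List Rec} {w : ℕ} {σ : List Bool} {p : List ℕ} {u : ℕ}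
    (h : child H w (outc cnt H w σ.length) = some u) :
    walkStep cnt H (w, σ, p, false) =
      (u, σ ++ [outc cnt H w σ.length], ext p w (outc cnt H w σ.length), false) := by
  simp only [walkStep, h, ext]
  rfl

lemma walkStep_none {H : List Rec} {w : ℕ} {σ : List Bool} {p : List ℕ}
    (h : child H w (outc cnt H w σ.length) = none) :
    walkStep cnt H (w, σ, p, false) =
      (w, σ ++ [outc cnt H w σ.length], ext p w (outc cnt H w σ.length), true) := by
  simp only [walkStep, h, ext]
  rfl

lemma walk_len (H : List Rec) (k : ℕ) (h : (walk cnt H k).2.2.2 = false) :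
    (walk cnt H k).2.1.length = k := by
  induction k with
  | zero => rfl
  | succ k ih =>
    have h0 : (walk cnt H k).2.2.2 = false := by
      by_contra hc
      rw [Bool.not_eq_false] at hc
      rw [walk_stop H hc (Nat.le_succ k)] at h
      rw [hc] at h
      exact absurd h (by simp)
    have h1 := ih h0
    rw [walk_succ] at h ⊢
    rcases hw : walk cnt H k with ⟨w, σ, p, b⟩
    rw [hw] at h0 h1 h
    simp only at h0 h1
    subst h0
    cases hc : child H w (outc cnt H w σ.length) with
    | none =>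
      rw [walkStep_none hc] at h
      simp at h
    | some u =>
      rw [walkStep_some hc]
      simp [h1]

/-- at stage `t` the walk is at `w` -/
def At (cnt : ℕ → ℕ → ℕ) (t w : ℕ) (σ : List Bool) (p : List ℕ) : Prop :=
  0 < t ∧ walk cnt (hist cnt t) σ.length = (w, σ, p, false)

/-- the outcome at `w` at stage `t`, at level `j` -/
def out (cnt : ℕ → ℕ → ℕ) (t w j : ℕ) : Bool := outc cnt (hist cnt t) w j

lemma out_iff (t w j : ℕ) : out cnt t w j = true ↔ visits (hist cnt t) w < cnt j t := by
  unfold out outc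
  rw [decide_eq_true_iff, hist_length]

lemma at_zero {t : ℕ} (h : 0 < t) : At cnt t 0 [] [] := ⟨h, rfl⟩

lemma at_step {t w : ℕ} {σ : List Bool} {p : List ℕ} (h : At cnt t w σ p) {u : ℕ}
    (hc : child (hist cnt t) w (out cnt t w σ.length) = some u) :
    At cnt t u (σ ++ [out cnt t w σ.length]) (ext p w (out cnt t w σ.length)) := by
  refine ⟨h.1, ?_⟩
  rw [List.length_append, List.length_singleton, walk_succ, h.2]
  exact walkStep_some hc

lemma at_inv {t u : ℕ} {τ : List Bool} {q : List ℕ} (h : At cnt t u τ q) :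
    (u = 0 ∧ τ = [] ∧ q = []) ∨ ∃ w σ p, At cnt t w σ p ∧
      child (hist cnt t) w (out cnt t w σ.length) = some u ∧
      τ = σ ++ [out cnt t w σ.length] ∧ q = ext p w (out cnt t w σ.length) := by
  obtain ⟨ht, h⟩ := h
  rcases Nat.eq_zero_or_pos τ.length with h0 | h0
  · left
    rw [h0, walk_zero] at h
    simp only [Prod.mk.injEq] at h
    exact ⟨h.1.symm, h.2.1.symm, h.2.2.1.symm⟩
  · right
    obtain ⟨k, hk⟩ : ∃ k, τ.length = k + 1 := ⟨τ.length - 1, by omega⟩
    rw [hk, walk_succ] at h
    have hns : (walk cnt (hist cnt t) k).2.2.2 = false := by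
      by_contra hc
      rw [Bool.not_eq_false] at hc
      rw [← walk_succ, walk_stop _ hc (Nat.le_succ k)] at h
      rw [h] at hc
      simp at hc
    have hlen := walk_len (cnt := cnt) (hist cnt t) k hns
    rcases hw : walk cnt (hist cnt t) k with ⟨w, σ, p, b⟩
    rw [hw] at hns hlen h
    simp only at hns hlen
    subst hns
    refine ⟨w, σ, p, ⟨ht, by rw [hlen, hw]⟩, ?_⟩
    cases hc : child (hist cnt t) w (outc cnt (hist cnt t) w σ.length) with
    | none =>
      rw [walkStep_none hc] at h
      simp at h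
    | some u' =>
      rw [walkStep_some hc] at h
      simp only [Prod.mk.injEq] at h
      refine ⟨?_, h.2.1.symm, h.2.2.1.symm⟩
      change child (hist cnt t) w (outc cnt (hist cnt t) w σ.length) = some u
      rw [hc, h.1]

/-- the walk stops at `w` -/
def Fin' (cnt : ℕ → ℕ → ℕ) (t w : ℕ) (σ : List Bool) (p : List ℕ) : Prop :=
  At cnt t w σ p ∧ child (hist cnt t) w (out cnt t w σ.length) = none

lemma final_eq {t w : ℕ} {σ : List Bool} {p : List ℕ} (h : Fin' cnt t w σ p)
    (hb : σ.length ≤ t) :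
    recd cnt t = ((w, out cnt t w σ.length), σ ++ [out cnt t w σ.length],
      ext p w (out cnt t w σ.length)) := by
  obtain ⟨⟨ht, h1⟩, h2⟩ := h
  have h3 : walk cnt (hist cnt t) (σ.length + 1) =
      (w, σ ++ [out cnt t w σ.length], ext p w (out cnt t w σ.length), true) := by
    rw [walk_succ, h1]
    exact walkStep_none h2
  have h4 : walk cnt (hist cnt t) ((hist cnt t).length + 1) =
      (w, σ ++ [out cnt t w σ.length], ext p w (out cnt t w σ.length), true) := by
    rw [walk_stop (k := σ.length + 1) _ (by rw [h3]) (by rw [hist_length]; omega), h3]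
  unfold recd newRec
  rw [if_neg (by rw [hist_length]; omega), h4]
  simp

/-- the basic bounds, and the walk stops -/
lemma basic : ∀ t, (∀ w σ p, At cnt t w σ p → w < t ∧ σ.length ≤ w) ∧
    (∀ w σ p, At cnt t w σ p → ∃ w' σ' p', Fin' cnt t w' σ' p' ∧ w ≤ w') := by
  intro t
  induction t using Nat.strong_induction_on with
  | _ t ih =>
  have hb : ∀ k w σ p, σ.length = k → At cnt t w σ p → w < t ∧ σ.length ≤ w := by
    intro k
    induction k with
    | zero =>
      intro w σ p hk h
      rcases at_inv h with ⟨rfl, rfl, rfl⟩ | ⟨w', σ', p', _, _, rfl, _⟩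
      · exact ⟨h.1, by simp⟩
      · simp at hk
    | succ k ihk =>
      intro u τ q hk h
      rcases at_inv h with ⟨rfl, rfl, rfl⟩ | ⟨w, σ, p, h1, h2, rfl, _⟩
      · simp at hk
      · obtain ⟨⟨hu0, hut, hpar, _⟩, _⟩ := child_some h2
        have hlen : σ.length = k := by simpa using hk
        have h3 := ihk w σ p hlen h1
        obtain ⟨w', σ', p', hf, _⟩ := (ih u hut).2 0 [] [] (at_zero hu0)
        have h4 := (ih u hut).1 w' σ' p' hf.1
        have h5 := final_eq hf (by omega)
        rw [h5] at hpar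
        have h6 : w' = w := (Prod.mk.inj hpar).1
        refine ⟨hut, ?_⟩
        rw [hk]
        omega
  have hb' : ∀ w σ p, At cnt t w σ p → w < t ∧ σ.length ≤ w := fun w σ p h => hb _ w σ p rfl h
  refine ⟨hb', ?_⟩
  have hlt : ∀ w σ p u, At cnt t w σ p →
      child (hist cnt t) w (out cnt t w σ.length) = some u → w < u := by
    intro w σ p u h h2
    obtain ⟨⟨hu0, hut, hpar, _⟩, _⟩ := child_some h2
    obtain ⟨w', σ', p', hf, _⟩ := (ih u hut).2 0 [] [] (at_zero hu0)
    have h4 := (ih u hut).1 w' σ' p' hf.1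
    have h5 := final_eq hf (by omega)
    rw [h5] at hpar
    have h6 : w' = w := (Prod.mk.inj hpar).1
    omega
  have : ∀ m w σ p, t - w = m → At cnt t w σ p → ∃ w' σ' p', Fin' cnt t w' σ' p' ∧ w ≤ w' := by
    intro m
    induction m using Nat.strong_induction_on with
    | _ m ihm =>
    intro w σ p hm h
    cases hc : child (hist cnt t) w (out cnt t w σ.length) with
    | none => exact ⟨w, σ, p, ⟨h, hc⟩, le_rfl⟩
    | some u =>
      have h1 := at_step h hc
      have h2 := hlt w σ p u h hc
      have h3 := hb' _ _ _ h1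
      obtain ⟨w', σ', p', hf, hle⟩ := ihm (t - u) (by omega) u _ _ rfl h1
      exact ⟨w', σ', p', hf, by omega⟩
  exact fun w σ p h => this _ w σ p rfl h

lemma at_lt {t w : ℕ} {σ : List Bool} {p : List ℕ} (h : At cnt t w σ p) : w < t :=
  ((basic t).1 w σ p h).1

lemma at_len {t w : ℕ} {σ : List Bool} {p : List ℕ} (h : At cnt t w σ p) : σ.length ≤ t := by
  have := (basic t).1 w σ p h
  omega

lemma fin_eq {t w : ℕ} {σ : List Bool} {p : List ℕ} (h : Fin' cnt t w σ p) :
    recd cnt t = ((w, out cnt t w σ.length), σ ++ [out cnt t w σ.length],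
      ext p w (out cnt t w σ.length)) := final_eq h (at_len h.1)

lemma exists_fin {t : ℕ} (h : 0 < t) : ∃ w σ p, Fin' cnt t w σ p := by
  obtain ⟨w, σ, p, hf, _⟩ := (basic (cnt := cnt) t).2 0 [] [] (at_zero h)
  exact ⟨w, σ, p, hf⟩

/-- coherence -/
lemma coherence : ∀ t w σ p, At cnt t w σ p → gstr cnt w = σ ∧ gpath cnt w = p := by
  intro t
  induction t using Nat.strong_induction_on with
  | _ t ih =>
  have : ∀ k u τ q, τ.length = k → At cnt t u τ q → gstr cnt u = τ ∧ gpath cnt u = q := by
    intro k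
    induction k with
    | zero =>
      intro u τ q hk h
      rcases at_inv h with ⟨rfl, rfl, rfl⟩ | ⟨w, σ, p, _, _, rfl, _⟩
      · exact ⟨rfl, rfl⟩
      · simp at hk
    | succ k ihk =>
      intro u τ q hk h
      rcases at_inv h with ⟨rfl, rfl, rfl⟩ | ⟨w, σ, p, h1, h2, rfl, rfl⟩
      · simp at hk
      · obtain ⟨⟨hu0, hut, hpar, _⟩, _⟩ := child_some h2
        have hlen : σ.length = k := by simpa using hk
        obtain ⟨e1, e2⟩ := ihk w σ p hlen h1
        obtain ⟨w', σ', p', hf⟩ := exists_fin (cnt := cnt) hu0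
        have h5 := fin_eq hf
        rw [h5] at hpar
        obtain ⟨h6, h7⟩ := Prod.mk.inj hpar
        subst h6
        obtain ⟨e3, e4⟩ := ih u hut w' σ' p' hf.1
        have e5 : σ' = σ := by rw [← e1, e3]
        have e6 : p' = p := by rw [← e2, e4]
        subst e5 e6
        constructor
        · unfold gstr
          rw [h5, h7]
        · unfold gpath
          rw [h5, h7]
  exact fun w σ p h => this _ w σ p rfl h

/-- `w` is passed at stage `t` -/
def Pass (cnt : ℕ → ℕ → ℕ) (t w : ℕ) : Prop := At cnt t w (gstr cnt w) (gpath cnt w)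

lemma At.pass {t w : ℕ} {σ : List Bool} {p : List ℕ} (h : At cnt t w σ p) : Pass cnt t w := by
  obtain ⟨e1, e2⟩ := coherence t w σ p h
  unfold Pass
  rw [e1, e2]
  exact h

/-- the outcome at `w` at stage `t` -/
def oc (cnt : ℕ → ℕ → ℕ) (t w : ℕ) : Bool := out cnt t w (gstr cnt w).length

lemma oc_iff (t w : ℕ) :
    oc cnt t w = true ↔ visits (hist cnt t) w < cnt (gstr cnt w).length t := out_iff _ _ _

lemma pass_zero {t : ℕ} (h : 0 < t) : Pass cnt t 0 := at_zero h

lemma Pass.lt {t w : ℕ} (h : Pass cnt t w) : w < t := at_lt h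

lemma Pass.step {t w : ℕ} (h : Pass cnt t w) {u : ℕ}
    (hc : child (hist cnt t) w (oc cnt t w) = some u) :
    Pass cnt t u ∧ gstr cnt u = gstr cnt w ++ [oc cnt t w] ∧
      gpath cnt u = ext (gpath cnt w) w (oc cnt t w) := by
  have h1 := at_step h hc
  obtain ⟨e1, e2⟩ := coherence _ _ _ _ h1
  exact ⟨h1.pass, e1, e2⟩

/-- the record of stage `t` -/
lemma parent {t : ℕ} (h : 0 < t) : ∃ w, Pass cnt t w ∧
    child (hist cnt t) w (oc cnt t w) = none ∧ recd cnt t =
      ((w, oc cnt t w), gstr cnt w ++ [oc cnt t w], ext (gpath cnt w) w (oc cnt t w)) := by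
  obtain ⟨w, σ, p, hf⟩ := exists_fin (cnt := cnt) h
  obtain ⟨e1, e2⟩ := coherence _ _ _ _ hf.1
  subst e1 e2
  exact ⟨w, hf.1, hf.2, fin_eq hf⟩

lemma parent' {u w : ℕ} {o : Bool} (h : 0 < u) (hp : (recd cnt u).1 = (w, o)) :
    Pass cnt u w ∧ oc cnt u w = o ∧ child (hist cnt u) w o = none ∧
      gstr cnt u = gstr cnt w ++ [o] ∧ gpath cnt u = ext (gpath cnt w) w o := by
  obtain ⟨w', h1, h2, h3⟩ := parent (cnt := cnt) h
  have h4 := hp
  rw [h3] at h4
  obtain ⟨h5, h6⟩ := Prod.mk.inj h4
  subst h5 h6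
  refine ⟨h1, rfl, h2, ?_, ?_⟩
  · change (recd cnt u).2.1 = _
    rw [h3]
  · change (recd cnt u).2.2 = _
    rw [h3]

lemma Live.lt {t w : ℕ} {o : Bool} {u : ℕ} (h : Live cnt t w o u) : w < u :=
  (parent' h.1 h.2.2.1).1.lt

/-- live children are unique -/
lemma Live.child {t w : ℕ} {o : Bool} {u : ℕ} (h : Live cnt t w o u) :
    child (hist cnt t) w o = some u := by
  cases hc : Guess.child (hist cnt t) w o with
  | none => exact absurd h (child_none hc u)
  | some u' =>
    obtain ⟨h1, h2⟩ := child_some hc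
    rcases Nat.lt_trichotomy u' u with h3 | h3 | h3
    · exfalso
      obtain ⟨_, _, h5, _⟩ := parent' h.1 h.2.2.1
      apply child_none h5 u'
      refine ⟨h1.1, h3, h1.2.2.1, ?_⟩
      rcases h1.2.2.2 with h6 | h6
      · exact Or.inl h6
      · exact Or.inr fun s hs1 hs2 => h6 s hs1 (hs2.trans h.2.1)
    · rw [h3]
    · exact absurd h (h2 u h3)

lemma Pass.prev {t z : ℕ} (h : Pass cnt t z) (h0 : z ≠ 0) : ∃ w, Pass cnt t w ∧
    child (hist cnt t) w (oc cnt t w) = some z ∧ gstr cnt z = gstr cnt w ++ [oc cnt t w] ∧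
      Live cnt t w (oc cnt t w) z := by
  rcases at_inv h with ⟨h1, _⟩ | ⟨w, σ, p, h1, h2, h3, _⟩
  · exact absurd h1 h0
  · obtain ⟨e1, e2⟩ := coherence _ _ _ _ h1
    subst e1 e2
    exact ⟨w, h1, h2, h3, (child_some h2).1⟩

/-! ### The path -/

lemma ext_mem {p : List ℕ} {w : ℕ} {o : Bool} {x : ℕ} :
    x ∈ ext p w o ↔ x ∈ p ∨ (x = w ∧ o = true) := by
  unfold ext
  cases o <;> simp

lemma ext_append (p : List ℕ) (w : ℕ) (o : Bool) : ∃ r, ext p w o = p ++ r ∧ ∀ x ∈ r, x = w := by
  unfold ext
  cases o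
  · exact ⟨[], by simp, by simp⟩
  · exact ⟨[w], by simp, by simp⟩

/-- the part of the path after `w` -/
lemma path_suffix : ∀ (m t w : ℕ), t - w = m → Pass cnt t w →
    ∃ r, gpath cnt t = gpath cnt w ++ r ∧ ∀ x ∈ r, w ≤ x := by
  intro m
  induction m using Nat.strong_induction_on with
  | _ m ih =>
  intro t w hm h
  cases hc : child (hist cnt t) w (oc cnt t w) with
  | none =>
    have h1 := fin_eq (cnt := cnt) (t := t) (w := w) ⟨h, hc⟩
    obtain ⟨r, hr, hr'⟩ := ext_append (gpath cnt w) w (oc cnt t w)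
    refine ⟨r, ?_, fun x hx => (hr' x hx).ge⟩
    rw [← hr]
    change (recd cnt t).2.2 = _
    rw [h1]
    rfl
  | some u =>
    obtain ⟨h1, h2, h3⟩ := h.step hc
    have hlt := (child_some hc).1.lt
    have hut := h1.lt
    obtain ⟨r, hr, hr'⟩ := ih (t - u) (by omega) t u rfl h1
    obtain ⟨r2, hr2, hr2'⟩ := ext_append (gpath cnt w) w (oc cnt t w)
    refine ⟨r2 ++ r, ?_, ?_⟩
    · rw [hr, h3, hr2, List.append_assoc]
    · intro x hx
      rw [List.mem_append] at hx
      rcases hx with hx | hx
      · exact (hr2' x hx).ge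
      · exact hlt.le.trans (hr' x hx)

lemma Pass.suffix {t w : ℕ} (h : Pass cnt t w) :
    ∃ r, gpath cnt t = gpath cnt w ++ r ∧ ∀ x ∈ r, w ≤ x := path_suffix _ t w rfl h

/-- after an outcome 0 the path continues from the 0-child -/
lemma Pass.suffix_false {t w : ℕ} (h : Pass cnt t w) (ho : oc cnt t w = false) {x : ℕ}
    (hx : x ∈ gpath cnt t) : x ∈ gpath cnt w ∨ ∃ y, Live cnt t w false y ∧ y ≤ x := by
  cases hc : child (hist cnt t) w (oc cnt t w) with
  | none =>
    left
    have h1 := fin_eq (cnt := cnt) (t := t) (w := w) ⟨h, hc⟩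
    have h2 : gpath cnt t = ext (gpath cnt w) w (oc cnt t w) := by
      change (recd cnt t).2.2 = _
      rw [h1]
      rfl
    rw [h2, ho] at hx
    exact hx
  | some u =>
    obtain ⟨h1, h2, h3⟩ := h.step hc
    obtain ⟨r, hr, hr'⟩ := h1.suffix
    rw [hr, List.mem_append, h3, ho] at hx
    rcases hx with hx | hx
    · exact Or.inl hx
    · right
      have := (child_some hc).1
      rw [ho] at this
      exact ⟨u, this, hr' x hx⟩

lemma mem_path_of {t v : ℕ} (h : Pass cnt t v) (ho : oc cnt t v = true) : v ∈ gpath cnt t := by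
  cases hc : child (hist cnt t) v (oc cnt t v) with
  | none =>
    have h1 := fin_eq (cnt := cnt) (t := t) (w := v) ⟨h, hc⟩
    have h2 : gpath cnt t = ext (gpath cnt v) v (oc cnt t v) := by
      change (recd cnt t).2.2 = _
      rw [h1]
      rfl
    rw [h2, ext_mem]
    exact Or.inr ⟨rfl, ho⟩
  | some u =>
    obtain ⟨h1, h2, h3⟩ := h.step hc
    obtain ⟨r, hr, _⟩ := h1.suffix
    rw [hr, List.mem_append, h3, ext_mem]
    exact Or.inl (Or.inr ⟨rfl, ho⟩)

lemma of_mem_path_aux : ∀ (m t w : ℕ), t - w = m → Pass cnt t w → ∀ v ∈ gpath cnt t,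
    v ∈ gpath cnt w ∨ (Pass cnt t v ∧ oc cnt t v = true) := by
  intro m
  induction m using Nat.strong_induction_on with
  | _ m ih =>
  intro t w hm h v hv
  cases hc : child (hist cnt t) w (oc cnt t w) with
  | none =>
    have h1 := fin_eq (cnt := cnt) (t := t) (w := w) ⟨h, hc⟩
    have h2 : gpath cnt t = ext (gpath cnt w) w (oc cnt t w) := by
      change (recd cnt t).2.2 = _
      rw [h1]
      rfl
    rw [h2, ext_mem] at hv
    rcases hv with hv | ⟨rfl, hv⟩
    · exact Or.inl hv
    · exact Or.inr ⟨h, hv⟩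
  | some u =>
    obtain ⟨h1, h2, h3⟩ := h.step hc
    have hlt := (child_some hc).1.lt
    have hut := h1.lt
    rcases ih (t - u) (by omega) t u rfl h1 v hv with h4 | h4
    · rw [h3, ext_mem] at h4
      rcases h4 with h4 | ⟨rfl, h4⟩
      · exact Or.inl h4
      · exact Or.inr ⟨h, h4⟩
    · exact Or.inr h4

lemma pos_of_mem {t v : ℕ} (h : v ∈ gpath cnt t) : 0 < t := by
  rcases Nat.eq_zero_or_pos t with rfl | h0
  · rw [gpath_zero] at h
    exact absurd h (by simp)
  · exact h0

lemma mem_path_iff {t v : ℕ} (ht : 0 < t) :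
    v ∈ gpath cnt t ↔ Pass cnt t v ∧ oc cnt t v = true := by
  constructor
  · intro h
    rcases of_mem_path_aux _ t 0 rfl (pass_zero ht) v h with h1 | h1
    · rw [gpath_zero] at h1
      exact absurd h1 (by simp)
    · exact h1
  · rintro ⟨h1, h2⟩
    exact mem_path_of h1 h2

lemma of_mem {t v : ℕ} (h : v ∈ gpath cnt t) : Pass cnt t v ∧ oc cnt t v = true :=
  (mem_path_iff (pos_of_mem h)).1 h

lemma lt_of_mem {t v : ℕ} (h : v ∈ gpath cnt t) : v < t := (of_mem h).1.lt

lemma s1 {t v : ℕ} (h : v ∈ gpath cnt t) (u : ℕ) :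
    u ∈ gpath cnt v ↔ (u ∈ gpath cnt t ∧ u < v) := by
  obtain ⟨r, hr, hr'⟩ := (of_mem h).1.suffix
  constructor
  · intro hu
    exact ⟨by rw [hr, List.mem_append]; exact Or.inl hu, lt_of_mem hu⟩
  · rintro ⟨hu, huv⟩
    rw [hr, List.mem_append] at hu
    rcases hu with hu | hu
    · exact hu
    · have := hr' u hu
      omega

lemma nodup_aux (t : ℕ) : ∀ (k w : ℕ), (gstr cnt w).length = k → Pass cnt t w →
    (gpath cnt w).Nodup := by
  intro k
  induction k with
  | zero =>
    intro w hk h
    rcases Nat.eq_zero_or_pos w with rfl | h0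
    · rw [gpath_zero]; exact List.nodup_nil
    · obtain ⟨w', _, _, h3, _⟩ := h.prev (by omega)
      rw [h3] at hk
      simp at hk
  | succ k ih =>
    intro w hk h
    rcases Nat.eq_zero_or_pos w with rfl | h0
    · rw [gpath_zero]; exact List.nodup_nil
    · obtain ⟨w', h1, h2, h3, h4⟩ := h.prev (by omega)
      rw [h3, List.length_append, List.length_singleton] at hk
      have h5 := ih w' (by omega) h1
      obtain ⟨_, _, h6⟩ := h1.step h2
      rw [h6]
      unfold ext
      split_ifs
      · rw [List.nodup_append]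
        refine ⟨h5, List.nodup_singleton _, ?_⟩
        intro a ha b hb hab
        rw [List.mem_singleton] at hb
        subst hb hab
        exact absurd (lt_of_mem ha) (lt_irrefl _)
      · exact h5

lemma nodup (t : ℕ) : (gpath cnt t).Nodup := by
  rcases Nat.eq_zero_or_pos t with rfl | h0
  · rw [gpath_zero]; exact List.nodup_nil
  · obtain ⟨w, h1, h2, h3⟩ := parent (cnt := cnt) h0
    have h5 := nodup_aux t _ w rfl h1
    have h6 : gpath cnt t = ext (gpath cnt w) w (oc cnt t w) := by
      change (recd cnt t).2.2 = _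
      rw [h3]
    rw [h6]
    unfold ext
    split_ifs
    · rw [List.nodup_append]
      refine ⟨h5, List.nodup_singleton _, ?_⟩
      intro a ha b hb hab
      rw [List.mem_singleton] at hb
      subst hb hab
      exact absurd (lt_of_mem ha) (lt_irrefl _)
    · exact h5

/-! ### (S2) -/

lemma s2_aux {t t' v : ℕ} (hv : v ∈ gpath cnt t) (h1 : v < t') (h2 : t' < t) :
    ∀ (k z : ℕ), (gstr cnt z).length = k → Pass cnt t z → z ≤ v →
      Pass cnt t' z ∨ ∀ u ∈ gpath cnt t', u < v → u ∈ gpath cnt v := by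
  intro k
  induction k with
  | zero =>
    intro z hk h hz
    rcases Nat.eq_zero_or_pos z with rfl | h0
    · exact Or.inl (pass_zero (by omega))
    · obtain ⟨w', _, _, h3, _⟩ := h.prev (by omega)
      rw [h3] at hk
      simp at hk
  | succ k ih =>
    intro z hk h hz
    rcases Nat.eq_zero_or_pos z with rfl | h0
    · exact Or.inl (pass_zero (by omega))
    obtain ⟨w, p1, p2, p3, p4⟩ := h.prev (by omega)
    rw [p3, List.length_append, List.length_singleton] at hk
    have hwz := p4.lt
    rcases ih w (by omega) p1 (by omega) with p5 | p5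
    swap
    · exact Or.inr p5
    by_cases ho : oc cnt t' w = oc cnt t w
    · left
      have hl : Live cnt t' w (oc cnt t' w) z := by
        rw [ho]
        refine ⟨p4.1, by omega, p4.2.2.1, ?_⟩
        rcases p4.2.2.2 with h6 | h6
        · exact Or.inl h6
        · exact Or.inr fun s hs1 hs2 => h6 s hs1 (by omega)
      exact (p5.step hl.child).1
    · cases ho1 : oc cnt t w with
      | false =>
        exfalso
        have ho2 : oc cnt t' w = true := by
          rw [ho1] at ho
          simpa using ho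
        have hm := mem_path_of p5 ho2
        rw [ho1] at p4
        rcases p4.2.2.2 with h6 | h6
        · simp at h6
        · exact h6 t' (by omega) h2 hm
      | true =>
        right
        have ho2 : oc cnt t' w = false := by
          rw [ho1] at ho
          simpa using ho
        have hwt := mem_path_of p1 ho1
        have hwv : w ∈ gpath cnt v := (s1 hv w).2 ⟨hwt, by omega⟩
        intro u hu huv
        rcases p5.suffix_false ho2 hu with h6 | ⟨y, hy, hyu⟩
        · have h7 := (s1 hwt u).1 h6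
          exact (s1 hv u).2 ⟨h7.1, huv⟩
        · exfalso
          rcases hy.2.2.2 with h8 | h8
          · simp at h8
          · exact h8 v (by omega) h1 hwv

lemma s2 {t t' v u : ℕ} (hv : v ∈ gpath cnt t) (h1 : v < t') (h2 : t' < t)
    (hu : u ∈ gpath cnt t') (huv : u < v) : u ∈ gpath cnt v := by
  rcases s2_aux hv h1 h2 _ v rfl (of_mem hv).1 le_rfl with h | h
  · obtain ⟨r, hr, hr'⟩ := h.suffix
    rw [hr, List.mem_append] at hu
    rcases hu with hu | hu
    · exact hu
    · have := hr' u hu
      omega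
  · exact h u hu huv

/-! ### True stages -/

/-- passed infinitely often -/
def IO (cnt : ℕ → ℕ → ℕ) (w : ℕ) : Prop := ∀ s, ∃ t, s < t ∧ Pass cnt t w

lemma io_zero : IO cnt 0 := fun s => ⟨s + 1, by omega, pass_zero (by omega)⟩

lemma tp_iff (hmono : ∀ e, Monotone (cnt e)) {w : ℕ} (h : IO cnt w) :
    w ∈ TP (gpath cnt) ↔ Unb cnt (gstr cnt w).length := by
  constructor
  · intro hw b
    have key : ∀ b, ∃ t, b ≤ visits (hist cnt t) w := by
      intro b
      induction b with
      | zero => exact ⟨0, Nat.zero_le _⟩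
      | succ b ih =>
        obtain ⟨t, ht⟩ := ih
        obtain ⟨t', ht', hm⟩ := hw t
        refine ⟨t' + 1, ?_⟩
        rw [visits_succ, if_pos hm]
        have := visits_mono (cnt := cnt) ht'.le w
        omega
    obtain ⟨t, ht⟩ := key b
    obtain ⟨t', ht', hm⟩ := hw t
    have h1 := (oc_iff _ _).1 (of_mem hm).2
    have := visits_mono (cnt := cnt) ht'.le w
    exact ⟨t', by omega⟩
  · intro hU s
    by_contra hcon
    push Not at hcon
    obtain ⟨t0, ht0⟩ := hU (visits (hist cnt (s + 1)) w)
    obtain ⟨t, ht, hp⟩ := h (max s t0)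
    have hst : s < t := lt_of_le_of_lt (le_max_left _ _) ht
    have ht0t : t0 < t := lt_of_le_of_lt (le_max_right _ _) ht
    apply hcon t hst
    apply mem_path_of hp
    rw [oc_iff, visits_const (t := s + 1) (by omega) w fun r hr _ => hcon r (by omega)]
    exact ht0.trans_le (hmono _ ht0t.le)

/-- the true child -/
lemma io_step (hmono : ∀ e, Monotone (cnt e)) {w : ℕ} (h : IO cnt w) :
    ∃ z, IO cnt z ∧ z ≠ 0 ∧ w < z ∧ ∃ o : Bool, (recd cnt z).1 = (w, o) ∧
      gstr cnt z = gstr cnt w ++ [o] ∧ (o = true ↔ Unb cnt (gstr cnt w).length) := by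
  by_cases hU : Unb cnt (gstr cnt w).length
  · have hTP := (tp_iff hmono h).2 hU
    obtain ⟨t1, _, hm1⟩ := hTP 0
    obtain ⟨hp1, ho1⟩ := of_mem hm1
    obtain ⟨y, hy0, hypar⟩ : ∃ y, 0 < y ∧ (recd cnt y).1 = (w, true) := by
      cases hc : child (hist cnt t1) w (oc cnt t1 w) with
      | none =>
        have h1 := fin_eq (cnt := cnt) (t := t1) (w := w) ⟨hp1, hc⟩
        refine ⟨t1, pos_of_mem hm1, ?_⟩
        rw [h1]
        change (w, oc cnt t1 w) = _
        rw [ho1]
      | some u =>
        have h1 := (child_some hc).1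
        rw [ho1] at h1
        exact ⟨u, h1.1, h1.2.2.1⟩
    obtain ⟨hpy, _, _, hstr, _⟩ := parent' hy0 hypar
    refine ⟨y, ?_, by omega, hpy.lt, true, hypar, hstr, by simp [hU]⟩
    intro s
    obtain ⟨t, ht, hm⟩ := hTP (max s y)
    have hst : s < t := lt_of_le_of_lt (le_max_left _ _) ht
    have hyt : y < t := lt_of_le_of_lt (le_max_right _ _) ht
    obtain ⟨hp, ho⟩ := of_mem hm
    refine ⟨t, hst, ?_⟩
    have hl : Live cnt t w (oc cnt t w) y := by
      rw [ho]
      exact ⟨hy0, hyt, hypar, Or.inl rfl⟩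
    exact (hp.step hl.child).1
  · have hTP : w ∉ TP (gpath cnt) := fun hc => hU ((tp_iff hmono h).1 hc)
    obtain ⟨s0, hs0⟩ : ∃ s0, ∀ t, s0 < t → w ∉ gpath cnt t := by
      by_contra hcon
      push Not at hcon
      exact hTP fun s => by
        obtain ⟨t, h1, h2⟩ := hcon s
        exact ⟨t, h1, h2⟩
    have hfalse : ∀ t, s0 < t → Pass cnt t w → oc cnt t w = false := by
      intro t ht hp
      by_contra hc
      rw [Bool.not_eq_false] at hc
      exact hs0 t ht (mem_path_of hp hc)
    obtain ⟨t1, ht1, hp1⟩ := h s0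
    have ho1 := hfalse t1 ht1 hp1
    obtain ⟨y, hy0, hyt1, hypar, hy⟩ : ∃ y, 0 < y ∧ y ≤ t1 ∧ (recd cnt y).1 = (w, false) ∧
        ∀ s, y ≤ s → w ∉ gpath cnt s := by
      cases hc : child (hist cnt t1) w (oc cnt t1 w) with
      | none =>
        have h1 := fin_eq (cnt := cnt) (t := t1) (w := w) ⟨hp1, hc⟩
        refine ⟨t1, by omega, le_rfl, ?_, fun s hs => hs0 s (by omega)⟩
        rw [h1]
        change (w, oc cnt t1 w) = _
        rw [ho1]
      | some u =>
        have h1 := (child_some hc).1
        rw [ho1] at h1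
        refine ⟨u, h1.1, h1.2.1.le, h1.2.2.1, fun s hs => ?_⟩
        rcases lt_or_ge s t1 with h3 | h3
        · rcases h1.2.2.2 with h4 | h4
          · simp at h4
          · exact h4 s hs h3
        · exact hs0 s (by omega)
    obtain ⟨hpy, _, _, hstr, _⟩ := parent' hy0 hypar
    refine ⟨y, ?_, by omega, hpy.lt, false, hypar, hstr, by simp [hU]⟩
    intro s
    obtain ⟨t, ht, hp⟩ := h (max s t1)
    have hst : s < t := lt_of_le_of_lt (le_max_left _ _) ht
    have ht1t : t1 < t := lt_of_le_of_lt (le_max_right _ _) ht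
    refine ⟨t, hst, ?_⟩
    have hl : Live cnt t w (oc cnt t w) y := by
      rw [hfalse t (by omega) hp]
      exact ⟨hy0, by omega, hypar, Or.inr fun s hs _ => hy s hs⟩
    exact (hp.step hl.child).1

/-- the parent of a version which is passed infinitely often -/
lemma io_prev (hmono : ∀ e, Monotone (cnt e)) {z : ℕ} (h : IO cnt z) (h0 : z ≠ 0) :
    ∃ (w : ℕ) (o : Bool), IO cnt w ∧ (recd cnt z).1 = (w, o) ∧ gstr cnt z = gstr cnt w ++ [o] ∧
      (o = true ↔ Unb cnt (gstr cnt w).length) ∧
      (o = true ∨ ∀ s, z ≤ s → w ∉ gpath cnt s) := by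
  obtain ⟨w, o, hpar⟩ : ∃ w o, (recd cnt z).1 = (w, o) := ⟨_, _, rfl⟩
  have hz0 : 0 < z := Nat.pos_of_ne_zero h0
  have key : ∀ t, Pass cnt t z → Pass cnt t w ∧ oc cnt t w = o ∧ Live cnt t w o z := by
    intro t ht
    obtain ⟨w', h1, _, _, h4⟩ := ht.prev h0
    have h5 := h4.2.2.1
    rw [hpar] at h5
    obtain ⟨h6, h7⟩ := Prod.mk.inj h5
    subst h6
    exact ⟨h1, h7.symm, by rw [h7]; exact h4⟩
  have hIOw : IO cnt w := fun s => by
    obtain ⟨t, h1, h2⟩ := h s
    exact ⟨t, h1, (key t h2).1⟩
  obtain ⟨_, _, _, hstr, _⟩ := parent' hz0 hpar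
  have hlive : o = true ∨ ∀ s, z ≤ s → w ∉ gpath cnt s := by
    cases o with
    | true => exact Or.inl rfl
    | false =>
      right
      intro s hs
      obtain ⟨t, h1, h2⟩ := h s
      rcases (key t h2).2.2.2.2.2 with h3 | h3
      · simp at h3
      · exact h3 s hs h1
  refine ⟨w, o, hIOw, hpar, hstr, ?_, hlive⟩
  rw [← tp_iff hmono hIOw]
  constructor
  · intro ho s
    obtain ⟨t, h1, h2⟩ := h s
    obtain ⟨h3, h4, _⟩ := key t h2
    exact ⟨t, h1, mem_path_of h3 (by rw [h4, ho])⟩
  · intro hw
    rcases hlive with h1 | h1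
    · exact h1
    · exfalso
      obtain ⟨t, h2, h3⟩ := hw z
      exact h1 t h2.le h3

/-- the children of a version which are passed infinitely often coincide -/
lemma io_unique {z z' w : ℕ} {o : Bool} (h : IO cnt z) (hz0 : z ≠ 0) (hz'0 : z' ≠ 0)
    (hpar : (recd cnt z).1 = (w, o)) (hpar' : (recd cnt z').1 = (w, o))
    (hl : o = true ∨ ∀ s, z' ≤ s → w ∉ gpath cnt s) : z = z' := by
  obtain ⟨t, ht, hp⟩ := h z'
  obtain ⟨w', h1, h2, _, h4⟩ := hp.prev hz0
  have h5 := h4.2.2.1
  rw [hpar] at h5
  obtain ⟨h6, h7⟩ := Prod.mk.inj h5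
  subst h6
  have h8 : Live cnt t w (oc cnt t w) z' := by
    rw [← h7]
    exact ⟨Nat.pos_of_ne_zero hz'0, ht, hpar', hl.imp id fun hh s hs _ => hh s hs⟩
  have h9 := h8.child
  rw [h2] at h9
  exact Option.some.inj h9

/-- truth of a string -/
def Truth (cnt : ℕ → ℕ → ℕ) (w : ℕ) : Prop :=
  ∀ j (b : Bool), (gstr cnt w)[j]? = some b → (b = true ↔ Unb cnt j)

lemma main (hmono : ∀ e, Monotone (cnt e)) : ∀ j, ∃ w, j ≤ w ∧ IO cnt w ∧
    (gstr cnt w).length = j ∧ Truth cnt w ∧
    ∀ z, IO cnt z → (gstr cnt z).length = j → z = w := by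
  intro j
  induction j with
  | zero =>
    refine ⟨0, le_rfl, io_zero, rfl, ?_, ?_⟩
    · intro j b hb
      rw [gstr_zero] at hb
      simp at hb
    · intro z hz hlen
      by_contra h0
      obtain ⟨w, o, _, _, hstr, _⟩ := io_prev hmono hz h0
      rw [hstr] at hlen
      simp at hlen
  | succ j ih =>
    obtain ⟨w, hjw, hio, hlen, htr, huniq⟩ := ih
    obtain ⟨z, hz, hz0, hwz, o, hpar, hstr, ho⟩ := io_step hmono hio
    have hzlen : (gstr cnt z).length = j + 1 := by
      rw [hstr, List.length_append, List.length_singleton, hlen]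
    refine ⟨z, by omega, hz, hzlen, ?_, ?_⟩
    · intro i b hb
      rw [hstr] at hb
      rcases lt_or_ge i j with hi | hi
      · rw [List.getElem?_append_left (by omega)] at hb
        exact htr i b hb
      · rw [List.getElem?_append_right (by omega), hlen] at hb
        rcases Nat.eq_zero_or_pos (i - j) with h1 | h1
        · rw [h1] at hb
          have h2 : o = b := by simpa using hb
          have h3 : i = j := by omega
          rw [← h2, h3, ← hlen]
          exact ho
        · rw [List.getElem?_eq_none (by simp; omega)] at hb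
          exact absurd hb (by simp)
    · intro z' hz' hlen'
      have hz'0 : z' ≠ 0 := by
        rintro rfl
        rw [gstr_zero] at hlen'
        simp at hlen'
      obtain ⟨w', o', hio', hpar', hstr', ho', hl'⟩ := io_prev hmono hz' hz'0
      have hw' : w' = w := huniq w' hio' (by
        rw [hstr', List.length_append, List.length_singleton] at hlen'
        omega)
      subst hw'
      have hoo : o' = o := by
        have : (o' = true) ↔ (o = true) := ho'.trans ho.symm
        cases o <;> cases o' <;> simp_all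
      subst hoo
      obtain ⟨w2, o2, _, hpar2, _, _, hl2⟩ := io_prev hmono hz hz0
      rw [hpar] at hpar2
      obtain ⟨h6, h7⟩ := Prod.mk.inj hpar2
      subst h6 h7
      exact io_unique hz' hz'0 hz0 hpar' hpar hl2

end Aux

open Aux in
theorem GuessProp_proof : S_GuessProp := by
  intro cnt hmono hunb
  have hIO : ∀ v ∈ TP (gpath cnt), IO cnt v := fun v hv s => by
    obtain ⟨t, h1, h2⟩ := hv s
    exact ⟨t, h1, (of_mem h2).1⟩
  refine ⟨⟨nodup, fun t v hv => lt_of_mem hv, fun t v hv u => s1 hv u,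
    fun t t' v u hv h1 h2 hu huv => s2 hv h1 h2 hu huv, ?_⟩, ?_, ?_⟩
  · -- infinitely many true stages
    rw [Set.infinite_iff_exists_gt]
    intro a
    obtain ⟨e, he, hU⟩ := hunb (a + 1)
    obtain ⟨w, hew, hio, hlen, _, _⟩ := main hmono e
    refine ⟨w, ?_, by omega⟩
    rw [tp_iff hmono hio, hlen]
    exact hU
  · intro v hv
    obtain ⟨w, _, _, _, htr, huniq⟩ := main hmono (gstr cnt v).length
    have := huniq v (hIO v hv) rfl
    rw [this]
    exact htr
  · intro j
    have hall : ∀ j, ∃ s, ∀ v, IO cnt v → (gstr cnt v).length ≤ j → v < s := by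
      intro j
      induction j with
      | zero =>
        obtain ⟨w, _, _, _, _, huniq⟩ := main hmono 0
        refine ⟨w + 1, fun v hv hlen => ?_⟩
        have := huniq v hv (by omega)
        omega
      | succ j ih =>
        obtain ⟨s, hs⟩ := ih
        obtain ⟨w, _, _, _, _, huniq⟩ := main hmono (j + 1)
        refine ⟨max s (w + 1), fun v hv hlen => ?_⟩
        rcases Nat.lt_or_ge (gstr cnt v).length (j + 1) with h1 | h1
        · exact lt_of_lt_of_le (hs v hv (by omega)) (le_max_left _ _)
        · have := huniq v hv (by omega)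
          exact lt_of_lt_of_le (by omega) (le_max_right _ _)
    obtain ⟨s, hs⟩ := hall j
    refine ⟨s, fun v hv hsv => ?_⟩
    by_contra hcon
    push Not at hcon
    have := hs v (hIO v hv) hcon
    omega

end Pool.Agent.Helper367SM.Guess
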