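import Pool.Agent.Helper367_SM.Defs

set_option autoImplicit false

/-!
The guessing system of section 2 of the paper, as an explicit recursion.

A record of a stage (= version) `u` is `((w, o), str, path)`: `(w, o)` is the parent of `u` with the
outcome, `str` is the string of outcomes, `path` is `path u`.
-/

namespace Pool.Agent.Helper367SM.Guess

/-- Records. -/
abbrev Rec := (ℕ × Bool) × List Bool × List ℕ

/-- The state of the walk: current version, string of the outcomes before it, elements of the path
so far, and a flag which is `true` when the walk has stopped. -/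
abbrev WState := ℕ × List Bool × List ℕ × Bool

/-- The number of former stages on whose path `w` is. -/
def visits (H : List Rec) (w : ℕ) : ℕ := (H.filter fun r => w ∈ r.2.2).length

/-- `u` is a live child of `(w, o)`, where `H` is the list of the former records. -/
def isLive (H : List Rec) (w : ℕ) (o : Bool) (u : ℕ) : Bool :=
  decide (0 < u) && decide ((H.getD u ((0, false), [], [])).1 = (w, o)) &&
    (o || (H.drop u).all fun r => decide (w ∉ r.2.2))

/-- The first live child of `(w, o)`, if there is any. -/
def child (H : List Rec) (w : ℕ) (o : Bool) : Option ℕ :=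
  (List.range H.length).find? (isLive H w o)

/-- The outcome at `w`, where `j` is the level of `w`. -/
def outc (cnt : ℕ → ℕ → ℕ) (H : List Rec) (w j : ℕ) : Bool :=
  decide (visits H w < cnt j H.length)

/-- One step of the walk. -/
def walkStep (cnt : ℕ → ℕ → ℕ) (H : List Rec) (s : WState) : WState :=
  if s.2.2.2 then s else
    let o := outc cnt H s.1 s.2.1.length
    let p := if o then s.2.2.1 ++ [s.1] else s.2.2.1
    match child H s.1 o with
    | some u => (u, s.2.1 ++ [o], p, false)
    | none => (s.1, s.2.1 ++ [o], p, true)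

/-- The walk. -/
def walk (cnt : ℕ → ℕ → ℕ) (H : List Rec) (k : ℕ) : WState :=
  k.rec (0, [], [], false) fun _ s => walkStep cnt H s

/-- The record of the present stage `H.length`. -/
def newRec (cnt : ℕ → ℕ → ℕ) (H : List Rec) : Rec :=
  if H.length = 0 then ((0, false), [], []) else
    let s := walk cnt H (H.length + 1)
    ((s.1, s.2.1.getLastD false), s.2.1, s.2.2.1)

/-- The list of the records of the stages before `t`. -/
def hist (cnt : ℕ → ℕ → ℕ) (t : ℕ) : List Rec :=
  t.rec [] fun _ H => H ++ [newRec cnt H]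

/-- The record of stage `t`. -/
def recd (cnt : ℕ → ℕ → ℕ) (t : ℕ) : Rec := newRec cnt (hist cnt t)

/-- The path of stage `t`. -/
def gpath (cnt : ℕ → ℕ → ℕ) (t : ℕ) : List ℕ := (recd cnt t).2.2

/-- The string of stage `t`. -/
def gstr (cnt : ℕ → ℕ → ℕ) (t : ℕ) : List Bool := (recd cnt t).2.1

/-- Unbounded counters. -/
def Unb (cnt : ℕ → ℕ → ℕ) (e : ℕ) : Prop := ∀ b, ∃ t, b < cnt e t

/-- The properties of the walk. -/
def S_GuessProp : Prop := ∀ cnt : ℕ → ℕ → ℕ, (∀ e, Monotone (cnt e)) →
  (∀ e, ∃ e', e ≤ e' ∧ Unb cnt e') →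
  GS (gpath cnt) ∧
  (∀ v ∈ TP (gpath cnt), ∀ j (b : Bool), (gstr cnt v)[j]? = some b → (b = true ↔ Unb cnt j)) ∧
  ∀ j, ∃ s, ∀ v ∈ TP (gpath cnt), s ≤ v → j < (gstr cnt v).length

/-- The walk is primitive recursive. -/
def S_GuessPrim : Prop := ∀ cnt : ℕ → ℕ → ℕ, Primrec₂ cnt →
  Primrec (gpath cnt) ∧ Primrec (gstr cnt)

end Pool.Agent.Helper367SM.Guess
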