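import Pool.Agent.Helper367_SM.GuessDefs

set_option autoImplicit false

/-!
The walk is primitive recursive.
-/

namespace Pool.Agent.Helper367SM.Guess

namespace PrimAux

theorem mem_path : PrimrecRel fun (r : Rec) (w : ℕ) => w ∈ r.2.2 := by
  have h : PrimrecRel fun (L : List ℕ) (w : ℕ) => ∃ a ∈ L, a = w :=
    PrimrecRel.exists_mem_list Primrec.eq
  have h2 : PrimrecRel fun (r : Rec) (w : ℕ) => ∃ a ∈ r.2.2, a = w :=
    h.comp₂ ((Primrec.snd.comp Primrec.snd).comp₂ Primrec₂.left) Primrec₂.right
  exact h2.of_eq fun r w => by simp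

theorem visits_prim : Primrec₂ visits := by
  have h : Primrec₂ fun (H : List Rec) (w : ℕ) => H.filter fun r => w ∈ r.2.2 :=
    PrimrecRel.listFilter mem_path
  exact (Primrec.list_length.comp₂ h)

theorem isLive_iff (H : List Rec) (w : ℕ) (o : Bool) (u : ℕ) : isLive H w o u = true ↔
    0 < u ∧ (H.getD u ((0, false), [], [])).1 = (w, o) ∧
      (o = true ∨ ∀ r ∈ H.drop u, ¬ (w ∈ r.2.2)) := by
  simp [isLive, and_assoc]

theorem isLive_prim : PrimrecRel fun (u : ℕ) (x : List Rec × ℕ × Bool) =>
    isLive x.1 x.2.1 x.2.2 u = true := by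
  have hu : Primrec fun p : ℕ × (List Rec × ℕ × Bool) => p.1 := Primrec.fst
  have hH : Primrec fun p : ℕ × (List Rec × ℕ × Bool) => p.2.1 := Primrec.fst.comp Primrec.snd
  have hw : Primrec fun p : ℕ × (List Rec × ℕ × Bool) => p.2.2.1 :=
    Primrec.fst.comp (Primrec.snd.comp Primrec.snd)
  have ho : Primrec fun p : ℕ × (List Rec × ℕ × Bool) => p.2.2.2 :=
    Primrec.snd.comp (Primrec.snd.comp Primrec.snd)
  have h1 : PrimrecPred fun p : ℕ × (List Rec × ℕ × Bool) => 0 < p.1 :=
    Primrec.nat_lt.comp (Primrec.const 0) hu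
  have h2 : PrimrecPred fun p : ℕ × (List Rec × ℕ × Bool) =>
      (p.2.1.getD p.1 ((0, false), [], [])).1 = (p.2.2.1, p.2.2.2) :=
    Primrec.eq.comp (Primrec.fst.comp ((Primrec.list_getD _).comp hH hu)) (hw.pair ho)
  have h3 : PrimrecPred fun p : ℕ × (List Rec × ℕ × Bool) => p.2.2.2 = true :=
    Primrec.eq.comp ho (Primrec.const true)
  have h4 : PrimrecRel fun (L : List Rec) (w : ℕ) => ∀ r ∈ L, ¬ (w ∈ r.2.2) :=
    PrimrecRel.forall_mem_list mem_path.not
  have h5 : PrimrecPred fun p : ℕ × (List Rec × ℕ × Bool) =>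
      ∀ r ∈ p.2.1.drop p.1, ¬ (p.2.2.1 ∈ r.2.2) :=
    h4.comp (Primrec.list_drop.comp hu hH) hw
  exact (h1.and (h2.and (h3.or h5))).of_eq fun p => (isLive_iff _ _ _ _).symm

theorem child_prim : Primrec fun x : List Rec × ℕ × Bool => child x.1 x.2.1 x.2.2 := by
  have h1 : Primrec₂ fun (L : List ℕ) (x : List Rec × ℕ × Bool) =>
      L.filter fun u => isLive x.1 x.2.1 x.2.2 u := by
    have := PrimrecRel.listFilter isLive_prim
    refine this.of_eq fun L x => ?_
    congr 1
    funext u
    simp
  have h2 : Primrec fun x : List Rec × ℕ × Bool =>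
      ((List.range x.1.length).filter fun u => isLive x.1 x.2.1 x.2.2 u).head? :=
    Primrec.list_head?.comp (h1.comp (Primrec.list_range.comp (Primrec.list_length.comp
      Primrec.fst)) Primrec.id)
  refine h2.of_eq fun x => ?_
  rw [List.head?_filter, child]

variable {cnt : ℕ → ℕ → ℕ}

theorem outc_prim (hc : Primrec₂ cnt) : Primrec fun x : List Rec × ℕ × ℕ =>
    outc cnt x.1 x.2.1 x.2.2 := by
  have h1 : Primrec fun x : List Rec × ℕ × ℕ => visits x.1 x.2.1 :=
    visits_prim.comp Primrec.fst (Primrec.fst.comp Primrec.snd)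
  have h2 : Primrec fun x : List Rec × ℕ × ℕ => cnt x.2.2 x.1.length :=
    hc.comp (Primrec.snd.comp Primrec.snd) (Primrec.list_length.comp Primrec.fst)
  have h3 : PrimrecPred fun x : List Rec × ℕ × ℕ => visits x.1 x.2.1 < cnt x.2.2 x.1.length :=
    Primrec.nat_lt.comp h1 h2
  exact h3.decide

theorem walkStep_prim (hc : Primrec₂ cnt) : Primrec₂ (walkStep cnt) := by
  have hH : Primrec fun p : List Rec × WState => p.1 := Primrec.fst
  have hw : Primrec fun p : List Rec × WState => p.2.1 := Primrec.fst.comp Primrec.snd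
  have hs : Primrec fun p : List Rec × WState => p.2.2.1 :=
    Primrec.fst.comp (Primrec.snd.comp Primrec.snd)
  have hp : Primrec fun p : List Rec × WState => p.2.2.2.1 :=
    Primrec.fst.comp (Primrec.snd.comp (Primrec.snd.comp Primrec.snd))
  have hb : Primrec fun p : List Rec × WState => p.2.2.2.2 :=
    Primrec.snd.comp (Primrec.snd.comp (Primrec.snd.comp Primrec.snd))
  have ho : Primrec fun p : List Rec × WState => outc cnt p.1 p.2.1 p.2.2.1.length :=
    (outc_prim hc).comp (hH.pair (hw.pair (Primrec.list_length.comp hs)))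
  have hso : Primrec fun p : List Rec × WState =>
      p.2.2.1 ++ [outc cnt p.1 p.2.1 p.2.2.1.length] := Primrec.list_concat.comp hs ho
  have hpo : Primrec fun p : List Rec × WState =>
      if outc cnt p.1 p.2.1 p.2.2.1.length then p.2.2.2.1 ++ [p.2.1] else p.2.2.2.1 :=
    Primrec.ite (Primrec.eq.comp ho (Primrec.const true)) (Primrec.list_concat.comp hp hw) hp
  have hch : Primrec fun p : List Rec × WState =>
      child p.1 p.2.1 (outc cnt p.1 p.2.1 p.2.2.1.length) :=
    child_prim.comp (hH.pair (hw.pair ho))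
  have hcase : Primrec fun p : List Rec × WState =>
      (Option.casesOn (child p.1 p.2.1 (outc cnt p.1 p.2.1 p.2.2.1.length))
        ((p.2.1, p.2.2.1 ++ [outc cnt p.1 p.2.1 p.2.2.1.length],
          (if outc cnt p.1 p.2.1 p.2.2.1.length then p.2.2.2.1 ++ [p.2.1] else p.2.2.2.1),
          true) : WState)
        (fun u => (u, p.2.2.1 ++ [outc cnt p.1 p.2.1 p.2.2.1.length],
          (if outc cnt p.1 p.2.1 p.2.2.1.length then p.2.2.2.1 ++ [p.2.1] else p.2.2.2.1),
          false)) : WState) := by
    refine Primrec.option_casesOn hch (hw.pair (hso.pair (hpo.pair (Primrec.const true)))) ?_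
    exact (Primrec.snd.pair ((hso.comp Primrec.fst).pair ((hpo.comp Primrec.fst).pair
      (Primrec.const false))))
  have hall : Primrec fun p : List Rec × WState => if p.2.2.2.2 then p.2 else
      (Option.casesOn (child p.1 p.2.1 (outc cnt p.1 p.2.1 p.2.2.1.length))
        ((p.2.1, p.2.2.1 ++ [outc cnt p.1 p.2.1 p.2.2.1.length],
          (if outc cnt p.1 p.2.1 p.2.2.1.length then p.2.2.2.1 ++ [p.2.1] else p.2.2.2.1),
          true) : WState)
        (fun u => (u, p.2.2.1 ++ [outc cnt p.1 p.2.1 p.2.2.1.length],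
          (if outc cnt p.1 p.2.1 p.2.2.1.length then p.2.2.2.1 ++ [p.2.1] else p.2.2.2.1),
          false)) : WState) :=
    Primrec.ite (Primrec.eq.comp hb (Primrec.const true)) Primrec.snd hcase
  refine Primrec₂.mk (hall.of_eq fun p => ?_)
  unfold walkStep
  split
  · rfl
  · show _ = match child p.1 p.2.1 (outc cnt p.1 p.2.1 p.2.2.1.length) with
      | some u => _
      | none => _
    cases child p.1 p.2.1 (outc cnt p.1 p.2.1 p.2.2.1.length) <;> rfl

theorem walk_prim (hc : Primrec₂ cnt) : Primrec₂ (walk cnt) := by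
  refine Primrec₂.mk ?_
  have h := Primrec.nat_rec' (α := List Rec × ℕ) (β := WState) (f := fun p => p.2)
    (g := fun _ => (0, [], [], false)) (h := fun p x => walkStep cnt p.1 x.2)
    Primrec.snd (Primrec.const _)
    ((walkStep_prim hc).comp (Primrec.fst.comp Primrec.fst) (Primrec.snd.comp Primrec.snd)).to₂
  exact h

theorem getLastD_prim : Primrec fun l : List Bool => l.getLastD false := by
  have h : Primrec fun l : List Bool => (l.reverse.head?).getD false :=
    Primrec.option_getD.comp (Primrec.list_head?.comp Primrec.list_reverse) (Primrec.const false)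
  refine h.of_eq fun l => ?_
  simp [List.getLastD_eq_getLast?]

theorem newRec_prim (hc : Primrec₂ cnt) : Primrec (newRec cnt) := by
  have hw : Primrec fun H : List Rec => walk cnt H (H.length + 1) :=
    (walk_prim hc).comp Primrec.id (Primrec.succ.comp Primrec.list_length)
  have h1 : Primrec fun H : List Rec => (walk cnt H (H.length + 1)).1 := Primrec.fst.comp hw
  have h2 : Primrec fun H : List Rec => (walk cnt H (H.length + 1)).2.1 :=
    Primrec.fst.comp (Primrec.snd.comp hw)
  have h3 : Primrec fun H : List Rec => (walk cnt H (H.length + 1)).2.2.1 :=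
    Primrec.fst.comp (Primrec.snd.comp (Primrec.snd.comp hw))
  unfold newRec
  exact Primrec.ite (Primrec.eq.comp Primrec.list_length (Primrec.const 0)) (Primrec.const _)
    ((h1.pair (getLastD_prim.comp h2)).pair (h2.pair h3))

theorem hist_prim (hc : Primrec₂ cnt) : Primrec (hist cnt) := by
  unfold hist
  exact Primrec.nat_rec₁ _ ((Primrec.list_concat.comp Primrec.snd
    ((newRec_prim hc).comp Primrec.snd)).to₂)

theorem recd_prim (hc : Primrec₂ cnt) : Primrec (recd cnt) :=
  (newRec_prim hc).comp (hist_prim hc)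

end PrimAux

theorem GuessPrim_proof : S_GuessPrim := fun _ hc =>
  ⟨Primrec.snd.comp (Primrec.snd.comp (PrimAux.recd_prim hc)),
    Primrec.fst.comp (Primrec.snd.comp (PrimAux.recd_prim hc))⟩

end Pool.Agent.Helper367SM.Guess
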