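import Pool.Agent.Helper367_SM.Spec
import Pool.Agent.Helper367_SM.GuessPrim

set_option autoImplicit false

/-!
The guessing system for a `Π⁰₄` predicate, from the properties of the walk.
-/

namespace Pool.Agent.Helper367SM

namespace GuessMainAux

open Guess

theorem ex_lt {β : Type*} [Primcodable β] {R : ℕ → β → Prop} (hR : PrimrecRel R) :
    PrimrecRel fun (n : ℕ) (y : β) => ∃ x < n, R x y := by
  have h : PrimrecRel fun (L : List ℕ) (b : β) => ∃ a ∈ L, R a b := PrimrecRel.exists_mem_list hR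
  have h2 : PrimrecRel fun (n : ℕ) (y : β) => ∃ a ∈ List.range n, R a y :=
    h.comp (Primrec.list_range.comp Primrec.fst) Primrec.snd
  exact h2.of_eq fun n y => by simp

theorem all_lt {β : Type*} [Primcodable β] {R : ℕ → β → Prop} (hR : PrimrecRel R) :
    PrimrecRel fun (n : ℕ) (y : β) => ∀ x < n, R x y := by
  have h : PrimrecRel fun (L : List ℕ) (b : β) => ∀ a ∈ L, R a b := PrimrecRel.forall_mem_list hR
  have h2 : PrimrecRel fun (n : ℕ) (y : β) => ∀ a ∈ List.range n, R a y :=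
    h.comp (Primrec.list_range.comp Primrec.fst) Primrec.snd
  exact h2.of_eq fun n y => by simp

/-- Code of a triple. -/
def cod (n a b : ℕ) : ℕ := 2 * Nat.pair n (Nat.pair a b)

theorem le_cod_a (n a b : ℕ) : a ≤ cod n a b := by
  unfold cod
  have h1 := Nat.left_le_pair a b
  have h2 := Nat.right_le_pair n (Nat.pair a b)
  omega

theorem le_cod_b (n a b : ℕ) : b ≤ cod n a b := by
  unfold cod
  have h1 := Nat.right_le_pair a b
  have h2 := Nat.right_le_pair n (Nat.pair a b)
  omega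

theorem cod_prim {α : Type*} [Primcodable α] {f g h : α → ℕ} (hf : Primrec f) (hg : Primrec g)
    (hh : Primrec h) : Primrec fun x => cod (f x) (g x) (h x) :=
  Primrec.nat_mul.comp (Primrec.const 2) (Primrec₂.natPair.comp hf (Primrec₂.natPair.comp hg hh))

section

variable (Θ : ℕ × ℕ × ℕ × ℕ × ℕ → Prop)

/-- Decoded instance of `Θ`. -/
def TH (e c d : ℕ) : Prop :=
  Θ ((e / 2).unpair.1, (e / 2).unpair.2.unpair.1, (e / 2).unpair.2.unpair.2, c, d)

/-- The condition of the counter. -/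
def CP (e t k : ℕ) : Prop := ∀ c < k, ∃ d < t + 1, TH Θ e c d

open Classical in
/-- The counter. -/
noncomputable def cntΘ (e t : ℕ) : ℕ :=
  if e % 2 = 1 then t else Nat.findGreatest (CP Θ e t) t

variable {Θ}

theorem TH_cod (n a b c d : ℕ) : TH Θ (cod n a b) c d ↔ Θ (n, a, b, c, d) := by
  simp [TH, cod]

theorem CP_mono {e t t' k : ℕ} (h : t ≤ t') (hk : CP Θ e t k) : CP Θ e t' k := by
  intro c hc
  obtain ⟨d, hd, h2⟩ := hk c hc
  exact ⟨d, by omega, h2⟩

theorem cnt_mono (e : ℕ) : Monotone (cntΘ Θ e) := by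
  classical
  intro t t' h
  unfold cntΘ
  split
  · exact h
  · exact Nat.findGreatest_mono (P := CP Θ e t) (Q := CP Θ e t') (fun k hk => CP_mono h hk) h

theorem cnt_odd (e : ℕ) : Unb (cntΘ Θ) (2 * e + 1) := by
  intro b
  refine ⟨b + 1, ?_⟩
  unfold cntΘ
  rw [if_pos (by omega)]
  omega

theorem cnt_even (n a b : ℕ) :
    Unb (cntΘ Θ) (cod n a b) ↔ ∀ c, ∃ d, Θ (n, a, b, c, d) := by
  have hev : ∀ t, cntΘ Θ (cod n a b) t = @Nat.findGreatest (CP Θ (cod n a b) t)
      (Classical.decPred _) t := by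
    intro t
    unfold cntΘ
    rw [if_neg (by unfold cod; omega)]
  constructor
  · intro h c
    obtain ⟨t, ht⟩ := h c
    rw [hev] at ht
    have hne : @Nat.findGreatest (CP Θ (cod n a b) t) (Classical.decPred _) t ≠ 0 := by omega
    have hs := @Nat.findGreatest_of_ne_zero _ (CP Θ (cod n a b) t) (Classical.decPred _) t rfl hne
    obtain ⟨d, -, hd⟩ := hs c ht
    exact ⟨d, (TH_cod n a b c d).1 hd⟩
  · intro h bd
    choose d hd using h
    set t := (Finset.range (bd + 1)).sup d + bd + 1 with ht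
    refine ⟨t, ?_⟩
    rw [hev]
    have hP : CP Θ (cod n a b) t (bd + 1) := by
      intro c hc
      refine ⟨d c, ?_, (TH_cod n a b c (d c)).2 (hd c)⟩
      have : d c ≤ (Finset.range (bd + 1)).sup d := Finset.le_sup (f := d) (by simpa using hc)
      omega
    have := @Nat.le_findGreatest (bd + 1) (CP Θ (cod n a b) t) (Classical.decPred _) t (by omega) hP
    omega

theorem TH_prim (hΘ : PrimrecPred Θ) :
    PrimrecPred fun x : ℕ × ℕ × ℕ => TH Θ x.1 x.2.1 x.2.2 := by
  have he : Primrec fun x : ℕ × ℕ × ℕ => (x.1 / 2) :=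
    Primrec.nat_div.comp Primrec.fst (Primrec.const 2)
  have h1 : Primrec fun x : ℕ × ℕ × ℕ => (x.1 / 2).unpair.1 :=
    Primrec.fst.comp (Primrec.unpair.comp he)
  have h2 : Primrec fun x : ℕ × ℕ × ℕ => (x.1 / 2).unpair.2 :=
    Primrec.snd.comp (Primrec.unpair.comp he)
  have h3 : Primrec fun x : ℕ × ℕ × ℕ => (x.1 / 2).unpair.2.unpair.1 :=
    Primrec.fst.comp (Primrec.unpair.comp h2)
  have h4 : Primrec fun x : ℕ × ℕ × ℕ => (x.1 / 2).unpair.2.unpair.2 :=
    Primrec.snd.comp (Primrec.unpair.comp h2)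
  exact hΘ.comp (h1.pair (h3.pair (h4.pair (Primrec.snd))))

theorem CP_prim (hΘ : PrimrecPred Θ) :
    PrimrecRel fun (x : ℕ × ℕ) (k : ℕ) => CP Θ x.1 x.2 k := by
  -- `∃ d < t + 1, TH e c d`
  have h1 : PrimrecRel fun (m : ℕ) (y : ℕ × ℕ) => ∃ d < m, TH Θ y.1 y.2 d := by
    apply ex_lt
    exact ((TH_prim hΘ).comp (((Primrec.fst.comp Primrec.snd)).pair
      ((Primrec.snd.comp Primrec.snd).pair Primrec.fst)))
  have h2 : PrimrecRel fun (c : ℕ) (y : ℕ × ℕ) => ∃ d < y.2 + 1, TH Θ y.1 c d := by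
    exact h1.comp (Primrec.succ.comp (Primrec.snd.comp Primrec.snd))
      ((Primrec.fst.comp Primrec.snd).pair Primrec.fst)
  have h3 : PrimrecRel fun (k : ℕ) (y : ℕ × ℕ) => ∀ c < k, ∃ d < y.2 + 1, TH Θ y.1 c d :=
    all_lt h2
  exact h3.comp Primrec.snd Primrec.fst

theorem cnt_prim (hΘ : PrimrecPred Θ) : Primrec₂ (cntΘ Θ) := by
  classical
  have h1 : Primrec fun x : ℕ × ℕ => Nat.findGreatest (CP Θ x.1 x.2) x.2 :=
    Primrec.nat_findGreatest Primrec.snd (CP_prim hΘ)
  have h2 : Primrec fun x : ℕ × ℕ => if x.1 % 2 = 1 then x.2 else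
      Nat.findGreatest (CP Θ x.1 x.2) x.2 :=
    Primrec.ite (Primrec.eq.comp (Primrec.nat_mod.comp Primrec.fst (Primrec.const 2))
      (Primrec.const 1)) Primrec.snd h1
  refine Primrec₂.mk (h2.of_eq fun x => ?_)
  unfold cntΘ
  congr

end

/-- The string believes in `(n, a)`. -/
def Bl (s : List Bool) (n a : ℕ) : Prop :=
  ∃ b < s.length, s[cod n a b]? = some true

theorem Bl_iff (s : List Bool) (n a : ℕ) : Bl s n a ↔ ∃ b, s[cod n a b]? = some true := by
  constructor
  · rintro ⟨b, -, h⟩; exact ⟨b, h⟩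
  · rintro ⟨b, h⟩
    refine ⟨b, ?_, h⟩
    obtain ⟨h1, -⟩ := List.getElem?_eq_some_iff.1 h
    have := le_cod_b n a b
    omega

open Classical in
/-- The label. -/
noncomputable def lab (s : List Bool) (n : ℕ) : ℕ :=
  (List.range (s.length + 1)).findIdx fun a => decide (¬ Bl s n a)

theorem not_Bl_len (s : List Bool) (n : ℕ) : ¬ Bl s n s.length := by
  rw [Bl_iff]
  rintro ⟨b, h⟩
  obtain ⟨h1, -⟩ := List.getElem?_eq_some_iff.1 h
  have := le_cod_a n s.length b
  omega

theorem lab_lt (s : List Bool) (n : ℕ) : lab s n < s.length + 1 := by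
  have : lab s n < (List.range (s.length + 1)).length := by
    unfold lab
    rw [List.findIdx_lt_length]
    exact ⟨s.length, by simp, by simpa using not_Bl_len s n⟩
  simpa using this

theorem lab_spec (s : List Bool) (n : ℕ) : ¬ Bl s n (lab s n) := by
  classical
  have hl : (List.range (s.length + 1)).findIdx (fun a => decide (¬ Bl s n a)) <
      (List.range (s.length + 1)).length := by
    have := lab_lt s n
    unfold lab at this
    rw [List.length_range]
    convert this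
  have h := List.findIdx_getElem (xs := List.range (s.length + 1))
    (p := fun a => decide (¬ Bl s n a)) (w := hl)
  rw [List.getElem_range, decide_eq_true_eq] at h
  unfold lab
  convert h

theorem lab_min (s : List Bool) (n a : ℕ) (h : a < lab s n) : Bl s n a := by
  classical
  have hl := lab_lt s n
  have h2 := List.not_of_lt_findIdx (xs := List.range (s.length + 1))
    (p := fun a => decide (¬ Bl s n a)) (i := a) h
  simpa using h2

theorem Bl_prim : PrimrecRel fun (s : List Bool) (x : ℕ × ℕ) => Bl s x.1 x.2 := by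
  have h1 : PrimrecRel fun (b : ℕ) (y : List Bool × ℕ × ℕ) =>
      y.1[cod y.2.1 y.2.2 b]? = some true := by
    refine Primrec.eq.comp (Primrec.list_getElem?.comp (Primrec.fst.comp Primrec.snd)
      (cod_prim (Primrec.fst.comp (Primrec.snd.comp Primrec.snd))
        (Primrec.snd.comp (Primrec.snd.comp Primrec.snd)) Primrec.fst)) (Primrec.const _)
  have h2 : PrimrecRel fun (m : ℕ) (y : List Bool × ℕ × ℕ) =>
      ∃ b < m, y.1[cod y.2.1 y.2.2 b]? = some true := ex_lt h1
  exact h2.comp (Primrec.list_length.comp Primrec.fst) Primrec.id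

theorem lab_prim : Primrec₂ lab := by
  classical
  have h1 : Primrec fun x : List Bool × ℕ => List.range (x.1.length + 1) :=
    Primrec.list_range.comp (Primrec.succ.comp (Primrec.list_length.comp Primrec.fst))
  have h2 : PrimrecRel fun (x : List Bool × ℕ) (a : ℕ) => ¬ Bl x.1 x.2 a :=
    (Bl_prim.comp (Primrec.fst.comp Primrec.fst) ((Primrec.snd.comp Primrec.fst).pair
      Primrec.snd)).not
  have h3 : Primrec₂ fun (x : List Bool × ℕ) (a : ℕ) => decide (¬ Bl x.1 x.2 a) :=
    PrimrecRel.decide h2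
  have h4 := Primrec.list_findIdx h1 h3
  refine Primrec₂.mk (h4.of_eq fun x => ?_)
  unfold lab
  congr

end GuessMainAux

open GuessMainAux Guess in
/-- The guessing system. -/
theorem Guess_proof (hG : Guess.S_GuessProp) : S_Guess := by
  classical
  intro Θ hΘ
  have hc := cnt_prim hΘ
  obtain ⟨hp, hs⟩ := GuessPrim_proof (cntΘ Θ) hc
  obtain ⟨hGS, hval, hlen⟩ := hG (cntΘ Θ) cnt_mono fun e => ⟨2 * e + 1, by omega, cnt_odd e⟩
  set path := gpath (cntΘ Θ) with hpath
  set Lam : ℕ → ℕ → ℕ := fun v n => lab (gstr (cntΘ Θ) v) n with hLam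
  -- a believed instance
  have hB1 : ∀ n a b, (∀ c, ∃ d, Θ (n, a, b, c, d)) →
      ∃ s, ∀ v ∈ TP path, s ≤ v → Bl (gstr (cntΘ Θ) v) n a := by
    intro n a b h
    obtain ⟨s, hs⟩ := hlen (cod n a b)
    refine ⟨s, fun v hv hsv => ?_⟩
    have h1 := hs v hv hsv
    rw [Bl_iff]
    refine ⟨b, ?_⟩
    have h2 : (gstr (cntΘ Θ) v)[cod n a b]? = some ((gstr (cntΘ Θ) v)[cod n a b]) :=
      List.getElem?_eq_getElem h1
    have h3 := (hval v hv (cod n a b) _ h2).2 ((cnt_even n a b).2 h)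
    rw [h2, h3]
  have hB2 : ∀ n a, (∀ b, ¬ ∀ c, ∃ d, Θ (n, a, b, c, d)) →
      ∀ v ∈ TP path, ¬ Bl (gstr (cntΘ Θ) v) n a := by
    intro n a h v hv hB
    rw [Bl_iff] at hB
    obtain ⟨b, hb⟩ := hB
    exact h b ((cnt_even n a b).1 ((hval v hv _ _ hb).1 rfl))
  have hB3 : ∀ n a, (∀ a' < a, ∃ b, ∀ c, ∃ d, Θ (n, a', b, c, d)) →
      ∃ s, ∀ v ∈ TP path, s ≤ v → a ≤ Lam v n := by
    intro n a
    induction a with
    | zero => intro _; exact ⟨0, fun v _ _ => Nat.zero_le _⟩
    | succ a ih =>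
      intro h
      obtain ⟨s, hs⟩ := ih fun a' ha' => h a' (by omega)
      obtain ⟨b, hb⟩ := h a (by omega)
      obtain ⟨s', hs'⟩ := hB1 n a b hb
      refine ⟨max s s', fun v hv hsv => ?_⟩
      have h1 := hs v hv (le_trans (le_max_left _ _) hsv)
      have h2 := hs' v hv (le_trans (le_max_right _ _) hsv)
      have h3 : Lam v n ≠ a := by
        intro h3
        apply lab_spec (gstr (cntΘ Θ) v) n
        have : lab (gstr (cntΘ Θ) v) n = a := h3
        rw [this]
        exact h2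
      omega
  refine ⟨path, Lam, fun n => if h : ∃ a, ∀ b, ¬ ∀ c, ∃ d, Θ (n, a, b, c, d) then Nat.find h
    else 0, hp, lab_prim.comp₂ (hs.comp₂ Primrec₂.left) Primrec₂.right, hGS, ?_, ?_⟩
  · intro n hn i
    have hn' : ∀ a, ∃ b, ∀ c, ∃ d, Θ (n, a, b, c, d) := hn
    obtain ⟨s, hs⟩ := hB3 n (i + 1) fun a' _ => hn' a'
    exact ⟨s, fun v hv hsv => hs v hv hsv⟩
  · intro n hn
    have hn' : ∃ a, ∀ b, ¬ ∀ c, ∃ d, Θ (n, a, b, c, d) := by
      by_contra hcon
      apply hn
      intro a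
      by_contra h2
      exact hcon ⟨a, fun b hb => h2 ⟨b, hb⟩⟩
    simp only [dif_pos hn']
    obtain ⟨s, hs⟩ := hB3 n (Nat.find hn') fun a' ha' => by
      have := Nat.find_min hn' ha'
      by_contra hcon
      exact this fun b hb => hcon ⟨b, hb⟩
    refine ⟨s, fun v hv hsv => ?_⟩
    refine le_antisymm ?_ (hs v hv hsv)
    by_contra hlt
    exact hB2 n _ (Nat.find_spec hn') v hv (lab_min _ n _ (not_le.1 hlt))

end Pool.Agent.Helper367SM
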