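import Pool.Agent.Helper367_SM.InKTools

set_option autoImplicit false

/-!
TASK INK: membership in the class `K` is primitive recursive for finite lists of edges.
-/

namespace Pool.Agent.Helper367SM.InKAux

/-! ### Good patterns -/

/-- The largest index. -/
def rkL (Q : List SEdge) : ℕ := Q.foldr (fun q m => max q.1.rk m) 0

theorem rkL_eq (Q : List SEdge) : rkL Q = Q.toFinset.sup fun q => q.1.rk := by
  induction Q with
  | nil => rfl
  | cons q Q ih =>
    rw [List.toFinset_cons, Finset.sup_insert, ← ih]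
    rfl

theorem rkL_prim {α : Type} [Primcodable α] {f : α → List SEdge} (hf : Primrec f) :
    Primrec fun a => rkL (f a) := by
  unfold rkL
  exact Primrec.list_foldr (h := fun _ (p : SEdge × ℕ) => max p.1.1.rk p.2) hf (Primrec.const 0)
    (Primrec.nat_max.comp (rk_prim (Primrec.fst.comp (Primrec.fst.comp Primrec.snd)))
      (Primrec.snd.comp Primrec.snd)).to₂

/-- `q` lies inside `A ∪ Y`. -/
def Ins (A Y : List ℕ) (q : SEdge) : Prop := ∀ x ∈ q.2, x ∈ A ∨ x ∈ Y

instance (A Y : List ℕ) : DecidablePred (Ins A Y) := fun q => by unfold Ins; infer_instance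

theorem ins_prim {α : Type} [Primcodable α] {A C : α → List ℕ} {q : α → SEdge}
    (hA : Primrec A) (hC : Primrec C) (hQ : Primrec q) :
    PrimrecPred fun a => Ins (A a) (C a) (q a) := by
  have : PrimrecPred fun p : (List ℕ × List ℕ) × SEdge => Ins p.1.1 p.1.2 p.2 := by
    unfold Ins
    exact all_mem (psnd Primrec.snd) (PrimrecPred.or (mem Primrec.snd (pfst (pfst Primrec.fst)))
        (mem Primrec.snd (psnd (pfst Primrec.fst))))
  exact this.comp (Primrec.pair (Primrec.pair hA hC) hQ)

theorem filt_prim {α : Type} [Primcodable α] {A C : α → List ℕ} {Q : α → List SEdge}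
    (hA : Primrec A) (hC : Primrec C) (hQ : Primrec Q) :
    Primrec fun a => ((Q a).filter fun q => Ins (A a) (C a) q).length := by
  have h : Primrec fun p : (List ℕ × List ℕ) × List SEdge =>
      (p.2.filter fun q => Ins p.1.1 p.1.2 q).length := by
    refine plen ?_
    have := filt (α := (List ℕ × List ℕ) × List SEdge) (β := SEdge) (F := fun p => p.2)
      (R := fun p q => Ins p.1.1 p.1.2 q) (Primrec.snd) (ins_prim (pfst (pfst Primrec.fst)) (psnd
          (pfst Primrec.fst)) (Primrec.snd))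
    exact this
  exact h.comp (Primrec.pair (Primrec.pair hA hC) hQ)

/-- Good patterns given by lists. -/
def GoodL (A C : List ℕ) (Q : List SEdge) : Prop :=
  A.Nodup ∧ C.Nodup ∧ Q.Nodup ∧ (∀ x ∈ A, ¬ x ∈ C) ∧ 2 ≤ C.length ∧
  (∀ q ∈ Q, q.2.length = q.1.ar ∧ q.2.Nodup) ∧
  (∀ q ∈ Q, ∀ x ∈ q.2, x ∈ A ∨ x ∈ C) ∧
  (∀ q ∈ Q, ∃ x ∈ q.2, x ∈ C) ∧
  (∀ a ∈ A, ∃ q ∈ Q, a ∈ q.2) ∧
  (∀ q ∈ Q, stag q.1 = 1 → (SSym.P, q.2.take 2) ∈ Q) ∧
  Q.length = C.length ∧
  (∀ Y ∈ allLe C C.length, Y.Nodup → Y ≠ [] → (∃ c ∈ C, ¬ c ∈ Y) →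
    (Q.filter fun q => Ins A Y q).length < Y.length)

theorem goodL_prim {α : Type} [Primcodable α] {A C : α → List ℕ} {Q : α → List SEdge}
    (hA : Primrec A) (hC : Primrec C) (hQ : Primrec Q) :
    PrimrecPred fun a => GoodL (A a) (C a) (Q a) := by
  have : PrimrecPred fun p : (List ℕ × List ℕ) × List SEdge => GoodL p.1.1 p.1.2 p.2 := by
    unfold GoodL
    refine PrimrecPred.and (nodup (pfst Primrec.fst)) (PrimrecPred.and (nodup (psnd Primrec.fst))
        (PrimrecPred.and (nodup Primrec.snd)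
      (PrimrecPred.and (all_mem (pfst Primrec.fst) (PrimrecPred.not (mem Primrec.snd (psnd (pfst
          Primrec.fst))))) (PrimrecPred.and (lep (Primrec.const 2) (plen (psnd Primrec.fst)))
              (PrimrecPred.and (all_mem Primrec.snd (PrimrecPred.and (eqp (plen (psnd Primrec.snd))
                  (sar_prim (pfst Primrec.snd))) (nodup (psnd Primrec.snd))))
      (PrimrecPred.and (all_mem Primrec.snd (all_mem (psnd Primrec.snd) (PrimrecPred.or (mem
          Primrec.snd (pfst (pfst (pfst Primrec.fst)))) (mem Primrec.snd (psnd (pfst (pfst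
              Primrec.fst))))))) (PrimrecPred.and (all_mem Primrec.snd (ex_mem (psnd Primrec.snd)
                  (mem Primrec.snd (psnd (pfst (pfst Primrec.fst)))))) (PrimrecPred.and (all_mem
                      (pfst Primrec.fst) (ex_mem (psnd Primrec.fst) (mem (psnd Primrec.fst) (psnd
                          Primrec.snd))))
      (PrimrecPred.and (all_mem Primrec.snd (imp (eqp (stag_prim (pfst Primrec.snd)) (Primrec.const
          1)) (mem (Primrec.pair (Primrec.const SSym.P) (ptake (Primrec.const 2) (psnd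
              Primrec.snd))) (psnd Primrec.fst)))) (PrimrecPred.and (eqp (plen Primrec.snd) (plen
                  (psnd Primrec.fst))) ?_))))))))))
    refine all_mem ?_ ?_
    · exact allLe_prim (psnd Primrec.fst) (plen (psnd Primrec.fst))
    · refine imp (nodup Primrec.snd) (imp (nep Primrec.snd (Primrec.const [])) (imp (ex_mem (psnd
        (pfst Primrec.fst)) (PrimrecPred.not (mem Primrec.snd (psnd Primrec.fst)))) ?_))
      refine ltp ?_ (plen Primrec.snd)
      exact filt_prim (pfst (pfst Primrec.fst)) (Primrec.snd) (psnd Primrec.fst)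
  exact this.comp (Primrec.pair (Primrec.pair hA hC) hQ)

theorem goodL_iff {A C : List ℕ} {Q : List SEdge} (hA : A.Nodup) (hC : C.Nodup) (hQ : Q.Nodup) :
    GoodL A C Q ↔ Pat.Good ⟨A.toFinset, C.toFinset, Q.toFinset⟩ := by
  have cC : C.toFinset.card = C.length := List.toFinset_card_of_nodup hC
  have cQ : Q.toFinset.card = Q.length := List.toFinset_card_of_nodup hQ
  have filtEq : ∀ Y : List ℕ, ∀ Y' : Finset ℕ, (∀ x, x ∈ Y ↔ x ∈ Y') →
      (Q.toFinset.filter (fun q : SEdge => ∀ x ∈ q.2, x ∈ A.toFinset ∪ Y')).card =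
        (Q.filter fun q => Ins A Y q).length := by
    intro Y Y' hY
    rw [← List.toFinset_card_of_nodup (hQ.filter _)]
    congr 1
    ext q
    simp [Ins, hY]
  constructor
  · rintro ⟨-, -, -, h1, h2, h3, h4, h5, h6, h7, h8, h9⟩
    refine ⟨?_, ?_, ?_, ?_, ?_, ?_, ?_, ?_, ?_⟩
    · rw [Finset.disjoint_left]
      intro x hx hx'
      exact h1 x (by simpa using hx) (by simpa using hx')
    · show 2 ≤ C.toFinset.card
      rw [cC]; exact h2
    · intro q hq
      exact h3 q (by simpa using hq)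
    · intro q hq x hx
      have := h4 q (by simpa using hq) x hx
      simpa using this
    · intro q hq
      have := h5 q (by simpa using hq)
      simpa using this
    · intro a ha
      have := h6 a (by simpa using ha)
      simpa using this
    · intro n l hq
      have := h7 (SSym.K n, l) (by simpa using hq) rfl
      simpa using this
    · show Q.toFinset.card = C.toFinset.card
      rw [cC, cQ]; exact h8
    · intro Y hY hne
      have hYC : ∀ x ∈ Y.toList, x ∈ C := by
        intro x hx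
        have := hY.1 (Finset.mem_toList.1 hx)
        simpa using this
      have hle : Y.toList.length ≤ C.length := by
        rw [Finset.length_toList, ← cC]
        exact Finset.card_le_card hY.1
      have := h9 Y.toList ((mem_allLe _ _ _).2 ⟨hle, hYC⟩) (Finset.nodup_toList _) (by
        intro h
        rw [Finset.toList_eq_nil] at h
        subst h
        simp at hne) (by
        obtain ⟨c, hc, hc'⟩ := Finset.exists_of_ssubset hY
        exact ⟨c, by simpa using hc, by simpa using hc'⟩)
      rw [Finset.length_toList, ← filtEq Y.toList Y (by simp)] at this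
      exact this
  · intro h
    refine ⟨hA, hC, hQ, ?_, ?_, ?_, ?_, ?_, ?_, ?_, ?_, ?_⟩
    · intro x hx hx'
      exact Finset.disjoint_left.1 h.disj (by simpa using hx) (by simpa using hx')
    · rw [← cC]; exact h.two
    · intro q hq
      exact h.wf q (by simpa using hq)
    · intro q hq x hx
      have := h.inside q (by simpa using hq) x hx
      simpa using this
    · intro q hq
      have := h.meets q (by simpa using hq)
      simpa using this
    · intro a ha
      have := h.cover a (by simpa using ha)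
      simpa using this
    · rintro ⟨s, l⟩ hq ht
      cases s <;> simp [stag, ssymCase] at ht
      have := h.kp _ l (by simpa using hq)
      simpa using this
    · rw [← cC, ← cQ]; exact h.card
    · intro Y hY hYn hne hc
      rw [mem_allLe] at hY
      have := h.min Y.toFinset (by
        rw [Finset.ssubset_iff_of_subset]
        · obtain ⟨c, hc, hc'⟩ := hc
          exact ⟨c, by simpa using hc, by simpa using hc'⟩
        · intro x hx
          have := hY.2 x (by simpa using hx)
          simpa using this) (by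
        obtain ⟨y, hy⟩ := List.exists_mem_of_ne_nil Y hne
        exact ⟨y, by simpa using hy⟩)
      rw [List.toFinset_card_of_nodup hYn, filtEq Y Y.toFinset (by simp)] at this
      exact this

/-! ### Matching and families -/

/-- The function with the names `N` and the values `g`. -/
def ev (N g : List ℕ) (x : ℕ) : ℕ := g.getD (N.idxOf x) 0

theorem ev_prim {α : Type} [Primcodable α] {N g : α → List ℕ} {x : α → ℕ} (hN : Primrec N)
    (hg : Primrec g) (hx : Primrec x) : Primrec fun a => ev (N a) (g a) (x a) := by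
  unfold ev
  exact pgetD 0 hg (pidx hx hN)

theorem map_ev_prim {α : Type} [Primcodable α] {N g l : α → List ℕ} (hN : Primrec N)
    (hg : Primrec g) (hl : Primrec l) : Primrec fun a => (l a).map (ev (N a) (g a)) := by
  refine pmap hl ?_
  exact ev_prim (hN.comp Primrec.fst) (hg.comp Primrec.fst) Primrec.snd

theorem ev_map (N : List ℕ) (φ : ℕ → ℕ) (x : ℕ) (hx : x ∈ N) : ev N (N.map φ) x = φ x := by
  unfold ev
  have h : N.idxOf x < N.length := List.idxOf_lt_length_iff.2 hx
  rw [List.getD_eq_getElem?_getD, List.getElem?_map, List.getElem?_eq_getElem h]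
  simp

/-- Matching in terms of lists. -/
def MatL (Lam : ℕ → ℕ → ℕ) (X : List Edge) (Q : List SEdge) (N g : List ℕ) (q : SEdge) : Prop :=
  (stag q.1 = 0 ∧ (Sym.E (m1 q.1) (m2 q.1), q.2.map (ev N g)) ∈ X ∧
    ((SSym.P, q.2.take 2) ∈ Q → ∀ e ∈ X, tag e.1 = 3 → e.2 = (q.2.take 2).map (ev N g) →
      Lam (n1 e.1) (m1 q.1) ≠ m2 q.1)) ∨
  (stag q.1 = 1 ∧ ∃ e ∈ X, tag e.1 = 3 ∧ e.2 = (q.2.take 2).map (ev N g) ∧
    (Sym.E (m1 q.1) (Lam (n1 e.1) (m1 q.1)), q.2.map (ev N g)) ∈ X) ∨
  (stag q.1 = 2 ∧ (Sym.R (m1 q.1), q.2.map (ev N g)) ∈ X) ∨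
  (stag q.1 = 3 ∧ (Sym.S (m1 q.1), q.2.map (ev N g)) ∈ X) ∨
  (stag q.1 = 4 ∧ ∃ e ∈ X, tag e.1 = 3 ∧ e.2 = q.2.map (ev N g))

theorem matL_iff (Lam : ℕ → ℕ → ℕ) (X : List Edge) (Q : List SEdge) (N g : List ℕ) (q : SEdge) :
    MatL Lam X Q N g q ↔ Matched Lam {e | e ∈ X} Q.toFinset (ev N g) q := by
  obtain ⟨s, l⟩ := q
  have hP : ∀ (R : Edge → Prop), (∀ e ∈ X, tag e.1 = 3 → R e) ↔ ∀ v l, (Sym.P v, l) ∈ X → R (Sym.P
      v, l) := by
    intro R
    constructor
    · intro h v l hl
      exact h _ hl rfl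
    · rintro h ⟨s, l⟩ he ht
      cases s <;> simp [tag, symCase] at ht
      exact h _ _ he
  have hP' : ∀ (R : Edge → Prop), (∃ e ∈ X, tag e.1 = 3 ∧ R e) ↔ ∃ v l, (Sym.P v, l) ∈ X ∧ R (Sym.P
      v, l) := by
    intro R
    constructor
    · rintro ⟨⟨s, l⟩, he, ht, hR⟩
      cases s <;> simp [tag, symCase] at ht
      exact ⟨_, _, he, hR⟩
    · rintro ⟨v, l, he, hR⟩
      exact ⟨_, he, rfl, hR⟩
  cases s with
  | E n i =>
    simp only [MatL, Matched, stag, ssymCase, m1, m2, hP, n1, symCase, List.mem_toFinset,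
      Set.mem_ofPred_eq]
    simp
    intro _
    constructor
    · intro h a v hv
      exact h a v _ hv rfl
    · intro h a v l' hv hl'
      subst hl'
      exact h a v hv
  | K n =>
    simp only [MatL, Matched, stag, ssymCase, m1, m2, hP', n1, symCase, Set.mem_ofPred_eq]
    simp
  | R n =>
    simp only [MatL, Matched, stag, ssymCase, m1, m2, hP', n1, symCase, Set.mem_ofPred_eq]
    simp
  | S n =>
    simp only [MatL, Matched, stag, ssymCase, m1, m2, hP', n1, symCase, Set.mem_ofPred_eq]
    simp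
  | P =>
    simp only [MatL, Matched, stag, ssymCase, m1, m2, hP', n1, symCase, Set.mem_ofPred_eq]
    simp

theorem matL_prim {Lam : ℕ → ℕ → ℕ} (hL : Primrec₂ Lam) {α : Type} [Primcodable α]
    {X : α → List Edge} {Q : α → List SEdge} {N g : α → List ℕ} {q : α → SEdge} (hX : Primrec X)
    (hQ : Primrec Q) (hN : Primrec N) (hg : Primrec g) (hq : Primrec q) :
    PrimrecPred fun a => MatL Lam (X a) (Q a) (N a) (g a) (q a) := by
  have : PrimrecPred fun p : (List Edge × List SEdge) × ((List ℕ × List ℕ) × SEdge) =>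
      MatL Lam p.1.1 p.1.2 p.2.1.1 p.2.1.2 p.2.2 := by
    unfold MatL
    refine PrimrecPred.or (PrimrecPred.and (eqp (stag_prim (pfst (psnd Primrec.snd)))
        (Primrec.const 0)) (PrimrecPred.and ?_ (imp (mem (Primrec.pair (Primrec.const SSym.P)
            (ptake (Primrec.const 2) (psnd (psnd Primrec.snd)))) (psnd Primrec.fst))
      (all_mem (pfst Primrec.fst) (imp (eqp (tag_prim (pfst Primrec.snd)) (Primrec.const 3)) (imp
          ?_ ?_)))))) (PrimrecPred.or (PrimrecPred.and (eqp (stag_prim (pfst (psnd Primrec.snd)))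
              (Primrec.const 1))
      (ex_mem (pfst Primrec.fst) (PrimrecPred.and (eqp (tag_prim (pfst Primrec.snd)) (Primrec.const
          3)) (PrimrecPred.and ?_ ?_)))) (PrimrecPred.or
      (PrimrecPred.and (eqp (stag_prim (pfst (psnd Primrec.snd))) (Primrec.const 2)) ?_)
          (PrimrecPred.or (PrimrecPred.and (eqp (stag_prim (pfst (psnd Primrec.snd)))
              (Primrec.const 3)) ?_)
      (PrimrecPred.and (eqp (stag_prim (pfst (psnd Primrec.snd))) (Primrec.const 4)) (ex_mem (pfst
          Primrec.fst) (PrimrecPred.and (eqp (tag_prim (pfst Primrec.snd)) (Primrec.const 3))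
              ?_))))))
    · exact mem (Primrec.pair (E_prim (m1_prim (pfst (psnd Primrec.snd))) (m2_prim (pfst (psnd
        Primrec.snd)))) (map_ev_prim (pfst (pfst Primrec.snd)) (psnd (pfst Primrec.snd)) (psnd
            (psnd Primrec.snd)))) (pfst Primrec.fst)
    · exact eqp (psnd Primrec.snd) (map_ev_prim (pfst (pfst (psnd Primrec.fst))) (psnd (pfst (psnd
        Primrec.fst))) (ptake (Primrec.const 2) (psnd (psnd (psnd Primrec.fst)))))
    · exact nep (hL.comp (n1_prim (pfst Primrec.snd)) (m1_prim (pfst (psnd (psnd Primrec.fst)))))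
        (m2_prim (pfst (psnd (psnd Primrec.fst))))
    · exact eqp (psnd Primrec.snd) (map_ev_prim (pfst (pfst (psnd Primrec.fst))) (psnd (pfst (psnd
        Primrec.fst))) (ptake (Primrec.const 2) (psnd (psnd (psnd Primrec.fst)))))
    · exact mem (Primrec.pair (E_prim (m1_prim (pfst (psnd (psnd Primrec.fst)))) (hL.comp (n1_prim
        (pfst Primrec.snd)) (m1_prim (pfst (psnd (psnd Primrec.fst))))))
        (map_ev_prim (pfst (pfst (psnd Primrec.fst))) (psnd (pfst (psnd Primrec.fst))) (psnd (psnd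
            (psnd Primrec.fst))))) (pfst (pfst Primrec.fst))
    · exact mem (Primrec.pair (R_prim (m1_prim (pfst (psnd Primrec.snd)))) (map_ev_prim (pfst (pfst
        Primrec.snd)) (psnd (pfst Primrec.snd)) (psnd (psnd Primrec.snd)))) (pfst Primrec.fst)
    · exact mem (Primrec.pair (S_prim (m1_prim (pfst (psnd Primrec.snd)))) (map_ev_prim (pfst (pfst
        Primrec.snd)) (psnd (pfst Primrec.snd)) (psnd (psnd Primrec.snd)))) (pfst Primrec.fst)
    · exact eqp (psnd Primrec.snd) (map_ev_prim (pfst (pfst (psnd Primrec.fst))) (psnd (pfst (psnd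
        Primrec.fst))) (psnd (psnd (psnd Primrec.fst))))
  exact this.comp (Primrec.pair (Primrec.pair hX hQ) (Primrec.pair (Primrec.pair hN hg) hq))

/-- Families in terms of lists. -/
def FamL (Lam : ℕ → ℕ → ℕ) (X : List Edge) (A C : List ℕ) (Q : List SEdge) (F : List (List ℕ)) :
    Prop :=
  (∀ g ∈ F, ∀ x ∈ A ++ C, ∀ y ∈ A ++ C, ev (A ++ C) g x = ev (A ++ C) g y → x = y) ∧
  (∀ g ∈ F, ∀ g' ∈ F, ∀ a ∈ A, ev (A ++ C) g a = ev (A ++ C) g' a) ∧
  (∀ i < F.length, ∀ j < F.length, i ≠ j → ∀ x ∈ C, ∀ y ∈ C,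
    ev (A ++ C) (F.getD i []) x ≠ ev (A ++ C) (F.getD j []) y) ∧
  (∀ g ∈ F, ∀ q ∈ Q, MatL Lam X Q (A ++ C) g q)

theorem famL_prim {Lam : ℕ → ℕ → ℕ} (hL : Primrec₂ Lam) {α : Type} [Primcodable α]
    {X : α → List Edge} {A C : α → List ℕ} {Q : α → List SEdge} {F : α → List (List ℕ)}
    (hX : Primrec X) (hA : Primrec A) (hC : Primrec C) (hQ : Primrec Q) (hF : Primrec F) :
    PrimrecPred fun a => FamL Lam (X a) (A a) (C a) (Q a) (F a) := by
  have : PrimrecPred fun p : (List Edge × List SEdge) × ((List ℕ × List ℕ) × List (List ℕ)) =>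
      FamL Lam p.1.1 p.2.1.1 p.2.1.2 p.1.2 p.2.2 := by
    unfold FamL
    refine PrimrecPred.and ?_ (PrimrecPred.and ?_ (PrimrecPred.and ?_ ?_))
    · refine all_mem (psnd Primrec.snd) (all_mem (papp (pfst (pfst (psnd Primrec.fst))) (psnd (pfst
        (psnd Primrec.fst)))) (all_mem (papp (pfst (pfst (psnd (pfst Primrec.fst)))) (psnd (pfst
            (psnd (pfst Primrec.fst))))) (imp ?_ (eqp (psnd Primrec.fst) Primrec.snd))))
      exact eqp (ev_prim (papp (pfst (pfst (psnd (pfst (pfst Primrec.fst))))) (psnd (pfst (psnd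
          (pfst (pfst Primrec.fst)))))) (psnd (pfst Primrec.fst)) (psnd Primrec.fst)) (ev_prim
              (papp (pfst (pfst (psnd (pfst (pfst Primrec.fst))))) (psnd (pfst (psnd (pfst (pfst
                  Primrec.fst)))))) (psnd (pfst Primrec.fst)) (Primrec.snd))
    · refine all_mem (psnd Primrec.snd) (all_mem (psnd (psnd Primrec.fst)) (all_mem (pfst (pfst
        (psnd (pfst Primrec.fst)))) ?_))
      exact eqp (ev_prim (papp (pfst (pfst (psnd (pfst (pfst Primrec.fst))))) (psnd (pfst (psnd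
          (pfst (pfst Primrec.fst)))))) (psnd (pfst Primrec.fst)) (Primrec.snd)) (ev_prim (papp
              (pfst (pfst (psnd (pfst (pfst Primrec.fst))))) (psnd (pfst (psnd (pfst (pfst
                  Primrec.fst)))))) (psnd Primrec.fst) (Primrec.snd))
    · refine all_lt (plen (psnd Primrec.snd)) (all_lt (plen (psnd (psnd Primrec.fst))) (imp (nep
        (psnd Primrec.fst) Primrec.snd) (all_mem (psnd (pfst (psnd (pfst Primrec.fst)))) (all_mem
            (psnd (pfst (psnd (pfst (pfst Primrec.fst))))) ?_))))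
      exact nep (ev_prim (papp (pfst (pfst (psnd (pfst (pfst (pfst Primrec.fst)))))) (psnd (pfst
          (psnd (pfst (pfst (pfst Primrec.fst))))))) (pgetD [] (psnd (psnd (pfst (pfst (pfst
              Primrec.fst))))) (psnd (pfst (pfst Primrec.fst)))) (psnd Primrec.fst)) (ev_prim (papp
                  (pfst (pfst (psnd (pfst (pfst (pfst Primrec.fst)))))) (psnd (pfst (psnd (pfst
                      (pfst (pfst Primrec.fst))))))) (pgetD [] (psnd (psnd (pfst (pfst (pfst
                          Primrec.fst))))) (psnd (pfst Primrec.fst))) (Primrec.snd))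
    · refine all_mem (psnd Primrec.snd) (all_mem (psnd (pfst Primrec.fst)) ?_)
      exact matL_prim hL (pfst (pfst (pfst Primrec.fst))) (psnd (pfst (pfst Primrec.fst))) (papp
          (pfst (pfst (psnd (pfst Primrec.fst)))) (psnd (pfst (psnd (pfst Primrec.fst))))) (psnd
              Primrec.fst) (Primrec.snd)
  exact this.comp (Primrec.pair (Primrec.pair hX hQ) (Primrec.pair (Primrec.pair hA hC) hF))

theorem famL_fam {Lam : ℕ → ℕ → ℕ} {X : List Edge} {A C : List ℕ} {Q : List SEdge}
    {F : List (List ℕ)} (h : FamL Lam X A C Q F) :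
    Fam Lam {e | e ∈ X} ⟨A.toFinset, C.toFinset, Q.toFinset⟩ (Finset.range F.length)
      (fun j => ev (A ++ C) (F.getD j [])) := by
  obtain ⟨h1, h2, h3, h4⟩ := h
  have hm : ∀ j ∈ Finset.range F.length, F.getD j [] ∈ F := by
    intro j hj
    rw [Finset.mem_range] at hj
    rw [List.getD_eq_getElem _ _ hj]
    exact List.getElem_mem _
  refine ⟨?_, ?_, ?_, ?_⟩
  · intro j hj x hx y hy hxy
    refine h1 _ (hm j hj) x ?_ y ?_ hxy
    · simpa using hx
    · simpa using hy
  · intro i hi j hj a ha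
    exact h2 _ (hm i hi) _ (hm j hj) a (by simpa using ha)
  · intro i hi j hj hij x hx y hy
    exact h3 i (by simpa using hi) j (by simpa using hj) hij x (by simpa using hx) y (by simpa
        using hy)
  · intro j hj q hq
    exact (matL_iff _ _ _ _ _ _).1 (h4 _ (hm j hj) q (by simpa using hq))

/-! ### Renaming -/

/-- Renaming of a symbolic edge. -/
def rn (φ : ℕ → ℕ) (q : SEdge) : SEdge := (q.1, q.2.map φ)

/-- Renaming of a pattern. -/
def Pat.rn (φ : ℕ → ℕ) (π : Pat) : Pat := ⟨π.A.image φ, π.C.image φ, π.Q.image (InKAux.rn φ)⟩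

theorem map_map_cancel {φ ψ : ℕ → ℕ} {S : Finset ℕ} (hψ : ∀ x ∈ S, ψ (φ x) = x) (l : List ℕ)
    (hl : ∀ x ∈ l, x ∈ S) : (l.map φ).map ψ = l := by
  rw [List.map_map]
  conv_rhs => rw [← List.map_id l]
  apply List.map_congr_left
  intro x hx
  exact hψ x (hl x hx)

theorem rn_good {π : Pat} (h : π.Good) {φ ψ : ℕ → ℕ} (hψ : ∀ x ∈ π.A ∪ π.C, ψ (φ x) = x) :
    (Pat.rn φ π).Good := by
  have hinj : Set.InjOn φ (π.A ∪ π.C : Finset ℕ) := by
    intro x hx y hy hxy
    rw [← hψ x hx, ← hψ y hy, hxy]
  have hinjC : Set.InjOn φ (π.C : Set ℕ) := fun x hx y hy hxy =>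
    hinj (Finset.mem_coe.2 (Finset.mem_union_right _ hx)) (Finset.mem_coe.2 (Finset.mem_union_right
        _ hy)) hxy
  have hinjQ : Set.InjOn (InKAux.rn φ) (π.Q : Set SEdge) := by
    rintro ⟨s, l⟩ hq ⟨s', l'⟩ hq' heq
    simp only [InKAux.rn, Prod.mk.injEq] at heq
    have h1 := map_map_cancel hψ l (h.inside (s, l) hq)
    have h2 := map_map_cancel hψ l' (h.inside (_, l') hq')
    rw [← h1, ← h2, heq.1, heq.2]
  refine ⟨?_, ?_, ?_, ?_, ?_, ?_, ?_, ?_, ?_⟩
  · show Disjoint (π.A.image φ) (π.C.image φ)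
    rw [Finset.disjoint_left]
    intro x hx hx'
    obtain ⟨a, ha, rfl⟩ := Finset.mem_image.1 hx
    obtain ⟨c, hc, hac⟩ := Finset.mem_image.1 hx'
    have : c = a := hinj (Finset.mem_coe.2 (Finset.mem_union_right _ hc))
      (Finset.mem_coe.2 (Finset.mem_union_left _ ha)) hac
    subst this
    exact Finset.disjoint_left.1 h.disj ha hc
  · show 2 ≤ (π.C.image φ).card
    rw [Finset.card_image_of_injOn hinjC]
    exact h.two
  · intro q hq1
    obtain ⟨⟨s, l⟩, hq, rfl⟩ := Finset.mem_image.1 hq1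
    have hw := h.wf _ hq
    refine ⟨?_, ?_⟩
    · show (l.map φ).length = s.ar
      rw [List.length_map]; exact hw.1
    · show (l.map φ).Nodup
      apply List.Nodup.map_on _ hw.2
      intro x hx y hy hxy
      exact hinj (Finset.mem_coe.2 (h.inside (s, l) hq x hx)) (Finset.mem_coe.2 (h.inside (s, l) hq
          y hy)) hxy
  · intro q hq1 x hx
    obtain ⟨⟨s, l⟩, hq, rfl⟩ := Finset.mem_image.1 hq1
    obtain ⟨y, hy, rfl⟩ := List.mem_map.1 (show x ∈ l.map φ from hx)
    show φ y ∈ π.A.image φ ∪ π.C.image φ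
    rw [← Finset.image_union]
    exact Finset.mem_image_of_mem φ (h.inside (s, l) hq y hy)
  · intro q hq1
    obtain ⟨⟨s, l⟩, hq, rfl⟩ := Finset.mem_image.1 hq1
    obtain ⟨x, hx, hxC⟩ := h.meets _ hq
    exact ⟨φ x, List.mem_map_of_mem hx, Finset.mem_image_of_mem φ hxC⟩
  · intro a ha1
    obtain ⟨a, ha, rfl⟩ := Finset.mem_image.1 ha1
    obtain ⟨q, hq, haq⟩ := h.cover a ha
    exact ⟨InKAux.rn φ q, Finset.mem_image_of_mem _ hq, List.mem_map_of_mem haq⟩
  · intro n l hl
    obtain ⟨⟨s, l'⟩, hq, heq⟩ := Finset.mem_image.1 hl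
    simp only [InKAux.rn, Prod.mk.injEq] at heq
    obtain ⟨rfl, rfl⟩ := heq
    have := h.kp _ _ hq
    refine Finset.mem_image.2 ⟨_, this, ?_⟩
    simp [InKAux.rn, List.map_take]
  · show (π.Q.image (InKAux.rn φ)).card = (π.C.image φ).card
    rw [Finset.card_image_of_injOn hinjC, Finset.card_image_of_injOn hinjQ]
    exact h.card
  · intro Y' hY' hne
    have hY'C : ∀ y ∈ Y', ∃ c ∈ π.C, φ c = y := fun y hy => Finset.mem_image.1 (hY'.1 hy)
    set Y := π.C.filter (fun x => φ x ∈ Y') with hY
    have hYY' : Y.image φ = Y' := by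
      ext y
      rw [Finset.mem_image]
      constructor
      · rintro ⟨x, hx, rfl⟩
        exact (Finset.mem_filter.1 hx).2
      · intro hy
        obtain ⟨c, hc, rfl⟩ := hY'C y hy
        exact ⟨c, Finset.mem_filter.2 ⟨hc, hy⟩, rfl⟩
    have hYC : Y ⊂ π.C := by
      rw [Finset.ssubset_iff_of_subset (Finset.filter_subset _ _)]
      obtain ⟨y, hy, hy'⟩ := Finset.exists_of_ssubset hY'
      obtain ⟨c, hc, rfl⟩ := Finset.mem_image.1 hy
      exact ⟨c, hc, fun hc' => hy' (Finset.mem_filter.1 hc').2⟩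
    have hYne : Y.Nonempty := by
      rw [← hYY'] at hne
      exact Finset.image_nonempty.1 hne
    have hm := h.min Y hYC hYne
    have hcard : Y'.card = Y.card := by
      rw [← hYY', Finset.card_image_of_injOn]
      exact fun x hx y hy hxy => hinjC (hYC.1 hx) (hYC.1 hy) hxy
    rw [hcard]
    refine lt_of_le_of_lt ?_ hm
    refine le_trans (Finset.card_le_card (t := (π.Q.filter (fun q => ∀ x ∈ q.2, x ∈ π.A ∪ Y)).image
      (InKAux.rn φ)) ?_) Finset.card_image_le
    intro q hq
    rw [Finset.mem_filter] at hq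
    obtain ⟨hq1, hins⟩ := hq
    obtain ⟨⟨s, l⟩, hq, rfl⟩ := Finset.mem_image.1 hq1
    refine Finset.mem_image_of_mem _ (Finset.mem_filter.2 ⟨hq, ?_⟩)
    intro x hx
    have h1 := hins (φ x) (List.mem_map_of_mem hx)
    rw [Finset.mem_union] at h1 ⊢
    rcases h1 with h1 | h1
    · left
      obtain ⟨a, ha, hax⟩ := Finset.mem_image.1 (show φ x ∈ π.A.image φ from h1)
      have : a = x := hinj (Finset.mem_coe.2 (Finset.mem_union_left _ ha))
        (Finset.mem_coe.2 (h.inside (s, l) hq x hx)) hax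
      rw [← this]; exact ha
    · right
      rw [← hYY'] at h1
      obtain ⟨a, ha, hax⟩ := Finset.mem_image.1 h1
      have : a = x := hinj (Finset.mem_coe.2 (Finset.mem_union_right _ (hYC.1 ha)))
        (Finset.mem_coe.2 (h.inside (s, l) hq x hx)) hax
      rw [← this]; exact ha

theorem matched_map {Lam : ℕ → ℕ → ℕ} {X : Set Edge} {Q Q' : Finset SEdge} {f f' : ℕ → ℕ} {s : SSym}
    {l l' : List ℕ} (hl : l.map f = l'.map f') (hQ : (SSym.P, l'.take 2) ∈ Q' → (SSym.P, l.take 2)
        ∈ Q)
    (h : Matched Lam X Q f (s, l)) : Matched Lam X Q' f' (s, l') := by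
  have h2 : (l.take 2).map f = (l'.take 2).map f' := by
    rw [List.map_take, List.map_take, hl]
  cases s with
  | E n i =>
    simp only [Matched] at h ⊢
    rw [← hl, ← h2]
    exact ⟨h.1, fun hP => h.2 (hQ hP)⟩
  | K n =>
    simp only [Matched] at h ⊢
    rw [← hl, ← h2]
    exact h
  | R n =>
    simp only [Matched] at h ⊢
    rw [← hl]
    exact h
  | S n =>
    simp only [Matched] at h ⊢
    rw [← hl]
    exact h
  | P =>
    simp only [Matched] at h ⊢
    rw [← hl]
    exact h

theorem rn_fam {Lam : ℕ → ℕ → ℕ} {X : Set Edge} {π : Pat} (h : π.Good) {φ ψ : ℕ → ℕ}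
    (hψ : ∀ x ∈ π.A ∪ π.C, ψ (φ x) = x) {J : Finset ℕ} {f : ℕ → ℕ → ℕ} (hF : Fam Lam X π J f) :
    Fam Lam X (Pat.rn φ π) J (fun j x => f j (ψ x)) := by
  refine ⟨?_, ?_, ?_, ?_⟩
  · intro j hj x hx y hy hxy
    have hx' : x ∈ (π.A ∪ π.C).image φ := by
      rw [Finset.image_union]; exact Finset.mem_coe.1 hx
    have hy' : y ∈ (π.A ∪ π.C).image φ := by
      rw [Finset.image_union]; exact Finset.mem_coe.1 hy
    obtain ⟨a, ha, rfl⟩ := Finset.mem_image.1 hx'
    obtain ⟨b, hb, rfl⟩ := Finset.mem_image.1 hy'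
    simp only at hxy
    rw [hψ a ha, hψ b hb] at hxy
    rw [hF.inj j hj (Finset.mem_coe.2 ha) (Finset.mem_coe.2 hb) hxy]
  · intro i hi j hj a ha1
    obtain ⟨a, ha, rfl⟩ := Finset.mem_image.1 (show a ∈ π.A.image φ from ha1)
    show f i (ψ (φ a)) = f j (ψ (φ a))
    rw [hψ a (Finset.mem_union_left _ ha)]
    exact hF.base i hi j hj a ha
  · intro i hi j hj hij x hx1 y hy1
    obtain ⟨x, hx, rfl⟩ := Finset.mem_image.1 (show x ∈ π.C.image φ from hx1)
    obtain ⟨y, hy, rfl⟩ := Finset.mem_image.1 (show y ∈ π.C.image φ from hy1)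
    show f i (ψ (φ x)) ≠ f j (ψ (φ y))
    rw [hψ x (Finset.mem_union_right _ hx), hψ y (Finset.mem_union_right _ hy)]
    exact hF.disj i hi j hj hij x hx y hy
  · intro j hj q hq1
    obtain ⟨⟨s, l⟩, hq, rfl⟩ := Finset.mem_image.1 (show q ∈ π.Q.image (InKAux.rn φ) from hq1)
    refine matched_map (l := l) (f := f j) ?_ ?_ (hF.mat j hj _ hq)
    · show l.map (f j) = (l.map φ).map (fun x => f j (ψ x))
      rw [List.map_map]
      apply List.map_congr_left
      intro x hx
      show f j x = f j (ψ (φ x))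
      rw [hψ x (h.inside (s, l) hq x hx)]
    · intro hP
      obtain ⟨⟨s', l'⟩, hq', heq⟩ := Finset.mem_image.1 (show _ ∈ π.Q.image (InKAux.rn φ) from hP)
      simp only [InKAux.rn, Prod.mk.injEq] at heq
      obtain ⟨rfl, heq⟩ := heq
      have h1 := map_map_cancel hψ l' (h.inside (_, l') hq')
      have h2 := map_map_cancel hψ l (h.inside (s, l) hq)
      rw [heq, List.map_take, h2] at h1
      rw [h1]
      exact hq'

theorem rn_mu (φ : ℕ → ℕ) (π : Pat) : (Pat.rn φ π).mu ≤ π.mu := by
  unfold Pat.mu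
  have h1 : (Pat.rn φ π).A.card ≤ π.A.card := Finset.card_image_le
  have h2 : (Pat.rn φ π).C.card ≤ π.C.card := Finset.card_image_le
  have h3 : ((Pat.rn φ π).Q.sup fun q => q.1.rk) ≤ π.Q.sup fun q => q.1.rk := by
    apply Finset.sup_le
    intro q hq1
    obtain ⟨q, hq, rfl⟩ := Finset.mem_image.1 (show q ∈ π.Q.image (InKAux.rn φ) from hq1)
    show q.1.rk ≤ _
    exact Finset.le_sup (f := fun q : SEdge => q.1.rk) hq
  omega

/-! ### Bounded violations -/

/-- The vertices of `X`. -/
def verts (X : List Edge) : List ℕ := X.flatMap fun e => e.2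

/-- Symbolic edges which may be matched with the identity map. -/
def sedges (X : List Edge) : List SEdge :=
  X.flatMap fun e => [(e.1.kind, e.2), (SSym.K (n1 e.1), e.2)]

theorem verts_prim : Primrec verts := Primrec.list_flatMap Primrec.id (Primrec.snd.comp Primrec.snd)

theorem sedges_prim : Primrec sedges := by
  refine Primrec.list_flatMap Primrec.id ?_
  have : Primrec fun p : List Edge × Edge => [(p.2.1.kind, p.2.2), (SSym.K (n1 p.2.1), p.2.2)] := by
    exact pcons (Primrec.pair (kind_prim (pfst Primrec.snd)) (psnd Primrec.snd)) (pcons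
        (Primrec.pair (sK_prim (n1_prim (pfst Primrec.snd))) (psnd Primrec.snd)) (Primrec.const []))
  exact this

theorem matched_edge {Lam : ℕ → ℕ → ℕ} {X : List Edge} {Q : Finset SEdge} {f : ℕ → ℕ} {s : SSym}
    {l : List ℕ} (h : Matched Lam {e | e ∈ X} Q f (s, l)) :
    (s, l.map f) ∈ sedges X ∧ ∀ x ∈ l, f x ∈ verts X := by
  have key : ∃ e ∈ X, e.2 = l.map f ∧ (s = e.1.kind ∨ s = SSym.K (n1 e.1)) := by
    cases s with
    | E n i =>
      simp only [Matched] at h
      exact ⟨_, h.1, rfl, Or.inl rfl⟩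
    | K n =>
      simp only [Matched] at h
      obtain ⟨v, h1, h2⟩ := h
      exact ⟨_, h2, rfl, Or.inr rfl⟩
    | R n =>
      simp only [Matched] at h
      exact ⟨_, h, rfl, Or.inl rfl⟩
    | S n =>
      simp only [Matched] at h
      exact ⟨_, h, rfl, Or.inl rfl⟩
    | P =>
      simp only [Matched] at h
      obtain ⟨v, h1⟩ := h
      exact ⟨_, h1, rfl, Or.inl rfl⟩
  obtain ⟨e, he, hl, hs⟩ := key
  constructor
  · unfold sedges
    rw [List.mem_flatMap]
    refine ⟨e, he, ?_⟩
    rw [← hl]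
    rcases hs with rfl | rfl <;> simp
  · intro x hx
    unfold verts
    rw [List.mem_flatMap]
    refine ⟨e, he, ?_⟩
    rw [hl]
    exact List.mem_map_of_mem hx

theorem good_covered {π : Pat} (h : π.Good) (x : ℕ) (hx : x ∈ π.A ∪ π.C) : ∃ q ∈ π.Q, x ∈ q.2 := by
  rcases Finset.mem_union.1 hx with hx | hx
  · exact h.cover x hx
  · by_contra hcon
    push Not at hcon
    have h2 := h.two
    have h1 : (π.C.erase x).card = π.C.card - 1 := Finset.card_erase_of_mem hx
    have hm := h.min (π.C.erase x) (Finset.erase_ssubset hx) (by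
      rw [← Finset.card_pos, h1]; omega)
    rw [Finset.filter_true_of_mem, h.card, h1] at hm
    · omega
    · intro q hq y hy
      have hyx : y ≠ x := fun e => hcon q hq (e ▸ hy)
      have := h.inside q hq y hy
      rw [Finset.mem_union] at this ⊢
      rcases this with this | this
      · exact Or.inl this
      · exact Or.inr (Finset.mem_erase.2 ⟨hyx, this⟩)

/-- Bounded violations. -/
def BViol (Lam : ℕ → ℕ → ℕ) (X : List Edge) : Prop :=
  ∃ A ∈ allLe (verts X) (verts X).length, ∃ C ∈ allLe (verts X) (verts X).length,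
    ∃ Q ∈ allLe (sedges X) (sedges X).length, GoodL A C Q ∧
      ∃ F ∈ allLists (allLists (verts X) (A.length + C.length)) (A.length + C.length + rkL Q + 1),
        FamL Lam X A C Q F

theorem bViol_prim {Lam : ℕ → ℕ → ℕ} (hL : Primrec₂ Lam) : PrimrecPred (BViol Lam) := by
  unfold BViol
  have hv : ∀ {α : Type} [Primcodable α] {f : α → List Edge}, Primrec f → Primrec fun a => verts (f
      a) :=
    fun hf => verts_prim.comp hf
  have hs : ∀ {α : Type} [Primcodable α] {f : α → List Edge}, Primrec f → Primrec fun a => sedges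
      (f a) :=
    fun hf => sedges_prim.comp hf
  refine ex_mem (allLe_prim (hv (pid)) (plen (hv (pid)))) ?_
  refine ex_mem (allLe_prim (hv (Primrec.fst)) (plen (hv (Primrec.fst)))) ?_
  refine ex_mem (allLe_prim (hs (pfst Primrec.fst)) (plen (hs (pfst Primrec.fst)))) ?_
  refine PrimrecPred.and (goodL_prim (psnd (pfst Primrec.fst)) (psnd Primrec.fst) (Primrec.snd)) ?_
  refine ex_mem (allLists_prim (allLists_prim (hv (pfst (pfst Primrec.fst))) (padd (plen (psnd
      (pfst Primrec.fst))) (plen (psnd Primrec.fst)))) (padd (padd (padd (plen (psnd (pfst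
          Primrec.fst))) (plen (psnd Primrec.fst)))
    (rkL_prim (Primrec.snd))) (Primrec.const 1))) ?_
  exact famL_prim hL (pfst (pfst (pfst Primrec.fst))) (psnd (pfst (pfst Primrec.fst))) (psnd (pfst
      Primrec.fst)) (psnd Primrec.fst) (Primrec.snd)

theorem length_le_of_nodup {α : Type} {l l' : List α} (h : l.Nodup) (hs : ∀ x ∈ l, x ∈ l') :
    l.length ≤ l'.length := (List.subperm_of_subset h hs).length_le

theorem mu_iff (Lam : ℕ → ℕ → ℕ) (X : List Edge) : Mu Lam {e | e ∈ X} ↔ ¬ BViol Lam X := by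
  constructor
  · rintro hmu ⟨A, -, C, -, Q, -, hG, F, hF, hFam⟩
    have hG' := (goodL_iff hG.1 hG.2.1 hG.2.2.1).1 hG
    have := hmu _ hG' _ _ (famL_fam hFam)
    rw [mem_allLists] at hF
    rw [Finset.card_range, hF.1] at this
    unfold Pat.mu at this
    simp only at this
    rw [List.toFinset_card_of_nodup hG.1, List.toFinset_card_of_nodup hG.2.1, ← rkL_eq] at this
    omega
  · intro hV π hG J f hF
    by_contra hlt
    push Not at hlt
    apply hV
    obtain ⟨j0, hj0⟩ : J.Nonempty := by
      rw [← Finset.card_pos]; omega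
    -- renaming such that the copy `j0` is the identity
    set φ := f j0 with hφ
    have hinj := hF.inj j0 hj0
    set ψ := Function.invFunOn φ ((π.A ∪ π.C : Finset ℕ) : Set ℕ) with hψdef
    have hψ : ∀ x ∈ π.A ∪ π.C, ψ (φ x) = x := fun x hx =>
      hinj.leftInvOn_invFunOn (Finset.mem_coe.2 hx)
    set π' := Pat.rn φ π with hπ'
    have hG' : π'.Good := rn_good hG hψ
    have hF' : Fam Lam {e | e ∈ X} π' J (fun j x => f j (ψ x)) := rn_fam hG hψ hF
    have hmu' : π'.mu ≤ π.mu := rn_mu φ π
    have hVal : ∀ j ∈ J, ∀ x ∈ π'.A ∪ π'.C, f j (ψ x) ∈ verts X := by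
      intro j hj x hx
      obtain ⟨⟨s, l⟩, hq, hxq⟩ := good_covered hG' x hx
      exact (matched_edge (hF'.mat j hj _ hq)).2 x hxq
    have hName : ∀ x ∈ π'.A ∪ π'.C, x ∈ verts X := by
      intro x hx
      have h1 := hVal j0 hj0 x hx
      have hx' : x ∈ (π.A ∪ π.C).image φ := by
        rw [Finset.image_union]; exact hx
      obtain ⟨a, ha, rfl⟩ := Finset.mem_image.1 hx'
      rw [hψ a ha] at h1
      exact h1
    have hQ' : ∀ q ∈ π'.Q, q ∈ sedges X := by
      intro q hq
      obtain ⟨⟨s, l⟩, hq0, rfl⟩ := Finset.mem_image.1 (show q ∈ π.Q.image (InKAux.rn φ) from hq)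
      exact (matched_edge (hF.mat j0 hj0 _ hq0)).1
    set A := π'.A.toList with hA
    set C := π'.C.toList with hC
    set Q := π'.Q.toList with hQ
    have hAn : A.Nodup := Finset.nodup_toList _
    have hCn : C.Nodup := Finset.nodup_toList _
    have hQn : Q.Nodup := Finset.nodup_toList _
    have hAC : ∀ x, x ∈ A ++ C ↔ x ∈ π'.A ∪ π'.C := by
      intro x
      rw [List.mem_append, Finset.mem_union, hA, hC, Finset.mem_toList, Finset.mem_toList]
    have hGL : GoodL A C Q := by
      rw [goodL_iff hAn hCn hQn, hA, hC, hQ, Finset.toList_toFinset, Finset.toList_toFinset,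
        Finset.toList_toFinset]
      exact hG'
    have hcard : A.length + C.length + rkL Q + 1 ≤ J.card := by
      have : A.length + C.length + rkL Q = π'.mu := by
        rw [rkL_eq, hA, hC, hQ, Finset.toList_toFinset, Finset.length_toList, Finset.length_toList]
        rfl
      omega
    obtain ⟨J', hJ', hJ'c⟩ := Finset.exists_subset_card_eq hcard
    refine ⟨A, ?_, C, ?_, Q, ?_, hGL, J'.toList.map (fun j => (A ++ C).map (fun x => f j (ψ x))),
        ?_, ?_⟩
    · rw [mem_allLe]
      have : ∀ x ∈ A, x ∈ verts X := fun x hx => hName x ((hAC x).1 (by simp [hx]))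
      exact ⟨length_le_of_nodup hAn this, this⟩
    · rw [mem_allLe]
      have : ∀ x ∈ C, x ∈ verts X := fun x hx => hName x ((hAC x).1 (by simp [hx]))
      exact ⟨length_le_of_nodup hCn this, this⟩
    · rw [mem_allLe]
      have : ∀ x ∈ Q, x ∈ sedges X := fun x hx => hQ' x (Finset.mem_toList.1 hx)
      exact ⟨length_le_of_nodup hQn this, this⟩
    · rw [mem_allLists]
      constructor
      · rw [List.length_map, Finset.length_toList, hJ'c]
      · intro g hg
        obtain ⟨j, hj, rfl⟩ := List.mem_map.1 hg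
        rw [mem_allLists]
        constructor
        · rw [List.length_map, List.length_append]
        · intro y hy
          obtain ⟨x, hx, rfl⟩ := List.mem_map.1 hy
          exact hVal j (hJ' (Finset.mem_toList.1 hj)) x ((hAC x).1 hx)
    · have hget : ∀ i (hi : i < J'.toList.length),
          (J'.toList.map (fun j => (A ++ C).map (fun x => f j (ψ x)))).getD i [] =
            (A ++ C).map (fun x => f (J'.toList[i]) (ψ x)) := by
        intro i hi
        rw [List.getD_eq_getElem _ _ (by rw [List.length_map]; exact hi), List.getElem_map]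
      refine ⟨?_, ?_, ?_, ?_⟩
      · intro g hg x hx y hy hxy
        obtain ⟨j, hj, rfl⟩ := List.mem_map.1 hg
        rw [ev_map _ _ _ hx, ev_map _ _ _ hy] at hxy
        exact hF'.inj j (hJ' (Finset.mem_toList.1 hj)) (Finset.mem_coe.2 ((hAC x).1 hx))
          (Finset.mem_coe.2 ((hAC y).1 hy)) hxy
      · intro g hg g' hg' a ha
        obtain ⟨j, hj, rfl⟩ := List.mem_map.1 hg
        obtain ⟨j', hj', rfl⟩ := List.mem_map.1 hg'
        rw [ev_map _ _ _ (by simp [ha]), ev_map _ _ _ (by simp [ha])]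
        exact hF'.base j (hJ' (Finset.mem_toList.1 hj)) j' (hJ' (Finset.mem_toList.1 hj')) a
          (Finset.mem_toList.1 ha)
      · intro i hi j hj hij x hx y hy
        rw [List.length_map] at hi hj
        rw [hget i hi, hget j hj, ev_map _ _ _ (by simp [hx]), ev_map _ _ _ (by simp [hy])]
        refine hF'.disj _ (hJ' (Finset.mem_toList.1 (List.getElem_mem hi))) _
          (hJ' (Finset.mem_toList.1 (List.getElem_mem hj))) ?_ x (Finset.mem_toList.1 hx) y
          (Finset.mem_toList.1 hy)
        intro he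
        exact hij ((List.Nodup.getElem_inj_iff (Finset.nodup_toList _)).1 he)
      · intro g hg q hq
        obtain ⟨j, hj, rfl⟩ := List.mem_map.1 hg
        rw [matL_iff]
        obtain ⟨s, l⟩ := q
        have hm := hF'.mat j (hJ' (Finset.mem_toList.1 hj)) (s, l) (Finset.mem_toList.1 hq)
        refine matched_map ?_ ?_ hm
        · apply List.map_congr_left
          intro x hx
          rw [ev_map]
          exact (hAC x).2 (hG'.inside (s, l) (Finset.mem_toList.1 hq) x hx)
        · intro h
          rw [hQ, Finset.toList_toFinset] at h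
          exact h

end Pool.Agent.Helper367SM.InKAux

namespace Pool.Agent.Helper367SM

theorem InKPrim_proof : S_InKPrim := by
  intro Lam hL
  refine (PrimrecPred.and (InKAux.base_prim hL) (PrimrecPred.not (InKAux.bViol_prim hL))).of_eq ?_
  intro X
  rw [InKAux.base_iff, InKAux.mu_iff]

end Pool.Agent.Helper367SM
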