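import Pool.Agent.Helper367_SM.Valid

set_option autoImplicit false

/-! The conditions of `InK` other than the multiplicity bound are primitive recursive. -/

namespace Pool.Agent.Helper367SM

namespace InKAux

open ValidAux

variable {α β γ σ : Type} [Primcodable α] [Primcodable β] [Primcodable γ] [Primcodable σ]

/-- Bounded quantifier over a list, the predicate given on pairs. -/
theorem all {f : α → List β} {R : α → β → Prop} (hf : Primrec f)
    (hR : PrimrecPred fun p : α × β => R p.1 p.2) : PrimrecPred fun a => ∀ b ∈ f a, R a b :=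
  forallMem hf (PrimrecPred.primrecRel (p := fun p : α × β => R p.1 p.2) hR)

theorem ex {f : α → List β} {R : α → β → Prop} (hf : Primrec f)
    (hR : PrimrecPred fun p : α × β => R p.1 p.2) : PrimrecPred fun a => ∃ b ∈ f a, R a b :=
  existsMem hf (PrimrecPred.primrecRel (p := fun p : α × β => R p.1 p.2) hR)

theorem ssymE : Primrec₂ SSym.E := by
  have h : Primrec fun p : ℕ × ℕ => SSym.equiv.symm (Sum.inl p) :=
    (Primrec.of_equiv_symm (e := SSym.equiv)).comp Primrec.sumInl
  exact h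

theorem ssymK : Primrec SSym.K := by
  have h : Primrec fun n : ℕ => SSym.equiv.symm (Sum.inr (Sum.inl n)) :=
    (Primrec.of_equiv_symm (e := SSym.equiv)).comp (Primrec.sumInr.comp Primrec.sumInl)
  exact h

theorem ssymR : Primrec SSym.R := by
  have h : Primrec fun n : ℕ => SSym.equiv.symm (Sum.inr (Sum.inr (Sum.inl n))) :=
    (Primrec.of_equiv_symm (e := SSym.equiv)).comp
      (Primrec.sumInr.comp (Primrec.sumInr.comp Primrec.sumInl))
  exact h

theorem ssymS : Primrec SSym.S := by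
  have h : Primrec fun n : ℕ => SSym.equiv.symm (Sum.inr (Sum.inr (Sum.inr (Sum.inl n)))) :=
    (Primrec.of_equiv_symm (e := SSym.equiv)).comp
      (Primrec.sumInr.comp (Primrec.sumInr.comp (Primrec.sumInr.comp Primrec.sumInl)))
  exact h

theorem kind_prim : Primrec Sym.kind := by
  have h := symCases (f := fun s : Sym => s) (gE := fun _ n i => SSym.E n i)
    (gR := fun _ n => SSym.R n) (gS := fun _ n => SSym.S n) (gP := fun _ _ => SSym.P)
    Primrec.id (ssymE.comp (Primrec.fst.comp Primrec.snd) (Primrec.snd.comp Primrec.snd))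
    (ssymR.comp₂ Primrec₂.right) (ssymS.comp₂ Primrec₂.right) (Primrec₂.const _)
  exact h.of_eq fun s => by cases s <;> rfl

theorem ar_prim : Primrec Sym.ar := by
  have h := symCases (f := fun s : Sym => s) (gE := fun _ _ _ => 3)
    (gR := fun _ _ => 5) (gS := fun _ _ => 4) (gP := fun _ _ => 2)
    Primrec.id (Primrec.const 3) (Primrec₂.const _) (Primrec₂.const _) (Primrec₂.const _)
  exact h.of_eq fun s => by cases s <;> rfl

/-- The index of an `S`-symbol. -/
def idxS : Sym → List ℕ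
  | Sym.S n => [n]
  | _ => []

/-- The index of a `P`-symbol. -/
def idxP : Sym → List ℕ
  | Sym.P n => [n]
  | _ => []

/-- The indices of an `E`-symbol. -/
def idxE : Sym → List (ℕ × ℕ)
  | Sym.E n i => [(n, i)]
  | _ => []

theorem single_prim : Primrec fun b : β => [b] :=
  Primrec.list_cons.comp Primrec.id (Primrec.const [])

theorem idxS_prim : Primrec idxS := by
  have h := symCases (f := fun s : Sym => s) (gE := fun _ _ _ => ([] : List ℕ))
    (gR := fun _ _ => []) (gS := fun _ n => [n]) (gP := fun _ _ => [])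
    Primrec.id (Primrec.const _) (Primrec₂.const _) (single_prim.comp₂ Primrec₂.right)
    (Primrec₂.const _)
  exact h.of_eq fun s => by cases s <;> rfl

theorem idxP_prim : Primrec idxP := by
  have h := symCases (f := fun s : Sym => s) (gE := fun _ _ _ => ([] : List ℕ))
    (gR := fun _ _ => []) (gS := fun _ _ => []) (gP := fun _ n => [n])
    Primrec.id (Primrec.const _) (Primrec₂.const _) (Primrec₂.const _)
    (single_prim.comp₂ Primrec₂.right)
  exact h.of_eq fun s => by cases s <;> rfl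

theorem idxE_prim : Primrec idxE := by
  have h := symCases (f := fun s : Sym => s) (gE := fun _ n i => [(n, i)])
    (gR := fun _ _ => []) (gS := fun _ _ => []) (gP := fun _ _ => [])
    Primrec.id (single_prim.comp Primrec.snd) (Primrec₂.const _) (Primrec₂.const _)
    (Primrec₂.const _)
  exact h.of_eq fun s => by cases s <;> rfl

theorem mem_idxS {s : Sym} {n : ℕ} : n ∈ idxS s ↔ s = Sym.S n := by
  cases s <;> simp [idxS, eq_comm]

theorem mem_idxP {s : Sym} {n : ℕ} : n ∈ idxP s ↔ s = Sym.P n := by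
  cases s <;> simp [idxP, eq_comm]

theorem mem_idxE {s : Sym} {a : ℕ × ℕ} : a ∈ idxE s ↔ s = Sym.E a.1 a.2 := by
  cases s <;> simp [idxE, Prod.ext_iff, eq_comm]

/-! The five conditions. -/

theorem wf_base : PrimrecPred fun X : List Edge => ∀ e ∈ X, e.2.length = e.1.ar ∧ e.2.Nodup := by
  refine all (R := fun _ (e : Edge) => e.2.length = e.1.ar ∧ e.2.Nodup) Primrec.id ?_
  refine PrimrecPred.and (Primrec.eq.comp ?_ ?_) ?_
  · exact Primrec.list_length.comp (Primrec.snd.comp Primrec.snd)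
  · exact ar_prim.comp (Primrec.fst.comp Primrec.snd)
  · exact nodup_prim.comp (Primrec.snd.comp Primrec.snd)

theorem h1_base : PrimrecPred fun X : List Edge =>
    ∀ n l u, (Sym.S n, l) ∈ X → (Sym.R n, l ++ [u]) ∉ X := by
  have h : PrimrecPred fun X : List Edge => ∀ e ∈ X, ∀ n ∈ idxS e.1, ∀ e' ∈ X, ∀ u ∈ e'.2,
      ¬ (e' = (Sym.R n, e.2 ++ [u])) := by
    refine all (R := fun (X : List Edge) (e : Edge) => ∀ n ∈ idxS e.1, ∀ e' ∈ X, ∀ u ∈ e'.2,
      ¬ (e' = (Sym.R n, e.2 ++ [u]))) Primrec.id ?_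
    refine all (f := fun p : List Edge × Edge => idxS p.2.1)
      (R := fun (p : List Edge × Edge) n => ∀ e' ∈ p.1, ∀ u ∈ e'.2,
      ¬ (e' = (Sym.R n, p.2.2 ++ [u]))) (idxS_prim.comp (Primrec.fst.comp Primrec.snd)) ?_
    refine all (f := fun p : (List Edge × Edge) × ℕ => p.1.1)
      (R := fun (p : (List Edge × Edge) × ℕ) (e' : Edge) => ∀ u ∈ e'.2,
      ¬ (e' = (Sym.R p.2, p.1.2.2 ++ [u]))) (Primrec.fst.comp Primrec.fst) ?_
    refine all (f := fun p : ((List Edge × Edge) × ℕ) × Edge => p.2.2)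
      (R := fun (p : ((List Edge × Edge) × ℕ) × Edge) (u : ℕ) =>
      ¬ (p.2 = (Sym.R p.1.2, p.1.1.2.2 ++ [u]))) (Primrec.snd.comp Primrec.snd) ?_
    refine PrimrecPred.not (Primrec.eq.comp (Primrec.snd.comp Primrec.fst) (Primrec.pair ?_ ?_))
    · exact symR.comp (Primrec.snd.comp (Primrec.fst.comp Primrec.fst))
    · refine Primrec.list_append.comp ?_ (single_prim.comp Primrec.snd)
      exact Primrec.snd.comp (Primrec.snd.comp (Primrec.fst.comp (Primrec.fst.comp Primrec.fst)))
  refine h.of_eq fun X => ?_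
  constructor
  · intro h n l u h1 h2
    exact h _ h1 n (mem_idxS.2 rfl) _ h2 u (by simp) rfl
  · rintro h ⟨s, l⟩ he n hn e' he' u - rfl
    have hs : s = Sym.S n := mem_idxS.1 hn
    subst hs
    exact h n l u he he'

theorem h2_base {Lam : ℕ → ℕ → ℕ} (hL : Primrec₂ Lam) : PrimrecPred fun X : List Edge =>
    ∀ n v l, (Sym.S n, l) ∈ X → (Sym.P v, l.take 2) ∈ X → (Sym.E n (Lam v n), l.take 3) ∈ X := by
  have h : PrimrecPred fun X : List Edge => ∀ e ∈ X, ∀ n ∈ idxS e.1, ∀ e' ∈ X, ∀ v ∈ idxP e'.1,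
      e'.2 = e.2.take 2 → (Sym.E n (Lam v n), e.2.take 3) ∈ X := by
    refine all (R := fun (X : List Edge) (e : Edge) => ∀ n ∈ idxS e.1, ∀ e' ∈ X, ∀ v ∈ idxP e'.1,
      e'.2 = e.2.take 2 → (Sym.E n (Lam v n), e.2.take 3) ∈ X) Primrec.id ?_
    refine all (f := fun p : List Edge × Edge => idxS p.2.1)
      (R := fun (p : List Edge × Edge) n => ∀ e' ∈ p.1, ∀ v ∈ idxP e'.1,
      e'.2 = p.2.2.take 2 → (Sym.E n (Lam v n), p.2.2.take 3) ∈ p.1)
      (idxS_prim.comp (Primrec.fst.comp Primrec.snd)) ?_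
    refine all (f := fun p : (List Edge × Edge) × ℕ => p.1.1)
      (R := fun (p : (List Edge × Edge) × ℕ) (e' : Edge) => ∀ v ∈ idxP e'.1,
      e'.2 = p.1.2.2.take 2 → (Sym.E p.2 (Lam v p.2), p.1.2.2.take 3) ∈ p.1.1)
      (Primrec.fst.comp Primrec.fst) ?_
    refine all (f := fun p : ((List Edge × Edge) × ℕ) × Edge => idxP p.2.1)
      (R := fun (p : ((List Edge × Edge) × ℕ) × Edge) (v : ℕ) =>
      p.2.2 = p.1.1.2.2.take 2 → (Sym.E p.1.2 (Lam v p.1.2), p.1.1.2.2.take 3) ∈ p.1.1.1)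
      (idxP_prim.comp (Primrec.fst.comp Primrec.snd)) ?_
    have hX : Primrec fun p : (((List Edge × Edge) × ℕ) × Edge) × ℕ => p.1.1.1.1 :=
      Primrec.fst.comp (Primrec.fst.comp (Primrec.fst.comp Primrec.fst))
    have he2 : Primrec fun p : (((List Edge × Edge) × ℕ) × Edge) × ℕ => p.1.1.1.2.2 :=
      Primrec.snd.comp (Primrec.snd.comp (Primrec.fst.comp (Primrec.fst.comp Primrec.fst)))
    have hn : Primrec fun p : (((List Edge × Edge) × ℕ) × Edge) × ℕ => p.1.1.2 :=
      Primrec.snd.comp (Primrec.fst.comp Primrec.fst)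
    refine imp (Primrec.eq.comp (Primrec.snd.comp (Primrec.snd.comp Primrec.fst))
      (Primrec.list_take.comp (Primrec.const 2) he2)) ?_
    refine memList (Primrec.pair ?_ (Primrec.list_take.comp (Primrec.const 3) he2)) hX
    exact symE.comp hn (hL.comp Primrec.snd hn)
  refine h.of_eq fun X => ?_
  constructor
  · intro h n v l h1 h2
    exact h _ h1 n (mem_idxS.2 rfl) _ h2 v (mem_idxP.2 rfl) rfl
  · rintro h ⟨s, l⟩ he n hn ⟨s', l'⟩ he' v hv hl
    have hs : s = Sym.S n := mem_idxS.1 hn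
    have hs' : s' = Sym.P v := mem_idxP.1 hv
    simp only at hl
    subst hs; subst hs'; subst hl
    exact h n v l he he'

theorem h3_base : PrimrecPred fun X : List Edge =>
    ∀ n i j l, (Sym.E n i, l) ∈ X → (Sym.E n j, l) ∈ X → i = j := by
  have h : PrimrecPred fun X : List Edge => ∀ e ∈ X, ∀ a ∈ idxE e.1, ∀ e' ∈ X, ∀ b ∈ idxE e'.1,
      a.1 = b.1 → e.2 = e'.2 → a.2 = b.2 := by
    refine all (R := fun (X : List Edge) (e : Edge) => ∀ a ∈ idxE e.1, ∀ e' ∈ X,
      ∀ b ∈ idxE e'.1, a.1 = b.1 → e.2 = e'.2 → a.2 = b.2) Primrec.id ?_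
    refine all (f := fun p : List Edge × Edge => idxE p.2.1)
      (R := fun (p : List Edge × Edge) (a : ℕ × ℕ) => ∀ e' ∈ p.1,
      ∀ b ∈ idxE e'.1, a.1 = b.1 → p.2.2 = e'.2 → a.2 = b.2)
      (idxE_prim.comp (Primrec.fst.comp Primrec.snd)) ?_
    refine all (f := fun p : (List Edge × Edge) × (ℕ × ℕ) => p.1.1)
      (R := fun (p : (List Edge × Edge) × (ℕ × ℕ)) (e' : Edge) =>
      ∀ b ∈ idxE e'.1, p.2.1 = b.1 → p.1.2.2 = e'.2 → p.2.2 = b.2)
      (Primrec.fst.comp Primrec.fst) ?_
    refine all (f := fun p : ((List Edge × Edge) × (ℕ × ℕ)) × Edge => idxE p.2.1)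
      (R := fun (p : ((List Edge × Edge) × (ℕ × ℕ)) × Edge) (b : ℕ × ℕ) =>
      p.1.2.1 = b.1 → p.1.1.2.2 = p.2.2 → p.1.2.2 = b.2)
      (idxE_prim.comp (Primrec.fst.comp Primrec.snd)) ?_
    refine imp (Primrec.eq.comp ?_ (Primrec.fst.comp Primrec.snd))
      (imp (Primrec.eq.comp ?_ ?_) (Primrec.eq.comp ?_ (Primrec.snd.comp Primrec.snd)))
    · exact Primrec.fst.comp (Primrec.snd.comp (Primrec.fst.comp Primrec.fst))
    · exact Primrec.snd.comp (Primrec.snd.comp (Primrec.fst.comp (Primrec.fst.comp Primrec.fst)))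
    · exact Primrec.snd.comp (Primrec.snd.comp Primrec.fst)
    · exact Primrec.snd.comp (Primrec.snd.comp (Primrec.fst.comp Primrec.fst))
  refine h.of_eq fun X => ?_
  constructor
  · intro h n i j l h1 h2
    exact h _ h1 (n, i) (mem_idxE.2 rfl) _ h2 (n, j) (mem_idxE.2 rfl) rfl rfl
  · rintro h ⟨s, l⟩ he ⟨n, i⟩ hn ⟨s', l'⟩ he' ⟨m, j⟩ hv hnm hl
    have hs : s = Sym.E n i := mem_idxE.1 hn
    have hs' : s' = Sym.E m j := mem_idxE.1 hv
    simp only at hl hnm
    subst hs; subst hs'; subst hl; subst hnm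
    exact h _ _ _ _ he he'

theorem agree_iff (l l' : List ℕ) : Agree l l' ↔
    ∃ p ∈ List.range (l.length + l'.length + 1), ∀ k ∈ List.range (l.length + l'.length + 1),
      k = p ∨ l[k]? = l'[k]? := by
  constructor
  · rintro ⟨p, hp⟩
    by_cases h : p < l.length + l'.length + 1
    · refine ⟨p, List.mem_range.2 h, fun k _ => ?_⟩
      by_cases hk : k = p
      · exact Or.inl hk
      · exact Or.inr (hp k hk)
    · refine ⟨l.length + l'.length, List.mem_range.2 (by omega), fun k hk => ?_⟩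
      have := List.mem_range.1 hk
      exact Or.inr (hp k (by omega))
  · rintro ⟨p, -, hp⟩
    refine ⟨p, fun k hk => ?_⟩
    by_cases h : k < l.length + l'.length + 1
    · exact (hp k (List.mem_range.2 h)).resolve_left hk
    · rw [List.getElem?_eq_none (by omega), List.getElem?_eq_none (by omega)]

theorem agree_prim : PrimrecPred fun p : List ℕ × List ℕ => Agree p.1 p.2 := by
  have hlen : Primrec fun p : List ℕ × List ℕ => p.1.length + p.2.length + 1 :=
    Primrec.succ.comp (Primrec.nat_add.comp (Primrec.list_length.comp Primrec.fst)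
      (Primrec.list_length.comp Primrec.snd))
  have h : PrimrecPred fun q : List ℕ × List ℕ =>
      ∃ p ∈ List.range (q.1.length + q.2.length + 1),
        ∀ k ∈ List.range (q.1.length + q.2.length + 1), k = p ∨ q.1[k]? = q.2[k]? := by
    refine ex (R := fun (q : List ℕ × List ℕ) (p : ℕ) =>
      ∀ k ∈ List.range (q.1.length + q.2.length + 1), k = p ∨ q.1[k]? = q.2[k]?)
      (Primrec.list_range.comp hlen) ?_
    refine all (f := fun r : (List ℕ × List ℕ) × ℕ =>
        List.range (r.1.1.length + r.1.2.length + 1))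
      (R := fun (r : (List ℕ × List ℕ) × ℕ) (k : ℕ) => k = r.2 ∨ r.1.1[k]? = r.1.2[k]?)
      (Primrec.list_range.comp (hlen.comp Primrec.fst)) ?_
    refine PrimrecPred.or (Primrec.eq.comp Primrec.snd (Primrec.snd.comp Primrec.fst))
      (Primrec.eq.comp (Primrec.list_getElem?.comp ?_ Primrec.snd)
        (Primrec.list_getElem?.comp ?_ Primrec.snd))
    · exact Primrec.fst.comp (Primrec.fst.comp Primrec.fst)
    · exact Primrec.snd.comp (Primrec.fst.comp Primrec.fst)
  exact h.of_eq fun q => (agree_iff q.1 q.2).symm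

theorem fn_base : PrimrecPred fun X : List Edge =>
    ∀ e ∈ X, ∀ e' ∈ X, e.1.kind = e'.1.kind → Agree e.2 e'.2 → e = e' := by
  refine all (R := fun (X : List Edge) (e : Edge) =>
    ∀ e' ∈ X, e.1.kind = e'.1.kind → Agree e.2 e'.2 → e = e') Primrec.id ?_
  refine all (f := fun p : List Edge × Edge => p.1)
    (R := fun (p : List Edge × Edge) (e' : Edge) =>
      p.2.1.kind = e'.1.kind → Agree p.2.2 e'.2 → p.2 = e') Primrec.fst ?_
  refine imp (Primrec.eq.comp (kind_prim.comp ?_) (kind_prim.comp (Primrec.fst.comp Primrec.snd)))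
    (imp ?_ (Primrec.eq.comp (Primrec.snd.comp Primrec.fst) Primrec.snd))
  · exact Primrec.fst.comp (Primrec.snd.comp Primrec.fst)
  · exact agree_prim.comp (Primrec.pair (Primrec.snd.comp (Primrec.snd.comp Primrec.fst))
      (Primrec.snd.comp Primrec.snd))

end InKAux

/-- The conditions of `InK` other than the multiplicity bound are primitive recursive. -/
theorem InKBase_prim {Lam : ℕ → ℕ → ℕ} (hL : Primrec₂ Lam) : PrimrecPred fun X : List Edge =>
    (∀ e ∈ X, e.2.length = e.1.ar ∧ e.2.Nodup) ∧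
    (∀ n l u, (Sym.S n, l) ∈ X → (Sym.R n, l ++ [u]) ∉ X) ∧
    (∀ n v l, (Sym.S n, l) ∈ X → (Sym.P v, l.take 2) ∈ X → (Sym.E n (Lam v n), l.take 3) ∈ X) ∧
    (∀ n i j l, (Sym.E n i, l) ∈ X → (Sym.E n j, l) ∈ X → i = j) ∧
    (∀ e ∈ X, ∀ e' ∈ X, e.1.kind = e'.1.kind → Agree e.2 e'.2 → e = e') :=
  InKAux.wf_base.and (InKAux.h1_base.and ((InKAux.h2_base hL).and
    (InKAux.h3_base.and InKAux.fn_base)))

end Pool.Agent.Helper367SM
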