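import Pool.Agent.Helper367_SM.Spec

set_option autoImplicit false

/-!
TASK INK, part 1: tools for primitive recursive predicates, and the axioms of the class `K` except
    for
the bound on the multiplicities.
-/

namespace Pool.Agent.Helper367SM.InKAux

/-! ### Toolkit for primitive recursive predicates -/

section toolkit

variable {α β γ σ : Type} [Primcodable α] [Primcodable β] [Primcodable γ] [Primcodable σ]

theorem ex_mem {F : α → List β} {R : α → β → Prop} (hF : Primrec F)
    (hR : PrimrecPred fun p : α × β => R p.1 p.2) : PrimrecPred fun a => ∃ b ∈ F a, R a b := by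
  have h : PrimrecRel fun (b : β) (a : α) => R a b := hR.comp (Primrec.pair Primrec.snd Primrec.fst)
  exact h.exists_mem_list.comp hF Primrec.id

theorem all_mem {F : α → List β} {R : α → β → Prop} (hF : Primrec F)
    (hR : PrimrecPred fun p : α × β => R p.1 p.2) : PrimrecPred fun a => ∀ b ∈ F a, R a b := by
  have h : PrimrecRel fun (b : β) (a : α) => R a b := hR.comp (Primrec.pair Primrec.snd Primrec.fst)
  exact h.forall_mem_list.comp hF Primrec.id

theorem ex_lt {F : α → ℕ} {R : α → ℕ → Prop} (hF : Primrec F)
    (hR : PrimrecPred fun p : α × ℕ => R p.1 p.2) : PrimrecPred fun a => ∃ b < F a, R a b := by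
  refine (ex_mem (F := fun a => List.range (F a)) (R := R) (Primrec.list_range.comp hF) hR).of_eq ?_
  intro a; simp

theorem all_lt {F : α → ℕ} {R : α → ℕ → Prop} (hF : Primrec F)
    (hR : PrimrecPred fun p : α × ℕ => R p.1 p.2) : PrimrecPred fun a => ∀ b < F a, R a b := by
  refine (all_mem (F := fun a => List.range (F a)) (R := R) (Primrec.list_range.comp hF) hR).of_eq
      ?_
  intro a; simp

theorem imp {p q : α → Prop} (hp : PrimrecPred p) (hq : PrimrecPred q) :
    PrimrecPred fun a => (p a → q a) :=
  (hp.not.or hq).of_eq fun a => by tauto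

theorem eqp {f g : α → β} (hf : Primrec f) (hg : Primrec g) : PrimrecPred fun a => f a = g a :=
  Primrec.eq.comp hf hg

theorem nep {f g : α → β} (hf : Primrec f) (hg : Primrec g) : PrimrecPred fun a => f a ≠ g a :=
  (eqp hf hg).not

theorem ltp {f g : α → ℕ} (hf : Primrec f) (hg : Primrec g) : PrimrecPred fun a => f a < g a :=
  Primrec.nat_lt.comp hf hg

theorem lep {f g : α → ℕ} (hf : Primrec f) (hg : Primrec g) : PrimrecPred fun a => f a ≤ g a :=
  Primrec.nat_le.comp hf hg

theorem mem {f : α → β} {g : α → List β} (hf : Primrec f) (hg : Primrec g) :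
    PrimrecPred fun a => f a ∈ g a :=
  (ex_mem (R := fun a b => b = f a) hg (eqp Primrec.snd (hf.comp Primrec.fst))).of_eq fun a => by
      simp

theorem getq {f : α → List β} {g : α → ℕ} (hf : Primrec f) (hg : Primrec g) :
    Primrec fun a => (f a)[g a]? := Primrec.list_getElem?.comp hf hg

theorem nodup {f : α → List β} (hf : Primrec f) : PrimrecPred fun a => (f a).Nodup := by
  have h : PrimrecPred fun a => ∀ j < (f a).length, ∀ i < j, (f a)[i]? ≠ (f a)[j]? := by
    refine all_lt (Primrec.list_length.comp hf) ?_
    refine all_lt Primrec.snd ?_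
    refine nep (getq (hf.comp (Primrec.fst.comp Primrec.fst)) Primrec.snd) ?_
    exact getq (hf.comp (Primrec.fst.comp Primrec.fst)) (Primrec.snd.comp Primrec.fst)
  refine h.of_eq fun a => ?_
  rw [List.nodup_iff_getElem?_ne_getElem?]
  constructor
  · intro h i j hij hj
    exact h j hj i hij
  · intro h j hj i hij
    exact h i j hij hj

theorem filt {F : α → List β} {R : α → β → Prop} [∀ a, DecidablePred (R a)] (hF : Primrec F)
    (hR : PrimrecPred fun p : α × β => R p.1 p.2) : Primrec fun a => (F a).filter (fun b => R a b)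
        := by
  have h : PrimrecRel fun (b : β) (a : α) => R a b := hR.comp (Primrec.pair Primrec.snd Primrec.fst)
  have := h.listFilter.comp hF Primrec.id
  exact this

theorem sumElim {f : α → σ} {g : β → σ} (hf : Primrec f) (hg : Primrec g) :
    Primrec (Sum.elim f g) :=
  (Primrec.sumCasesOn (f := fun x : α ⊕ β => x) (g := fun _ a => f a) (h := fun _ b => g b)
      Primrec.id
    (hf.comp Primrec.snd).to₂ (hg.comp Primrec.snd).to₂).of_eq
    (by rintro (x | x) <;> rfl)

end toolkit

/-! ### All lists over a list -/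

section lists

variable {α β : Type} [Primcodable α] [Primcodable β]

/-- All lists of length `k` over `L`. -/
def allLists (L : List β) (k : ℕ) : List (List β) :=
  k.rec [[]] fun _ R => L.flatMap fun x => R.map fun l => x :: l

omit [Primcodable β] in
theorem allLists_succ (L : List β) (k : ℕ) :
    allLists L (k + 1) = L.flatMap fun x => (allLists L k).map fun l => x :: l := rfl

omit [Primcodable β] in
theorem mem_allLists (L : List β) (k : ℕ) (l : List β) :
    l ∈ allLists L k ↔ l.length = k ∧ ∀ x ∈ l, x ∈ L := by
  induction k generalizing l with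
  | zero =>
    show l ∈ [[]] ↔ _
    rw [List.mem_singleton, List.length_eq_zero_iff]
    constructor
    · rintro rfl; simp
    · exact fun h => h.1
  | succ k ih =>
    rw [allLists_succ]
    simp only [List.mem_flatMap, List.mem_map]
    constructor
    · rintro ⟨x, hx, l', hl', rfl⟩
      rw [ih] at hl'
      refine ⟨by simp [hl'.1], ?_⟩
      intro y hy
      rcases List.mem_cons.1 hy with rfl | hy
      · exact hx
      · exact hl'.2 y hy
    · rintro ⟨h1, h2⟩
      cases l with
      | nil => simp at h1
      | cons x l' =>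
        refine ⟨x, h2 x (by simp), l', ?_, rfl⟩
        rw [ih]
        exact ⟨by simpa using h1, fun y hy => h2 y (by simp [hy])⟩

theorem allLists_prim {f : α → List β} {g : α → ℕ} (hf : Primrec f) (hg : Primrec g) :
    Primrec fun a => allLists (f a) (g a) := by
  have h : Primrec₂ fun (L : List β) (k : ℕ) => allLists L k := by
    refine (Primrec.nat_rec (f := fun _ : List β => ([[]] : List (List β)))
      (g := fun (L : List β) (p : ℕ × List (List β)) => L.flatMap fun x => p.2.map fun l => x :: l)
      (Primrec.const _) ?_).of_eq ?_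
    · have hg' : Primrec₂ fun (a : List β × (ℕ × List (List β))) (x : β) => a.2.2.map fun l => x ::
        l := by
        refine Primrec.list_map (Primrec.snd.comp (Primrec.snd.comp Primrec.fst)) ?_
        exact Primrec.list_cons.comp (Primrec.snd.comp Primrec.fst) Primrec.snd
      exact Primrec.list_flatMap (Primrec.fst) hg'
    · intro L k
      rfl
  exact h.comp hf hg

/-- All lists of length at most `k` over `L`. -/
def allLe (L : List β) (k : ℕ) : List (List β) :=
  (List.range (k + 1)).flatMap fun j => allLists L j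

omit [Primcodable β] in
theorem mem_allLe (L : List β) (k : ℕ) (l : List β) :
    l ∈ allLe L k ↔ l.length ≤ k ∧ ∀ x ∈ l, x ∈ L := by
  unfold allLe
  simp only [List.mem_flatMap, List.mem_range, mem_allLists]
  constructor
  · rintro ⟨j, hj, rfl, h⟩
    exact ⟨by omega, h⟩
  · rintro ⟨h, h'⟩
    exact ⟨l.length, by omega, rfl, h'⟩

theorem allLe_prim {f : α → List β} {g : α → ℕ} (hf : Primrec f) (hg : Primrec g) :
    Primrec fun a => allLe (f a) (g a) := by
  refine Primrec.list_flatMap (Primrec.list_range.comp (Primrec.succ.comp hg)) ?_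
  exact allLists_prim (hf.comp Primrec.fst) Primrec.snd

end lists

/-! ### Symbols -/

section symbols

variable {α σ : Type} [Primcodable α] [Primcodable σ]

theorem symEquiv_prim : Primrec Sym.equiv := Primrec.of_equiv (e := Sym.equiv)

theorem symEquivSymm_prim : Primrec Sym.equiv.symm := Primrec.of_equiv_symm (e := Sym.equiv)

theorem ssymEquiv_prim : Primrec SSym.equiv := Primrec.of_equiv (e := SSym.equiv)

theorem ssymEquivSymm_prim : Primrec SSym.equiv.symm := Primrec.of_equiv_symm (e := SSym.equiv)

/-- case distinction on symbols -/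
def symCase (fE : ℕ × ℕ → σ) (fR fS fP : ℕ → σ) : Sym → σ
  | Sym.E n i => fE (n, i)
  | Sym.R n => fR n
  | Sym.S n => fS n
  | Sym.P v => fP v

theorem symCase_prim {fE : ℕ × ℕ → σ} {fR fS fP : ℕ → σ} (hE : Primrec fE) (hR : Primrec fR)
    (hS : Primrec fS) (hP : Primrec fP) : Primrec (symCase fE fR fS fP) := by
  have h := (sumElim hE (sumElim hR (sumElim hS hP))).comp symEquiv_prim
  refine h.of_eq ?_
  intro x
  cases x <;> rfl

/-- case distinction on symbolic symbols -/
def ssymCase (fE : ℕ × ℕ → σ) (fK fR fS : ℕ → σ) (fP : σ) : SSym → σ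
  | SSym.E n i => fE (n, i)
  | SSym.K n => fK n
  | SSym.R n => fR n
  | SSym.S n => fS n
  | SSym.P => fP

theorem ssymCase_prim {fE : ℕ × ℕ → σ} {fK fR fS : ℕ → σ} {fP : σ} (hE : Primrec fE) (hK : Primrec
    fK)
    (hR : Primrec fR) (hS : Primrec fS) : Primrec (ssymCase fE fK fR fS fP) := by
  have h := (sumElim hE (sumElim hK (sumElim hR (sumElim hS (Primrec.const (α := Unit) fP))))).comp
    ssymEquiv_prim
  refine h.of_eq ?_
  intro x
  cases x <;> rfl

/-- tag -/
def tag (s : Sym) : ℕ := symCase (fun _ => 0) (fun _ => 1) (fun _ => 2) (fun _ => 3) s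
/-- first index -/
def n1 (s : Sym) : ℕ := symCase (fun p => p.1) id id id s
/-- second index -/
def n2 (s : Sym) : ℕ := symCase (fun p => p.2) id id id s

/-- tag -/
def stag (s : SSym) : ℕ := ssymCase (fun _ => 0) (fun _ => 1) (fun _ => 2) (fun _ => 3) 4 s
/-- first index -/
def m1 (s : SSym) : ℕ := ssymCase (fun p => p.1) id id id 0 s
/-- second index -/
def m2 (s : SSym) : ℕ := ssymCase (fun p => p.2) id id id 0 s

theorem tag_prim {f : α → Sym} (hf : Primrec f) : Primrec fun a => tag (f a) :=
  (symCase_prim (Primrec.const 0) (Primrec.const 1) (Primrec.const 2) (Primrec.const 3)).comp hf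
theorem n1_prim {f : α → Sym} (hf : Primrec f) : Primrec fun a => n1 (f a) :=
  (symCase_prim Primrec.fst Primrec.id Primrec.id Primrec.id).comp hf
theorem n2_prim {f : α → Sym} (hf : Primrec f) : Primrec fun a => n2 (f a) :=
  (symCase_prim Primrec.snd Primrec.id Primrec.id Primrec.id).comp hf
theorem stag_prim {f : α → SSym} (hf : Primrec f) : Primrec fun a => stag (f a) :=
  (ssymCase_prim (Primrec.const 0) (Primrec.const 1) (Primrec.const 2) (Primrec.const 3)).comp hf
theorem m1_prim {f : α → SSym} (hf : Primrec f) : Primrec fun a => m1 (f a) :=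
  (ssymCase_prim Primrec.fst Primrec.id Primrec.id Primrec.id).comp hf
theorem m2_prim {f : α → SSym} (hf : Primrec f) : Primrec fun a => m2 (f a) :=
  (ssymCase_prim Primrec.snd Primrec.id Primrec.id Primrec.id).comp hf

theorem ar_prim {f : α → Sym} (hf : Primrec f) : Primrec fun a => (f a).ar := by
  refine ((symCase_prim (Primrec.const 3) (Primrec.const 5) (Primrec.const 4) (Primrec.const
      2)).comp
    hf).of_eq ?_
  intro a
  cases f a <;> rfl

theorem sar_prim {f : α → SSym} (hf : Primrec f) : Primrec fun a => (f a).ar := by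
  refine ((ssymCase_prim (fP := 2) (Primrec.const 3) (Primrec.const 3) (Primrec.const 5)
    (Primrec.const 4)).comp hf).of_eq ?_
  intro a
  cases f a <;> rfl

theorem rk_prim {f : α → SSym} (hf : Primrec f) : Primrec fun a => (f a).rk := by
  refine ((ssymCase_prim (fP := 0) (fE := fun p => max p.1 p.2) (Primrec.nat_max.comp Primrec.fst
      Primrec.snd)
    Primrec.id Primrec.id Primrec.id).comp hf).of_eq ?_
  intro a
  cases f a <;> rfl

theorem E_prim {f g : α → ℕ} (hf : Primrec f) (hg : Primrec g) : Primrec fun a => Sym.E (f a) (g a)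
    := by
  have : Primrec fun a => Sym.equiv.symm (Sum.inl (f a, g a)) :=
    symEquivSymm_prim.comp (Primrec.sumInl.comp (hf.pair hg))
  exact this

theorem R_prim {f : α → ℕ} (hf : Primrec f) : Primrec fun a => Sym.R (f a) := by
  have : Primrec fun a => Sym.equiv.symm (Sum.inr (Sum.inl (f a))) :=
    symEquivSymm_prim.comp (Primrec.sumInr.comp (Primrec.sumInl.comp hf))
  exact this

theorem S_prim {f : α → ℕ} (hf : Primrec f) : Primrec fun a => Sym.S (f a) := by
  have : Primrec fun a => Sym.equiv.symm (Sum.inr (Sum.inr (Sum.inl (f a)))) :=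
    symEquivSymm_prim.comp (Primrec.sumInr.comp (Primrec.sumInr.comp (Primrec.sumInl.comp hf)))
  exact this

theorem sE_prim {f g : α → ℕ} (hf : Primrec f) (hg : Primrec g) : Primrec fun a => SSym.E (f a) (g
    a) := by
  have : Primrec fun a => SSym.equiv.symm (Sum.inl (f a, g a)) :=
    ssymEquivSymm_prim.comp (Primrec.sumInl.comp (hf.pair hg))
  exact this

theorem sK_prim {f : α → ℕ} (hf : Primrec f) : Primrec fun a => SSym.K (f a) := by
  have : Primrec fun a => SSym.equiv.symm (Sum.inr (Sum.inl (f a))) :=
    ssymEquivSymm_prim.comp (Primrec.sumInr.comp (Primrec.sumInl.comp hf))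
  exact this

theorem sR_prim {f : α → ℕ} (hf : Primrec f) : Primrec fun a => SSym.R (f a) := by
  have : Primrec fun a => SSym.equiv.symm (Sum.inr (Sum.inr (Sum.inl (f a)))) :=
    ssymEquivSymm_prim.comp (Primrec.sumInr.comp (Primrec.sumInr.comp (Primrec.sumInl.comp hf)))
  exact this

theorem sS_prim {f : α → ℕ} (hf : Primrec f) : Primrec fun a => SSym.S (f a) := by
  have : Primrec fun a => SSym.equiv.symm (Sum.inr (Sum.inr (Sum.inr (Sum.inl (f a))))) :=
    ssymEquivSymm_prim.comp (Primrec.sumInr.comp (Primrec.sumInr.comp (Primrec.sumInr.comp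
      (Primrec.sumInl.comp hf))))
  exact this

theorem kind_prim {f : α → Sym} (hf : Primrec f) : Primrec fun a => (f a).kind := by
  refine ((symCase_prim (fE := fun p => SSym.E p.1 p.2) (fR := SSym.R) (fS := SSym.S)
    (fP := fun _ => SSym.P) (sE_prim Primrec.fst Primrec.snd) (sR_prim Primrec.id)
    (sS_prim Primrec.id) (Primrec.const _)).comp hf).of_eq ?_
  intro a
  cases f a <;> rfl

end symbols

/-! ### More tools -/

theorem pcons {α β : Type} [Primcodable α] [Primcodable β] {f : α → β} {g : α → List β}
    (hf : Primrec f) (hg : Primrec g) : Primrec fun a => f a :: g a := Primrec.list_cons.comp hf hg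

theorem papp {α β : Type} [Primcodable α] [Primcodable β] {f g : α → List β}
    (hf : Primrec f) (hg : Primrec g) : Primrec fun a => f a ++ g a := Primrec.list_append.comp hf
        hg

theorem padd {α : Type} [Primcodable α] {f g : α → ℕ}
    (hf : Primrec f) (hg : Primrec g) : Primrec fun a => f a + g a := Primrec.nat_add.comp hf hg

theorem ptake {α β : Type} [Primcodable α] [Primcodable β] {f : α → ℕ} {g : α → List β}
    (hf : Primrec f) (hg : Primrec g) : Primrec fun a => (g a).take (f a) := Primrec.list_take.comp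
        hf hg

theorem plen {α β : Type} [Primcodable α] [Primcodable β] {g : α → List β}
    (hg : Primrec g) : Primrec fun a => (g a).length := Primrec.list_length.comp hg

theorem pmap {α β γ : Type} [Primcodable α] [Primcodable β] [Primcodable γ] {f : α → List β}
    {g : α → β → γ} (hf : Primrec f) (hg : Primrec fun p : α × β => g p.1 p.2) :
    Primrec fun a => (f a).map (g a) := Primrec.list_map hf hg

theorem pfst {α β γ : Type} [Primcodable α] [Primcodable β] [Primcodable γ] {f : α → β × γ}
    (hf : Primrec f) : Primrec fun a => (f a).1 := Primrec.fst.comp hf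

theorem psnd {α β γ : Type} [Primcodable α] [Primcodable β] [Primcodable γ] {f : α → β × γ}
    (hf : Primrec f) : Primrec fun a => (f a).2 := Primrec.snd.comp hf

theorem pgetD {α β : Type} [Primcodable α] [Primcodable β] {f : α → List β} {g : α → ℕ} (d : β)
    (hf : Primrec f) (hg : Primrec g) : Primrec fun a => (f a).getD (g a) d :=
  (Primrec.list_getD d).comp hf hg

theorem pidx {α : Type} [Primcodable α] {f : α → ℕ} {g : α → List ℕ}
    (hf : Primrec f) (hg : Primrec g) : Primrec fun a => (g a).idxOf (f a) :=
  Primrec.list_idxOf.comp hf hg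

theorem pid {α : Type} [Primcodable α] : Primrec fun a : α => a := Primrec.id

/-! ### The bounded form of the axioms -/

/-- bounded form of `Agree` -/
def BAgree (l l' : List ℕ) : Prop :=
  ∃ p < l.length + l'.length + 1, ∀ k < l.length + l'.length, k ≠ p → l[k]? = l'[k]?

theorem bAgree_iff (l l' : List ℕ) : BAgree l l' ↔ Agree l l' := by
  constructor
  · rintro ⟨p, _, h⟩
    refine ⟨p, fun k hk => ?_⟩
    by_cases hkl : k < l.length + l'.length
    · exact h k hkl hk
    · rw [List.getElem?_eq_none (by omega), List.getElem?_eq_none (by omega)]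
  · rintro ⟨p, h⟩
    by_cases hp : p < l.length + l'.length + 1
    · exact ⟨p, hp, fun k _ hk => h k hk⟩
    · exact ⟨0, by omega, fun k hk _ => h k (by omega)⟩

theorem bAgree_prim {α : Type} [Primcodable α] {f g : α → List ℕ} (hf : Primrec f) (hg : Primrec g)
    :
    PrimrecPred fun a => BAgree (f a) (g a) := by
  unfold BAgree
  have : PrimrecPred fun a => ∃ p < (f a).length + (g a).length + 1,
      ∀ k < (f a).length + (g a).length, k ≠ p → (f a)[k]? = (g a)[k]? := by
    refine ex_lt (padd (padd (plen hf) (plen hg)) (Primrec.const 1)) ?_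
    refine all_lt ?_ ?_
    · exact padd (plen (hf.comp Primrec.fst)) (plen (hg.comp Primrec.fst))
    · refine imp (nep Primrec.snd (psnd Primrec.fst)) ?_
      exact eqp (getq (hf.comp (Primrec.fst.comp Primrec.fst)) Primrec.snd)
        (getq (hg.comp (Primrec.fst.comp Primrec.fst)) Primrec.snd)
  exact this

/-- The axioms except for the bound on the multiplicities, in bounded form. -/
def Base (Lam : ℕ → ℕ → ℕ) (X : List Edge) : Prop :=
  (∀ e ∈ X, e.2.length = e.1.ar ∧ e.2.Nodup) ∧
  (∀ e ∈ X, ∀ e' ∈ X, tag e.1 = 2 → tag e'.1 = 1 → n1 e.1 = n1 e'.1 → ∀ u ∈ e'.2,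
    e'.2 ≠ e.2 ++ [u]) ∧
  (∀ e ∈ X, ∀ e' ∈ X, tag e.1 = 2 → tag e'.1 = 3 → e'.2 = e.2.take 2 →
    (Sym.E (n1 e.1) (Lam (n1 e'.1) (n1 e.1)), e.2.take 3) ∈ X) ∧
  (∀ e ∈ X, ∀ e' ∈ X, tag e.1 = 0 → tag e'.1 = 0 → n1 e.1 = n1 e'.1 → e.2 = e'.2 →
    n2 e.1 = n2 e'.1) ∧
  (∀ e ∈ X, ∀ e' ∈ X, e.1.kind = e'.1.kind → BAgree e.2 e'.2 → e = e')

theorem base_prim {Lam : ℕ → ℕ → ℕ} (hL : Primrec₂ Lam) : PrimrecPred (Base Lam) := by
  unfold Base
  refine PrimrecPred.and (all_mem pid (PrimrecPred.and (eqp (plen (psnd Primrec.snd)) (ar_prim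
      (pfst Primrec.snd))) (nodup (psnd Primrec.snd)))) (PrimrecPred.and (all_mem pid (all_mem
          Primrec.fst (imp (eqp (tag_prim (pfst (psnd Primrec.fst))) (Primrec.const 2)) (imp (eqp
              (tag_prim (pfst Primrec.snd)) (Primrec.const 1)) (imp (eqp (n1_prim (pfst (psnd
                  Primrec.fst))) (n1_prim (pfst Primrec.snd))) (all_mem (psnd Primrec.snd) (nep
                      (psnd (psnd Primrec.fst)) (papp (psnd (psnd (pfst Primrec.fst))) (pcons
                          Primrec.snd (Primrec.const [])))))))))) (PrimrecPred.and ?_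
                              (PrimrecPred.and (all_mem pid (all_mem Primrec.fst (imp (eqp
                                  (tag_prim (pfst (psnd Primrec.fst))) (Primrec.const 0)) (imp (eqp
                                      (tag_prim (pfst Primrec.snd)) (Primrec.const 0)) (imp (eqp
                                          (n1_prim (pfst (psnd Primrec.fst))) (n1_prim (pfst
                                              Primrec.snd))) (imp (eqp (psnd (psnd Primrec.fst))
                                                  (psnd Primrec.snd)) (eqp (n2_prim (pfst (psnd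
                                                      Primrec.fst))) (n2_prim (pfst
                                                          Primrec.snd))))))))) ?_)))
  · refine all_mem (pid) (all_mem (Primrec.fst) (imp (eqp (tag_prim (pfst (psnd Primrec.fst)))
      (Primrec.const 2)) (imp (eqp (tag_prim (pfst Primrec.snd)) (Primrec.const 3)) (imp (eqp (psnd
          Primrec.snd) (ptake (Primrec.const 2) (psnd (psnd Primrec.fst)))) ?_))))
    refine mem (Primrec.pair (E_prim (n1_prim (pfst (psnd Primrec.fst))) ?_) (ptake (Primrec.const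
        3) (psnd (psnd Primrec.fst)))) (pfst Primrec.fst)
    exact hL.comp (n1_prim (pfst Primrec.snd)) (n1_prim (pfst (psnd Primrec.fst)))
  · refine all_mem (pid) (all_mem (Primrec.fst) (imp (eqp (kind_prim (pfst (psnd Primrec.fst)))
      (kind_prim (pfst Primrec.snd))) (imp ?_ (eqp (psnd Primrec.fst) Primrec.snd))))
    exact bAgree_prim (psnd (psnd Primrec.fst)) (psnd Primrec.snd)

/-- The bound on the multiplicities. -/
def Mu (Lam : ℕ → ℕ → ℕ) (X : Set Edge) : Prop :=
  ∀ π : Pat, π.Good → ∀ (J : Finset ℕ) (f : ℕ → ℕ → ℕ), Fam Lam X π J f → J.card ≤ π.mu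

theorem base_iff (Lam : ℕ → ℕ → ℕ) (X : List Edge) :
    InK Lam {e | e ∈ X} ↔ Base Lam X ∧ Mu Lam {e | e ∈ X} := by
  constructor
  · intro h
    refine ⟨⟨?_, ?_, ?_, ?_, ?_⟩, h.mu⟩
    · exact fun e he => h.wf e he
    · rintro ⟨s, l⟩ he ⟨s', l'⟩ he' ht ht' hn u hu heq
      cases s <;> simp [tag, symCase] at ht
      cases s' <;> simp [tag, symCase] at ht'
      simp only [n1, symCase, id] at hn
      simp only at heq
      subst hn
      subst heq
      exact h.h1 _ _ u he he'
    · rintro ⟨s, l⟩ he ⟨s', l'⟩ he' ht ht' hl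
      cases s <;> simp [tag, symCase] at ht
      cases s' <;> simp [tag, symCase] at ht'
      simp only at hl
      subst hl
      exact h.h2 _ _ _ he he'
    · rintro ⟨s, l⟩ he ⟨s', l'⟩ he' ht ht' hn hl
      cases s <;> simp [tag, symCase] at ht
      cases s' <;> simp [tag, symCase] at ht'
      simp only [n1, symCase] at hn
      simp only at hl
      subst hn
      subst hl
      exact h.h3 _ _ _ _ he he'
    · intro e he e' he' hk ha
      exact h.fn e he e' he' hk ((bAgree_iff _ _).1 ha)
  · rintro ⟨⟨h0, h1, h2, h3, h4⟩, h5⟩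
    refine ⟨fun e he => h0 e he, ?_, ?_, ?_, ?_, h5⟩
    · intro n l u he he'
      exact h1 _ he _ he' rfl rfl rfl u (by simp) rfl
    · intro n v l he he'
      exact h2 _ he _ he' rfl rfl rfl
    · intro n i j l he he'
      exact h3 _ he _ he' rfl rfl rfl rfl
    · intro e he e' he' hk ha
      exact h4 e he e' he' hk ((bAgree_iff _ _).2 ha)

end Pool.Agent.Helper367SM.InKAux
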