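import Pool.Agent.Helper367_SM.Fam

set_option autoImplicit false

/-!
Task INV: every believed structure is in the class `K`.
-/

namespace Pool.Agent.Helper367SM

namespace InvAux

variable {Lam : ℕ → ℕ → ℕ} {path : ℕ → List ℕ} {c : ℕ → ℕ} {New : ℕ → Finset Edge}

/-- The structure after stage `t`. -/
def Sp (path : ℕ → List ℕ) (New : ℕ → Finset Edge) (t : ℕ) : Set Edge := Str path New t ∪ New t

theorem alive_mono {w s t : ℕ} (h : Alive path w t) (hst : s ≤ t) : Alive path w s :=
  fun t' h1 h2 u hu hw => h t' h1 (h2.trans hst) u hu hw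

theorem mem_path_of_alive {v w t : ℕ} (hv : v ∈ path t) (hwt : w < t) (h : Alive path w t)
    (hvw : v < w) : v ∈ path w := h t hwt le_rfl v hv hvw

theorem alive_of_mem (hG : GS path) {v t : ℕ} (hv : v ∈ path t) : Alive path v t := by
  intro t' h1 h2 u hu huv
  rcases h2.eq_or_lt with rfl | h2
  · exact (hG.s1 _ v hv u).2 ⟨hu, huv⟩
  · exact hG.s2 t t' v u hv h1 h2 hu huv

theorem cmono (hC : Constr Lam path c New) : Monotone c := monotone_nat_of_le_succ hC.mono

/-- Strongness of the initial segments for all edges ever created. -/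
theorem star (hC : Constr Lam path c New) (s : ℕ) (Z : Finset ℕ) (G : Finset Edge)
    (hG : ∀ e ∈ G, (∃ j, e ∈ New j) ∧ (∀ x ∈ e.2, x < c s ∨ x ∈ Z) ∧
      ∃ x ∈ e.2, x ∈ Z ∧ c s ≤ x) : G.card ≤ Z.card := by
  classical
  have hc := cmono hC
  have h1 : ∃ N, ∀ e ∈ G, ∃ j < N, e ∈ New j := by
    have h2 : ∀ e ∈ G, ∃ j, e ∈ New j := fun e he => (hG e he).1
    choose! j hj using h2
    refine ⟨G.sup j + 1, fun e he => ⟨j e, ?_, hj e he⟩⟩
    exact Nat.lt_succ_of_le (Finset.le_sup (f := j) he)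
  obtain ⟨N, hN⟩ := h1
  let Zf : ℕ → Finset ℕ := fun j => Z.filter (fun x => c j ≤ x ∧ x < c (j + 1))
  have hcover : G ⊆ (Finset.range N).biUnion (fun j => G.filter (fun e => e ∈ New j)) := by
    intro e he
    obtain ⟨j, hj, hej⟩ := hN e he
    exact Finset.mem_biUnion.2 ⟨j, Finset.mem_range.2 hj, Finset.mem_filter.2 ⟨he, hej⟩⟩
  have hblock : ∀ j, (G.filter (fun e => e ∈ New j)).card ≤ (Zf j).card := by
    intro j
    refine le_trans (Finset.card_le_card ?_) (hC.strong j (Zf j) ?_)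
    · intro e he
      obtain ⟨heG, hej⟩ := Finset.mem_filter.1 he
      obtain ⟨_, h2, z, hz, hzZ, hzs⟩ := hG e heG
      rw [Finset.mem_filter]
      refine ⟨hej, fun x hx => ?_⟩
      by_cases hxj : x < c j
      · exact Or.inl hxj
      · right
        have hx1 := hC.inside j e hej x hx
        have hz1 := hC.inside j e hej z hz
        rcases h2 x hx with h3 | h3
        · exfalso
          have h4 : j < s := by
            by_contra h4
            exact hxj (h3.trans_le (hc (not_lt.1 h4)))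
          have h5 : c (j + 1) ≤ c s := hc h4
          omega
        · exact Finset.mem_filter.2 ⟨h3, not_lt.1 hxj, hx1⟩
    · intro y hy
      exact (Finset.mem_filter.1 hy).2.1
  have hdisj : ∀ j ∈ Finset.range N, ∀ j' ∈ Finset.range N, j ≠ j' →
      Disjoint (Zf j) (Zf j') := by
    intro j _ j' _ hne
    rw [Finset.disjoint_left]
    intro x hx hx'
    obtain ⟨_, h1, h2⟩ := Finset.mem_filter.1 hx
    obtain ⟨_, h3, h4⟩ := Finset.mem_filter.1 hx'
    rcases lt_or_gt_of_ne hne with h | h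
    · have := hc (show j + 1 ≤ j' from h)
      omega
    · have := hc (show j' + 1 ≤ j from h)
      omega
  calc G.card ≤ ((Finset.range N).biUnion (fun j => G.filter (fun e => e ∈ New j))).card :=
        Finset.card_le_card hcover
    _ ≤ ∑ j ∈ Finset.range N, (G.filter (fun e => e ∈ New j)).card := Finset.card_biUnion_le
    _ ≤ ∑ j ∈ Finset.range N, (Zf j).card := Finset.sum_le_sum fun j _ => hblock j
    _ = ((Finset.range N).biUnion Zf).card := (Finset.card_biUnion hdisj).symm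
    _ ≤ Z.card := Finset.card_le_card (Finset.biUnion_subset.2 fun j _ => Finset.filter_subset _ _)

theorem mem_Sp_of {j s : ℕ} {e : Edge} (he : e ∈ New j) (hjs : j ≤ s)
    (hb : j < s → Bel path s j e.1) : e ∈ Sp path New s := by
  rcases hjs.eq_or_lt with rfl | h
  · exact Or.inr he
  · exact Or.inl ⟨j, h, he, hb h⟩

theorem ver_unique {Y : Set Edge} (hY : InK Lam Y) : ∀ v v' l, (Sym.P v, l) ∈ Y →
    (Sym.P v', l) ∈ Y → v = v' := by
  intro v v' l h h'
  have h1 := hY.fn _ h _ h' rfl ⟨0, fun _ _ => rfl⟩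
  injection h1 with h2 _
  injection h2

/-- Transfer of matching. -/
theorem transfer {X Y : Set Edge} {Q : Finset SEdge} {f : ℕ → ℕ}
    (kp : ∀ n l, (SSym.K n, l) ∈ Q → (SSym.P, l.take 2) ∈ Q)
    (hu : ∀ v v' l, (Sym.P v, l) ∈ Y → (Sym.P v', l) ∈ Y → v = v')
    (h : ∀ q ∈ Q, ∀ e, MEdge Lam X f e q → e ∈ Y)
    (hm : ∀ q ∈ Q, Matched Lam X Q f q) : ∀ q ∈ Q, Matched Lam Y Q f q := by
  rintro ⟨s, l⟩ hq
  have h1 := hm _ hq
  cases s with
  | E n i =>
    refine ⟨h _ hq _ ⟨rfl, h1.1⟩, fun hP v hv => ?_⟩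
    obtain ⟨v', hv'⟩ := hm _ hP
    have h2 : (Sym.P v', (l.take 2).map f) ∈ Y := h _ hP _ ⟨v', rfl, hv'⟩
    rw [hu v v' _ hv h2]
    exact h1.2 hP v' hv'
  | K n =>
    obtain ⟨v, h2, h3⟩ := h1
    exact ⟨v, h _ (kp _ _ hq) _ ⟨v, rfl, h2⟩, h _ hq _ ⟨v, h2, rfl, h3⟩⟩
  | R n => exact h _ hq _ ⟨rfl, h1⟩
  | S n => exact h _ hq _ ⟨rfl, h1⟩
  | P =>
    obtain ⟨v, h2⟩ := h1
    exact ⟨v, h _ hq _ ⟨v, rfl, h2⟩⟩

theorem Fam.sub {X : Set Edge} {π : Pat} {J J' : Finset ℕ} {f : ℕ → ℕ → ℕ}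
    (hF : Fam Lam X π J f) (h : J' ⊆ J) : Fam Lam X π J' f where
  inj j hj := hF.inj j (h hj)
  base i hi j hj := hF.base i (h hi) j (h hj)
  disj i hi j hj := hF.disj i (h hi) j (h hj)
  mat j hj := hF.mat j (h hj)

/-- Two believed edges of the same kind. -/
theorem both (hG : GS path) {t j j' : ℕ} {e e' : Edge} (he : e ∈ New j) (he' : e' ∈ New j')
    (hj' : j' < t) (hb : Bel path t j e.1) (hb' : Bel path t j' e'.1)
    (hk : e.1.kind = e'.1.kind) (hjj : j ≤ j') : e ∈ Sp path New j' ∧ e' ∈ Sp path New j' := by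
  refine ⟨mem_Sp_of he hjj fun hlt => ?_, Or.inr he'⟩
  obtain ⟨s, l⟩ := e
  obtain ⟨s', l'⟩ := e'
  cases s with
  | E n i => exact trivial
  | R n => exact trivial
  | S n => exact alive_mono hb hj'.le
  | P v =>
    cases s' with
    | E n i => exact absurd hk (by simp [Sym.kind])
    | R n => exact absurd hk (by simp [Sym.kind])
    | S n => exact absurd hk (by simp [Sym.kind])
    | P v' => exact (hG.s1 t j' hb' j).2 ⟨hb, hlt⟩

theorem Agree.symm {l l' : List ℕ} (h : Agree l l') : Agree l' l := by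
  obtain ⟨p, hp⟩ := h
  exact ⟨p, fun k hk => (hp k hk).symm⟩

theorem mu_step (hG : GS path) (hC : Constr Lam path c New) (t : ℕ)
    (ih : ∀ s < t, InK Lam (Sp path New s)) (π : Pat) (hπ : π.Good) (J : Finset ℕ)
    (f : ℕ → ℕ → ℕ) (hF : Fam Lam (Str path New t) π J f) : J.card ≤ π.mu := by
  classical
  have hc := cmono hC
  rcases J.eq_empty_or_nonempty with rfl | ⟨j0, hj0⟩
  · simp
  by_cases hSP : ∃ q ∈ π.Q, (∃ n, q.1 = SSym.S n) ∨ q.1 = SSym.P
  · obtain ⟨q0, hq0, hq0s⟩ := hSP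
    -- believed `S`- and `P`-edges come from alive stages
    have hal : ∀ j < t, ∀ e ∈ New j, Bel path t j e.1 → ((∃ n, e.1 = Sym.S n) ∨ ∃ v, e.1 = Sym.P v) →
        Alive path j t := by
      rintro j hj ⟨s, l⟩ he hb (⟨n, hs⟩ | ⟨v, hs⟩)
      · simp only at hs
        subst hs
        exact hb
      · simp only at hs
        subst hs
        exact alive_of_mem hG hb
    -- the edge matching `q0`
    have hSPedge : ∀ j ∈ J, ∃ e, MEdge Lam (Str path New t) (f j) e q0 ∧
        ((∃ n, e.1 = Sym.S n) ∨ ∃ v, e.1 = Sym.P v) := by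
      intro j hj
      obtain ⟨e, he, _, _⟩ := Matched_proof _ _ _ _ _ (hF.mat j hj q0 hq0)
      refine ⟨e, he, ?_⟩
      obtain ⟨s, l⟩ := q0
      rcases hq0s with ⟨n, hs⟩ | hs
      · simp only at hs
        subst hs
        exact Or.inl ⟨n, by rw [he.1]⟩
      · simp only at hs
        subst hs
        obtain ⟨v, hv, _⟩ := he
        exact Or.inr ⟨v, by rw [hv]⟩
    -- the largest alive stage
    obtain ⟨w, hwt, hwal, hwmax⟩ : ∃ w < t, Alive path w t ∧ ∀ j < t, Alive path j t → j ≤ w := by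
      have hne : ((Finset.range t).filter (fun j => Alive path j t)).Nonempty := by
        obtain ⟨e, he, hs⟩ := hSPedge j0 hj0
        obtain ⟨j, hj, hej, hb⟩ := he.mem
        exact ⟨j, Finset.mem_filter.2 ⟨Finset.mem_range.2 hj, hal j hj e hej hb hs⟩⟩
      have h1 := Finset.max'_mem _ hne
      rw [Finset.mem_filter, Finset.mem_range] at h1
      refine ⟨_, h1.1, h1.2, fun j hj hjal => ?_⟩
      exact Finset.le_max' _ _ (Finset.mem_filter.2 ⟨Finset.mem_range.2 hj, hjal⟩)
    let O : Set ℕ := {x | x < c (w + 1)}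
    -- edges inside `O` are in `Sp w`
    have hin : ∀ e ∈ Str path New t, (∀ x ∈ e.2, x ∈ O) → e ∈ Sp path New w := by
      rintro ⟨s, l⟩ ⟨j, hj, hej, hb⟩ hO
      obtain ⟨x, hx, hxj⟩ := hC.meets j _ hej
      have hx1 : x < c (w + 1) := hO x hx
      have hjw : j ≤ w := by
        by_contra h
        have := hc (show w + 1 ≤ j by omega)
        omega
      refine mem_Sp_of hej hjw fun hlt => ?_
      cases s with
      | E n i => exact trivial
      | R n => exact trivial
      | S n => exact alive_mono hb hwt.le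
      | P v => exact mem_path_of_alive hb hwt hwal hlt
    have hmeet : ∀ j ∈ J, ∃ x ∈ π.C, f j x ∈ O := by
      intro j hj
      obtain ⟨e, he, hs⟩ := hSPedge j hj
      obtain ⟨i, hi, hei, hb⟩ := he.mem
      have hiw := hwmax i hi (hal i hi e hei hb hs)
      obtain ⟨x, hx, hxC⟩ := hπ.meets q0 hq0
      refine ⟨x, hxC, ?_⟩
      have h1 : f j x ∈ e.2 := by rw [he.list]; exact List.mem_map_of_mem hx
      exact (hC.inside i e hei _ h1).trans_le (hc (by omega))
    let A2 : Finset ℕ := π.A.filter (fun a => f j0 a ∉ O)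
    have hA2 : A2 ⊆ π.A := Finset.filter_subset _ _
    have hAO : ∀ j ∈ J, ∀ a ∈ π.A, (a ∈ A2 ↔ f j a ∉ O) := by
      intro j hj a ha
      rw [hF.base j hj j0 hj0 a ha, Finset.mem_filter]
      exact ⟨fun h => h.2, fun h => ⟨ha, h⟩⟩
    -- the Family Lemma and strongness
    have hmain : ∀ J' ⊆ J, (∀ j ∈ J', A2.Nonempty ∨ ∃ x ∈ π.C, f j x ∉ O) → J'.card ≤ A2.card := by
      intro J' hJ' hne
      obtain ⟨W, G, h1, _, h3, h4⟩ := Family_proof Lam (Str path New t) π hπ J' f (Fam.sub hF hJ')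
        O A2 hA2 (fun j hj => hAO j (hJ' hj)) (fun j hj => hmeet j (hJ' hj)) hne
      have h5 : G.card ≤ W.card := by
        refine star hC (w + 1) W G fun e he => ?_
        obtain ⟨⟨j, _, q, _, hq⟩, h6, x, hx, hxW⟩ := h4 e he
        obtain ⟨i, _, hei, _⟩ := hq.mem
        refine ⟨⟨i, hei⟩, h6, x, hx, hxW, ?_⟩
        exact not_lt.1 (h3 x hxW)
      omega
    by_cases hA2ne : A2.Nonempty
    · have h1 := hmain J (Finset.Subset.refl _) fun _ _ => Or.inl hA2ne
      have h2 : A2.card ≤ π.A.card := Finset.card_le_card hA2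
      unfold Pat.mu
      omega
    · have hA20 : A2 = ∅ := Finset.not_nonempty_iff_eq_empty.1 hA2ne
      have hCO : ∀ j ∈ J, ∀ x ∈ π.C, f j x ∈ O := by
        intro j hj x hx
        by_contra hO
        have h1 := hmain {j} (Finset.singleton_subset_iff.2 hj) (by
          intro i hi
          rw [Finset.mem_singleton] at hi
          rw [hi]
          exact Or.inr ⟨x, hx, hO⟩)
        rw [hA20, Finset.card_singleton, Finset.card_empty] at h1
        omega
      have hACO : ∀ j ∈ J, ∀ x ∈ π.A ∪ π.C, f j x ∈ O := by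
        intro j hj x hx
        rcases Finset.mem_union.1 hx with hx | hx
        · by_contra hO
          have := (hAO j hj x hx).2 hO
          rw [hA20] at this
          exact Finset.notMem_empty _ this
        · exact hCO j hj x hx
      have hK := ih w hwt
      refine hK.mu π hπ J f ⟨hF.inj, hF.base, hF.disj, fun j hj => ?_⟩
      refine transfer hπ.kp (ver_unique hK) ?_ (hF.mat j hj)
      intro q hq e he
      refine hin e he.mem fun x hx => ?_
      rw [he.list] at hx
      obtain ⟨y, hy, rfl⟩ := List.mem_map.1 hx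
      exact hACO j hj y (hπ.inside q hq y hy)
  · -- only `E` and `R`
    have hQne : π.Q.Nonempty := by
      rw [← Finset.card_pos, hπ.card]
      have := hπ.two
      omega
    have ht : 0 < t := by
      obtain ⟨q, hq⟩ := hQne
      obtain ⟨e, he, _, _⟩ := Matched_proof _ _ _ _ _ (hF.mat j0 hj0 q hq)
      obtain ⟨j, hj, _⟩ := he.mem
      omega
    have hK := ih (t - 1) (by omega)
    refine hK.mu π hπ J f ⟨hF.inj, hF.base, hF.disj, fun j hj => ?_⟩
    refine transfer hπ.kp (ver_unique hK) ?_ (hF.mat j hj)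
    rintro ⟨s, l⟩ hq e he
    obtain ⟨i, hi, hei, hb⟩ := he.mem
    refine mem_Sp_of hei (by omega) fun hlt => ?_
    cases s with
    | E n i => rw [he.1]; exact trivial
    | K n => exact absurd ⟨_, hπ.kp _ _ hq, Or.inr rfl⟩ hSP
    | R n => rw [he.1]; exact trivial
    | S n => exact absurd ⟨_, hq, Or.inl ⟨n, rfl⟩⟩ hSP
    | P => exact absurd ⟨_, hq, Or.inr rfl⟩ hSP

theorem step (hG : GS path) (hC : Constr Lam path c New) (t : ℕ)
    (ih : ∀ s < t, InK Lam (Sp path New s)) : InK Lam (Str path New t) where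
  wf := by
    rintro e ⟨j, hj, he, _⟩
    exact (ih j hj).wf e (Or.inr he)
  h1 := by
    rintro n l u ⟨w, hw, hS, hSb⟩ ⟨j, hj, hR, _⟩
    rcases le_or_gt j w with h | h
    · exact (ih w hw).h1 n l u (Or.inr hS) (mem_Sp_of hR h fun _ => trivial)
    · exact (ih j hj).h1 n l u (mem_Sp_of hS h.le fun _ => alive_mono hSb hj.le) (Or.inr hR)
  h2 := by
    rintro n v' l ⟨w, hw, hS, hSb⟩ ⟨v, hv, hP, hPb⟩
    have hvv := hC.verP v v' _ hP
    subst hvv
    have key : ∀ s < t, (Sym.S n, l) ∈ Sp path New s → (Sym.P v', l.take 2) ∈ Sp path New s →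
        (Sym.E n (Lam v' n), l.take 3) ∈ Str path New t := by
      intro s hs h1 h2
      rcases (ih s hs).h2 n v' l h1 h2 with h3 | h3
      · obtain ⟨j, hj, h4, _⟩ := h3
        exact ⟨j, hj.trans hs, h4, trivial⟩
      · exact ⟨s, hs, h3, trivial⟩
    rcases lt_trichotomy w v' with h | h | h
    · exact key v' hv (mem_Sp_of hS h.le fun _ => alive_mono hSb hv.le) (Or.inr hP)
    · subst h
      exact key w hw (Or.inr hS) (Or.inr hP)
    · exact key w hw (Or.inr hS) (mem_Sp_of hP h.le fun _ => mem_path_of_alive hPb hw hSb h)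
  h3 := by
    rintro n i j l ⟨a, ha, h1, _⟩ ⟨b, hb, h2, _⟩
    exact (ih (max a b) (max_lt ha hb)).h3 n i j l
      (mem_Sp_of h1 (le_max_left _ _) fun _ => trivial)
      (mem_Sp_of h2 (le_max_right _ _) fun _ => trivial)
  fn := by
    rintro e ⟨j, hj, he, hb⟩ e' ⟨j', hj', he', hb'⟩ hk ha
    rcases le_total j j' with h | h
    · obtain ⟨h1, h2⟩ := both hG he he' hj' hb hb' hk h
      exact (ih j' hj').fn e h1 e' h2 hk ha
    · obtain ⟨h1, h2⟩ := both hG he' he hj hb' hb hk.symm h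
      exact ((ih j hj).fn e' h1 e h2 hk.symm (Agree.symm ha)).symm
  mu := mu_step hG hC t ih

end InvAux

theorem Inv_proof : S_Inv := by
  intro Lam path c New hG hC t
  induction t using Nat.strong_induction_on with
  | _ t ih => exact InvAux.step hG hC t fun s hs => hC.ok s (ih s hs)

end Pool.Agent.Helper367SM
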