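import Pool.Agent.Helper367_SM.Spec

set_option autoImplicit false
set_option linter.unusedVariables false

namespace Pool.Agent.Helper367SM

open FirstOrder

namespace CM101

open FirstOrder.Language

/-- `P` is uniformly first order definable. -/
def Dfn (L : FirstOrder.Language.{0, 0}) (α : Type)
    (P : ∀ (N : Type) [L.Structure N], (α → N) → Prop) : Prop :=
  ∃ φ : L.Formula α, ∀ (N : Type) [L.Structure N] (v : α → N), φ.Realize v ↔ P N v

section

variable {L : FirstOrder.Language.{0, 0}} {α : Type}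

theorem Dfn.imp {P Q : ∀ (N : Type) [L.Structure N], (α → N) → Prop}
    (hP : Dfn L α (fun N _ v => P N v)) (hQ : Dfn L α (fun N _ v => Q N v)) :
    Dfn L α (fun N _ v => P N v → Q N v) := by
  obtain ⟨φ, hφ⟩ := hP
  obtain ⟨ψ, hψ⟩ := hQ
  refine ⟨φ.imp ψ, fun N _ v => ?_⟩
  rw [Formula.realize_imp, hφ, hψ]

theorem Dfn.and {P Q : ∀ (N : Type) [L.Structure N], (α → N) → Prop}
    (hP : Dfn L α (fun N _ v => P N v)) (hQ : Dfn L α (fun N _ v => Q N v)) :
    Dfn L α (fun N _ v => P N v ∧ Q N v) := by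
  obtain ⟨φ, hφ⟩ := hP
  obtain ⟨ψ, hψ⟩ := hQ
  refine ⟨φ ⊓ ψ, fun N _ v => ?_⟩
  rw [Formula.realize_inf, hφ, hψ]

theorem Dfn.not {P : ∀ (N : Type) [L.Structure N], (α → N) → Prop}
    (hP : Dfn L α (fun N _ v => P N v)) :
    Dfn L α (fun N _ v => ¬ P N v) := by
  obtain ⟨φ, hφ⟩ := hP
  refine ⟨φ.not, fun N _ v => ?_⟩
  rw [Formula.realize_not, hφ]

theorem Dfn.all {P : ∀ (N : Type) [L.Structure N], (α → N) → N → Prop}
    (hP : Dfn L (α ⊕ Unit) (fun N _ v => P N (fun a => v (Sum.inl a)) (v (Sum.inr ())))) :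
    Dfn L α (fun N _ v => ∀ u : N, P N v u) := by
  obtain ⟨φ, hφ⟩ := hP
  refine ⟨φ.iAlls Unit, fun N _ v => ?_⟩
  rw [Formula.realize_iAlls]
  constructor
  · intro h u
    have := (hφ N (Sum.elim v fun _ => u)).1 (h fun _ => u)
    exact this
  · intro h i
    refine (hφ N (Sum.elim v i)).2 ?_
    exact h (i ())

theorem Dfn.ex {P : ∀ (N : Type) [L.Structure N], (α → N) → N → Prop}
    (hP : Dfn L (α ⊕ Unit) (fun N _ v => P N (fun a => v (Sum.inl a)) (v (Sum.inr ())))) :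
    Dfn L α (fun N _ v => ∃ u : N, P N v u) := by
  obtain ⟨φ, hφ⟩ := hP
  refine ⟨φ.iExs Unit, fun N _ v => ?_⟩
  rw [Formula.realize_iExs]
  constructor
  · rintro ⟨i, hi⟩
    exact ⟨i (), (hφ N (Sum.elim v i)).1 hi⟩
  · rintro ⟨u, hu⟩
    exact ⟨fun _ => u, (hφ N (Sum.elim v fun _ => u)).2 hu⟩

theorem Dfn.eq (a b : α) : Dfn L α (fun N _ v => v a = v b) := by
  refine ⟨Term.equal (Term.var a) (Term.var b), fun N _ v => ?_⟩
  rw [Formula.realize_equal]
  rfl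

theorem Dfn.rel3 (R : L.Relations 3) (a b c : α) :
    Dfn L α (fun N _ v => Structure.RelMap R ![v a, v b, v c]) := by
  refine ⟨R.formula ![Term.var a, Term.var b, Term.var c], fun N _ v => ?_⟩
  rw [Formula.realize_rel]
  apply iff_of_eq
  congr 1
  funext i
  fin_cases i <;> rfl

theorem Dfn.rel5 (R : L.Relations 5) (a b c d e : α) :
    Dfn L α (fun N _ v => Structure.RelMap R ![v a, v b, v c, v d, v e]) := by
  refine ⟨R.formula ![Term.var a, Term.var b, Term.var c, Term.var d, Term.var e],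
    fun N _ v => ?_⟩
  rw [Formula.realize_rel]
  apply iff_of_eq
  congr 1
  funext i
  fin_cases i <;> rfl

theorem Dfn.allFin {ι : Type} [DecidableEq ι] (s : Finset ι)
    {P : ι → ∀ (N : Type) [L.Structure N], (α → N) → Prop}
    (hP : ∀ i, Dfn L α (fun N _ v => P i N v)) :
    Dfn L α (fun N _ v => ∀ i ∈ s, P i N v) := by
  induction s using Finset.induction_on with
  | empty =>
    refine ⟨⊤, fun N _ v => ?_⟩
    simp
  | insert i s hi ih =>
    obtain ⟨φ, hφ⟩ := (hP i).and ih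
    refine ⟨φ, fun N _ v => (hφ N v).trans ?_⟩
    exact (Finset.forall_mem_insert i s (fun j => P j N v)).symm

theorem Dfn.transfer {P : ∀ (N : Type) [L.Structure N], (α → N) → Prop}
    (hP : Dfn L α (fun N _ v => P N v)) {M N : Type} [L.Structure M] [L.Structure N]
    (E : M ↪ₑ[L] N) (v : α → M) : P N (fun a => E (v a)) ↔ P M v := by
  obtain ⟨φ, hφ⟩ := hP
  exact ((hφ N fun a => E (v a)).symm.trans (E.map_formula φ v)).trans (hφ M v)

end

/-- the formula `Ŝ n` -/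
def SH (N : Type) [sig0.lang.Structure N] (n : ℕ) (a b c d : N) : Prop :=
  (¬ a = b ∧ ¬ a = c ∧ ¬ a = d ∧ ¬ b = c ∧ ¬ b = d ∧ ¬ c = d) ∧
    ∀ u : N, ¬ Structure.RelMap (relR n) ![a, b, c, d, u]

/-- the formula `P̂` -/
def PH (N : Type) [sig0.lang.Structure N] (a b : N) : Prop :=
  ¬ a = b ∧ ∀ x2 x3 y2 y3 : N, SH N 0 a b x2 x3 → SH N 0 a b y2 y3 → x2 = y2

theorem dSH {α : Type} (n : ℕ) (a b c d : α) :
    Dfn sig0.lang α (fun N _ v => SH N n (v a) (v b) (v c) (v d)) := by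
  unfold SH
  exact ((Dfn.eq a b).not.and ((Dfn.eq a c).not.and ((Dfn.eq a d).not.and
    ((Dfn.eq b c).not.and ((Dfn.eq b d).not.and (Dfn.eq c d).not))))).and
    (Dfn.all (P := fun N _ v u => ¬ Structure.RelMap (relR n) ![v a, v b, v c, v d, u])
      (Dfn.rel5 (relR n) (Sum.inl a) (Sum.inl b) (Sum.inl c) (Sum.inl d) (Sum.inr ())).not)

theorem dPH {α : Type} (a b : α) :
    Dfn sig0.lang α (fun N _ v => PH N (v a) (v b)) := by
  unfold PH
  refine (Dfn.eq a b).not.and (Dfn.all (Dfn.all (Dfn.all (Dfn.all ?_))))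
  exact (dSH 0 _ _ _ _).imp ((dSH 0 _ _ _ _).imp (Dfn.eq _ _))

/-! ### the meaning in the model `M0` -/

theorem symOf_R (n : ℕ) : symOf (2 * n + 1) = Sym.R n := by
  unfold symOf
  rw [if_neg (by omega)]
  congr 1
  omega

theorem symOf_E (n i : ℕ) : symOf (2 * Nat.pair n i) = Sym.E n i := by
  unfold symOf
  rw [if_pos (by omega)]
  have : 2 * Nat.pair n i / 2 = Nat.pair n i := by omega
  rw [this, Nat.unpair_pair]

theorem relR_iff (M : Set Edge) (n : ℕ) (a b c d e : Car M) :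
    Structure.RelMap (relR n) ![a, b, c, d, e] ↔
      (Sym.R n, [(a : ℕ), (b : ℕ), (c : ℕ), (d : ℕ), (e : ℕ)]) ∈ M := by
  change (symOf (2 * n + 1), List.ofFn (fun i => (show ℕ from ![a, b, c, d, e] i))) ∈ M ↔ _
  rw [symOf_R]
  rfl

theorem relE_iff (M : Set Edge) (n i : ℕ) (a b c : Car M) :
    Structure.RelMap (relE n i) ![a, b, c] ↔
      (Sym.E n i, [(a : ℕ), (b : ℕ), (c : ℕ)]) ∈ M := by
  change (symOf (2 * Nat.pair n i), List.ofFn (fun i => (show ℕ from ![a, b, c] i))) ∈ M ↔ _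
  rw [symOf_E]
  rfl

theorem nodup4 (x0 x1 x2 x3 : ℕ) : [x0, x1, x2, x3].Nodup ↔
    (¬ x0 = x1 ∧ ¬ x0 = x2 ∧ ¬ x0 = x3 ∧ ¬ x1 = x2 ∧ ¬ x1 = x3 ∧ ¬ x2 = x3) := by
  simp [List.nodup_cons]
  tauto

theorem nodup2 (x0 x1 : ℕ) : [x0, x1].Nodup ↔ ¬ x0 = x1 := by
  simp

theorem SH_iff (h1 : S_D1) {Lam : ℕ → ℕ → ℕ} {TPs : Set ℕ} {M : Set Edge} {c : ℕ → ℕ}
    (hL : Lim Lam TPs M c) (n : ℕ) (x0 x1 x2 x3 : Car M) :
    SH (Car M) n x0 x1 x2 x3 ↔ (Sym.S n, [(x0 : ℕ), x1, x2, x3]) ∈ M := by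
  have key := h1 Lam TPs M c hL n [(x0 : ℕ), x1, x2, x3] rfl
  have hnd := nodup4 x0 x1 x2 x3
  constructor
  · rintro ⟨h2, h3⟩
    refine (key (hnd.2 h2)).1 ?_
    intro u
    exact (relR_iff M n x0 x1 x2 x3 u).not.1 (h3 u)
  · intro h
    have hnd' := (hL.inK.wf _ h).2
    refine ⟨hnd.1 hnd', ?_⟩
    intro u
    exact (relR_iff M n x0 x1 x2 x3 u).not.2 ((key hnd').2 h u)

theorem PH_iff (h1 : S_D1) (h2 : S_D2) {Lam : ℕ → ℕ → ℕ} {TPs : Set ℕ} {M : Set Edge}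
    {c : ℕ → ℕ} (hL : Lim Lam TPs M c) (x0 x1 : Car M) :
    PH (Car M) x0 x1 ↔ ∃ v, (Sym.P v, [(x0 : ℕ), x1]) ∈ M := by
  have key := h2 Lam TPs M c hL (x0 : ℕ) (x1 : ℕ)
  constructor
  · rintro ⟨h3, h4⟩
    refine (key h3).2 ?_
    intro x2 x3 y2 y3 hx hy
    exact h4 x2 x3 y2 y3 ((SH_iff h1 hL 0 x0 x1 x2 x3).2 hx) ((SH_iff h1 hL 0 x0 x1 y2 y3).2 hy)
  · rintro ⟨v, hv⟩
    have hne : ¬ x0 = x1 := (nodup2 x0 x1).1 (hL.inK.wf _ hv).2
    refine ⟨hne, ?_⟩
    intro x2 x3 y2 y3 hx hy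
    exact (key hne).1 ⟨v, hv⟩ x2 x3 y2 y3 ((SH_iff h1 hL 0 x0 x1 x2 x3).1 hx)
      ((SH_iff h1 hL 0 x0 x1 y2 y3).1 hy)

end CM101

open CM101 FirstOrder.Language in
-- TARGET
theorem CodingModel_proof (h1 : S_D1) (h2 : S_D2) (h3 : S_D3) (h4 : S_D4) (h5 : S_D5) (h6 : S_D6)
    (hP : S_Prime) : S_CodingModel := by
  classical
  intro Lam TPs M c Pst lim hL hLL
  have : Infinite (Car M) := inferInstanceAs (Infinite ℕ)
  have : Countable (Car M) := inferInstanceAs (Countable ℕ)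
  -- the language is countable
  have : ∀ l, Countable (sig0.lang.Functions l) := fun l =>
    inferInstanceAs (Countable {k : ℕ // sig0.far k = l})
  have : ∀ l, Countable (sig0.lang.Relations l) := fun l =>
    inferInstanceAs (Countable {k : ℕ // sig0.rar k = l})
  have hcard : sig0.lang.card ≤ Cardinal.aleph0 := by
    have : Countable sig0.lang.Symbols :=
      inferInstanceAs (Countable ((Σ l, sig0.lang.Functions l) ⊕ (Σ l, sig0.lang.Relations l)))
    exact Cardinal.mk_le_aleph0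
  obtain ⟨N', ⟨E⟩, hN'⟩ := Language.exists_elementaryEmbedding_card_eq_of_ge sig0.lang (Car M)
    (Cardinal.continuum : Cardinal.{0})
    (by simpa using hcard.trans Cardinal.aleph0_le_continuum)
    (by simpa using (Cardinal.mk_le_aleph0 (α := Car M)).trans Cardinal.aleph0_le_continuum)
  -- a new element
  obtain ⟨c0, hc0⟩ : ∃ c0 : N', c0 ∉ Set.range E := by
    by_contra hcon
    push Not at hcon
    have hsurj : Function.Surjective E := hcon
    have : Countable N' := hsurj.countable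
    have h7 : Cardinal.mk N' ≤ Cardinal.aleph0 := Cardinal.mk_le_aleph0
    rw [hN'] at h7
    exact absurd h7 (not_le.2 Cardinal.aleph0_lt_continuum)
  obtain ⟨S, hS1, hS2⟩ := Language.exists_elementarySubstructure_card_eq sig0.lang
    (M := N') (insert c0 (Set.range E)) (Cardinal.aleph0 : Cardinal.{0}) le_rfl
    (by
      have : (insert c0 (Set.range E)).Countable := (Set.countable_range E).insert c0
      simpa using Cardinal.le_aleph0_iff_set_countable.2 this)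
    (by simpa using hcard)
    (by
      rw [hN']
      simpa using Cardinal.aleph0_le_continuum)
  have hcount : Countable S := by
    have h8 : Cardinal.mk S ≤ Cardinal.aleph0 := by simpa using hS2.le
    exact Cardinal.mk_le_aleph0_iff.1 h8
  let c1 : S := ⟨c0, hS1 (Set.mem_insert _ _)⟩
  let w : ℕ → S := fun m => ⟨E m, hS1 (Set.mem_insert_of_mem _ ⟨m, rfl⟩)⟩
  have hw : ∀ m, ¬ c1 = w m := fun m h => hc0 ⟨m, (congrArg Subtype.val h).symm⟩
  have tr : ∀ (P : ∀ (N : Type) [sig0.lang.Structure N], (ℕ → N) → Prop),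
      Dfn sig0.lang ℕ (fun N _ v => P N v) → P (Car M) (fun m => m) → P S w := by
    intro P hP h
    have e1 := Dfn.transfer hP S.subtype w
    have e2 := Dfn.transfer hP E (fun m => m)
    exact e1.1 (e2.2 h)
  -- the sentence from (D3)
  have T1 := tr (fun N _ v => ∀ x0 : N, ∃ x1 : N, PH N x0 x1)
    (Dfn.all (Dfn.ex (dPH _ _)))
    (fun x0 => by
      obtain ⟨x1, v, hv⟩ := h3 Lam TPs M c hL x0
      exact ⟨x1, (PH_iff h1 h2 hL x0 x1).2 ⟨v, hv⟩⟩)
  -- the sentences from (D4)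
  have T2 := fun n : ℕ => tr (fun N _ v => ∀ x0 x1 : N, PH N x0 x1 →
      ∃ x2 x3 : N, SH N n x0 x1 x2 x3)
    (Dfn.all (Dfn.all ((dPH _ _).imp (Dfn.ex (Dfn.ex (dSH n _ _ _ _))))))
    (fun x0 x1 h => by
      obtain ⟨v, hv⟩ := (PH_iff h1 h2 hL x0 x1).1 h
      obtain ⟨x2, x3, h9⟩ := h4 Lam TPs M c hL x0 x1 v hv n
      exact ⟨x2, x3, (SH_iff h1 hL n x0 x1 x2 x3).2 h9⟩)
  -- the formulas from (D5) and (D6)
  have T3 := fun (n i : ℕ) (F : Finset ℕ) => tr (fun N _ v => ∀ x0 x1 x2 x3 : N,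
      (∀ m ∈ F, ¬ x0 = v m) → PH N x0 x1 → SH N n x0 x1 x2 x3 →
        Structure.RelMap (relE n i) ![x0, x1, x2])
    (Dfn.all (Dfn.all (Dfn.all (Dfn.all ((Dfn.allFin F (fun m => (Dfn.eq _ _).not)).imp
      ((dPH _ _).imp ((dSH n _ _ _ _).imp (Dfn.rel3 (relE n i) _ _ _))))))))
  have T4 := fun (n i : ℕ) (F : Finset ℕ) => tr (fun N _ v => ∀ x0 x1 x2 x3 : N,
      (∀ m ∈ F, ¬ x0 = v m) → PH N x0 x1 → SH N n x0 x1 x2 x3 →
        ¬ Structure.RelMap (relE n i) ![x0, x1, x2])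
    (Dfn.all (Dfn.all (Dfn.all (Dfn.all ((Dfn.allFin F (fun m => (Dfn.eq _ _).not)).imp
      ((dPH _ _).imp ((dSH n _ _ _ _).imp (Dfn.rel3 (relE n i) _ _ _).not)))))))
  obtain ⟨z, hz⟩ := T1 c1
  obtain ⟨hD6o, hD6i⟩ := h6 Lam TPs M c Pst lim hL hLL
  refine ⟨S, inferInstance, c1, z, hcount, ?_, ?_⟩
  · have h10 : (N' : Type) ⊨ sig0.lang.completeTheory (Car M) :=
      (E.theory_model_iff _).1 inferInstance
    infer_instance
  intro n
  constructor
  · intro hn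
    obtain ⟨x2, x3, hS⟩ := T2 n c1 z hz
    refine ⟨x2, x3, ?_, hS.2, ?_⟩
    · have := hS.1
      simp only [List.nodup_cons, List.mem_cons, List.not_mem_nil, or_false, not_or,
        not_false_eq_true, List.nodup_nil, and_true]
      tauto
    · intro i
      have hfin := (hD6i n hn i).image (fun l : List ℕ => l.headD 0)
      refine T4 n i hfin.toFinset ?_ c1 z x2 x3 (fun m _ => hw m) hz hS
      intro x0 x1 x2 x3 hF hPH hSH
      obtain ⟨v, hv⟩ := (PH_iff h1 h2 hL x0 x1).1 hPH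
      have hSS := (SH_iff h1 hL n x0 x1 x2 x3).1 hSH
      refine (relE_iff M n i x0 x1 x2).not.2 ?_
      intro hE
      have h11 := (h5 Lam TPs M c hL x0 x1 x2 x3 v n i hv hSS).1 hE
      exact hF x0 (hfin.mem_toFinset.2 ⟨[(x0 : ℕ), x1], ⟨v, hv, h11.ge⟩, rfl⟩) rfl
  · rintro ⟨x2, x3, hnd, hR, hE⟩
    by_contra hn
    have hfin := (hD6o n hn).image (fun l : List ℕ => l.headD 0)
    have hSH : SH S n c1 z x2 x3 := by
      refine ⟨?_, hR⟩
      simp only [List.nodup_cons, List.mem_cons, List.not_mem_nil, or_false, not_or,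
        not_false_eq_true, List.nodup_nil, and_true] at hnd
      tauto
    refine hE (lim n) (T3 n (lim n) hfin.toFinset ?_ c1 z x2 x3 (fun m _ => hw m) hz hSH)
    intro x0 x1 x2 x3 hF hPH hSH
    obtain ⟨v, hv⟩ := (PH_iff h1 h2 hL x0 x1).1 hPH
    have hSS := (SH_iff h1 hL n x0 x1 x2 x3).1 hSH
    refine (relE_iff M n (lim n) x0 x1 x2).2 ?_
    refine (h5 Lam TPs M c hL x0 x1 x2 x3 v n (lim n) hv hSS).2 ?_
    by_contra hne
    exact hF x0 (hfin.mem_toFinset.2 ⟨[(x0 : ℕ), x1], ⟨v, hv, fun h => hne h.symm⟩, rfl⟩) rfl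

end Pool.Agent.Helper367SM

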