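import Pool.Agent.Helper367_SM.Spec

set_option autoImplicit false

namespace Pool.Agent.Helper367SM

open FirstOrder

theorem CompModel_symOf : Primrec symOf := by
  have hE : Primrec (fun p : ℕ × ℕ => Sym.E p.1 p.2) := by
    have h1 : Primrec (fun p : ℕ × ℕ => Sym.equiv.symm (Sum.inl p)) :=
      (Primrec.of_equiv_symm (e := Sym.equiv)).comp Primrec.sumInl
    exact h1
  have hR : Primrec (fun n : ℕ => Sym.R n) := by
    have h1 : Primrec (fun p : ℕ => Sym.equiv.symm (Sum.inr (Sum.inl p))) :=
      (Primrec.of_equiv_symm (e := Sym.equiv)).comp (Primrec.sumInr.comp Primrec.sumInl)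
    exact h1
  have hh : Primrec (fun k : ℕ => k / 2) := Primrec.nat_div.comp Primrec.id (Primrec.const 2)
  have h1 : Primrec (fun k : ℕ => Sym.E (k / 2).unpair.1 (k / 2).unpair.2) :=
    hE.comp (Primrec.unpair.comp hh)
  have h2 : Primrec (fun k : ℕ => Sym.R (k / 2)) := hR.comp hh
  exact Primrec.ite (Primrec.eq.comp (Primrec.nat_mod.comp Primrec.id (Primrec.const 2))
    (Primrec.const 0)) h1 h2

/-- the structure on the set of all natural numbers -/
def CompModel_S (M : Set Edge) : sig0.lang.Structure (Set.univ : Set ℕ) where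
  funMap f _ := ⟨f.1, trivial⟩
  RelMap r xs := (symOf r.1, List.ofFn (fun i => (xs i : ℕ))) ∈ M

theorem CompModel_sym (k : ℕ) :
    (∃ n i, symOf k = Sym.E n i) ∨ ∃ n, symOf k = Sym.R n := by
  unfold symOf
  split_ifs
  · exact Or.inl ⟨_, _, rfl⟩
  · exact Or.inr ⟨_, rfl⟩

theorem CompModel_rel (M : Set Edge) (k : ℕ) (l : List ℕ) :
    AtomicFact sig0 Set.univ (CompModel_S M) (Sum.inr (Sum.inr (k, l))) ↔
      l.length = sig0.rar k ∧ (symOf k, l) ∈ M := by
  constructor
  · rintro ⟨xs, h1, h2⟩
    refine ⟨by rw [h1, List.length_ofFn], ?_⟩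
    rw [h1]
    exact h2
  · rintro ⟨h1, h2⟩
    have h3 : l = List.ofFn (fun i : Fin (sig0.rar k) => l.get (i.cast h1.symm)) := by
      apply List.ext_get
      · rw [List.length_ofFn, h1]
      · intro n h4 h5
        simp
    refine ⟨fun i => ⟨l.get (i.cast h1.symm), trivial⟩, h3, ?_⟩
    show (symOf k, List.ofFn (fun i : Fin (sig0.rar k) => l.get (i.cast h1.symm))) ∈ M
    rw [← h3]
    exact h2

-- TARGET
theorem CompModel_proof : S_CompModel := by
  intro M hM
  refine ⟨Set.univ, CompModel_S M, ⟨?_⟩, ?_⟩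
  · letI := CompModel_S M
    exact
      { toEquiv := (Equiv.Set.univ ℕ).symm
        map_fun' := fun f x => rfl
        map_rel' := fun r x => Iff.rfl }
  · obtain ⟨hdec, hχ⟩ := hM
    have hlen : Computable (fun p : ℕ × List ℕ => decide (p.2.length = sig0.rar p.1)) := by
      have h1 : Primrec (fun p : ℕ × List ℕ => sig0.rar p.1) := by
        have : Primrec (fun k : ℕ => if k % 2 = 0 then 3 else 5) :=
          Primrec.ite (Primrec.eq.comp (Primrec.nat_mod.comp Primrec.id (Primrec.const 2))
            (Primrec.const 0)) (Primrec.const 3) (Primrec.const 5)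
        exact this.comp Primrec.fst
      have h2 : PrimrecPred (fun p : ℕ × List ℕ => p.2.length = sig0.rar p.1) :=
        Primrec.eq.comp (Primrec.list_length.comp Primrec.snd) h1
      exact h2.decide.to_comp
    have hfun : Computable (fun p : ℕ × List ℕ × ℕ => decide (p.2.1 = [] ∧ p.2.2 = p.1)) := by
      have h2 : PrimrecPred (fun p : ℕ × List ℕ × ℕ => p.2.1 = [] ∧ p.2.2 = p.1) :=
        (Primrec.eq.comp (Primrec.fst.comp Primrec.snd) (Primrec.const [])).and
          (Primrec.eq.comp (Primrec.snd.comp Primrec.snd) Primrec.fst)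
      exact h2.decide.to_comp
    have hrel : Computable (fun p : ℕ × List ℕ => decide (p.2.length = sig0.rar p.1) &&
        decide ((symOf p.1, p.2) ∈ M ∧ ((∃ n i, symOf p.1 = Sym.E n i) ∨ ∃ n, symOf p.1 = Sym.R n))) := by
      have h1 : Computable (fun p : ℕ × List ℕ => decide ((symOf p.1, p.2) ∈ M ∧
          ((∃ n i, symOf p.1 = Sym.E n i) ∨ ∃ n, symOf p.1 = Sym.R n))) :=
        hχ.comp ((CompModel_symOf.comp Primrec.fst).pair Primrec.snd).to_comp
      exact Primrec.and.to_comp.comp hlen h1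
    refine ⟨fun a => Sum.casesOn a (fun _ => true) (fun b => Sum.casesOn b
      (fun p => decide (p.2.1 = [] ∧ p.2.2 = p.1))
      (fun p => decide (p.2.length = sig0.rar p.1) &&
        decide ((symOf p.1, p.2) ∈ M ∧
          ((∃ n i, symOf p.1 = Sym.E n i) ∨ ∃ n, symOf p.1 = Sym.R n)))), ?_, ?_⟩
    · apply Computable.computableIn
      refine Computable.sumCasesOn Computable.id (Computable.const true).to₂ ?_
      exact (Computable.sumCasesOn Computable.snd (hfun.comp Computable.snd).to₂
        (hrel.comp Computable.snd).to₂).to₂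
    · rintro (x | ⟨k, l, y⟩ | ⟨k, l⟩)
      · simp [AtomicFact]
      · show (∃ xs : Fin 0 → (Set.univ : Set ℕ), l = List.ofFn (fun i => (xs i : ℕ)) ∧ k = y) ↔ _
        simp only [decide_eq_true_eq]
        constructor
        · rintro ⟨xs, h1, h2⟩
          refine ⟨by rw [h1]; rfl, h2.symm⟩
        · rintro ⟨h1, h2⟩
          exact ⟨Fin.elim0, by rw [h1]; rfl, h2.symm⟩
      · rw [CompModel_rel]
        simp only [Bool.and_eq_true, decide_eq_true_eq]
        exact ⟨fun h => ⟨h.1, h.2, CompModel_sym k⟩, fun h => ⟨h.1, h.2.1⟩⟩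

end Pool.Agent.Helper367SM
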