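import Pool.Agent.Helper367_SM.Spec

/- JOB of helper367 (MP_fd2900_lc, SM project). Prove the TARGET theorem exactly as stated, return the whole file in result; auxiliary lemmas before it are
 welcome (in the namespace given). The statement is a Prop defined in Pool/Agent/Helper367_SM/Spec.lean (or Model.lean), on origin/main. FETCH:
  cd /workdir/pool && git -C outputs/live fetch -q && mkdir -p Pool/Agent/Helper367_SM Pool/Agent/Helper446/CB && for f in Defs PrimDefs Model Spec; do
  git -C outputs/live show origin/main:Pool/Agent/Helper367_SM/$f.lean > Pool/Agent/Helper367_SM/$f.lean; done; for f in RE Comp CB/Hier; do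
  git -C outputs/live show origin/main:Pool/Agent/Helper446/$f.lean > Pool/Agent/Helper446/$f.lean; done; lake build Pool.Agent.Helper367_SM.Spec
 No sorry, no native_decide, no axioms. If the statement is false or awkward as written, tell me in note at once.

S_Decode (S_Post is a hypothesis): if N codes Pst over (c,z) and N has a copy with universe D inside the naturals and atomic diagram decidable in the double jump, then Pst is Sig 4:
 let F be the isomorphism, c' = F c, z' = F z naturals in D. n in Pst iff ∃ x2 x3 (naturals), [x2,x3 in D, distinct, ∀ u, u ∉ D or not AtomicFact(R_n,[c',z',x2,x3,u]), ∀ i, not AtomicFact(E_{n,i},[c',z',x2])],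
 i.e. exists (code of a pair) of a Pi 3 predicate; the relation symbol numbers are 2*Nat.pair n i and 2*n+1 (relE, relR in Model.lean). AtomicFact is Sig 3 and Pi 3 by S_Post; compose with
 computable functions (Sig.comp, Pi.comp) and use closure of Pi 3 under universal quantifiers and conjunction, then Sig 4 by an existential quantifier (Pi.sig etc. in Helper446/CB/Hier.lean).
-/

set_option autoImplicit false

namespace Pool.Agent.Helper367SM

open FirstOrder

open Helper446.CB

/-- the facts of a relation symbol, with the arity replaced by an equal number -/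
theorem atomicFact_rel (σ : CSig) (D : Set ℕ) (S : σ.lang.Structure D) (k m : ℕ)
    (h : σ.rar k = m) (l : List ℕ) : AtomicFact σ D S (Sum.inr (Sum.inr (k, l))) ↔
      ∃ xs : Fin m → D, l = List.ofFn (fun i => (xs i : ℕ)) ∧
        S.RelMap (⟨k, h⟩ : {j // σ.rar j = m}) xs := by
  subst h
  exact Iff.rfl

-- TARGET
theorem Decode_proof (hP : S_Post) : S_Decode := by
  rintro N _ Pst c z hcode ⟨D, S, ⟨F⟩, hdec⟩
  obtain ⟨hs, hp⟩ := hP _ _ hdec
  set A := AtomicFact sig0 D S with hA
  -- relations in the copy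
  have hR : ∀ n (x2 x3 u : N), FirstOrder.Language.Structure.RelMap (relR n) ![c, z, x2, x3, u] ↔
      A (Sum.inr (Sum.inr (2 * n + 1,
        [(F c : ℕ), (F z : ℕ), (F x2 : ℕ), (F x3 : ℕ), (F u : ℕ)]))) := by
    intro n x2 x3 u
    rw [hA, atomicFact_rel sig0 D S (2 * n + 1) 5 (by simp [sig0])]
    have h1 := F.map_rel (relR n) ![c, z, x2, x3, u]
    rw [← h1]
    constructor
    · intro h
      exact ⟨_, by simp [List.ofFn_succ], h⟩
    · rintro ⟨xs, hl, h⟩
      have : xs = F ∘ ![c, z, x2, x3, u] := by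
        simp only [List.ofFn_succ, List.ofFn_zero, List.cons.injEq] at hl
        obtain ⟨e0, e1, e2, e3, e4, -⟩ := hl
        funext i
        fin_cases i
        · exact Subtype.ext e0.symm
        · exact Subtype.ext e1.symm
        · exact Subtype.ext e2.symm
        · exact Subtype.ext e3.symm
        · exact Subtype.ext e4.symm
      rw [← this]
      exact h
  have hE : ∀ n i (x2 : N), FirstOrder.Language.Structure.RelMap (relE n i) ![c, z, x2] ↔
      A (Sum.inr (Sum.inr (2 * Nat.pair n i, [(F c : ℕ), (F z : ℕ), (F x2 : ℕ)]))) := by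
    intro n i x2
    rw [hA, atomicFact_rel sig0 D S (2 * Nat.pair n i) 3 (by simp [sig0])]
    have h1 := F.map_rel (relE n i) ![c, z, x2]
    rw [← h1]
    constructor
    · intro h
      exact ⟨_, by simp [List.ofFn_succ], h⟩
    · rintro ⟨xs, hl, h⟩
      have : xs = F ∘ ![c, z, x2] := by
        simp only [List.ofFn_succ, List.ofFn_zero, List.cons.injEq] at hl
        obtain ⟨e0, e1, e2, -⟩ := hl
        funext i
        fin_cases i
        · exact Subtype.ext e0.symm
        · exact Subtype.ext e1.symm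
        · exact Subtype.ext e2.symm
      rw [← this]
      exact h
  -- entries of facts are in the universe
  have hmem : ∀ k l, A (Sum.inr (Sum.inr (k, l))) → ∀ x ∈ l, x ∈ D := by
    rintro k l ⟨xs, rfl, -⟩ x hx
    rw [List.mem_ofFn] at hx
    obtain ⟨i, rfl⟩ := hx
    exact (xs i).2
  set c' : ℕ := (F c : ℕ) with hc'
  set z' : ℕ := (F z : ℕ) with hz'
  have hval : ∀ x y : N, (F x : ℕ) = (F y : ℕ) ↔ x = y := fun x y =>
    ⟨fun h => F.injective (Subtype.ext h), fun h => by rw [h]⟩
  have key : ∀ n, n ∈ Pst ↔ ∃ x : ℕ × ℕ, (A (Sum.inl x.1) ∧ A (Sum.inl x.2)) ∧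
      [c', z', x.1, x.2].Nodup ∧
      (∀ u, ¬ A (Sum.inr (Sum.inr (2 * n + 1, [c', z', x.1, x.2, u])))) ∧
      ∀ i, ¬ A (Sum.inr (Sum.inr (2 * Nat.pair n i, [c', z', x.1]))) := by
    intro n
    rw [hcode n]
    constructor
    · rintro ⟨x2, x3, h1, h2, h3⟩
      refine ⟨(F x2, F x3), ⟨(F x2).2, (F x3).2⟩, ?_, ?_, ?_⟩
      · have := (List.nodup_map_iff (f := fun x : N => (F x : ℕ))
          (fun x y h => (hval x y).1 h)).2 h1
        simpa using this
      · intro u hu
        have hD : u ∈ D := hmem _ _ hu u (by simp)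
        obtain ⟨w, hw⟩ := F.surjective ⟨u, hD⟩
        refine h2 w ((hR n x2 x3 w).2 ?_)
        rw [hw]
        exact hu
      · intro i hi
        exact h3 i ((hE n i x2).2 hi)
    · rintro ⟨⟨y2, y3⟩, ⟨h2, h3⟩, h4, h5, h6⟩
      obtain ⟨x2, hx2⟩ := F.surjective ⟨y2, h2⟩
      obtain ⟨x3, hx3⟩ := F.surjective ⟨y3, h3⟩
      obtain rfl : (F x2 : ℕ) = y2 := by rw [hx2]
      obtain rfl : (F x3 : ℕ) = y3 := by rw [hx3]
      refine ⟨x2, x3, ?_, ?_, ?_⟩
      · refine (List.nodup_map_iff (f := fun x : N => (F x : ℕ))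
          (fun x y h => (hval x y).1 h)).1 ?_
        simpa using h4
      · intro u hu
        exact h5 _ ((hR n x2 x3 u).1 hu)
      · intro i hi
        exact h6 i ((hE n i x2).1 hi)
  refine Sig.of_iff ?_ fun n => (key n).symm
  refine Sig.ex (n := 3) (p := fun (n : ℕ) (x : ℕ × ℕ) => (A (Sum.inl x.1) ∧ A (Sum.inl x.2)) ∧
      [c', z', x.1, x.2].Nodup ∧
      (∀ u, ¬ A (Sum.inr (Sum.inr (2 * n + 1, [c', z', x.1, x.2, u])))) ∧
      ∀ i, ¬ A (Sum.inr (Sum.inr (2 * Nat.pair n i, [c', z', x.1])))) ?_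
  have hinl : Computable (Sum.inl : ℕ → ℕ ⊕ ((ℕ × List ℕ × ℕ) ⊕ (ℕ × List ℕ))) :=
    Primrec.sumInl.to_comp
  have hinr : Computable (fun y : ℕ × List ℕ =>
      (Sum.inr (Sum.inr y) : ℕ ⊕ ((ℕ × List ℕ × ℕ) ⊕ (ℕ × List ℕ)))) :=
    (Primrec.sumInr.comp Primrec.sumInr).to_comp
  refine Pi.sig ?_
  refine Pi.and (Pi.and ?_ ?_) (Pi.and ?_ (Pi.and ?_ ?_))
  · exact hp.comp (f := fun x : ℕ × (ℕ × ℕ) => Sum.inl x.2.1) (hinl.comp (by fun_prop))
  · exact hp.comp (f := fun x : ℕ × (ℕ × ℕ) => Sum.inl x.2.2) (hinl.comp (by fun_prop))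
  · refine Pi.of_cp ?_
    have hne : ∀ f g : ℕ × (ℕ × ℕ) → ℕ, Computable f → Computable g →
        ComputablePred fun x => f x ≠ g x := fun f g hf hg => (Helper446.RE.cp_eq hf hg).not
    refine (cp_and (cp_and (hne (fun _ => c') (fun _ => z') (by fun_prop) (by fun_prop))
      (cp_and (hne (fun _ => c') (fun x => x.2.1) (by fun_prop) (by fun_prop))
        (hne (fun _ => c') (fun x => x.2.2) (by fun_prop) (by fun_prop))))
      (cp_and (cp_and (hne (fun _ => z') (fun x => x.2.1) (by fun_prop) (by fun_prop))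
        (hne (fun _ => z') (fun x => x.2.2) (by fun_prop) (by fun_prop)))
        (hne (fun x => x.2.1) (fun x => x.2.2) (by fun_prop) (by fun_prop)))).of_eq fun x => ?_
    simp only [List.nodup_cons, List.mem_cons, List.not_mem_nil, or_false, not_or, List.nodup_nil,
      not_false_eq_true, and_true]
  · refine Pi.all (p := fun (x : ℕ × (ℕ × ℕ)) (u : ℕ) =>
      ¬ A (Sum.inr (Sum.inr (2 * x.1 + 1, [c', z', x.2.1, x.2.2, u])))) ?_
    refine hs.not.comp (f := fun y : (ℕ × (ℕ × ℕ)) × ℕ =>
      Sum.inr (Sum.inr (2 * y.1.1 + 1, [c', z', y.1.2.1, y.1.2.2, y.2]))) (hinr.comp ?_)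
    fun_prop
  · refine Pi.all (p := fun (x : ℕ × (ℕ × ℕ)) (i : ℕ) =>
      ¬ A (Sum.inr (Sum.inr (2 * Nat.pair x.1 i, [c', z', x.2.1])))) ?_
    refine hs.not.comp (f := fun y : (ℕ × (ℕ × ℕ)) × ℕ =>
      Sum.inr (Sum.inr (2 * Nat.pair y.1.1 y.2, [c', z', y.1.2.1]))) (hinr.comp ?_)
    fun_prop

end Pool.Agent.Helper367SM
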