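import Pool.Agent.Helper367_SM.Spec

set_option autoImplicit false

namespace Pool.Agent.Helper367SM

open FirstOrder

/-- The universal matrix. -/
def Theta4 (x : ℕ × ℕ × ℕ × ℕ × ℕ) : Prop :=
  (Nat.Partrec.Code.evaln x.2.2.2.2 (Denumerable.ofNat Nat.Partrec.Code x.1)
    (Nat.pair x.1 (Nat.pair x.2.1 (Nat.pair x.2.2.1 x.2.2.2.1)))).isSome = true

theorem theta4_prim : PrimrecPred Theta4 := by
  have h1 : Primrec fun x : ℕ × ℕ × ℕ × ℕ × ℕ => x.2.2.2.2 :=
    Primrec.snd.comp (Primrec.snd.comp (Primrec.snd.comp Primrec.snd))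
  have h2 : Primrec fun x : ℕ × ℕ × ℕ × ℕ × ℕ => Denumerable.ofNat Nat.Partrec.Code x.1 :=
    (Primrec.ofNat Nat.Partrec.Code).comp Primrec.fst
  have ha : Primrec fun x : ℕ × ℕ × ℕ × ℕ × ℕ => x.2.1 := Primrec.fst.comp Primrec.snd
  have hb : Primrec fun x : ℕ × ℕ × ℕ × ℕ × ℕ => x.2.2.1 :=
    Primrec.fst.comp (Primrec.snd.comp Primrec.snd)
  have hc : Primrec fun x : ℕ × ℕ × ℕ × ℕ × ℕ => x.2.2.2.1 :=
    Primrec.fst.comp (Primrec.snd.comp (Primrec.snd.comp Primrec.snd))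
  have h3 : Primrec fun x : ℕ × ℕ × ℕ × ℕ × ℕ =>
      Nat.pair x.1 (Nat.pair x.2.1 (Nat.pair x.2.2.1 x.2.2.2.1)) :=
    Primrec₂.natPair.comp Primrec.fst
      (Primrec₂.natPair.comp ha (Primrec₂.natPair.comp hb hc))
  have h4 := Nat.Partrec.Code.primrec_evaln.comp (Primrec.pair (Primrec.pair h1 h2) h3)
  have h5 := Primrec.option_isSome.comp h4
  exact (Primrec.eq.comp h5 (Primrec.const true))

theorem exists_code_of_re {p : ((ℕ × ℕ) × ℕ) × ℕ → Prop} (hp : REPred p) :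
    ∃ e : Nat.Partrec.Code, ∀ n a b c,
      (e.eval (Nat.pair n (Nat.pair a (Nat.pair b c)))).Dom ↔ p (((n, a), b), c) := by
  have hd : Computable fun k : ℕ => (((k.unpair.1, k.unpair.2.unpair.1),
      k.unpair.2.unpair.2.unpair.1), k.unpair.2.unpair.2.unpair.2) := by
    have u : Primrec Nat.unpair := Primrec.unpair
    have u1 : Primrec fun k : ℕ => k.unpair.1 := Primrec.fst.comp u
    have u2 : Primrec fun k : ℕ => k.unpair.2 := Primrec.snd.comp u
    have u21 : Primrec fun k : ℕ => k.unpair.2.unpair.1 := u1.comp u2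
    have u22 : Primrec fun k : ℕ => k.unpair.2.unpair.2 := u2.comp u2
    exact (Primrec.pair (Primrec.pair (Primrec.pair u1 u21) (u1.comp u22))
      (u2.comp u22)).to_comp
  have h1 : Partrec fun k : ℕ => Part.assert (p (((k.unpair.1, k.unpair.2.unpair.1),
      k.unpair.2.unpair.2.unpair.1), k.unpair.2.unpair.2.unpair.2))
      fun _ => Part.some () := Partrec.comp hp hd
  have h2 : Partrec fun k : ℕ => (Part.assert (p (((k.unpair.1, k.unpair.2.unpair.1),
      k.unpair.2.unpair.2.unpair.1), k.unpair.2.unpair.2.unpair.2))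
      fun _ => Part.some ()).map fun _ => (0 : ℕ) :=
    h1.map ((Computable.const 0).to₂)
  obtain ⟨e, he⟩ := Nat.Partrec.Code.exists_code.1 (Partrec.nat_iff.1 h2)
  refine ⟨e, fun n a b c => ?_⟩
  rw [he]
  simp [Part.assert]

-- TARGET
theorem Pi4_proof : S_Pi4 := by
  refine ⟨Theta4, theta4_prim, ?_⟩
  rintro ⟨q1, ⟨q2, ⟨q3, ⟨q4, h4, h3e⟩, h2e⟩, h1e⟩, hSe⟩
  have hre : REPred q3 := by
    have h5 : REPred fun x : (((ℕ × ℕ) × ℕ) × ℕ) × ℕ => ¬ q4 x :=
      (ComputablePred.not h4).to_re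
    have := Helper446.RE.ex (p := fun (x : ((ℕ × ℕ) × ℕ) × ℕ) (m : ℕ) => ¬ q4 (x, m)) h5
    exact this.of_eq fun a => (h3e a).symm
  obtain ⟨e, he⟩ := exists_code_of_re hre
  have key := hSe (Encodable.encode e)
  have hT : ∀ a b c, (∃ d, Theta4 (Encodable.encode e, a, b, c, d)) ↔
      q3 (((Encodable.encode e, a), b), c) := by
    intro a b c
    rw [← he]
    unfold Theta4
    dsimp only
    rw [Denumerable.ofNat_encode]
    constructor
    · rintro ⟨d, hd⟩
      obtain ⟨y, hy⟩ := Option.isSome_iff_exists.1 hd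
      exact Part.dom_iff_mem.2 ⟨y, Nat.Partrec.Code.evaln_sound hy⟩
    · intro h
      obtain ⟨y, hy⟩ := Part.dom_iff_mem.1 h
      obtain ⟨k, hk⟩ := Nat.Partrec.Code.evaln_complete.1 hy
      exact ⟨k, Option.isSome_iff_exists.2 ⟨y, hk⟩⟩
  simp only [hT, h1e, h2e, not_exists, not_not] at key
  push Not at key
  by_cases hc : ∀ a, ∃ b, ∀ c, q3 (((Encodable.encode e, a), b), c)
  · obtain ⟨a, ha⟩ := key.1 hc
    obtain ⟨b, hb⟩ := hc a
    obtain ⟨c, hc'⟩ := ha b
    exact hc' (hb c)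
  · apply hc
    apply key.2
    push Not at hc
    exact hc

end Pool.Agent.Helper367SM
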