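import Pool.Agent.Helper367_SM.Spec

set_option autoImplicit false

namespace Pool.Agent.Helper367SM

open FirstOrder

namespace PostAux

open Encodable Helper446 Helper446.CB

/-- The graph of `f` is `Σ⁰_n`. -/
def SG (n : ℕ) (f : ℕ →. ℕ) : Prop := Sig n fun x : ℕ × ℕ => x.2 ∈ f x.1

theorem SG.app {n : ℕ} {f : ℕ →. ℕ} (h : SG n f) {α : Type} [Primcodable α] {u v : α → ℕ}
    (hu : Computable u) (hv : Computable v) : Sig n fun a => v a ∈ f (u a) :=
  Sig.comp (p := fun x : ℕ × ℕ => x.2 ∈ f x.1) h (f := fun a => (u a, v a)) (hu.pair hv)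

/-- Reading a list. -/
def gt (L : List ℕ) (i : ℕ) : ℕ := (L[i]?).getD 0

theorem gt_map {n i : ℕ} (g : ℕ → ℕ) (h : i < n) : gt ((List.range n).map g) i = g i := by
  simp [gt, h]

theorem gt_comp {α : Type} [Primcodable α] {L : α → List ℕ} {i : α → ℕ} (hL : Computable L)
    (hi : Computable i) : Computable fun a => gt (L a) (i a) := by
  have h1 : Computable fun a => (L a)[i a]? := by fun_prop
  exact (Primrec.option_getD.comp Primrec.id (Primrec.const 0)).to_comp.comp h1

theorem mem_prec (f h : ℕ →. ℕ) (a n y : ℕ) :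
    y ∈ (Nat.rec (f a) (fun y IH => IH >>= fun i => h (Nat.pair a (Nat.pair y i))) n : Part ℕ) ↔
      ∃ L : List ℕ, gt L 0 ∈ f a ∧
        (∀ i < n, gt L (i + 1) ∈ h (Nat.pair a (Nat.pair i (gt L i)))) ∧ gt L n = y := by
  have key : y ∈ (Nat.rec (f a) (fun y IH => IH >>= fun i => h (Nat.pair a (Nat.pair y i))) n :
      Part ℕ) ↔ ∃ g : ℕ → ℕ, g 0 ∈ f a ∧
        (∀ i < n, g (i + 1) ∈ h (Nat.pair a (Nat.pair i (g i)))) ∧ g n = y := by
    induction n generalizing y with
    | zero =>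
      constructor
      · intro hy
        exact ⟨fun _ => y, hy, fun i hi => absurd hi (Nat.not_lt_zero i), rfl⟩
      · rintro ⟨g, h0, -, rfl⟩
        exact h0
    | succ n ih =>
      constructor
      · intro hy
        obtain ⟨z, hz, hy⟩ := Part.mem_bind_iff.1 hy
        obtain ⟨g, h0, hs, hn⟩ := (ih z).1 hz
        refine ⟨fun i => if i ≤ n then g i else y, by simpa using h0, fun i hi => ?_, by simp⟩
        by_cases hin : i < n
        · have h1 : i + 1 ≤ n := hin
          have h2 : i ≤ n := by omega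
          simp only [h1, h2, if_true]
          exact hs i hin
        · have h1 : i = n := by omega
          subst h1
          simp only [le_refl, if_true, Nat.not_succ_le_self, if_false]
          rw [hn]
          exact hy
      · rintro ⟨g, h0, hs, hn⟩
        refine Part.mem_bind_iff.2 ⟨g n, (ih (g n)).2 ⟨g, h0, fun i hi => hs i (by omega), rfl⟩, ?_⟩
        rw [← hn]
        exact hs n (by omega)
  rw [key]
  constructor
  · rintro ⟨g, h0, hs, hn⟩
    refine ⟨(List.range (n + 1)).map g, ?_, fun i hi => ?_, ?_⟩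
    · rw [gt_map g (by omega)]; exact h0
    · rw [gt_map g (by omega), gt_map g (by omega)]; exact hs i hi
    · rw [gt_map g (by omega)]; exact hn
  · rintro ⟨L, h0, hs, hn⟩
    exact ⟨gt L, h0, hs, hn⟩

theorem sg_of_rec {n : ℕ} {O : Set (ℕ →. ℕ)} (hO : ∀ g ∈ O, SG (n + 1) g) {f : ℕ →. ℕ}
    (hf : Nat.RecursiveIn O f) : SG (n + 1) f := by
  induction hf with
  | zero =>
    refine (Sig.of_cp (RE.cp_eq (f := fun x : ℕ × ℕ => x.2) (g := fun _ => 0) (by fun_prop)
      (by fun_prop))).of_iff fun x => ?_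
    exact (Part.mem_some_iff).symm
  | succ =>
    refine (Sig.of_cp (RE.cp_eq (f := fun x : ℕ × ℕ => x.2) (g := fun x => Nat.succ x.1)
      (by fun_prop) (by fun_prop))).of_iff fun x => ?_
    exact (Part.mem_some_iff).symm
  | left =>
    refine (Sig.of_cp (RE.cp_eq (f := fun x : ℕ × ℕ => x.2) (g := fun x => (Nat.unpair x.1).1)
      (by fun_prop) (by fun_prop))).of_iff fun x => ?_
    exact (Part.mem_some_iff).symm
  | right =>
    refine (Sig.of_cp (RE.cp_eq (f := fun x : ℕ × ℕ => x.2) (g := fun x => (Nat.unpair x.1).2)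
      (by fun_prop) (by fun_prop))).of_iff fun x => ?_
    exact (Part.mem_some_iff).symm
  | oracle g hg => exact hO g hg
  | @pair f h _ _ ihf ihh =>
    have h1 : Sig (n + 1) fun x : ℕ × ℕ => ∃ a, ∃ b, a ∈ f x.1 ∧ b ∈ h x.1 ∧ Nat.pair a b = x.2 := by
      refine Sig.exN (p := fun (x : ℕ × ℕ) a => ∃ b, a ∈ f x.1 ∧ b ∈ h x.1 ∧ Nat.pair a b = x.2)
        (Sig.exN (p := fun (x : (ℕ × ℕ) × ℕ) b => x.2 ∈ f x.1.1 ∧ b ∈ h x.1.1 ∧
          Nat.pair x.2 b = x.1.2) ?_)
      refine Sig.and (ihf.app (by fun_prop) (by fun_prop)) (Sig.and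
        (ihh.app (by fun_prop) (by fun_prop)) (Sig.of_cp (RE.cp_eq (by fun_prop) (by fun_prop))))
    refine h1.of_iff fun x => ?_
    simp only [Seq.seq, Part.map_eq_map, Part.mem_bind_iff, Part.mem_map_iff]
    constructor
    · rintro ⟨a, b, ha, hb, hab⟩
      exact ⟨_, ⟨a, ha, rfl⟩, b, hb, hab⟩
    · rintro ⟨_, ⟨a, ha, rfl⟩, b, hb, hab⟩
      exact ⟨a, b, ha, hb, hab⟩
  | @comp f h _ _ ihf ihh =>
    have h1 : Sig (n + 1) fun x : ℕ × ℕ => ∃ a, a ∈ h x.1 ∧ x.2 ∈ f a := by
      refine Sig.exN (p := fun (x : ℕ × ℕ) a => a ∈ h x.1 ∧ x.2 ∈ f a) ?_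
      exact Sig.and (ihh.app (by fun_prop) (by fun_prop)) (ihf.app (by fun_prop) (by fun_prop))
    refine h1.of_iff fun x => ?_
    exact Part.mem_bind_iff.symm
  | @prec f h _ _ ihf ihh =>
    have h1 : Sig (n + 1) fun x : ℕ × ℕ => ∃ L : List ℕ, gt L 0 ∈ f x.1.unpair.1 ∧
        (∀ i < x.1.unpair.2, gt L (i + 1) ∈ h (Nat.pair x.1.unpair.1 (Nat.pair i (gt L i)))) ∧
        gt L x.1.unpair.2 = x.2 := by
      refine Sig.ex (p := fun (x : ℕ × ℕ) (L : List ℕ) => gt L 0 ∈ f x.1.unpair.1 ∧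
        (∀ i < x.1.unpair.2, gt L (i + 1) ∈ h (Nat.pair x.1.unpair.1 (Nat.pair i (gt L i)))) ∧
        gt L x.1.unpair.2 = x.2) ?_
      refine Sig.and (ihf.app (by fun_prop) (gt_comp (by fun_prop) (by fun_prop))) (Sig.and ?_
        (Sig.of_cp (RE.cp_eq (gt_comp (by fun_prop) (by fun_prop)) (by fun_prop))))
      refine Sig.all_lt (p := fun (x : (ℕ × ℕ) × List ℕ) i =>
        gt x.2 (i + 1) ∈ h (Nat.pair x.1.1.unpair.1 (Nat.pair i (gt x.2 i)))) ?_ (by fun_prop)
      refine ihh.app ?_ (gt_comp (by fun_prop) (by fun_prop))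
      have : Computable fun x : ((ℕ × ℕ) × List ℕ) × ℕ => gt x.1.2 x.2 :=
        gt_comp (by fun_prop) (by fun_prop)
      fun_prop
    refine h1.of_iff fun x => ?_
    exact (mem_prec f h x.1.unpair.1 x.1.unpair.2 x.2).symm
  | @rfind f _ ihf =>
    have h1 : Sig (n + 1) fun x : ℕ × ℕ => 0 ∈ f (Nat.pair x.1 x.2) ∧
        ∀ k < x.2, ∃ m, m ∈ f (Nat.pair x.1 k) ∧ m ≠ 0 := by
      refine Sig.and (ihf.app (by fun_prop) (by fun_prop)) ?_
      refine Sig.all_lt (p := fun (x : ℕ × ℕ) k => ∃ m, m ∈ f (Nat.pair x.1 k) ∧ m ≠ 0) ?_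
        (by fun_prop)
      refine Sig.exN (p := fun (x : (ℕ × ℕ) × ℕ) m => m ∈ f (Nat.pair x.1.1 x.2) ∧ m ≠ 0) ?_
      exact Sig.and (ihf.app (by fun_prop) (by fun_prop))
        (Sig.of_cp (RE.cp_eq (by fun_prop) (by fun_prop)).not)
    refine h1.of_iff fun x => ?_
    refine Iff.trans ?_ (Nat.mem_rfind (p := fun n =>
      (fun m => decide (m = 0)) <$> f (Nat.pair x.1 n)) (n := x.2)).symm
    simp only [Part.map_eq_map, Part.mem_map_iff, decide_eq_true_eq, decide_eq_false_iff_not,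
      exists_eq_right]

theorem sig_val {n : ℕ} {A : ℕ → Bool} (h1 : Sig n fun e : ℕ => A e = true)
    (h2 : Pi n fun e : ℕ => A e = true) {α : Type} [Primcodable α] {u : α → ℕ} {v : α → Bool}
    (hu : Computable u) (hv : Computable v) : Sig n fun a => A (u a) = v a := by
  have h3 : Sig n fun a => (v a = true ∧ A (u a) = true) ∨ (v a = false ∧ ¬ A (u a) = true) := by
    refine Sig.or (Sig.and (Sig.of_cp (RE.cp_eq hv (by fun_prop))) ?_)
      (Sig.and (Sig.of_cp (RE.cp_eq hv (by fun_prop))) ?_)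
    · exact Sig.comp (p := fun e : ℕ => A e = true) h1 hu
    · exact Sig.comp (p := fun e : ℕ => ¬ A e = true) h2 hu
  refine h3.of_iff fun a => ?_
  cases v a <;> simp

theorem jump_iff (A : ℕ → Bool) (e : ℕ) : jump A e = true ↔ ∃ σ : List Bool,
    (∀ i < σ.length, A i = (σ[i]?).getD false) ∧
      ((Denumerable.ofNat Nat.Partrec.Code e).eval (encode (σ, e))).Dom := by
  simp only [jump, decide_eq_true_eq]
  constructor
  · rintro ⟨k, hk⟩
    refine ⟨(List.range k).map A, fun i hi => ?_, hk⟩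
    have hi' : i < k := by simpa using hi
    simp [hi']
  · rintro ⟨σ, h1, h2⟩
    refine ⟨σ.length, ?_⟩
    have : (List.range σ.length).map A = σ := by
      refine List.ext_getElem (by simp) fun i h5 h6 => ?_
      simp only [List.getElem_map, List.getElem_range]
      rw [h1 i h6]
      simp [h6]
    rwa [this]

theorem sig_jump {n : ℕ} {A : ℕ → Bool} (h1 : Sig (n + 1) fun e : ℕ => A e = true)
    (h2 : Pi (n + 1) fun e : ℕ => A e = true) : Sig (n + 1) fun e : ℕ => jump A e = true := by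
  have h3 : Sig (n + 1) fun e : ℕ => ∃ σ : List Bool,
    (∀ i < σ.length, A i = (σ[i]?).getD false) ∧
      ((Denumerable.ofNat Nat.Partrec.Code e).eval (encode (σ, e))).Dom := by
    refine Sig.ex (p := fun (e : ℕ) (σ : List Bool) =>
      (∀ i < σ.length, A i = (σ[i]?).getD false) ∧
      ((Denumerable.ofNat Nat.Partrec.Code e).eval (encode (σ, e))).Dom) (Sig.and ?_ ?_)
    · refine Sig.all_lt (p := fun (x : ℕ × List Bool) i => A i = (x.2[i]?).getD false) ?_
        (by fun_prop)
      refine sig_val h1 h2 (by fun_prop) ?_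
      have h4 : Computable fun x : (ℕ × List Bool) × ℕ => x.1.2[x.2]? := by fun_prop
      exact (Primrec.option_getD.comp Primrec.id (Primrec.const false)).to_comp.comp h4
    · refine Sig.mono (Nat.le_add_left 1 n) (sig_one.2 ?_)
      have h4 : REPred fun x : Nat.Partrec.Code × ℕ => (x.1.eval x.2).Dom := by
        have h5 : Partrec fun x : Nat.Partrec.Code × ℕ => x.1.eval x.2 :=
          Nat.Partrec.Code.eval_part
        exact h5.dom_re
      refine RE.comp h4 (f := fun x : ℕ × List Bool =>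
        (Denumerable.ofNat Nat.Partrec.Code x.1, encode (x.2, x.1))) ?_
      exact ((Computable.ofNat _).comp Computable.fst).pair
        (Computable.encode.comp (Computable.snd.pair Computable.fst))
  exact h3.of_iff fun e => (jump_iff A e).symm

theorem sig_zeroPP : Sig 3 (fun e : ℕ => zeroPP e = true) ∧ Pi 3 (fun e : ℕ => zeroPP e = true) := by
  have h0 : ComputablePred fun e : ℕ => (fun _ : ℕ => false) e = true :=
    RE.cp_eq (by fun_prop) (by fun_prop)
  have h1 : Sig 1 fun e : ℕ => jump (fun _ => false) e = true :=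
    sig_jump (n := 0) (Sig.of_cp h0) (Pi.of_cp h0)
  have h2 : Sig 2 fun e : ℕ => jump (jump fun _ => false) e = true :=
    sig_jump (n := 1) h1.succ h1.pi
  exact ⟨h2.succ, h2.pi⟩

theorem sg_charFn : SG 3 (charFn zeroPP) := by
  have h := sig_zeroPP
  have h1 : Sig 3 fun x : ℕ × ℕ => (x.2 = 1 ∧ zeroPP x.1 = true) ∨ (x.2 = 0 ∧ ¬ zeroPP x.1 = true) := by
    refine Sig.or (Sig.and (Sig.of_cp (RE.cp_eq (by fun_prop) (by fun_prop))) ?_)
      (Sig.and (Sig.of_cp (RE.cp_eq (by fun_prop) (by fun_prop))) ?_)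
    · exact Sig.comp (p := fun e : ℕ => zeroPP e = true) h.1 (by fun_prop)
    · exact Sig.comp (p := fun e : ℕ => ¬ zeroPP e = true) h.2 (by fun_prop)
  refine h1.of_iff fun x => ?_
  simp only [charFn, Part.mem_some_iff]
  cases zeroPP x.1 <;> simp

end PostAux

open PostAux Encodable Helper446 Helper446.CB in
-- TARGET
theorem Post_proof : S_Post := by
  intro α _ p ⟨f, hf, hp⟩
  have h1 : SG 3 (fun n => Part.bind (decode (α := α) n) fun a =>
      (Part.some (f a)).map encode) := by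
    refine sg_of_rec (n := 2) (O := {charFn zeroPP}) ?_ hf
    intro g hg
    rw [Set.mem_singleton_iff.1 hg]
    exact sg_charFn
  have h2 : ∀ b : Bool, Sig 3 fun a : α => f a = b := by
    intro b
    refine (h1.app (u := fun a : α => encode a) (v := fun _ => encode b) (by fun_prop)
      (by fun_prop)).of_iff fun a => ?_
    simp only [encodek, Part.coe_some, Part.bind_some, Part.map_some, Part.mem_some_iff]
    constructor
    · intro h
      exact (encode_injective h).symm
    · intro h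
      rw [h]
  refine ⟨(h2 true).of_iff fun a => (hp a).symm, ?_⟩
  refine Sig.of_iff (h2 false) fun a => ?_
  rw [hp a, Bool.not_eq_true]

end Pool.Agent.Helper367SM
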