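import Pool.Agent.Helper367_SM.Spec

/- JOB of helper367 (MP_fd2900_lc, SM project). Prove the TARGET theorem exactly as stated, return the whole file in result; auxiliary lemmas before it are
 welcome (in the namespace given). The statement is a Prop defined in Pool/Agent/Helper367_SM/Spec.lean (or Model.lean), on origin/main. FETCH:
  cd /workdir/pool && git -C outputs/live fetch -q && mkdir -p Pool/Agent/Helper367_SM Pool/Agent/Helper446/CB && for f in Defs PrimDefs Model Spec; do
  git -C outputs/live show origin/main:Pool/Agent/Helper367_SM/$f.lean > Pool/Agent/Helper367_SM/$f.lean; done; for f in RE Comp CB/Hier; do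
  git -C outputs/live show origin/main:Pool/Agent/Helper446/$f.lean > Pool/Agent/Helper446/$f.lean; done; lake build Pool.Agent.Helper367_SM.Spec
 No sorry, no native_decide, no axioms. If the statement is false or awkward as written, tell me in note at once.

S_Prime: Car M (universe the naturals) has every element m named by the constant with number m (funMap of a 0-ary symbol <m, _> is m). So it is a prime model of its
complete theory: for N |= completeTheory (Car M) map m to the value of the constant m; this is elementary: for phi : L.Formula (Fin n) (or BoundedFormula) and m : Fin n -> Car M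
the sentence phi[constants c_{m i}] (BoundedFormula.subst / Formula subst with constant terms, realize_subst) is true in Car M iff in N (complete theory).
-/

set_option autoImplicit false

namespace Pool.Agent.Helper367SM

open FirstOrder

/-- The constant with number `m`. -/
def prConst (m : ℕ) : sig0.lang.Constants := ⟨m, rfl⟩

theorem prConst_car (M : Set Edge) (m : Car M) :
    ((prConst m : sig0.lang.Constants) : Car M) = m := rfl

/-- The sentence obtained by substituting constants. -/
def prSent {n : ℕ} (φ : sig0.lang.Formula (Fin n)) (x : Fin n → ℕ) : sig0.lang.Sentence :=
  FirstOrder.Language.BoundedFormula.subst φ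
    (fun i => FirstOrder.Language.Constants.term (prConst (x i)))

theorem prSent_realize {n : ℕ} (φ : sig0.lang.Formula (Fin n)) (x : Fin n → ℕ)
    (N : Type) [sig0.lang.Structure N] :
    (N ⊨ prSent φ x) ↔ φ.Realize (fun i => ((prConst (x i) : sig0.lang.Constants) : N)) := by
  unfold prSent
  rw [FirstOrder.Language.Sentence.Realize, FirstOrder.Language.Formula.Realize,
    FirstOrder.Language.BoundedFormula.realize_subst]
  simp only [FirstOrder.Language.Term.realize_constants]
  rfl

-- TARGET
theorem Prime_proof : S_Prime := by
  intro M
  refine ⟨⟨(0 : ℕ)⟩, inferInstance, ?_⟩
  intro N' _ _ hN'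
  refine ⟨⟨fun m => ((prConst m : sig0.lang.Constants) : N'), ?_⟩⟩
  intro n φ x
  have := hN'
  have h1 := FirstOrder.Language.realize_iff_of_model_completeTheory (Car M) N' (prSent φ x)
  exact (prSent_realize φ x N').symm.trans (h1.trans (prSent_realize φ x (Car M)))

end Pool.Agent.Helper367SM
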