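import Pool.Agent.Helper367_SM.Spec

set_option autoImplicit false

namespace Pool.Agent.Helper367SM

open FirstOrder

section Transfer

variable {L : FirstOrder.Language.{0, 0}}

/-- There are at least `N + 1` solutions. -/
noncomputable def trMany {n : ℕ} (φ : L.Formula (Fin n ⊕ Unit)) (N : ℕ) : L.Formula (Fin n) :=
  Language.Formula.iExs (Fin (N + 1))
    ((Language.Formula.iInf fun i : Fin (N + 1) =>
      (φ.relabel (Sum.elim (fun a => Sum.inl a) fun _ => Sum.inr i) :
        L.Formula (Fin n ⊕ Fin (N + 1)))) ⊓
      Language.Formula.iInf fun p : {p : Fin (N + 1) × Fin (N + 1) // p.1 ≠ p.2} =>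
        (((Language.Term.var (Sum.inr p.1.1)).equal (Language.Term.var (Sum.inr p.1.2))).not :
          L.Formula (Fin n ⊕ Fin (N + 1))))

theorem realize_trMany {n : ℕ} (φ : L.Formula (Fin n ⊕ Unit)) (N : ℕ) (K : Type) [L.Structure K]
    (b : Fin n → K) : (trMany φ N).Realize b ↔ ∃ y : Fin (N + 1) → K, Function.Injective y ∧
      ∀ i, φ.Realize (Sum.elim b fun _ => y i) := by
  unfold trMany
  rw [Language.Formula.realize_iExs]
  refine exists_congr fun y => ?_
  rw [Language.Formula.realize_inf, and_comm]
  refine and_congr ?_ ?_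
  · rw [Language.Formula.realize_iInf]
    simp only [Language.Formula.realize_not, Language.Formula.realize_equal,
      Language.Term.realize_var, Sum.elim_inr]
    constructor
    · intro h i j hij
      by_contra hne
      exact h ⟨(i, j), hne⟩ hij
    · rintro h ⟨⟨i, j⟩, hne⟩ hij
      exact hne (h hij)
  · rw [Language.Formula.realize_iInf]
    refine forall_congr' fun i => ?_
    rw [Language.Formula.realize_relabel]
    have e : (Sum.elim b y ∘ Sum.elim (fun a => Sum.inl a) fun _ => Sum.inr i :
        Fin n ⊕ Unit → K) = Sum.elim b fun _ => y i := by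
      funext x
      rcases x with a | u <;> rfl
    rw [e]

/-- The sentence. -/
noncomputable def trPsi {n : ℕ} (φ : L.Formula (Fin n ⊕ Unit)) (N : ℕ) : L.Sentence :=
  Language.Formula.iAlls (Fin n)
    (((trMany φ N).not ⊔ (trMany φ.not N).not).relabel (fun a => Sum.inr a) :
      L.Formula (Empty ⊕ Fin n))

theorem realize_trPsi {n : ℕ} (φ : L.Formula (Fin n ⊕ Unit)) (N : ℕ) (K : Type) [L.Structure K] :
    K ⊨ trPsi φ N ↔ ∀ b : Fin n → K, ¬ (trMany φ N).Realize b ∨ ¬ (trMany φ.not N).Realize b := by
  unfold trPsi Language.Sentence.Realize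
  rw [Language.Formula.realize_iAlls]
  refine forall_congr' fun b => ?_
  rw [Language.Formula.realize_relabel, Language.Formula.realize_sup,
    Language.Formula.realize_not, Language.Formula.realize_not]
  rfl

end Transfer

-- TARGET
theorem Transfer_proof : S_Transfer := by
  classical
  intro L M _ _ _ hM
  refine ⟨Language.completeTheory.isComplete L M, ?_⟩
  intro K _ _ hK
  have heq : M ≅[L] K := by
    rw [Language.elementarilyEquivalent_iff]
    intro φ
    exact (Language.realize_iff_of_model_completeTheory M K φ).symm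
  refine ⟨heq.infinite_iff.1 inferInstance, ?_⟩
  intro s hs
  unfold Set.Definable₁ at hs
  rw [Set.definable_iff_exists_formula_sum] at hs
  obtain ⟨φ, hφ⟩ := hs
  let F := φ.freeVarFinset
  let n := F.card
  let e : F ≃ Fin n := F.equivFin
  let f : F → Fin n ⊕ Unit := fun x => Sum.casesOn x.1 (fun _ => Sum.inl (e x)) fun _ => Sum.inr ()
  let k0 : K := Classical.arbitrary K
  let b : Fin n → K := fun i => Sum.casesOn (e.symm i).1 (fun a => (a : K)) fun _ => k0
  let φ' : L.Formula (Fin n ⊕ Unit) := Language.BoundedFormula.restrictFreeVar φ f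
  have key : ∀ y : K, y ∈ s ↔ φ'.Realize (Sum.elim b fun _ => y) := by
    intro y
    have h1 : y ∈ s ↔ φ.Realize (Sum.elim (fun a : (Set.univ : Set K) => (a : K))
        fun _ : Fin 1 => y) := by
      have := Set.ext_iff.1 hφ (fun _ => y)
      exact this
    rw [h1]
    unfold Language.Formula.Realize
    refine (Language.BoundedFormula.realize_restrictFreeVar _ ?_).symm
    rintro ⟨x, hx⟩
    rcases x with a | j
    · show b (e ⟨Sum.inl a, hx⟩) = _
      simp only [b, Equiv.symm_apply_apply]
      rfl
    · rfl
  obtain ⟨N, hN⟩ := hM n φ'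
  have hpsi : M ⊨ trPsi φ' N := by
    rw [realize_trPsi]
    intro c
    have aux : ∀ χ : L.Formula (Fin n ⊕ Unit),
        (∀ S : Finset M, (∀ y ∈ S, χ.Realize (Sum.elim c fun _ => y)) → S.card ≤ N) →
        ¬ (trMany χ N).Realize c := by
      intro χ h hr
      rw [realize_trMany] at hr
      obtain ⟨y, hy, hr⟩ := hr
      have h2 := h (Finset.univ.image y) (by
        intro z hz
        obtain ⟨i, -, rfl⟩ := Finset.mem_image.1 hz
        exact hr i)
      rw [Finset.card_image_of_injective _ hy, Finset.card_univ, Fintype.card_fin] at h2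
      omega
    rcases hN c with h | h
    · exact Or.inl (aux _ h)
    · exact Or.inr (aux _ fun S hS => h S fun y hy => by
        simpa only [Language.Formula.realize_not] using hS y hy)
  have hpsiK : K ⊨ trPsi φ' N := (Language.realize_iff_of_model_completeTheory M K _).2 hpsi
  rw [realize_trPsi] at hpsiK
  have aux : ∀ (χ : L.Formula (Fin n ⊕ Unit)) (u : Set K),
      (∀ y ∈ u, χ.Realize (Sum.elim b fun _ => y)) → ¬ (trMany χ N).Realize b → u.Finite := by
    intro χ u hu h
    by_contra hinf
    apply h
    rw [realize_trMany]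
    have g := Set.Infinite.natEmbedding u hinf
    refine ⟨fun i => (g (i : ℕ) : K), ?_, fun i => hu _ (g i).2⟩
    intro i j hij
    exact Fin.ext (g.injective (Subtype.ext hij))
  rcases hpsiK b with h | h
  · exact Or.inl (aux _ s (fun y hy => (key y).1 hy) h)
  · refine Or.inr (aux _ sᶜ (fun y hy => ?_) h)
    rw [Language.Formula.realize_not]
    exact fun h2 => hy ((key y).2 h2)

end Pool.Agent.Helper367SM
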