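import Pool.Agent.Helper367_SM.Spec

set_option autoImplicit false

/-!
The limit structure has the properties `Lim`.
-/

namespace Pool.Agent.Helper367SM

open Finset

namespace LimAux

theorem path_iff {path : ℕ → List ℕ} (hG : GS path) {v : ℕ} (hv : v ∈ TP path) (u : ℕ) :
    u ∈ path v ↔ u ∈ TP path ∧ u < v := by
  constructor
  · intro hu
    have huv := hG.lt v u hu
    refine ⟨fun s => ?_, huv⟩
    obtain ⟨t, hst, hvt⟩ := hv s
    exact ⟨t, hst, ((hG.s1 t v hvt u).1 hu).1⟩
  · rintro ⟨hu, huv⟩
    obtain ⟨t', ht', hut'⟩ := hu v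
    obtain ⟨t, ht, hvt⟩ := hv t'
    exact hG.s2 t t' v u hvt ht' ht hut' huv

theorem alive_TP {path : ℕ → List ℕ} (hG : GS path) {v : ℕ} (hv : v ∈ TP path) (t : ℕ) :
    Alive path v t := by
  intro t' hvt' _ u hu huv
  obtain ⟨t'', ht'', hvt''⟩ := hv t'
  exact hG.s2 t'' t' v u hvt'' hvt' ht'' hu huv

theorem alive_forever {path : ℕ → List ℕ} (hG : GS path) {v w : ℕ} (hv : v ∈ TP path) (hw : w < v)
    (h : Alive path w v) (t : ℕ) : Alive path w t := by
  intro t' hwt' _ u hu huw
  rcases le_or_gt t' v with h1 | h1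
  · exact h t' hwt' h1 u hu huw
  · obtain ⟨t'', ht'', hvt''⟩ := hv t'
    have := hG.s2 t'' t' v u hvt'' h1 ht'' hu (huw.trans hw)
    exact h v hw le_rfl u this huw

end LimAux

open LimAux

theorem Lim_proof (hInv : S_Inv) : S_Lim := by
  classical
  intro Lam path c New hG hC hS
  have hmono : Monotone c := monotone_nat_of_le_succ hC.mono
  set M := LimM path New with hM
  have hInK := hInv Lam path c New hG hC
  -- stages of edges
  have hstage : ∀ {j b : ℕ} {e : Edge}, e ∈ New j → (∀ x ∈ e.2, x < c b) → j < b := by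
    intro j b e he hin
    obtain ⟨x, hx, hcx⟩ := hC.meets j e he
    by_contra hb
    have := hmono (not_lt.1 hb)
    have := hin x hx
    omega
  have hinM : ∀ {j : ℕ} {e : Edge}, e ∈ New j → ∀ {b : ℕ}, j < b → ∀ x ∈ e.2, x < c b := by
    intro j e he b hb x hx
    exact (hC.inside j e he x hx).trans_le (hmono hb)
  have hStr : ∀ v ∈ TP path, restr M (c v) = Str path New v := by
    intro v hv
    ext e
    obtain ⟨s, l⟩ := e
    constructor
    · rintro ⟨⟨j, hj, hb⟩, hin⟩
      have hjv : j < v := hstage hj hin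
      refine ⟨j, hjv, hj, ?_⟩
      cases s with
      | E n i => trivial
      | R n => trivial
      | S n => exact hb v hjv
      | P w => exact (path_iff hG hv j).2 ⟨hb, hjv⟩
    · rintro ⟨j, hjv, hj, hb⟩
      refine ⟨⟨j, hj, ?_⟩, hinM hj hjv⟩
      cases s with
      | E n i => trivial
      | R n => trivial
      | S n => exact fun t _ => alive_forever hG hv hjv hb t
      | P w => exact ((path_iff hG hv j).1 hb).1
  have hStr' : ∀ v ∈ TP path, restr M (c (v + 1)) = Str path New v ∪ New v := by
    intro v hv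
    ext e
    obtain ⟨s, l⟩ := e
    constructor
    · rintro ⟨⟨j, hj, hb⟩, hin⟩
      have hjv : j < v + 1 := hstage hj hin
      rcases Nat.lt_succ_iff_lt_or_eq.1 hjv with h | rfl
      · left
        refine ⟨j, h, hj, ?_⟩
        cases s with
        | E n i => trivial
        | R n => trivial
        | S n => exact hb v h
        | P w => exact (path_iff hG hv j).2 ⟨hb, h⟩
      · right
        exact hj
    · rintro (h | h)
      · rw [← hStr v hv] at h
        exact ⟨h.1, fun x hx => (h.2 x hx).trans_le (hmono (Nat.le_succ v))⟩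
      · refine ⟨⟨v, h, ?_⟩, hC.inside v _ h⟩
        cases s with
        | E n i => trivial
        | R n => trivial
        | S n => exact fun t _ => alive_TP hG hv t
        | P w => exact hv
  have hunb : ∀ b, ∃ t, b ≤ c t := by
    intro b
    induction b with
    | zero => exact ⟨0, Nat.zero_le _⟩
    | succ b ih =>
      obtain ⟨t, ht⟩ := ih
      have hval : Task.Valid ((0, 1, []) : Task) := by
        refine ⟨by simp, by simp, by simp, by simp, by simp⟩
      obtain ⟨v, hv, htv, hr⟩ := hS (0, 1, []) hval t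
      have := (hr (Nat.zero_le _) (by
        have := hInK v
        convert this using 1
        simp [Task.news])).1
      refine ⟨v + 1, ?_⟩
      have h3 := hmono htv
      have h4 : ((0, 1, []) : Task).2.1 = 1 := rfl
      rw [h4] at this
      omega
  have hTPge : ∀ s, ∃ v ∈ TP path, s ≤ v := by
    intro s
    obtain ⟨v, hv, hs⟩ := hG.s3.exists_gt s
    exact ⟨v, hv, hs.le⟩
  -- every edge of `M` is eventually in the restrictions
  have hev : ∀ e ∈ M, ∀ᶠ v in Filter.atTop, e ∈ restr M (c v) := by
    rintro e ⟨j, hj, hb⟩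
    refine Filter.eventually_atTop.2 ⟨j + 1, fun v hv => ⟨⟨j, hj, hb⟩, hinM hj hv⟩⟩
  have hfreq : ∀ {p : ℕ → Prop}, (∀ᶠ v in Filter.atTop, p v) → ∃ v ∈ TP path, p v := by
    intro p hp
    obtain ⟨s, hs⟩ := Filter.eventually_atTop.1 hp
    obtain ⟨v, hv, hsv⟩ := hTPge s
    exact ⟨v, hv, hs v hsv⟩
  have hKr : ∀ v ∈ TP path, InK Lam (restr M (c v)) := fun v hv => by
    rw [hStr v hv]
    exact hInK v
  have hsub : ∀ b, restr M b ⊆ M := fun b e he => he.1
  have hstrong : ∀ t (Z : Finset ℕ) (G : Finset Edge), (∀ z ∈ Z, c t ≤ z) →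
      (∀ e ∈ G, e ∈ M ∧ (∀ x ∈ e.2, x < c t ∨ x ∈ Z) ∧ ∃ x ∈ e.2, c t ≤ x) →
      G.card ≤ Z.card := by
    intro t Z G hZ hGe
    have hst : ∀ e : Edge, ∃ j, e ∈ M → e ∈ New j := by
      intro e
      by_cases he : e ∈ M
      · obtain ⟨j, hj, -⟩ := he
        exact ⟨j, fun _ => hj⟩
      · exact ⟨0, fun h => absurd h he⟩
    choose st hst using hst
    have hst' : ∀ e ∈ G, e ∈ New (st e) := fun e he => hst e (hGe e he).1
    rw [card_eq_sum_card_fiberwise (f := st) (t := G.image st)
      (fun e he => mem_image_of_mem _ he)]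
    have hY : ∀ j ∈ G.image st, (G.filter (fun e => st e = j)).card ≤
        (Z.filter (fun z => c j ≤ z ∧ z < c (j + 1))).card := by
      intro j hj
      obtain ⟨e0, he0, rfl⟩ := mem_image.1 hj
      have htj : t ≤ st e0 := by
        obtain ⟨x, hx, hcx⟩ := (hGe e0 he0).2.2
        by_contra hlt
        have h1 := hC.inside _ e0 (hst' e0 he0) x hx
        have h2 := hmono (Nat.succ_le_of_lt (not_le.1 hlt))
        simp only [Nat.succ_eq_add_one] at h2
        omega
      refine le_trans (card_le_card ?_) (hC.strong (st e0)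
        (Z.filter (fun z => c (st e0) ≤ z ∧ z < c (st e0 + 1)))
        (fun y hy => (mem_filter.1 hy).2.1))
      intro e he
      obtain ⟨heG, hes⟩ := mem_filter.1 he
      have heN := hst' e heG
      rw [hes] at heN
      refine mem_filter.2 ⟨heN, fun x hx => ?_⟩
      by_cases hxc : x < c (st e0)
      · exact Or.inl hxc
      · right
        rcases (hGe e heG).2.1 x hx with h | h
        · exact absurd (h.trans_le (hmono htj)) hxc
        · exact mem_filter.2 ⟨h, not_lt.1 hxc, hC.inside _ e heN x hx⟩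
    refine (sum_le_sum hY).trans ?_
    rw [← card_biUnion]
    · refine card_le_card ?_
      intro z hz
      obtain ⟨j, -, hzj⟩ := mem_biUnion.1 hz
      exact (mem_filter.1 hzj).1
    · intro j _ j' _ hjj'
      show Disjoint _ _
      rw [Finset.disjoint_left]
      intro z hz hz'
      have h1 := (mem_filter.1 hz).2
      have h2 := (mem_filter.1 hz').2
      rcases Nat.lt_or_gt_of_ne hjj' with h | h
      · have := hmono (Nat.succ_le_of_lt h)
        simp only [Nat.succ_eq_add_one] at this
        omega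
      · have := hmono (Nat.succ_le_of_lt h)
        simp only [Nat.succ_eq_add_one] at this
        omega
  refine ⟨?_, hG.s3, hmono, hunb, hstrong, ?_, ?_, ?_, ?_⟩
  · -- the limit is in the class
    refine ⟨?_, ?_, ?_, ?_, ?_, ?_⟩
    · intro e he
      obtain ⟨v, hv, hev'⟩ := hfreq (hev e he)
      exact (hKr v hv).wf e hev'
    · intro n l u h1 h2
      obtain ⟨v, hv, ha, hb⟩ := hfreq ((hev _ h1).and (hev _ h2))
      exact (hKr v hv).h1 n l u ha hb
    · intro n v l h1 h2
      obtain ⟨w, hw, ha, hb⟩ := hfreq ((hev _ h1).and (hev _ h2))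
      exact hsub _ ((hKr w hw).h2 n v l ha hb)
    · intro n i j l h1 h2
      obtain ⟨w, hw, ha, hb⟩ := hfreq ((hev _ h1).and (hev _ h2))
      exact (hKr w hw).h3 n i j l ha hb
    · intro e h1 e' h2 hk hag
      obtain ⟨w, hw, ha, hb⟩ := hfreq ((hev _ h1).and (hev _ h2))
      exact (hKr w hw).fn e ha e' hb hk hag
    · intro π hπ J f hF
      have hall : ∀ᶠ v in Filter.atTop, ∀ j ∈ J, ∀ q ∈ π.Q,
          Matched Lam (restr M (c v)) π.Q (f j) q := by
        rw [Filter.eventually_all_finset]
        intro j hj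
        rw [Filter.eventually_all_finset]
        rintro ⟨s, l⟩ hq
        have hm := hF.mat j hj _ hq
        cases s with
        | E n i =>
          obtain ⟨h1, h2⟩ := hm
          filter_upwards [hev _ h1] with v hv
          exact ⟨hv, fun hP w hw => h2 hP w (hsub _ hw)⟩
        | K n =>
          obtain ⟨w, h1, h2⟩ := hm
          filter_upwards [hev _ h1, hev _ h2] with v hv hv'
          exact ⟨w, hv, hv'⟩
        | R n =>
          filter_upwards [hev _ hm] with v hv
          exact hv
        | S n =>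
          filter_upwards [hev _ hm] with v hv
          exact hv
        | P =>
          obtain ⟨w, h1⟩ := hm
          filter_upwards [hev _ h1] with v hv
          exact ⟨w, hv⟩
      obtain ⟨v, hv, h⟩ := hfreq hall
      exact (hKr v hv).mu π hπ J f ⟨hF.inj, hF.base, hF.disj, h⟩
  · intro Z G hGe
    refine hstrong 0 Z G (fun z _ => by rw [hC.c0]; exact Nat.zero_le _) ?_
    intro e he
    obtain ⟨heM, hin⟩ := hGe e he
    refine ⟨heM, fun x hx => Or.inr (hin x hx), ?_⟩
    obtain ⟨j, hj, -⟩ := heM
    obtain ⟨x, hx, -⟩ := hC.meets j e hj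
    exact ⟨x, hx, by rw [hC.c0]; exact Nat.zero_le _⟩
  · rintro v l ⟨j, hj, hb⟩
    rw [hC.verP j v l hj]
    exact hb
  · intro v
    refine ((New v).image Prod.snd).finite_toSet.subset ?_
    rintro l ⟨j, hj, -⟩
    have := hC.verP j v l hj
    subst this
    exact mem_coe.2 (mem_image_of_mem Prod.snd hj)
  · intro T hT s
    obtain ⟨t0, ht0⟩ := hunb T.1
    obtain ⟨v, hv, hsv, hr⟩ := hS T hT (max s t0)
    have hTv : T.1 ≤ c v := ht0.trans (hmono ((le_max_right _ _).trans hsv))
    refine ⟨v, hv, (le_max_left _ _).trans hsv, hTv, ?_⟩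
    rw [hStr v hv, hStr' v hv]
    intro hK
    obtain ⟨h1, h2⟩ := hr hTv hK
    refine ⟨h1, ?_⟩
    rw [h2]
    congr 1
    ext e
    simp

end Pool.Agent.Helper367SM
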