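import Pool.Agent.Helper367_SM.Defs

set_option autoImplicit false

/-!
The model theoretic and computability theoretic notions of the final statement.
-/

namespace Pool.Agent.Helper367SM

open FirstOrder Encodable

/-- A computable signature: function symbols and relation symbols are numbered by the natural
numbers, and their arities are given by computable functions. -/
structure CSig where
  far : ℕ → ℕ
  rar : ℕ → ℕ
  far_comp : Computable far
  rar_comp : Computable rar

/-- The language of a computable signature. -/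
def CSig.lang (σ : CSig) : FirstOrder.Language.{0, 0} where
  Functions n := {k : ℕ // σ.far k = n}
  Relations n := {k : ℕ // σ.rar k = n}

/-- The facts of the atomic diagram of a structure with universe `D ⊆ ℕ`: `inl x` stands for
`x ∈ D`, `inr (inl (k, l, y))` for `F_k(l) = y`, `inr (inr (k, l))` for `R_k(l)`. -/
def AtomicFact (σ : CSig) (D : Set ℕ) (S : σ.lang.Structure D) :
    ℕ ⊕ ((ℕ × List ℕ × ℕ) ⊕ (ℕ × List ℕ)) → Prop
  | Sum.inl x => x ∈ D
  | Sum.inr (Sum.inl (k, l, y)) => ∃ xs : Fin (σ.far k) → D,
      l = List.ofFn (fun i => (xs i : ℕ)) ∧ ((S.funMap (⟨k, rfl⟩ : {j // σ.far j = σ.far k}) xs : D) : ℕ) = y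
  | Sum.inr (Sum.inr (k, l)) => ∃ xs : Fin (σ.rar k) → D,
      l = List.ofFn (fun i => (xs i : ℕ)) ∧ S.RelMap (⟨k, rfl⟩ : {j // σ.rar j = σ.rar k}) xs

/-- The predicate `p` is decidable relative to the oracles in `O`. -/
def DecIn {α : Type} [Primcodable α] (O : Set (ℕ →. ℕ)) (p : α → Prop) : Prop :=
  ∃ f : α → Bool, ComputableIn O f ∧ ∀ a, p a ↔ f a = true

/-- `N` has a copy with universe a subset of the natural numbers, computable (universe and atomic
diagram) relative to the oracles in `O`. -/
def HasCopyIn (σ : CSig) (O : Set (ℕ →. ℕ)) (N : Type) [σ.lang.Structure N] : Prop :=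
  ∃ (D : Set ℕ) (S : σ.lang.Structure D), Nonempty (@FirstOrder.Language.Equiv σ.lang N D _ S) ∧
    DecIn O (AtomicFact σ D S)

open Classical in
/-- The Turing jump of `A`: the bit at `e` is one iff for some `k` the `e`-th program halts on the
input consisting of the first `k` bits of `A` and of `e`. -/
noncomputable def jump (A : ℕ → Bool) (e : ℕ) : Bool :=
  decide (∃ k, ((Denumerable.ofNat Nat.Partrec.Code e).eval
    (Encodable.encode ((List.range k).map A, e))).Dom)

/-- The double jump of the empty set. -/
noncomputable def zeroPP : ℕ → Bool := jump (jump fun _ => false)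

/-- The characteristic function of `A`, as an oracle. -/
def charFn (A : ℕ → Bool) : ℕ →. ℕ := fun n => Part.some (A n).toNat

/-- Strongly minimal theories: complete, with infinite models only, and such that every definable
(with parameters) subset of a model is finite or cofinite. -/
def StronglyMinimal {L : FirstOrder.Language.{0, 0}} (T : L.Theory) : Prop :=
  T.IsComplete ∧ ∀ (N : Type) [L.Structure N] [Nonempty N], N ⊨ T →
    Infinite N ∧ ∀ s : Set N, Set.univ.Definable₁ L s → s.Finite ∨ sᶜ.Finite

/-- `N` is the prime model of `T`. -/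
def IsPrimeModel {L : FirstOrder.Language.{0, 0}} (T : L.Theory) (N : Type) [L.Structure N] : Prop :=
  Nonempty N ∧ N ⊨ T ∧ ∀ (N' : Type) [L.Structure N'] [Nonempty N'], N' ⊨ T → Nonempty (N ↪ₑ[L] N')

/-- The final statement. -/
def Final : Prop :=
  ∃ (σ : CSig) (T : σ.lang.Theory), StronglyMinimal T ∧
    (∃ (M : Type) (_ : σ.lang.Structure M), IsPrimeModel T M ∧ HasCopyIn σ ∅ M) ∧
    ∃ (N : Type) (_ : σ.lang.Structure N), Countable N ∧ Nonempty N ∧ N ⊨ T ∧
      ¬ HasCopyIn σ {charFn zeroPP} N

/-! ### The concrete signature -/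

/-- The relation symbol with number `k`. -/
def symOf (k : ℕ) : Sym :=
  if k % 2 = 0 then Sym.E (k / 2).unpair.1 (k / 2).unpair.2 else Sym.R (k / 2)

/-- The concrete signature: constants `c_m`, ternary `E_{n,i}`, 5-ary `R_n`. -/
def sig0 : CSig where
  far _ := 0
  rar k := if k % 2 = 0 then 3 else 5
  far_comp := Computable.const 0
  rar_comp := (Primrec.ite (Primrec.eq.comp (Primrec.nat_mod.comp Primrec.id (Primrec.const 2))
    (Primrec.const 0)) (Primrec.const 3) (Primrec.const 5)).to_comp

/-- The universe of the model given by the set of edges `M`. -/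
def Car (_ : Set Edge) : Type := ℕ

instance instStrCar (M : Set Edge) : sig0.lang.Structure (Car M) where
  funMap f _ := f.1
  RelMap r xs := (symOf r.1, List.ofFn (fun i => (show ℕ from xs i))) ∈ M

/-- The relation symbol `E_{n,i}`. -/
def relE (n i : ℕ) : sig0.lang.Relations 3 := ⟨2 * Nat.pair n i, by simp [sig0]⟩

/-- The relation symbol `R_n`. -/
def relR (n : ℕ) : sig0.lang.Relations 5 := ⟨2 * n + 1, by simp [sig0]⟩

/-- `N` codes `Pst` over the pair `(c, z)`. -/
def Coding (N : Type) [sig0.lang.Structure N] (Pst : Set ℕ) (c z : N) : Prop :=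
  ∀ n, n ∈ Pst ↔ ∃ x2 x3 : N, [c, z, x2, x3].Nodup ∧
    (∀ u : N, ¬ FirstOrder.Language.Structure.RelMap (relR n) ![c, z, x2, x3, u]) ∧
    ∀ i, ¬ FirstOrder.Language.Structure.RelMap (relE n i) ![c, z, x2]

end Pool.Agent.Helper367SM
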