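import Pool.Agent.Helper367_SM.Defs

set_option autoImplicit false

/-! Codings of symbols. -/

namespace Pool.Agent.Helper367SM

/-- Coding of actual symbols. -/
def Sym.equiv : Sym ≃ (ℕ × ℕ) ⊕ (ℕ ⊕ (ℕ ⊕ ℕ)) where
  toFun
    | Sym.E n i => Sum.inl (n, i)
    | Sym.R n => Sum.inr (Sum.inl n)
    | Sym.S n => Sum.inr (Sum.inr (Sum.inl n))
    | Sym.P v => Sum.inr (Sum.inr (Sum.inr v))
  invFun
    | Sum.inl (n, i) => Sym.E n i
    | Sum.inr (Sum.inl n) => Sym.R n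
    | Sum.inr (Sum.inr (Sum.inl n)) => Sym.S n
    | Sum.inr (Sum.inr (Sum.inr v)) => Sym.P v
  left_inv x := by cases x <;> rfl
  right_inv x := by rcases x with ⟨n, i⟩ | n | n | v <;> rfl

/-- Coding of symbolic symbols. -/
def SSym.equiv : SSym ≃ (ℕ × ℕ) ⊕ (ℕ ⊕ (ℕ ⊕ (ℕ ⊕ Unit))) where
  toFun
    | SSym.E n i => Sum.inl (n, i)
    | SSym.K n => Sum.inr (Sum.inl n)
    | SSym.R n => Sum.inr (Sum.inr (Sum.inl n))
    | SSym.S n => Sum.inr (Sum.inr (Sum.inr (Sum.inl n)))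
    | SSym.P => Sum.inr (Sum.inr (Sum.inr (Sum.inr ())))
  invFun
    | Sum.inl (n, i) => SSym.E n i
    | Sum.inr (Sum.inl n) => SSym.K n
    | Sum.inr (Sum.inr (Sum.inl n)) => SSym.R n
    | Sum.inr (Sum.inr (Sum.inr (Sum.inl n))) => SSym.S n
    | Sum.inr (Sum.inr (Sum.inr (Sum.inr ()))) => SSym.P
  left_inv x := by cases x <;> rfl
  right_inv x := by rcases x with ⟨n, i⟩ | n | n | n | ⟨⟩ <;> rfl

instance : Primcodable Sym := Primcodable.ofEquiv _ Sym.equiv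

instance : Primcodable SSym := Primcodable.ofEquiv _ SSym.equiv

end Pool.Agent.Helper367SM
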