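import Pool.Agent.Helper367_SM.Spec

/-!
Realisation of single edges and free vertices in the limit (MP_fd2900_lc, task SINGLE).
-/

set_option autoImplicit false

namespace Pool.Agent.Helper367SM

namespace SingleAux

/-! ### lists with one open position -/

theorem set_eq {l : List ℕ} {p : ℕ} (hp : p < l.length) (y : ℕ) :
    l.set p y = l.take p ++ y :: l.drop (p + 1) := by
  rw [List.set_eq_take_append_cons_drop, if_pos hp]

theorem erase_eq (l : List ℕ) (p : ℕ) : l.eraseIdx p = l.take p ++ l.drop (p + 1) :=
  List.eraseIdx_eq_take_drop_succ ..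

theorem mem_set_iff {l : List ℕ} {p : ℕ} (hp : p < l.length) {x y : ℕ} :
    x ∈ l.set p y ↔ x = y ∨ x ∈ l.eraseIdx p := by
  rw [set_eq hp, erase_eq, List.mem_append, List.mem_cons, List.mem_append]
  tauto

theorem nodup_set {l : List ℕ} {p : ℕ} (hp : p < l.length) {y : ℕ} (h : (l.eraseIdx p).Nodup)
    (hy : y ∉ l.eraseIdx p) : (l.set p y).Nodup := by
  rw [set_eq hp, List.nodup_middle, ← erase_eq, List.nodup_cons]
  exact ⟨hy, h⟩

theorem map_theta_of_lt {β c : ℕ} {l : List ℕ} (h : ∀ x ∈ l, x < β) : l.map (theta β c) = l := by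
  conv_rhs => rw [← List.map_id l]
  refine List.map_congr_left fun x hx => ?_
  simp [theta, h x hx]

theorem theta_self (β c : ℕ) : theta β c β = c := by simp [theta]

theorem map_theta_set {l : List ℕ} {p : ℕ} (hp : p < l.length) {β c : ℕ}
    (h : ∀ x ∈ l.eraseIdx p, x < β) : (l.set p β).map (theta β c) = l.set p c := by
  rw [erase_eq] at h
  rw [set_eq hp, set_eq hp, List.map_append, List.map_cons, theta_self,
    map_theta_of_lt fun x hx => h x (List.mem_append_left _ hx),
    map_theta_of_lt fun x hx => h x (List.mem_append_right _ hx)]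

/-- two lists which agree, one of which lacks an entry of the other -/
theorem agree_set {l l' : List ℕ} {p y : ℕ} (hp : p < l.length) (hlen : l'.length = l.length)
    (hy : y ∉ l') (h : Agree l' (l.set p y)) : ∃ z, l' = l.set p z := by
  obtain ⟨p', hp'⟩ := h
  have hpp : p = p' := by
    by_contra hne
    have h1 := hp' p hne
    rw [List.getElem?_set_self hp] at h1
    exact hy (List.mem_of_getElem? h1)
  subst hpp
  have hp2 : p < l'.length := by omega
  refine ⟨l'[p], ?_⟩
  apply List.ext_getElem?
  intro k
  by_cases hk : k = p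
  · subst hk
    rw [List.getElem?_set_self hp, List.getElem?_eq_getElem hp2]
  · rw [hp' k hk, List.getElem?_set_ne (Ne.symm hk), List.getElem?_set_ne (Ne.symm hk)]

/-! ### restrictions -/

theorem restr_sub (M : Set Edge) (c : ℕ) : restr M c ⊆ M := fun _ h => h.1

theorem matched_mono_restr {Lam : ℕ → ℕ → ℕ} {M : Set Edge} {c : ℕ} {Q : Finset SEdge}
    {f : ℕ → ℕ} {q : SEdge} (h : Matched Lam (restr M c) Q f q) : Matched Lam M Q f q := by
  obtain ⟨s, l⟩ := q
  cases s with
  | E n i =>
    obtain ⟨h1, h2⟩ := h
    refine ⟨h1.1, fun hq v hv => h2 hq v ⟨hv, fun x hx => h1.2 x ?_⟩⟩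
    obtain ⟨z, hz, rfl⟩ := List.mem_map.1 hx
    exact List.mem_map.2 ⟨z, List.mem_of_mem_take hz, rfl⟩
  | K n =>
    obtain ⟨v, h1, h2⟩ := h
    exact ⟨v, h1.1, h2.1⟩
  | R n => exact h.1
  | S n => exact h.1
  | P =>
    obtain ⟨v, h1⟩ := h
    exact ⟨v, h1.1⟩

theorem inK_restr {Lam : ℕ → ℕ → ℕ} {M : Set Edge} (h : InK Lam M) (c : ℕ) :
    InK Lam (restr M c) where
  wf := fun e he => h.wf e he.1
  h1 := fun n l u h1 h2 => h.h1 n l u h1.1 h2.1
  h2 := fun n v l h1 h2 => ⟨h.h2 n v l h1.1 h2.1, fun x hx => h1.2 x (List.mem_of_mem_take hx)⟩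
  h3 := fun n i j l h1 h2 => h.h3 n i j l h1.1 h2.1
  fn := fun e he e' he' hk ha => h.fn e he.1 e' he'.1 hk ha
  mu := fun π hπ J f hf => h.mu π hπ J f
    ⟨hf.inj, hf.base, hf.disj, fun j hj q hq => matched_mono_restr (hf.mat j hj q hq)⟩

/-- every matching edge consists of the images of the names -/
theorem medge_list {Lam : ℕ → ℕ → ℕ} {X : Set Edge} {f : ℕ → ℕ} {e : Edge} {q : SEdge}
    (h : MEdge Lam X f e q) : e ∈ X ∧ e.2 = q.2.map f := by
  obtain ⟨s, l⟩ := q
  cases s with
  | E n i => exact ⟨h.2, by rw [h.1]⟩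
  | K n =>
    obtain ⟨v, _, h2, h3⟩ := h
    exact ⟨h3, by rw [h2]⟩
  | R n => exact ⟨h.2, by rw [h.1]⟩
  | S n => exact ⟨h.2, by rw [h.1]⟩
  | P =>
    obtain ⟨v, h2, h3⟩ := h
    exact ⟨h3, by rw [h2]⟩

theorem kind_instS {Lam : ℕ → ℕ → ℕ} {v : ℕ} {s : SSym} (h : ∀ n, s ≠ SSym.K n) :
    (instS Lam v s).kind = s := by
  cases s with
  | E n i => rfl
  | K n => exact absurd rfl (h n)
  | R n => rfl
  | S n => rfl
  | P => rfl

theorem ar_instS (Lam : ℕ → ℕ → ℕ) (v : ℕ) (s : SSym) : (instS Lam v s).ar = s.ar := by
  cases s <;> rfl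

/-- adding one edge with one new vertex -/
theorem inK_add (hF : S_Family) (hM : S_Matched) {Lam : ℕ → ℕ → ℕ} {M : Set Edge}
    (hK : InK Lam M) {v y : ℕ} {s : SSym} {l : List ℕ} {p : ℕ} (hs : ∀ n, s ≠ SSym.K n)
    (hlen : l.length = s.ar) (hp : p < l.length) (hnd : (l.eraseIdx p).Nodup)
    (hfill : ∀ y, ∀ e ∈ M, e.1.kind = s → e.2 ≠ l.set p y)
    (hR : ∀ n, s = SSym.R n → p = 4 → (Sym.S n, l.take 4) ∉ M)
    (hS : ∀ n v, s = SSym.S n → 2 ≤ p → (Sym.P v, l.take 2) ∈ M →
      p = 3 ∧ (Sym.E n (Lam v n), l.take 3) ∈ M)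
    (hlt : ∀ x ∈ l.eraseIdx p, x < y) :
    InK Lam (restr M y ∪ {(instS Lam v s, l.set p y)}) := by
  have hKr := inK_restr hK y
  have hyl : y ∉ l.eraseIdx p := fun h => lt_irrefl _ (hlt y h)
  have hymem : y ∈ l.set p y := (mem_set_iff hp).2 (Or.inl rfl)
  have hold : ∀ e ∈ restr M y, y ∉ e.2 := fun e he h => lt_irrefl _ (he.2 y h)
  have hkind := kind_instS (Lam := Lam) (v := v) hs
  -- edges without the new vertex are old
  have hback : ∀ e ∈ restr M y ∪ {(instS Lam v s, l.set p y)}, y ∉ e.2 → e ∈ restr M y := by
    rintro e (h | h) hy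
    · exact h
    · rw [Set.mem_singleton_iff] at h
      subst h
      exact absurd hymem hy
  have hnew : ∀ e ∈ restr M y ∪ {(instS Lam v s, l.set p y)}, y ∈ e.2 →
      e = (instS Lam v s, l.set p y) := by
    rintro e (h | h) hy
    · exact absurd hy (hold e h)
    · exact h
  refine ⟨?_, ?_, ?_, ?_, ?_, ?_⟩
  · rintro e (he | he)
    · exact hKr.wf e he
    · rw [Set.mem_singleton_iff] at he
      subst he
      refine ⟨?_, nodup_set hp hnd hyl⟩
      rw [ar_instS, List.length_set, hlen]
  · rintro n l' u (h1 | h1) (h2 | h2)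
    · exact hKr.h1 n l' u h1 h2
    · rw [Set.mem_singleton_iff, Prod.mk.injEq] at h2
      obtain ⟨h2, h3⟩ := h2
      have hsR : s = SSym.R n := by rw [← hkind, ← h2]; rfl
      have hl4 : l'.length = 4 := (hKr.wf _ h1).1
      have hyl' : y ∉ l' := hold _ h1
      have hp4 : p = 4 := by
        by_contra hne
        have hl5 : l.length = 5 := by rw [hlen, hsR]; rfl
        have hlt4 : p < l'.length := by omega
        have e1 : (l' ++ [u])[p]? = some y := by rw [h3, List.getElem?_set_self hp]
        rw [List.getElem?_append_left hlt4] at e1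
        exact hyl' (List.mem_of_getElem? e1)
      have e2 : l' = l.take 4 := by
        have e3 : (l' ++ [u]).take 4 = (l.set p y).take 4 := by rw [h3]
        rw [List.take_set_of_le (by omega), List.take_append_of_le_length (by omega),
          List.take_of_length_le (by omega)] at e3
        exact e3
      exact hR n hsR hp4 (e2 ▸ h1.1)
    · rw [Set.mem_singleton_iff, Prod.mk.injEq] at h1
      apply hold _ h2
      rw [h1.2]
      exact List.mem_append_left _ hymem
    · rw [Set.mem_singleton_iff, Prod.mk.injEq] at h1 h2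
      have := h1.1.trans h2.1.symm
      cases this
  · rintro n v' l' (h1 | h1) (h2 | h2)
    · exact Or.inl (hKr.h2 n v' l' h1 h2)
    · rw [Set.mem_singleton_iff, Prod.mk.injEq] at h2
      exfalso
      apply hold _ h1
      have h3 : y ∈ l'.take 2 := by rw [h2.2]; exact hymem
      exact List.mem_of_mem_take h3
    · rw [Set.mem_singleton_iff, Prod.mk.injEq] at h1
      obtain ⟨h1, h3⟩ := h1
      have hsS : s = SSym.S n := by rw [← hkind, ← h1]; rfl
      have hp2 : 2 ≤ p := by
        by_contra hlt2
        apply hold _ h2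
        have : y ∈ (l.set p y).take 2 := by
          apply List.mem_of_getElem? (i := p)
          rw [List.getElem?_take_of_lt (by omega), List.getElem?_set_self hp]
        simpa [h3] using this
      have e1 : l'.take 2 = l.take 2 := by rw [h3, List.take_set_of_le hp2]
      obtain ⟨hp3, hE⟩ := hS n v' hsS hp2 (e1 ▸ h2.1)
      have e2 : l'.take 3 = l.take 3 := by rw [h3, List.take_set_of_le (by omega)]
      rw [e2]
      refine Or.inl ⟨hE, fun x hx => hlt x ?_⟩
      rw [erase_eq, hp3]
      exact List.mem_append_left _ hx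
    · rw [Set.mem_singleton_iff, Prod.mk.injEq] at h1 h2
      have := h1.1.trans h2.1.symm
      cases this
  · rintro n i j l' (h1 | h1) (h2 | h2)
    · exact hKr.h3 n i j l' h1 h2
    · rw [Set.mem_singleton_iff, Prod.mk.injEq] at h2
      exact absurd (by rw [h2.2]; exact hymem) (hold _ h1)
    · rw [Set.mem_singleton_iff, Prod.mk.injEq] at h1
      exact absurd (by rw [h1.2]; exact hymem) (hold _ h2)
    · rw [Set.mem_singleton_iff, Prod.mk.injEq] at h1 h2
      have := h1.1.trans h2.1.symm
      rw [Sym.E.injEq] at this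
      exact this.2
  · have key : ∀ e ∈ restr M y, e.1.kind = s → ¬ Agree e.2 (l.set p y) := by
      intro e he hk ha
      have hlen' : e.2.length = l.length := by
        rw [(hKr.wf e he).1, hlen, ← hk]
        cases e.1 <;> rfl
      obtain ⟨z, hz⟩ := agree_set hp hlen' (hold e he) ha
      exact hfill z e he.1 hk hz
    rintro e (he | he) e' (he' | he') hk ha
    · exact hKr.fn e he e' he' hk ha
    · rw [Set.mem_singleton_iff] at he'
      subst he'
      exact absurd ha (key e he (by rw [hk]; exact hkind))
    · rw [Set.mem_singleton_iff] at he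
      subst he
      obtain ⟨q, hq⟩ := ha
      exact absurd ⟨q, fun k hk' => (hq k hk').symm⟩ (key e' he' (by rw [← hk]; exact hkind))
    · rw [Set.mem_singleton_iff] at he he'
      rw [he, he']
  · intro π hπ J f hfam
    have hmu : 2 ≤ π.mu := by
      have := hπ.two
      unfold Pat.mu
      omega
    by_cases hA : ∃ j ∈ J, ∃ a ∈ π.A, f j a = y
    · -- the new vertex is in the base
      obtain ⟨j0, hj0, a, ha, hfa⟩ := hA
      have hJ : J.card ≤ 1 := by
        rw [Finset.card_le_one]
        intro i hi j hj
        by_contra hne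
        obtain ⟨q, hq, haq⟩ := hπ.cover a ha
        obtain ⟨z, hzq, hzC⟩ := hπ.meets q hq
        have key : ∀ j ∈ J, q.2.map (f j) = l.set p y := by
          intro j hj
          obtain ⟨e, _, he2, he3⟩ := hM Lam _ π.Q (f j) q (hfam.mat j hj q hq)
          have hye : y ∈ e.2 := by
            rw [he3]
            exact List.mem_map.2 ⟨a, haq, by rw [hfam.base j hj j0 hj0 a ha, hfa]⟩
          rw [← he3, hnew e he2 hye]
        have h1 := (key i hi).trans (key j hj).symm
        have h2 : f i z = f j z := by
          obtain ⟨k, hk⟩ := List.getElem?_of_mem hzq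
          have h3 : (q.2.map (f i))[k]? = (q.2.map (f j))[k]? := by rw [h1]
          rw [List.getElem?_map, List.getElem?_map, hk] at h3
          simpa using h3
        exact hfam.disj i hi j hj hne z hzC z hzC h2
      omega
    · push Not at hA
      by_cases hC : ∃ j ∈ J, ∃ x ∈ π.C, f j x = y
      · -- the new vertex is in one block
        exfalso
        obtain ⟨j, hj, x, hx, hfx⟩ := hC
        have hx2 : ∃ x' ∈ π.C, x' ≠ x := by
          have h2 := hπ.two
          obtain ⟨x', hx', hne⟩ := Finset.exists_mem_ne (by omega : 1 < π.C.card) x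
          exact ⟨x', hx', hne⟩
        obtain ⟨x', hx', hne⟩ := hx2
        have hfam1 : Fam Lam (restr M y ∪ {(instS Lam v s, l.set p y)}) π {j} f := by
          refine ⟨?_, ?_, ?_, ?_⟩
          · intro i hi; rw [Finset.mem_singleton] at hi; subst hi; exact hfam.inj _ hj
          · intro i hi k hk; rw [Finset.mem_singleton] at hi hk; subst hi; subst hk
            exact hfam.base _ hj _ hj
          · intro i hi k hk hik; rw [Finset.mem_singleton] at hi hk; subst hi; subst hk
            exact absurd rfl hik
          · intro i hi; rw [Finset.mem_singleton] at hi; subst hi; exact hfam.mat _ hj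
        obtain ⟨W, G, hWG, _, hW, hG⟩ := hF Lam _ π hπ {j} f hfam1 {z | z ≠ y} ∅
          (Finset.empty_subset _) (by
            intro i hi a ha
            rw [Finset.mem_singleton] at hi
            subst hi
            simp only [Finset.notMem_empty, Set.mem_ofPred_eq, not_not, false_iff]
            exact hA _ hj a ha) (by
            intro i hi
            rw [Finset.mem_singleton] at hi
            subst hi
            refine ⟨x', hx', fun h => hne ?_⟩
            exact hfam.inj _ hj (Finset.mem_coe.2 (Finset.mem_union_right _ hx'))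
              (Finset.mem_coe.2 (Finset.mem_union_right _ hx)) (h.trans hfx.symm)) (by
            intro i hi
            rw [Finset.mem_singleton] at hi
            subst hi
            exact Or.inr ⟨x, hx, by simp [hfx]⟩)
        have hGle : ∀ e ∈ G, e = (instS Lam v s, l.set p y) := by
          intro e he
          obtain ⟨⟨j', _, q, _, hme⟩, _, z, hz, hzW⟩ := hG e he
          have hzy : z = y := by
            have := hW z hzW
            simpa using this
          exact hnew e (medge_list hme).1 (hzy ▸ hz)
        have hG1 : G.card ≤ 1 := by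
          rw [Finset.card_le_one]
          intro e he e' he'
          rw [hGle e he, hGle e' he']
        rw [Finset.card_singleton, Finset.card_empty] at hWG
        have hGpos : 0 < G.card := by omega
        obtain ⟨e, he⟩ := Finset.card_pos.1 hGpos
        obtain ⟨_, _, z, _, hzW⟩ := hG e he
        have : 0 < W.card := Finset.card_pos.2 ⟨z, hzW⟩
        omega
      · -- all copies are old
        push Not at hC
        refine hKr.mu π hπ J f ⟨hfam.inj, hfam.base, hfam.disj, fun j hj q hq => ?_⟩
        have hny : ∀ z ∈ q.2, f j z ≠ y := by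
          intro z hz
          rcases Finset.mem_union.1 (hπ.inside q hq z hz) with h | h
          · exact hA j hj z h
          · exact hC j hj z h
        have hny' : ∀ m : List ℕ, (∀ z ∈ m, z ∈ q.2) → y ∉ m.map (f j) := by
          intro m hm h
          obtain ⟨z, hz, he⟩ := List.mem_map.1 h
          exact hny z (hm z hz) he
        have hmat := hfam.mat j hj q hq
        obtain ⟨σ, m⟩ := q
        cases σ with
        | E n i =>
          obtain ⟨h1, h2⟩ := hmat
          exact ⟨hback _ h1 (hny' m fun _ h => h), fun hq v hv => h2 hq v (Or.inl hv)⟩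
        | K n =>
          obtain ⟨v', h1, h2⟩ := hmat
          exact ⟨v', hback _ h1 (hny' _ fun _ h => List.mem_of_mem_take h),
            hback _ h2 (hny' m fun _ h => h)⟩
        | R n => exact hback _ hmat (hny' m fun _ h => h)
        | S n => exact hback _ hmat (hny' m fun _ h => h)
        | P =>
          obtain ⟨v', h1⟩ := hmat
          exact ⟨v', hback _ h1 (hny' m fun _ h => h)⟩

end SingleAux

open SingleAux

/-- (R1) -/
theorem Single_proof (hF : S_Family) (hM : S_Matched) : S_Single := by
  intro Lam TPs M c hL s l p hs hlen hp hnd hfill hR hS s0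
  obtain ⟨β, hβ⟩ : ∃ β, ∀ x ∈ l.eraseIdx p, x < β := by
    refine ⟨(l.eraseIdx p).sum + 1, fun x hx => ?_⟩
    have := List.le_sum_of_mem hx
    omega
  have hβl : β ∉ l.eraseIdx p := fun h => lt_irrefl _ (hβ β h)
  have hval : Task.Valid (β, 1, [(s, l.set p β)]) := by
    refine ⟨?_, ?_, ?_, ?_, ?_⟩
    · intro q hq
      rw [List.mem_singleton] at hq
      subst hq
      exact ⟨by rw [List.length_set, hlen], nodup_set hp hnd hβl⟩
    · intro q hq x hx
      rw [List.mem_singleton] at hq
      subst hq
      rcases (mem_set_iff hp).1 hx with h | h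
      · rw [h]; exact Nat.lt_succ_self _
      · have := hβ x h
        simp only
        omega
    · intro q hq
      rw [List.mem_singleton] at hq
      subst hq
      exact ⟨β, (mem_set_iff hp).2 (Or.inl rfl), le_rfl⟩
    · intro n l' h
      rw [List.mem_singleton, Prod.mk.injEq] at h
      exact absurd h.1.symm (hs n)
    · intro Y hY
      rcases Y.eq_empty_or_nonempty with rfl | hne
      · rw [Finset.card_empty, Nat.le_zero, Finset.card_eq_zero, Finset.filter_eq_empty_iff]
        intro q hq h
        rw [List.mem_toFinset, List.mem_singleton] at hq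
        subst hq
        rcases h β ((mem_set_iff hp).2 (Or.inl rfl)) with h | h
        · exact lt_irrefl _ h
        · exact absurd h (Finset.notMem_empty _)
      · refine le_trans (Finset.card_filter_le _ _) ?_
        refine le_trans (List.toFinset_card_le _) ?_
        exact Finset.card_pos.2 hne
  obtain ⟨v, hv, hsv, hle, himp⟩ := hL.real _ hval s0
  have hnews : ({e | e ∈ Task.news Lam v (c v) (β, 1, [(s, l.set p β)])} : Set Edge) =
      {(instS Lam v s, l.set p (c v))} := by
    ext e
    simp only [Task.news, List.map_cons, List.map_nil, map_theta_set hp hβ, List.mem_singleton]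
    rfl
  rw [hnews] at himp
  have hlt : ∀ x ∈ l.eraseIdx p, x < c v := fun x hx => lt_of_lt_of_le (hβ x hx) hle
  obtain ⟨h1, h2⟩ := himp (inK_add hF hM hL.inK hs hlen hp hnd hfill hR hS hlt)
  exact ⟨v, hv, hsv, h1, hlt, h2⟩

/-- free vertices -/
theorem Free_proof : S_Free := by
  intro Lam TPs M c hL s0
  have hval : Task.Valid (0, 1, []) := by
    refine ⟨?_, ?_, ?_, ?_, ?_⟩
    · intro q hq; exact absurd hq List.not_mem_nil
    · intro q hq; exact absurd hq List.not_mem_nil
    · intro q hq; exact absurd hq List.not_mem_nil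
    · intro n l h; exact absurd h List.not_mem_nil
    · intro Y hY; simp
  obtain ⟨v, hv, hsv, hle, himp⟩ := hL.real _ hval s0
  have hnews : ({e | e ∈ Task.news Lam v (c v) (0, 1, [])} : Set Edge) = ∅ := by
    ext e
    simp [Task.news]
  rw [hnews, Set.union_empty] at himp
  obtain ⟨h1, h2⟩ := himp (inK_restr hL.inK _)
  exact ⟨v, hv, hsv, h1, by simpa using h2⟩

end Pool.Agent.Helper367SM
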