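import Pool.Agent.Helper367_SM.Defs
import Pool.Agent.Helper367_SM.PrimDefs
import Pool.Agent.Helper367_SM.Model
import Pool.Agent.Helper446.CB.Hier

set_option autoImplicit false

/-!
The statements of the parts, as propositions. Each part is proved in its own file.
-/

namespace Pool.Agent.Helper367SM

open FirstOrder

/-! ## Part 1: combinatorics of patterns, the invariant, the limit -/

/-- Touch Lemma. -/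
def S_Touch : Prop := ∀ π : Pat, π.Good → ∀ Y ⊂ π.C, ∀ A2 ⊆ π.A, (Y ∪ A2).Nonempty →
  Y.card + 1 ≤ (π.Q.filter (fun q => ∃ x ∈ q.2, x ∈ Y ∪ A2)).card

/-- Family Lemma. -/
def S_Family : Prop := ∀ (Lam : ℕ → ℕ → ℕ) (X : Set Edge) (π : Pat), π.Good →
  ∀ (J : Finset ℕ) (f : ℕ → ℕ → ℕ), Fam Lam X π J f → ∀ (O : Set ℕ) (A2 : Finset ℕ), A2 ⊆ π.A →
  (∀ j ∈ J, ∀ a ∈ π.A, (a ∈ A2 ↔ f j a ∉ O)) →
  (∀ j ∈ J, ∃ x ∈ π.C, f j x ∈ O) →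
  (∀ j ∈ J, A2.Nonempty ∨ ∃ x ∈ π.C, f j x ∉ O) →
  ∃ (W : Finset ℕ) (G : Finset Edge),
    W.card + J.card ≤ G.card + A2.card ∧ W.card ≤ A2.card + J.card * π.C.card ∧
    (∀ x ∈ W, x ∉ O) ∧
    ∀ e ∈ G, (∃ j ∈ J, ∃ q ∈ π.Q, MEdge Lam X (f j) e q) ∧ (∀ x ∈ e.2, x ∈ O ∨ x ∈ W) ∧
      ∃ x ∈ e.2, x ∈ W

/-- Matching and matching edges. -/
def S_Matched : Prop := ∀ (Lam : ℕ → ℕ → ℕ) (X : Set Edge) (Q : Finset SEdge) (f : ℕ → ℕ)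
  (q : SEdge), Matched Lam X Q f q → ∃ e, MEdge Lam X f e q ∧ e ∈ X ∧ e.2 = q.2.map f

/-- The invariant. -/
def S_Inv : Prop := ∀ (Lam : ℕ → ℕ → ℕ) (path : ℕ → List ℕ) (c : ℕ → ℕ) (New : ℕ → Finset Edge),
  GS path → Constr Lam path c New → ∀ t, InK Lam (Str path New t)

/-- The limit. -/
def S_Lim : Prop := ∀ (Lam : ℕ → ℕ → ℕ) (path : ℕ → List ℕ) (c : ℕ → ℕ) (New : ℕ → Finset Edge),
  GS path → Constr Lam path c New → Sched Lam path c New →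
  Lim Lam (TP path) (LimM path New) c

/-! ## Part 2: the guessing system -/

/-- The guessing system. -/
def S_Guess : Prop := ∀ Θ : ℕ × ℕ × ℕ × ℕ × ℕ → Prop, PrimrecPred Θ →
  ∃ (path : ℕ → List ℕ) (Lam : ℕ → ℕ → ℕ) (lim : ℕ → ℕ), Primrec path ∧ Primrec₂ Lam ∧ GS path ∧
    LabLim Lam (TP path) {n | ∀ a, ∃ b, ∀ c, ∃ d, Θ (n, a, b, c, d)} lim

/-! ## Part 3: computability of the class and of the construction -/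

/-- Membership in the class is primitive recursive for finite lists of edges. -/
def S_InKPrim : Prop := ∀ Lam : ℕ → ℕ → ℕ, Primrec₂ Lam →
  PrimrecPred fun X : List Edge => InK Lam {e | e ∈ X}

/-- Validity of tasks is primitive recursive. -/
def S_ValidPrim : Prop := PrimrecPred fun T : Task => T.Valid

/-- Existence of the construction, with a primitive recursive list of the edges created at each
stage. -/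
def S_Constr : Prop := ∀ (Lam : ℕ → ℕ → ℕ) (path : ℕ → List ℕ), Primrec path → Primrec₂ Lam →
  GS path → ∃ (c : ℕ → ℕ) (New : ℕ → Finset Edge) (news : ℕ → List Edge),
    Primrec c ∧ Primrec news ∧ (∀ t e, e ∈ New t ↔ e ∈ news t) ∧
    Constr Lam path c New ∧ Sched Lam path c New

/-- The visible relations of the limit are computable. -/
def S_CompM : Prop := ∀ (c : ℕ → ℕ) (news : ℕ → List Edge), Primrec c → Primrec news →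
  Monotone c → (∀ b, ∃ t, b ≤ c t) → (∀ t, ∀ e ∈ news t, ∃ x ∈ e.2, c t ≤ x) →
  ComputablePred fun e : Edge => ∃ t, e ∈ news t

/-! ## Part 4: single edges and definability in the limit -/

section

variable (Lam : ℕ → ℕ → ℕ) (TPs : Set ℕ) (M : Set Edge) (c : ℕ → ℕ)

/-- (R1), realisation of single edges. -/
def S_Single : Prop := ∀ (Lam : ℕ → ℕ → ℕ) (TPs : Set ℕ) (M : Set Edge) (c : ℕ → ℕ),
  Lim Lam TPs M c → ∀ (s : SSym) (l : List ℕ) (p : ℕ), (∀ n, s ≠ SSym.K n) → l.length = s.ar →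
  p < l.length → (l.eraseIdx p).Nodup →
  (∀ y, ∀ e ∈ M, e.1.kind = s → e.2 ≠ l.set p y) →
  (∀ n, s = SSym.R n → p = 4 → (Sym.S n, l.take 4) ∉ M) →
  (∀ n v, s = SSym.S n → 2 ≤ p → (Sym.P v, l.take 2) ∈ M →
    p = 3 ∧ (Sym.E n (Lam v n), l.take 3) ∈ M) →
  ∀ s0, ∃ v ∈ TPs, s0 ≤ v ∧ c (v + 1) = c v + 1 ∧ (∀ x ∈ l.eraseIdx p, x < c v) ∧
    restr M (c (v + 1)) = restr M (c v) ∪ {(instS Lam v s, l.set p (c v))}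

/-- Free vertices. -/
def S_Free : Prop := ∀ (Lam : ℕ → ℕ → ℕ) (TPs : Set ℕ) (M : Set Edge) (c : ℕ → ℕ),
  Lim Lam TPs M c → ∀ s0, ∃ v ∈ TPs, s0 ≤ v ∧ c (v + 1) = c v + 1 ∧
    restr M (c (v + 1)) = restr M (c v)

/-- (D1) -/
def S_D1 : Prop := ∀ (Lam : ℕ → ℕ → ℕ) (TPs : Set ℕ) (M : Set Edge) (c : ℕ → ℕ),
  Lim Lam TPs M c → ∀ n (l : List ℕ), l.length = 4 → l.Nodup →
    ((∀ u, (Sym.R n, l ++ [u]) ∉ M) ↔ (Sym.S n, l) ∈ M)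

/-- (D2) -/
def S_D2 : Prop := ∀ (Lam : ℕ → ℕ → ℕ) (TPs : Set ℕ) (M : Set Edge) (c : ℕ → ℕ),
  Lim Lam TPs M c → ∀ x0 x1, x0 ≠ x1 → ((∃ v, (Sym.P v, [x0, x1]) ∈ M) ↔
    ∀ x2 x3 y2 y3, (Sym.S 0, [x0, x1, x2, x3]) ∈ M → (Sym.S 0, [x0, x1, y2, y3]) ∈ M → x2 = y2)

/-- (D3) -/
def S_D3 : Prop := ∀ (Lam : ℕ → ℕ → ℕ) (TPs : Set ℕ) (M : Set Edge) (c : ℕ → ℕ),
  Lim Lam TPs M c → ∀ x0, ∃ x1 v, (Sym.P v, [x0, x1]) ∈ M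

/-- (D4) -/
def S_D4 : Prop := ∀ (Lam : ℕ → ℕ → ℕ) (TPs : Set ℕ) (M : Set Edge) (c : ℕ → ℕ),
  Lim Lam TPs M c → ∀ x0 x1 v, (Sym.P v, [x0, x1]) ∈ M → ∀ n,
    ∃ x2 x3, (Sym.S n, [x0, x1, x2, x3]) ∈ M

/-- (D5) -/
def S_D5 : Prop := ∀ (Lam : ℕ → ℕ → ℕ) (TPs : Set ℕ) (M : Set Edge) (c : ℕ → ℕ),
  Lim Lam TPs M c → ∀ x0 x1 x2 x3 v n i, (Sym.P v, [x0, x1]) ∈ M →
    (Sym.S n, [x0, x1, x2, x3]) ∈ M → ((Sym.E n i, [x0, x1, x2]) ∈ M ↔ i = Lam v n)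

/-- (D6) -/
def S_D6 : Prop := ∀ (Lam : ℕ → ℕ → ℕ) (TPs : Set ℕ) (M : Set Edge) (c : ℕ → ℕ) (Pst : Set ℕ)
  (lim : ℕ → ℕ), Lim Lam TPs M c → LabLim Lam TPs Pst lim →
  (∀ n, n ∉ Pst → {l | ∃ v, (Sym.P v, l) ∈ M ∧ Lam v n ≠ lim n}.Finite) ∧
  ∀ n ∈ Pst, ∀ i, {l | ∃ v, (Sym.P v, l) ∈ M ∧ Lam v n ≤ i}.Finite

/-- Existence of parameters. -/
def S_Par : Prop := ∀ (Lam : ℕ → ℕ → ℕ) (TPs : Set ℕ) (M : Set Edge) (c : ℕ → ℕ) (Pst : Set ℕ)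
  (lim : ℕ → ℕ), Lim Lam TPs M c → LabLim Lam TPs Pst lim → ∀ t, ∃ ν x, Par Lam M Pst lim t ν x

end

/-! ## Part 5: extension lemmas -/

/-- (Ext1) -/
def S_Ext1 : Prop := ∀ (Lam : ℕ → ℕ → ℕ) (TPs : Set ℕ) (M : Set Edge) (c : ℕ → ℕ) (Pst : Set ℕ)
  (lim : ℕ → ℕ) (t ν x : ℕ), Lim Lam TPs M c → LabLim Lam TPs Pst lim →
  Par Lam M Pst lim t ν x → ∀ (A A' : Finset ℕ) (g h : ℕ → ℕ), VIso Lam M t ν x A A' g h →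
  RStrong (NV Lam t ν M) A' 1 → ∀ y, Tight (NV Lam t ν M) A {y} →
  ∃ y' g' h', y' ∉ A' ∧ (∀ a ∈ A, g' a = g a) ∧ g' y = y' ∧
    VIso Lam M t ν x (A ∪ {y}) (A' ∪ {y'}) g' h' ∧ Tight (NV Lam t ν M) A' {y'}

/-- (Ext2) -/
def S_Ext2 : Prop := ∀ (Lam : ℕ → ℕ → ℕ) (TPs : Set ℕ) (M : Set Edge) (c : ℕ → ℕ) (Pst : Set ℕ)
  (lim : ℕ → ℕ) (t ν x : ℕ), Lim Lam TPs M c → LabLim Lam TPs Pst lim →
  Par Lam M Pst lim t ν x → ∀ (A A' : Finset ℕ) (g h : ℕ → ℕ), VIso Lam M t ν x A A' g h →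
  ∀ B : Finset ℕ, 2 ≤ B.card → B.card + 1 ≤ t → MinBlock (NV Lam t ν M) A B →
  RStrong (NV Lam t ν M) A' ((B.card + 1) ^ 2) →
  ∃ (B' : Finset ℕ) (g' h' : ℕ → ℕ), (∀ a ∈ A, g' a = g a) ∧
    VIso Lam M t ν x (A ∪ B) (A' ∪ B') g' h' ∧ B'.card = B.card ∧ Tight (NV Lam t ν M) A' B'

/-- (Ext3) -/
def S_Ext3 : Prop := ∀ (Lam : ℕ → ℕ → ℕ) (TPs : Set ℕ) (M : Set Edge) (c : ℕ → ℕ) (Pst : Set ℕ)
  (lim : ℕ → ℕ) (t ν x : ℕ), Lim Lam TPs M c → LabLim Lam TPs Pst lim →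
  Par Lam M Pst lim t ν x → ∀ (Z A A' : Finset ℕ) (g h : ℕ → ℕ) (r : ℕ),
  VIso Lam M t ν x A A' g h → Z.card + 1 ≤ t → Tight (NV Lam t ν M) A Z →
  RStrong (NV Lam t ν M) A (r + Z.card + (Z.card + 1) ^ 2) →
  RStrong (NV Lam t ν M) A' (r + Z.card + (Z.card + 1) ^ 2) →
  ∃ (Z' : Finset ℕ) (g' h' : ℕ → ℕ), (∀ a ∈ A, g' a = g a) ∧
    VIso Lam M t ν x (A ∪ Z) (A' ∪ Z') g' h' ∧
    RStrong (NV Lam t ν M) (A ∪ Z) r ∧ RStrong (NV Lam t ν M) (A' ∪ Z') r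

/-- Back and forth. -/
def S_BF : Prop := ∀ (Lam : ℕ → ℕ → ℕ) (TPs : Set ℕ) (M : Set Edge) (c : ℕ → ℕ) (Pst : Set ℕ)
  (lim : ℕ → ℕ) (t ν x : ℕ), Lim Lam TPs M c → LabLim Lam TPs Pst lim →
  Par Lam M Pst lim t ν x → ∀ (A A' : Finset ℕ) (g h : ℕ → ℕ) (r : ℕ),
  VIso Lam M t ν x A A' g h → r + 2 ≤ t →
  RStrong (NV Lam t ν M) A ((r + 3) ^ 2) → RStrong (NV Lam t ν M) A' ((r + 3) ^ 2) →
  ∀ y, ∃ (A₁ A₁' : Finset ℕ) (g₁ h₁ : ℕ → ℕ), A ⊆ A₁ ∧ y ∈ A₁ ∧ (∀ a ∈ A, g₁ a = g a) ∧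
    VIso Lam M t ν x A₁ A₁' g₁ h₁ ∧
    RStrong (NV Lam t ν M) A₁ r ∧ RStrong (NV Lam t ν M) A₁' r

/-! ## Part 6: formulas, counting, strong minimality -/

/-- Formulas are preserved. -/
def S_EF : Prop := ∀ (Lam : ℕ → ℕ → ℕ) (TPs : Set ℕ) (M : Set Edge) (c : ℕ → ℕ) (Pst : Set ℕ)
  (lim : ℕ → ℕ), Lim Lam TPs M c → LabLim Lam TPs Pst lim →
  ∀ (α : Type) (n : ℕ) (φ : sig0.lang.BoundedFormula α n), ∃ t₀ k₀, ∀ t ν x,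
    Par Lam M Pst lim t ν x → t₀ ≤ t → ∀ k, k₀ ≤ k → rr k + 2 ≤ t →
    ∀ (A A' : Finset ℕ) (g h : ℕ → ℕ), VIso Lam M t ν x A A' g h →
    RStrong (NV Lam t ν M) A (rr k) → RStrong (NV Lam t ν M) A' (rr k) →
    ∀ (v : α → ℕ) (xs : Fin n → ℕ), (∀ i, v i ∈ A) → (∀ i, xs i ∈ A) →
      (φ.Realize (M := Car M) v xs ↔ φ.Realize (M := Car M) (fun i => g (v i)) (fun i => g (xs i)))

/-- Closures. -/
def S_Closure : Prop := ∀ (Lam : ℕ → ℕ → ℕ) (TPs : Set ℕ) (M : Set Edge) (c : ℕ → ℕ) (t ν : ℕ),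
  Lim Lam TPs M c → ∀ (A : Finset ℕ) (R : ℕ), ∃ A₁ : Finset ℕ, A ⊆ A₁ ∧
    RStrong (NV Lam t ν M) A₁ R ∧ A₁.card ≤ A.card * (R + 1)

/-- Extension of the identity by generic points. -/
def S_GenericIso : Prop := ∀ (Lam : ℕ → ℕ → ℕ) (TPs : Set ℕ) (M : Set Edge) (c : ℕ → ℕ)
  (Pst : Set ℕ) (lim : ℕ → ℕ) (t ν x : ℕ), Lim Lam TPs M c → Par Lam M Pst lim t ν x →
  ∀ (A : Finset ℕ) (r y y' : ℕ), (∀ i < x, i ∈ A) → RStrong (NV Lam t ν M) A (r + 1) →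
  Generic (NV Lam t ν M) A r y → Generic (NV Lam t ν M) A r y' →
  ∃ g h : ℕ → ℕ, (∀ a ∈ A, g a = a) ∧ g y = y' ∧
    VIso Lam M t ν x (A ∪ {y}) (A ∪ {y'}) g h ∧
    RStrong (NV Lam t ν M) (A ∪ {y}) r ∧ RStrong (NV Lam t ν M) (A ∪ {y'}) r

/-- Counting the nongeneric points. -/
def S_Count : Prop := ∀ (Lam : ℕ → ℕ → ℕ) (TPs : Set ℕ) (M : Set Edge) (c : ℕ → ℕ) (t ν : ℕ),
  Lim Lam TPs M c → ∀ a p : ℕ, ∃ N : ℕ, ∀ A : Finset ℕ, A.card ≤ a →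
    RStrong (NV Lam t ν M) A (2 * p) → ∀ S : Finset ℕ,
    (∀ y ∈ S, ∃ Z, y ∈ Z ∧ Z.card ≤ p ∧ Tight (NV Lam t ν M) A Z) → S.card ≤ N

/-- Uniform finite or cofinite bounds in the model. -/
def S_Unif : Prop := ∀ (Lam : ℕ → ℕ → ℕ) (TPs : Set ℕ) (M : Set Edge) (c : ℕ → ℕ) (Pst : Set ℕ)
  (lim : ℕ → ℕ), Lim Lam TPs M c → LabLim Lam TPs Pst lim →
  ∀ (n : ℕ) (φ : sig0.lang.Formula (Fin n ⊕ Unit)), ∃ N : ℕ, ∀ b : Fin n → ℕ,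
    (∀ S : Finset ℕ, (∀ y ∈ S, φ.Realize (M := Car M) (Sum.elim b fun _ => y)) → S.card ≤ N) ∨
    (∀ S : Finset ℕ, (∀ y ∈ S, ¬ φ.Realize (M := Car M) (Sum.elim b fun _ => y)) → S.card ≤ N)

/-- Transfer to the theory. -/
def S_Transfer : Prop := ∀ (L : FirstOrder.Language.{0, 0}) (M : Type) [L.Structure M]
  [Nonempty M] [Infinite M],
  (∀ (n : ℕ) (φ : L.Formula (Fin n ⊕ Unit)), ∃ N : ℕ, ∀ b : Fin n → M,
    (∀ S : Finset M, (∀ y ∈ S, φ.Realize (Sum.elim b fun _ => y)) → S.card ≤ N) ∨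
    (∀ S : Finset M, (∀ y ∈ S, ¬ φ.Realize (Sum.elim b fun _ => y)) → S.card ≤ N)) →
  StronglyMinimal (L.completeTheory M)

/-! ## Part 7: models -/

/-- The model is prime. -/
def S_Prime : Prop := ∀ M : Set Edge, IsPrimeModel (sig0.lang.completeTheory (Car M)) (Car M)

/-- The model is computable. -/
def S_CompModel : Prop := ∀ M : Set Edge,
  (ComputablePred fun e : Edge => e ∈ M ∧ ((∃ n i, e.1 = Sym.E n i) ∨ ∃ n, e.1 = Sym.R n)) →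
  HasCopyIn sig0 ∅ (Car M)

/-- A countable model which codes `Pst`. -/
def S_CodingModel : Prop := ∀ (Lam : ℕ → ℕ → ℕ) (TPs : Set ℕ) (M : Set Edge) (c : ℕ → ℕ)
  (Pst : Set ℕ) (lim : ℕ → ℕ), Lim Lam TPs M c → LabLim Lam TPs Pst lim →
  ∃ (N : Type) (_ : sig0.lang.Structure N) (c z : N), Countable N ∧
    N ⊨ sig0.lang.completeTheory (Car M) ∧ Coding N Pst c z

/-! ## Part 8: the arithmetical hierarchy -/

/-- A `Π⁰_4` set which is not `Σ⁰_4`. -/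
def S_Pi4 : Prop := ∃ Θ : ℕ × ℕ × ℕ × ℕ × ℕ → Prop, PrimrecPred Θ ∧
  ¬ Helper446.CB.Sig 4 (fun n : ℕ => ∀ a, ∃ b, ∀ c, ∃ d, Θ (n, a, b, c, d))

/-- Predicates decidable in the double jump are `Δ⁰_3`. -/
def S_Post : Prop := ∀ (α : Type) [Primcodable α] (p : α → Prop), DecIn {charFn zeroPP} p →
  Helper446.CB.Sig 3 p ∧ Helper446.CB.Pi 3 p

/-- A copy computable in the double jump of a structure coding `Pst` makes `Pst` a `Σ⁰_4` set. -/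
def S_Decode : Prop := ∀ (N : Type) [sig0.lang.Structure N] (Pst : Set ℕ) (c z : N),
  Coding N Pst c z → HasCopyIn sig0 {charFn zeroPP} N → Helper446.CB.Sig 4 (fun n : ℕ => n ∈ Pst)

end Pool.Agent.Helper367SM
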