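import Pool.Agent.Helper367_SM.Count

set_option autoImplicit false

/-!
Uniform finite or cofinite bounds in the model, from the preservation of formulas.
-/

namespace Pool.Agent.Helper367SM

namespace UnifAux

theorem rstrong_mono {N : Set SEdge} {A : Finset ℕ} {r r' : ℕ} (h : RStrong N A r) (hr : r' ≤ r) :
    RStrong N A r' := fun Z hZ hc G hG => h Z hZ (hc.trans hr) G hG

/-- Sets with enough edges over a strong set are tight. -/
theorem tight_of_le {N : Set SEdge} {A Z : Finset ℕ} {r : ℕ} (hA : RStrong N A r)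
    (hAZ : Disjoint A Z) (hZ : Z.card ≤ r) (G : Finset SEdge)
    (hG : ∀ q ∈ G, q ∈ N ∧ Over A Z q) (hc : Z.card ≤ G.card) : Tight N A Z := by
  classical
  have hfin : {q : SEdge | q ∈ N ∧ Over A Z q}.Finite := by
    by_contra hinf
    obtain ⟨G', hG', hc'⟩ := Set.Infinite.exists_subset_card_eq hinf (Z.card + 1)
    have := hA Z hAZ hZ G' (fun q hq => hG' hq)
    omega
  refine ⟨hAZ, hfin.toFinset, fun q => ?_, ?_⟩
  · rw [Set.Finite.mem_toFinset]
    rfl
  · apply le_antisymm
    · apply hA Z hAZ hZ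
      intro q hq
      rw [Set.Finite.mem_toFinset] at hq
      exact hq
    · refine hc.trans (Finset.card_le_card ?_)
      intro q hq
      rw [Set.Finite.mem_toFinset]
      exact hG q hq

end UnifAux

open UnifAux

/-- Uniform finite or cofinite bounds in the model. -/
theorem Unif_proof (hEF : S_EF) (hPar : S_Par) : S_Unif := by
  classical
  intro Lam TPs M c Pst lim hL hLL n φ
  obtain ⟨t₀, k₀, hφ⟩ := hEF Lam TPs M c Pst lim hL hLL (Fin n ⊕ Unit) 0 φ
  obtain ⟨ν, x, hP⟩ := hPar Lam TPs M c Pst lim hL hLL (max t₀ (rr k₀ + 2))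
  obtain ⟨N₁, hN₁⟩ := Count_proof Lam TPs M c (max t₀ (rr k₀ + 2)) ν hL
    ((n + x) * (2 * (rr k₀ + 1) + 1)) (rr k₀ + 1)
  refine ⟨(n + x) * (2 * (rr k₀ + 1) + 1) + N₁, fun b => ?_⟩
  obtain ⟨A, hA0, hAs, hAc⟩ := Closure_proof Lam TPs M c (max t₀ (rr k₀ + 2)) ν hL
    (Finset.univ.image b ∪ Finset.range x) (2 * (rr k₀ + 1))
  have hcard : A.card ≤ (n + x) * (2 * (rr k₀ + 1) + 1) := by
    refine hAc.trans (Nat.mul_le_mul_right _ ?_)
    refine (Finset.card_union_le _ _).trans ?_
    rw [Finset.card_range]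
    have : (Finset.univ.image b).card ≤ n := Finset.card_image_le.trans (by simp)
    omega
  have hbA : ∀ i, b i ∈ A := fun i =>
    hA0 (Finset.mem_union_left _ (Finset.mem_image_of_mem _ (Finset.mem_univ i)))
  have hxA : ∀ i < x, i ∈ A := fun i hi =>
    hA0 (Finset.mem_union_right _ (Finset.mem_range.2 hi))
  -- finite sets of nongeneric points are small
  have hnon : ∀ S : Finset ℕ,
      (∀ y ∈ S, ¬ Generic (NV Lam (max t₀ (rr k₀ + 2)) ν M) A (rr k₀) y) →
      S.card ≤ (n + x) * (2 * (rr k₀ + 1) + 1) + N₁ := by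
    intro S hS
    have h1 : (S \ A).card ≤ N₁ := by
      apply hN₁ A hcard hAs
      intro y hy
      rw [Finset.mem_sdiff] at hy
      have h2 := hS y hy.1
      unfold Generic at h2
      push Not at h2
      obtain ⟨Z, hyZ, hZc, hZ, G, hG, hGc⟩ := h2 hy.2
      exact ⟨Z, hyZ, hZc, tight_of_le hAs hZ (by omega) G hG hGc⟩
    have h3 : S ⊆ A ∪ (S \ A) := by
      intro y hy
      by_cases h : y ∈ A
      · exact Finset.mem_union_left _ h
      · exact Finset.mem_union_right _ (Finset.mem_sdiff.2 ⟨hy, h⟩)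
    have h4 := (Finset.card_le_card h3).trans (Finset.card_union_le _ _)
    omega
  -- the formula is constant on generic points
  have hconst : ∀ y y', Generic (NV Lam (max t₀ (rr k₀ + 2)) ν M) A (rr k₀) y →
      Generic (NV Lam (max t₀ (rr k₀ + 2)) ν M) A (rr k₀) y' →
      φ.Realize (M := Car M) (Sum.elim b fun _ => y) →
      φ.Realize (M := Car M) (Sum.elim b fun _ => y') := by
    intro y y' hy hy' hr
    obtain ⟨g, h, hgA, hgy, hiso, hs, hs'⟩ := GenericIso_proof Lam TPs M c Pst lim
      (max t₀ (rr k₀ + 2)) ν x hL hP A (rr k₀) y y' hxA (rstrong_mono hAs (by omega)) hy hy'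
    have key := hφ _ ν x hP (le_max_left _ _) k₀ le_rfl (le_max_right _ _) _ _ g h hiso hs hs'
      (Sum.elim b fun _ => y) (fun i => i.elim0) (by
        rintro (i | i)
        · exact Finset.mem_union_left _ (hbA i)
        · exact Finset.mem_union_right _ (by simp)) (fun i => i.elim0)
    have e1 : (fun i => g ((Sum.elim b fun _ => y : Fin n ⊕ Unit → ℕ) i)) =
        (Sum.elim b fun _ => y') := by
      funext i
      rcases i with i | i
      · exact hgA _ (hbA i)
      · exact hgy
    rw [e1] at key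
    have e2 : ∀ v : Fin n ⊕ Unit → ℕ, ∀ xs : Fin 0 → ℕ,
        FirstOrder.Language.BoundedFormula.Realize (M := Car M) φ v xs ↔
          φ.Realize (M := Car M) v := by
      intro v xs
      unfold FirstOrder.Language.Formula.Realize
      have : (show Fin 0 → Car M from xs) = default := Subsingleton.elim _ _
      rw [← this]
    rw [e2, e2] at key
    exact key.1 hr
  by_cases hex : ∃ y, Generic (NV Lam (max t₀ (rr k₀ + 2)) ν M) A (rr k₀) y ∧
      φ.Realize (M := Car M) (Sum.elim b fun _ => y)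
  · obtain ⟨y₀, hy₀, hr₀⟩ := hex
    right
    intro S hS
    apply hnon
    intro y hy hyg
    exact hS y hy (hconst y₀ y hy₀ hyg hr₀)
  · left
    intro S hS
    apply hnon
    intro y hy hyg
    exact hex ⟨y, hyg, hS y hy⟩

end Pool.Agent.Helper367SM
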