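import Pool.Agent.Helper367_SM.Spec

set_option autoImplicit false

/-!
Primitive recursiveness of case analysis on symbols, of duplicate removal and of bounded
quantifiers; validity of tasks is primitive recursive.
-/

namespace Pool.Agent.Helper367SM

namespace ValidAux

variable {α β γ σ : Type} [Primcodable α] [Primcodable β] [Primcodable γ] [Primcodable σ]

theorem forallMem {f : α → List β} {R : α → β → Prop} (hf : Primrec f) (hR : PrimrecRel R) :
    PrimrecPred fun a => ∀ b ∈ f a, R a b :=
  (PrimrecRel.forall_mem_list (R := fun b a => R a b) hR.swap).comp hf Primrec.id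

theorem existsMem {f : α → List β} {R : α → β → Prop} (hf : Primrec f) (hR : PrimrecRel R) :
    PrimrecPred fun a => ∃ b ∈ f a, R a b :=
  (PrimrecRel.exists_mem_list (R := fun b a => R a b) hR.swap).comp hf Primrec.id

theorem memList {f : α → β} {g : α → List β} (hf : Primrec f) (hg : Primrec g) :
    PrimrecPred fun a => f a ∈ g a := by
  have h : PrimrecPred fun a => ∃ b ∈ g a, f a = b :=
    existsMem (R := fun a b => f a = b) hg
      (Primrec.eq.comp₂ (hf.comp₂ Primrec₂.left) Primrec₂.right)
  exact h.of_eq fun a => by simp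

theorem imp {p q : α → Prop} (hp : PrimrecPred p) (hq : PrimrecPred q) :
    PrimrecPred fun a => p a → q a :=
  (hp.not.or hq).of_eq fun a => by tauto

theorem filterList {f : α → List β} {R : α → β → Prop} [∀ a, DecidablePred (R a)]
    (hf : Primrec f) (hR : PrimrecRel R) : Primrec fun a => (f a).filter (fun b => R a b) := by
  classical
  have h := (PrimrecRel.listFilter (R := fun b a => R a b) hR.swap).comp hf Primrec.id
  exact h.of_eq fun a => by
    apply List.filter_congr
    intro x _
    simp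

omit [Primcodable β] in
theorem dedup_eq_foldr [DecidableEq β] (l : List β) :
    l.dedup = l.foldr (fun a acc => if a ∈ acc then acc else a :: acc) [] := by
  induction l with
  | nil => simp
  | cons a l ih =>
    rw [List.foldr_cons, ← ih]
    by_cases h : a ∈ l
    · rw [List.dedup_cons_of_mem h, if_pos (List.mem_dedup.2 h)]
    · rw [List.dedup_cons_of_notMem h, if_neg (fun h' => h (List.mem_dedup.1 h'))]

theorem dedup [DecidableEq β] : Primrec (List.dedup : List β → List β) := by
  have h : Primrec fun l : List β =>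
      l.foldr (fun a acc => if a ∈ acc then acc else a :: acc) [] := by
    refine Primrec.list_foldr (h := fun _ p => if p.1 ∈ p.2 then p.2 else p.1 :: p.2)
      Primrec.id (Primrec.const []) ?_
    refine Primrec.ite ?_ (Primrec.snd.comp Primrec.snd)
      (Primrec.list_cons.comp (Primrec.fst.comp Primrec.snd) (Primrec.snd.comp Primrec.snd))
    exact memList (Primrec.fst.comp Primrec.snd) (Primrec.snd.comp Primrec.snd)
  exact h.of_eq fun l => (dedup_eq_foldr l).symm

theorem sublists : Primrec (List.sublists' : List β → List (List β)) := by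
  have h : Primrec fun l : List β =>
      l.foldr (fun a acc => acc ++ acc.map (List.cons a)) [[]] := by
    refine Primrec.list_foldr (f := fun l : List β => l) (g := fun _ => [[]])
      (h := fun _ (p : β × List (List β)) => p.2 ++ p.2.map (List.cons p.1))
      Primrec.id (Primrec.const [[]]) ?_
    refine Primrec.list_append.comp (Primrec.snd.comp Primrec.snd) ?_
    refine Primrec.list_map (Primrec.snd.comp Primrec.snd) ?_
    exact Primrec.list_cons.comp₂ ((Primrec.fst.comp Primrec.snd).comp₂ Primrec₂.left)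
      Primrec₂.right
  exact h.of_eq fun l => by
    induction l with
    | nil => simp
    | cons a l ih => rw [List.foldr_cons, ih, List.sublists'_cons]

/-- Case analysis on symbolic symbols. -/
theorem ssymCases {f : α → SSym} {gE : α → ℕ → ℕ → σ} {gK gR gS : α → ℕ → σ} {gP : α → σ}
    (hf : Primrec f) (hE : Primrec fun p : α × ℕ × ℕ => gE p.1 p.2.1 p.2.2)
    (hK : Primrec₂ gK) (hR : Primrec₂ gR) (hS : Primrec₂ gS) (hP : Primrec gP) :
    Primrec fun a => match f a with
      | SSym.E n i => gE a n i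
      | SSym.K n => gK a n
      | SSym.R n => gR a n
      | SSym.S n => gS a n
      | SSym.P => gP a := by
  have h0 : Primrec fun a => SSym.equiv (f a) :=
    (Primrec.of_equiv (e := SSym.equiv)).comp hf
  have hP' : Primrec₂ fun (a : α) (_ : Unit) => gP a := hP.comp₂ Primrec₂.left
  have h1 : Primrec₂ fun (a : α) (x : ℕ ⊕ Unit) =>
      (Sum.casesOn x (fun n => gS a n) (fun _ => gP a) : σ) :=
    Primrec.sumCasesOn (Primrec.snd) (hS.comp₂ (Primrec.fst.comp₂ Primrec₂.left) Primrec₂.right)
      (hP'.comp₂ (Primrec.fst.comp₂ Primrec₂.left) Primrec₂.right)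
  have h2 : Primrec₂ fun (a : α) (x : ℕ ⊕ (ℕ ⊕ Unit)) =>
      (Sum.casesOn x (fun n => gR a n)
        (fun x => (Sum.casesOn x (fun n => gS a n) (fun _ => gP a) : σ)) : σ) :=
    Primrec.sumCasesOn (Primrec.snd) (hR.comp₂ (Primrec.fst.comp₂ Primrec₂.left) Primrec₂.right)
      (h1.comp₂ (Primrec.fst.comp₂ Primrec₂.left) Primrec₂.right)
  have h3 : Primrec₂ fun (a : α) (x : ℕ ⊕ (ℕ ⊕ (ℕ ⊕ Unit))) =>
      (Sum.casesOn x (fun n => gK a n) (fun x => (Sum.casesOn x (fun n => gR a n)
        (fun x => (Sum.casesOn x (fun n => gS a n) (fun _ => gP a) : σ)) : σ)) : σ) :=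
    Primrec.sumCasesOn (Primrec.snd) (hK.comp₂ (Primrec.fst.comp₂ Primrec₂.left) Primrec₂.right)
      (h2.comp₂ (Primrec.fst.comp₂ Primrec₂.left) Primrec₂.right)
  have hE' : Primrec₂ fun (a : α) (x : ℕ × ℕ) => gE a x.1 x.2 := hE
  have h4 := Primrec.sumCasesOn h0 hE' h3
  exact h4.of_eq fun a => by
    cases h : f a <;> rfl

/-- Case analysis on symbols. -/
theorem symCases {f : α → Sym} {gE : α → ℕ → ℕ → σ} {gR gS gP : α → ℕ → σ}
    (hf : Primrec f) (hE : Primrec fun p : α × ℕ × ℕ => gE p.1 p.2.1 p.2.2)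
    (hR : Primrec₂ gR) (hS : Primrec₂ gS) (hP : Primrec₂ gP) :
    Primrec fun a => match f a with
      | Sym.E n i => gE a n i
      | Sym.R n => gR a n
      | Sym.S n => gS a n
      | Sym.P v => gP a v := by
  have h0 : Primrec fun a => Sym.equiv (f a) :=
    (Primrec.of_equiv (e := Sym.equiv)).comp hf
  have h1 : Primrec₂ fun (a : α) (x : ℕ ⊕ ℕ) =>
      (Sum.casesOn x (fun n => gS a n) (fun v => gP a v) : σ) :=
    Primrec.sumCasesOn (Primrec.snd) (hS.comp₂ (Primrec.fst.comp₂ Primrec₂.left) Primrec₂.right)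
      (hP.comp₂ (Primrec.fst.comp₂ Primrec₂.left) Primrec₂.right)
  have h2 : Primrec₂ fun (a : α) (x : ℕ ⊕ (ℕ ⊕ ℕ)) =>
      (Sum.casesOn x (fun n => gR a n)
        (fun x => (Sum.casesOn x (fun n => gS a n) (fun v => gP a v) : σ)) : σ) :=
    Primrec.sumCasesOn (Primrec.snd) (hR.comp₂ (Primrec.fst.comp₂ Primrec₂.left) Primrec₂.right)
      (h1.comp₂ (Primrec.fst.comp₂ Primrec₂.left) Primrec₂.right)
  have hE' : Primrec₂ fun (a : α) (x : ℕ × ℕ) => gE a x.1 x.2 := hE
  have h4 := Primrec.sumCasesOn h0 hE' h2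
  exact h4.of_eq fun a => by
    cases h : f a <;> rfl

theorem symE : Primrec₂ Sym.E := by
  have h : Primrec fun p : ℕ × ℕ => Sym.equiv.symm (Sum.inl p) :=
    (Primrec.of_equiv_symm (e := Sym.equiv)).comp Primrec.sumInl
  exact h

theorem symR : Primrec Sym.R := by
  have h : Primrec fun n : ℕ => Sym.equiv.symm (Sum.inr (Sum.inl n)) :=
    (Primrec.of_equiv_symm (e := Sym.equiv)).comp (Primrec.sumInr.comp Primrec.sumInl)
  exact h

theorem symS : Primrec Sym.S := by
  have h : Primrec fun n : ℕ => Sym.equiv.symm (Sum.inr (Sum.inr (Sum.inl n))) :=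
    (Primrec.of_equiv_symm (e := Sym.equiv)).comp
      (Primrec.sumInr.comp (Primrec.sumInr.comp Primrec.sumInl))
  exact h

theorem symP : Primrec Sym.P := by
  have h : Primrec fun n : ℕ => Sym.equiv.symm (Sum.inr (Sum.inr (Sum.inr n))) :=
    (Primrec.of_equiv_symm (e := Sym.equiv)).comp
      (Primrec.sumInr.comp (Primrec.sumInr.comp Primrec.sumInr))
  exact h

theorem ssymAr : Primrec SSym.ar := by
  have h := ssymCases (f := fun s : SSym => s) (gE := fun _ _ _ => 3) (gK := fun _ _ => 3)
    (gR := fun _ _ => 5) (gS := fun _ _ => 4) (gP := fun _ => 2) Primrec.id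
    (Primrec.const 3) (Primrec.const 3) (Primrec.const 5) (Primrec.const 4) (Primrec.const 2)
  exact h.of_eq fun s => by cases s <;> rfl

/-- Is this symbol a `K`? -/
def isK : SSym → Bool
  | SSym.K _ => true
  | _ => false

theorem isK_prim : Primrec isK := by
  have h := ssymCases (f := fun s : SSym => s) (gE := fun _ _ _ => false) (gK := fun _ _ => true)
    (gR := fun _ _ => false) (gS := fun _ _ => false) (gP := fun _ => false) Primrec.id
    (Primrec.const _) (Primrec.const _) (Primrec.const _) (Primrec.const _) (Primrec.const _)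
  exact h.of_eq fun s => by cases s <;> rfl

theorem instS_prim {Lam : ℕ → ℕ → ℕ} (hL : Primrec₂ Lam) : Primrec₂ (instS Lam) := by
  have h := ssymCases (f := fun p : ℕ × SSym => p.2) (gE := fun _ n i => Sym.E n i)
    (gK := fun p n => Sym.E n (Lam p.1 n)) (gR := fun _ n => Sym.R n) (gS := fun _ n => Sym.S n)
    (gP := fun p => Sym.P p.1) Primrec.snd (symE.comp (Primrec.fst.comp Primrec.snd)
      (Primrec.snd.comp Primrec.snd))
    (symE.comp₂ Primrec₂.right (hL.comp₂ (Primrec.fst.comp₂ Primrec₂.left) Primrec₂.right))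
    (symR.comp₂ Primrec₂.right) (symS.comp₂ Primrec₂.right) (symP.comp Primrec.fst)
  exact h.of_eq fun p => by rcases p with ⟨v, s⟩; cases s <;> rfl

theorem nodup_prim [DecidableEq β] : PrimrecPred fun l : List β => l.Nodup := by
  have h : PrimrecPred fun l : List β => l.dedup = l :=
    Primrec.eq.comp dedup Primrec.id
  exact h.of_eq fun l => List.dedup_eq_self

theorem wf_prim : PrimrecPred fun T : Task => ∀ q ∈ T.2.2, q.2.length = q.1.ar ∧ q.2.Nodup := by
  refine forallMem (f := fun T : Task => T.2.2)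
    (R := fun _ (q : SEdge) => q.2.length = q.1.ar ∧ q.2.Nodup)
    (Primrec.snd.comp Primrec.snd) ?_
  have h1 : PrimrecPred fun q : SEdge => q.2.length = q.1.ar :=
    Primrec.eq.comp (Primrec.list_length.comp Primrec.snd) (ssymAr.comp Primrec.fst)
  have h2 : PrimrecPred fun q : SEdge => q.2.Nodup := nodup_prim.comp Primrec.snd
  exact PrimrecPred.primrecRel (p := fun p : Task × SEdge => p.2.2.length = p.2.1.ar ∧ p.2.2.Nodup)
    ((h1.and h2).comp Primrec.snd)

theorem inside_prim : PrimrecPred fun T : Task => ∀ q ∈ T.2.2, ∀ x ∈ q.2, x < T.1 + T.2.1 := by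
  refine forallMem (f := fun T : Task => T.2.2)
    (R := fun T (q : SEdge) => ∀ x ∈ q.2, x < T.1 + T.2.1)
    (Primrec.snd.comp Primrec.snd) ?_
  refine PrimrecPred.primrecRel (p := fun p : Task × SEdge => ∀ x ∈ p.2.2, x < p.1.1 + p.1.2.1) ?_
  refine forallMem (f := fun p : Task × SEdge => p.2.2)
    (R := fun (p : Task × SEdge) x => x < p.1.1 + p.1.2.1)
    (Primrec.snd.comp Primrec.snd) ?_
  refine Primrec.nat_lt.comp₂ Primrec₂.right ?_
  exact (Primrec.nat_add.comp (Primrec.fst.comp Primrec.fst)
    (Primrec.fst.comp (Primrec.snd.comp Primrec.fst))).comp₂ Primrec₂.left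

theorem meets_prim : PrimrecPred fun T : Task => ∀ q ∈ T.2.2, ∃ x ∈ q.2, T.1 ≤ x := by
  refine forallMem (f := fun T : Task => T.2.2) (R := fun T (q : SEdge) => ∃ x ∈ q.2, T.1 ≤ x)
    (Primrec.snd.comp Primrec.snd) ?_
  refine PrimrecPred.primrecRel (p := fun p : Task × SEdge => ∃ x ∈ p.2.2, p.1.1 ≤ x) ?_
  refine existsMem (f := fun p : Task × SEdge => p.2.2)
    (R := fun (p : Task × SEdge) x => p.1.1 ≤ x)
    (Primrec.snd.comp Primrec.snd) ?_
  exact Primrec.nat_le.comp₂ ((Primrec.fst.comp Primrec.fst).comp₂ Primrec₂.left) Primrec₂.right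

theorem kp_prim : PrimrecPred fun T : Task =>
    ∀ n l, (SSym.K n, l) ∈ T.2.2 → (SSym.P, l.take 2) ∈ T.2.2 := by
  have h : PrimrecPred fun T : Task =>
      ∀ q ∈ T.2.2, isK q.1 = true → (SSym.P, q.2.take 2) ∈ T.2.2 := by
    refine forallMem (f := fun T : Task => T.2.2)
      (R := fun T (q : SEdge) => isK q.1 = true → (SSym.P, q.2.take 2) ∈ T.2.2)
      (Primrec.snd.comp Primrec.snd) ?_
    refine PrimrecPred.primrecRel
      (p := fun p : Task × SEdge => isK p.2.1 = true → (SSym.P, p.2.2.take 2) ∈ p.1.2.2) ?_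
    refine imp (Primrec.eq.comp (isK_prim.comp (Primrec.fst.comp Primrec.snd))
      (Primrec.const true)) ?_
    refine memList (Primrec.pair (Primrec.const SSym.P) ?_)
      (Primrec.snd.comp (Primrec.snd.comp Primrec.fst))
    exact Primrec.list_take.comp (Primrec.const 2) (Primrec.snd.comp Primrec.snd)
  refine h.of_eq fun T => ?_
  constructor
  · intro h n l hq
    exact h (SSym.K n, l) hq rfl
  · rintro h ⟨s, l⟩ hq hk
    cases s <;> simp [isK] at hk
    exact h _ _ hq

/-- The list version of strongness. -/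
theorem strong_iff (T : Task) (hin : ∀ q ∈ T.2.2, ∀ x ∈ q.2, x < T.1 + T.2.1) :
    (∀ Y : Finset ℕ, (∀ y ∈ Y, T.1 ≤ y) →
      (T.2.2.toFinset.filter (fun q => ∀ x ∈ q.2, x < T.1 ∨ x ∈ Y)).card ≤ Y.card) ↔
    ∀ Y ∈ ((List.range (T.1 + T.2.1)).filter (fun y => T.1 ≤ y)).sublists',
      ((T.2.2.dedup).filter (fun q => ∀ x ∈ q.2, x < T.1 ∨ x ∈ Y)).length ≤ Y.length := by
  have hnd : ((List.range (T.1 + T.2.1)).filter (fun y => T.1 ≤ y)).Nodup :=
    List.nodup_range.filter _
  have key : ∀ p : SEdge → Prop, ∀ [DecidablePred p],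
      (T.2.2.toFinset.filter p).card = ((T.2.2.dedup).filter (fun q => p q)).length := by
    intro p _
    rw [← List.toFinset_card_of_nodup ((List.nodup_dedup _).filter _)]
    congr 1
    ext q
    simp
  constructor
  · intro h Y hY
    have hsub := List.mem_sublists'.1 hY
    have hYnd : Y.Nodup := hsub.nodup hnd
    have h1 := h Y.toFinset (fun y hy => by
      have := hsub.subset (List.mem_toFinset.1 hy)
      simpa using (List.mem_filter.1 this).2)
    rw [key, List.toFinset_card_of_nodup hYnd] at h1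
    refine le_trans (le_of_eq ?_) h1
    congr 1
    apply List.filter_congr
    intro q _
    simp
  · intro h Y hY
    set L := (List.range (T.1 + T.2.1)).filter (fun y => T.1 ≤ y) with hL
    have hsub : (L.filter (fun y => y ∈ Y)) ∈ L.sublists' :=
      List.mem_sublists'.2 List.filter_sublist
    have h1 := h _ hsub
    rw [key]
    refine le_trans ?_ (h1.trans ?_)
    · apply le_of_eq
      congr 1
      apply List.filter_congr
      intro q hq
      rw [List.mem_dedup] at hq
      rw [decide_eq_decide]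
      constructor
      · intro h2 x hx
        rcases h2 x hx with h3 | h3
        · exact Or.inl h3
        · refine Or.inr (List.mem_filter.2 ⟨List.mem_filter.2 ⟨List.mem_range.2 (hin q hq x hx), ?_⟩, ?_⟩)
          · simpa using hY x h3
          · simpa using h3
      · intro h2 x hx
        rcases h2 x hx with h3 | h3
        · exact Or.inl h3
        · exact Or.inr (by simpa using (List.mem_filter.1 h3).2)
    · have h4 : (L.filter (fun y => y ∈ Y)).Nodup := hnd.filter _
      rw [← List.toFinset_card_of_nodup h4]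
      apply Finset.card_le_card
      intro y hy
      simpa using (List.mem_filter.1 (List.mem_toFinset.1 hy)).2

theorem strong_prim : PrimrecPred fun T : Task =>
    ∀ Y ∈ ((List.range (T.1 + T.2.1)).filter (fun y => T.1 ≤ y)).sublists',
      ((T.2.2.dedup).filter (fun q => ∀ x ∈ q.2, x < T.1 ∨ x ∈ Y)).length ≤ Y.length := by
  have hr : Primrec fun T : Task => List.range (T.1 + T.2.1) :=
    Primrec.list_range.comp (Primrec.nat_add.comp Primrec.fst (Primrec.fst.comp Primrec.snd))
  have hf : Primrec fun T : Task => (List.range (T.1 + T.2.1)).filter (fun y => T.1 ≤ y) :=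
    filterList (f := fun T : Task => List.range (T.1 + T.2.1)) (R := fun T y => T.1 ≤ y) hr
      (Primrec.nat_le.comp₂ (Primrec.fst.comp₂ Primrec₂.left) Primrec₂.right)
  refine forallMem (f := fun T : Task =>
      ((List.range (T.1 + T.2.1)).filter (fun y => T.1 ≤ y)).sublists')
    (R := fun (T : Task) (Y : List ℕ) =>
      ((T.2.2.dedup).filter (fun q => ∀ x ∈ q.2, x < T.1 ∨ x ∈ Y)).length ≤ Y.length)
    (sublists.comp hf) ?_
  refine PrimrecPred.primrecRel (p := fun p : Task × List ℕ =>
    ((p.1.2.2.dedup).filter (fun q => ∀ x ∈ q.2, x < p.1.1 ∨ x ∈ p.2)).length ≤ p.2.length) ?_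
  refine Primrec.nat_le.comp (Primrec.list_length.comp ?_) (Primrec.list_length.comp Primrec.snd)
  refine filterList (f := fun p : Task × List ℕ => p.1.2.2.dedup)
    (R := fun (p : Task × List ℕ) (q : SEdge) => ∀ x ∈ q.2, x < p.1.1 ∨ x ∈ p.2)
    (dedup.comp (Primrec.snd.comp (Primrec.snd.comp Primrec.fst))) ?_
  refine PrimrecPred.primrecRel (p := fun r : (Task × List ℕ) × SEdge =>
    ∀ x ∈ r.2.2, x < r.1.1.1 ∨ x ∈ r.1.2) ?_
  refine forallMem (f := fun r : (Task × List ℕ) × SEdge => r.2.2)
    (R := fun (r : (Task × List ℕ) × SEdge) x => x < r.1.1.1 ∨ x ∈ r.1.2)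
    (Primrec.snd.comp Primrec.snd) ?_
  refine PrimrecPred.primrecRel (p := fun w : ((Task × List ℕ) × SEdge) × ℕ =>
    w.2 < w.1.1.1.1 ∨ w.2 ∈ w.1.1.2) ?_
  refine PrimrecPred.or (Primrec.nat_lt.comp Primrec.snd ?_) (memList Primrec.snd ?_)
  · exact Primrec.fst.comp (Primrec.fst.comp (Primrec.fst.comp Primrec.fst))
  · exact Primrec.snd.comp (Primrec.fst.comp Primrec.fst)

end ValidAux

/-- Validity of tasks is primitive recursive. -/
theorem ValidPrim_proof : S_ValidPrim := by
  have h := ValidAux.wf_prim.and (ValidAux.inside_prim.and (ValidAux.meets_prim.and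
    (ValidAux.kp_prim.and ValidAux.strong_prim)))
  refine h.of_eq fun T => ?_
  constructor
  · rintro ⟨h1, h2, h3, h4, h5⟩
    exact ⟨h1, h2, h3, h4, (ValidAux.strong_iff T h2).2 h5⟩
  · rintro ⟨h1, h2, h3, h4, h5⟩
    exact ⟨h1, h2, h3, h4, (ValidAux.strong_iff T h2).1 h5⟩

end Pool.Agent.Helper367SM
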